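import Pool.Agent.Work.MP_92a29d_co_h36.BMain

/-!
The classification with usual hypotheses.
-/

namespace Pool.Agent.Work.MP_92a29d_co.Ball

open SimpleGraph Finset

theorem tA_twelve {a b : ℕ} (h : tA 12 a b = true) :
    (a + 1) % 12 = b % 12 ∨ (b + 1) % 12 = a % 12 ∨ (a + 6) % 12 = b % 12 := by
  unfold tA at h
  rw [show Nat.beq 12 7 = false from rfl, cond_false] at h
  simp only [Bool.or_eq_true, Nat.beq_eq] at h
  tauto

/-- A graph with 17 vertices and at least 39 edges, without closed walks of length one, three and
five and without independent sets with nine vertices, maps to the cycle of length seven or to the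
Moebius ladder with twelve vertices. -/
theorem classify {V : Type*} [Fintype V] {G : SimpleGraph V} [Fintype G.edgeSet]
    (hV : Fintype.card V = 17) (hw : ∀ (v : V) (p : G.Walk v v), Odd p.length → 5 < p.length)
    (hα : AlphaEight G) (he : 39 ≤ G.edgeFinset.card) :
    (∃ f : V → ZMod 7, CycHom G 7 f) ∨ ∃ f : V → ℕ, (∀ v, f v < 12) ∧
      ∀ u w, G.Adj u w → (f u + 1) % 12 = f w ∨ (f w + 1) % 12 = f u ∨ (f u + 6) % 12 = f w := by
  classical
  have he' : ∀ i : Fintype G.edgeSet, 39 ≤ (@SimpleGraph.edgeFinset V G i).card := by
    intro i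
    have e : ∀ j : Fintype G.edgeSet,
        @SimpleGraph.edgeFinset V G i = @SimpleGraph.edgeFinset V G j := by
      intro j
      rw [Subsingleton.elim i j]
    exact he.trans (le_of_eq (congrArg Finset.card (e _).symm))
  rcases ball_classify hV (odd7_of_walk hw) hα (he' _) with h | ⟨f, hf⟩
  · exact Or.inl h
  · refine Or.inr ⟨fun v => f v % 12, fun v => Nat.mod_lt _ (by norm_num), ?_⟩
    intro u w huw
    rcases tA_twelve (hf u w huw) with h | h | h
    · left; simp only; omega
    · right; left; simp only; omega
    · right; right; simp only; omega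

end Pool.Agent.Work.MP_92a29d_co.Ball
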