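import Pool.Agent.Work.MP_92a29d_co_h36.Pats

/-! Family of instances (generated). -/

namespace Pool.Agent.Work.MP_92a29d_co.Place

open Pool.Agent.Work.MP_92a29d_co_h45

def f4322M_S : Spec where
  K := 9
  cons := [(511, 17, 17), (7, 1, 1), (56, 8, 8), (448, 8, 8), (73, 1, 1), (146, 8, 8), (292, 8, 8), (16, 0, 4), (32, 0, 4), (128, 0, 4), (256, 0, 4)]
  data := [(0, 16777281, 37479099070394009632),
    (1, 1073741889, 37479099070394009632),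
    (2, 68719476801, 37479099070394009568),
    (3, 16781313, 37479099070394009568),
    (4, 4399120257025, 37479099070394009568),
    (5, 281543696191489, 37479099070393976800),
    (6, 17039361, 37479099070377199584),
    (7, 18014399583485953, 37479099061787264992),
    (8, 1152921573326585857, 37479098512029353935)]
  HG := 42163986733316868209
  G := 37479099070394009632
  maps := [[0, 1, 2, 3, 4, 5, 6, 7, 8],
    [0, 2, 1, 3, 5, 4, 6, 8, 7],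
    [0, 1, 2, 6, 7, 8, 3, 4, 5],
    [0, 2, 1, 6, 8, 7, 3, 5, 4]]
  mapsP := [[1099511627776, 34359738368, 1073741824, 33554432, 1048576, 32768, 1024, 32, 1],
    [34359738368, 1099511627776, 1073741824, 1048576, 33554432, 32768, 32, 1024, 1],
    [33554432, 1048576, 32768, 1099511627776, 34359738368, 1073741824, 1024, 32, 1],
    [1048576, 33554432, 32768, 34359738368, 1099511627776, 1073741824, 32, 1024, 1]]
  places := [[0, 8, 8, 8, 8, 7, 7, 7, 7, 5, 5, 5, 5, 4, 4, 4, 4],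
    [2, 6, 8, 8, 8, 7, 7, 7, 7, 5, 5, 5, 5, 4, 4, 4, 4]]
  placesP := [4535623876609, 3437185991680]

def f4322M_T : Spec2 where
  S := f4322M_S
  B := 3
  k := 2
  pats := [([], 17, 17), ([(0, 0)], 1, 1), ([(0, 1)], 8, 8), ([(0, 2)], 8, 8), ([(1, 0)], 1, 1), ([(1, 1)], 8, 8), ([(1, 2)], 8, 8), ([(0, 1), (1, 1)], 0, 4), ([(0, 1), (1, 2)], 0, 4), ([(0, 2), (1, 1)], 0, 4), ([(0, 2), (1, 2)], 0, 4)]
  syms := [([0, 1], [0, 0]), ([0, 1], [0, 1]), ([0, 1], [1, 0]), ([0, 1], [1, 1])]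

def f4322M_cd : List CD := [⟨.lev 4, [(1, 1), (1, 1), (1, 4), (1, 4), (1, 4), (1, 4), (1, 4), (1, 4), (1, 4), (1, 4), (1, 1)], [0, 1, 2, 1, 2, 1, 2, 1, 2, 1, 2]⟩,
  ⟨.lev 3, [(1, 1), (1, 5), (1, 5), (1, 5), (1, 5), (1, 5), (1, 5), (1, 5), (1, 5)], [0, 1, 2, 1, 2, 1, 2, 1, 2]⟩]

def f4322M_m : Fin 4 → ℕ := ![4, 3, 2, 2]

def f4322M_I0 : Inst := { kinds := [.lev 4, .lev 3, .expl 2, .expl 2], lv := [[[0], [2, 4, 6, 8, 10], [2, 4, 6, 8, 10], [2, 4, 6, 8, 10], [2, 4, 6, 8, 10], [2, 4, 6, 8, 10], [2, 4, 6, 8, 10], [2, 4, 6, 8, 10], [2, 4, 6, 8, 10], [1, 3, 5, 7, 9], [1, 3, 5, 7, 9], [1, 3, 5, 7, 9], [1, 3, 5, 7, 9], [1, 3, 5, 7, 9], [1, 3, 5, 7, 9], [1, 3, 5, 7, 9], [1, 3, 5, 7, 9]], [[0], [2, 4, 6, 8], [2, 4, 6, 8], [2, 4, 6, 8], [2, 4, 6, 8], [1, 3, 5, 7], [1, 3, 5, 7], [1, 3, 5, 7], [1, 3, 5, 7], [2, 4, 6, 8], [2, 4, 6, 8], [2, 4, 6, 8], [2, 4,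 6, 8], [1, 3, 5, 7], [1, 3, 5, 7], [1, 3, 5, 7], [1, 3, 5, 7]]], ne := [(0, 1), (0, 2), (0, 3), (0, 4), (0, 5), (0, 6), (0, 7), (0, 8), (0, 9), (0, 10), (1, 1), (1, 2), (1, 3), (1, 4), (1, 5), (1, 6), (1, 7), (1, 8)], size := [(0, 1, 1), (0, 10, 1)], lex := [(1, 2), (2, 3), (3, 4), (5, 6), (6, 7), (7, 8), (9, 10), (10, 11), (11, 12), (13, 14), (14, 15), (15, 16)], five := [(0, 1), (0, 2), (0, 3), (1, 2), (1, 3), (2, 3)], forbid := [] }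

def f4322M_I1 : Inst := { kinds := [.lev 4, .lev 3, .expl 2, .expl 2], lv := [[[0], [2, 4, 6, 8, 10], [2, 4, 6, 8, 10], [2, 4, 6, 8, 10], [2, 4, 6, 8, 10], [2, 4, 6, 8, 10], [2, 4, 6, 8, 10], [2, 4, 6, 8, 10], [2, 4, 6, 8, 10], [1, 3, 5, 7, 9], [1, 3, 5, 7, 9], [1, 3, 5, 7, 9], [1, 3, 5, 7, 9], [1, 3, 5, 7, 9], [1, 3, 5, 7, 9], [1, 3, 5, 7, 9], [1, 3, 5, 7, 9]], [[2, 4, 6, 8], [0], [2, 4, 6, 8], [2, 4, 6, 8], [2, 4, 6, 8], [1, 3, 5, 7], [1, 3, 5, 7], [1, 3, 5, 7], [1, 3, 5, 7], [2, 4, 6, 8], [2, 4, 6, 8], [2, 4, 6, 8], [2, 4, 6, 8], [1, 3, 5, 7], [1, 3, 5, 7], [1, 3, 5, 7], [1, 3, 5, 7]]], ne := [(0, 1), (0, 2), (0, 3), (0, 4), (0, 5), (0, 6), (0, 7), (0, 8), (0, 9), (0, 10), (1, 1), (1, 2), (1, 3), (1, 4), (1, 5), (1, 6), (1, 7), (1, 8)], size := [(0, 1, 1), (0, 10, 1)], lex := [(2, 3), (3, 4), (5, 6), (6, 7), (7, 8), (9, 10), (10, 11), (11,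 12), (13, 14), (14, 15), (15, 16)], five := [(0, 1), (0, 2), (0, 3), (1, 2), (1, 3), (2, 3)], forbid := [] }

theorem f4322M_fam : famB f4322M_T f4322M_cd f4322M_m [] [] [[f4322M_I0], [f4322M_I1]] = true := by decide +kernel

end Pool.Agent.Work.MP_92a29d_co.Place
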