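import Pool.Agent.Work.MP_92a29d_co_h36.Assembly
import Pool.Agent.Work.MP_92a29d_co_h36.F4322M

/-!
(4,3,2,2), the class with `m = 4` has three consecutive single levels and the class with `m = 3`
maps to the cycle of length 9.
-/

namespace Pool.Agent.Work.MP_92a29d_co.Place

open SimpleGraph Finset Pool.Agent.Work.MP_92a29d_co_h45

theorem tuple_4322 : Tuple4 4 3 2 2 :=
  ⟨by norm_num, by norm_num, by norm_num, by norm_num, by unfold Good3; omega⟩

theorem case_4322M {V : Type*} [Fintype V] [DecidableEq V] (hV : Fintype.card V = 17)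
    {G : Fin 4 → SimpleGraph V} (hcov : Cover V ![4, 3, 2, 2] G)
    {f0 : V → ZMod (2 * 4 + 3)} (h0 : CycHom (G 0) (2 * 4 + 3) f0) {j0 : ZMod (2 * 4 + 3)}
    (hj0 : lsize f0 (j0 - 1) = 1 ∧ lsize f0 j0 = 1 ∧ lsize f0 (j0 + 1) = 1)
    {f1 : V → ZMod (2 * 3 + 3)} (h1 : CycHom (G 1) (2 * 3 + 3) f1)
    (hU0 : ∀ M, ¬ IsModel f4322M_I0 M) (hU1 : ∀ M, ¬ IsModel f4322M_I1 M) : False := by
  have hα := tuple_4322.alphaEight hcov
  obtain ⟨j1, hj1, _⟩ := profile_three hV h1 (hα 1)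
  have hc0 := clsOK_mid hV h0 (hα 0) hj0
  have hc1 := clsOK_gen hV h1 (hα 1) hj1
  have hconf := Conf.of_two (m := ![4, 3, 2, 2]) (rel := []) hcov hc0 hc1 (by simp)
  have hcd : [genCD 4 true, genCD 3 false] = f4322M_cd := by decide +kernel
  rw [hcd] at hconf
  obtain ⟨Is, hIs, I, hI, M, hM⟩ := Conf.exists_inst f4322M_fam hV hconf hα (by simp)
  simp only [List.mem_cons, List.not_mem_nil, or_false] at hIs
  rcases hIs with rfl | rfl
  · rw [List.mem_singleton] at hI
    subst hI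
    exact hU0 M hM
  · rw [List.mem_singleton] at hI
    subst hI
    exact hU1 M hM

end Pool.Agent.Work.MP_92a29d_co.Place
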