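import Pool.Agent.Work.MP_92a29d_co_h36.Assembly
import Pool.Agent.Work.MP_92a29d_co_h36.C4322M
import Pool.Agent.Work.MP_92a29d_co_h36.G4322M

/-!
(4,3,2,2), the class with `m = 4` has three consecutive single levels; this is the only coded class.
-/

namespace Pool.Agent.Work.MP_92a29d_co.Place

open SimpleGraph Finset Pool.Agent.Work.MP_92a29d_co_h45

variable {V : Type*} [Fintype V] [DecidableEq V]

/-- labels of one class -/
def xs1 (X0 : V → ℕ) : ℕ → V → ℕ := fun _ => X0

theorem Conf.of_one {c0 : CD} {m : Fin 4 → ℕ} {G : Fin 4 → SimpleGraph V} {X0 : V → ℕ}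
    (hcov : Cover V m G) (h0 : ClsOK c0 (G 0) X0) : Conf [c0] m [] G (xs1 X0) := by
  refine Conf.of_classes hcov (by simp) ?_ (by simp)
  intro i hi
  have hi' : i.val < 1 := hi
  have : i = 0 := Fin.ext (by simpa using hi')
  subst this
  exact h0

theorem g4322M_c0_gen : genCD 4 true = g4322M_c0 := by decide +kernel

theorem g4322M_zero : ∀ a < 11, g4322M_c0.d a = 0 → a = 0 := by decide

theorem card_zero_g4322M {X : V → ℕ} {G : SimpleGraph V} (h : ClsOK g4322M_c0 G X) :
    (univ.filter fun u => g4322M_c0.d (X u) = 0).card = 1 := by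
  have e1 : (univ.filter fun u => g4322M_c0.d (X u) = 0) = univ.filter fun u => X u = 0 := by
    apply Finset.filter_congr
    intro u _
    constructor
    · intro h1
      exact g4322M_zero _ (h.lt u) h1
    · intro h1
      rw [h1]
      rfl
  rw [e1]
  have h2 := h.bds 0 (by decide)
  have h3 : g4322M_c0.lo 0 = 1 := by decide
  have h4 : g4322M_c0.hi 0 = 1 := by decide
  rw [h3, h4] at h2
  omega

theorem case_4322M' (hV : Fintype.card V = 17)
    {G : Fin 4 → SimpleGraph V} (hcov : Cover V ![4, 3, 2, 2] G)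
    {f0 : V → ZMod (2 * 4 + 3)} (h0 : CycHom (G 0) (2 * 4 + 3) f0) {j0 : ZMod (2 * 4 + 3)}
    (hj0 : lsize f0 (j0 - 1) = 1 ∧ lsize f0 j0 = 1 ∧ lsize f0 (j0 + 1) = 1)
    (hU : ∀ M, ¬ IsModelX g4322M_J0 M) : False := by
  have hα := tuple_4322.alphaEight hcov
  have hc0 := clsOK_mid hV h0 (hα 0) hj0
  rw [g4322M_c0_gen] at hc0
  have hconf := Conf.of_one (m := ![4, 3, 2, 2]) hcov hc0
  obtain ⟨Is, hIs, J, hJ, M, hM⟩ := Conf.exists_instOne g4322M_fam hV hconf hα
    (card_zero_g4322M hc0)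
  rw [List.mem_singleton] at hIs
  subst hIs
  rw [List.mem_singleton] at hJ
  subst hJ
  exact hU M hM

end Pool.Agent.Work.MP_92a29d_co.Place
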