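import Pool.Agent.Work.MP_92a29d_co_h36.Excl

/-! Family of instances (generated). -/

namespace Pool.Agent.Work.MP_92a29d_co.Place

open Pool.Agent.Work.MP_92a29d_co_h45

def f7521_S : Spec where
  K := 9
  cons := [(511, 17, 17), (7, 1, 1), (56, 8, 8), (448, 8, 8), (73, 1, 1), (146, 8, 8), (292, 8, 8), (16, 0, 4), (32, 0, 4), (128, 0, 4), (256, 0, 4), (2, 0, 0), (4, 0, 0), (8, 0, 0), (64, 0, 0)]
  data := [(0, 16777281, 628794940589399504710666272),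
    (1, 73786976295911948353, 628794940589399504710666272),
    (2, 4722366482938364690497, 628794940589399504710666208),
    (3, 302231454903657310457857, 628794940589399504710666208),
    (4, 4399120257025, 628794940589399504710666208),
    (5, 281543696191489, 628794940589399504710633440),
    (6, 19342813113834066812338177, 628794940589399504693856224),
    (7, 18014399583485953, 628794940589399496103921632),
    (8, 1152921573326585857, 628794940589398946346010575)]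
  HG := 628794945274287167633524849
  G := 628794940589399504710666272
  maps := [[0, 1, 2, 3, 4, 5, 6, 7, 8],
    [0, 2, 1, 3, 5, 4, 6, 8, 7],
    [0, 1, 2, 6, 7, 8, 3, 4, 5],
    [0, 2, 1, 6, 8, 7, 3, 5, 4]]
  mapsP := [[1099511627776, 34359738368, 1073741824, 33554432, 1048576, 32768, 1024, 32, 1],
    [34359738368, 1099511627776, 1073741824, 1048576, 33554432, 32768, 32, 1024, 1],
    [33554432, 1048576, 32768, 1099511627776, 34359738368, 1073741824, 1024, 32, 1],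
    [1048576, 33554432, 32768, 34359738368, 1099511627776, 1073741824, 32, 1024, 1]]
  places := [[0, 4, 4, 4, 4, 5, 5, 5, 5, 7, 7, 7, 7, 8, 8, 8, 8]]
  placesP := [4535623876609]

def f7521_T : Spec2 where
  S := f7521_S
  B := 3
  k := 2
  pats := [([], 17, 17), ([(0, 0)], 1, 1), ([(0, 1)], 8, 8), ([(0, 2)], 8, 8), ([(1, 0)], 1, 1), ([(1, 1)], 8, 8), ([(1, 2)], 8, 8), ([(0, 1), (1, 1)], 0, 4), ([(0, 1), (1, 2)], 0, 4), ([(0, 2), (1, 1)], 0, 4), ([(0, 2), (1, 2)], 0, 4), ([(0, 0), (1, 1)], 0, 0), ([(0, 0), (1, 2)], 0, 0), ([(1, 0), (0, 1)], 0, 0), ([(1, 0), (0, 2)], 0, 0)]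
  syms := [([0, 1], [0, 0]), ([0, 1], [0, 1]), ([0, 1], [1, 0]), ([0, 1], [1, 1])]

def f7521_cd : List CD := [⟨.lev 7, [(1, 1), (1, 1), (1, 1), (1, 1), (1, 1), (1, 1), (1, 1), (1, 1), (1, 1), (1, 1), (1, 1), (1, 1), (1, 1), (1, 1), (1, 1), (1, 1), (1, 1)], [0, 1, 2, 1, 2, 1, 2, 1, 2, 1, 2, 1, 2, 1, 2, 1, 2]⟩,
  ⟨.lev 5, [(1, 1), (1, 1), (1, 1), (1, 3), (1, 3), (1, 3), (1, 3), (1, 3), (1, 3), (1, 3), (1, 3), (1, 1), (1, 1)], [0, 1, 2, 1, 2, 1, 2, 1, 2, 1, 2, 1, 2]⟩]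

def f7521_m : Fin 4 → ℕ := ![7, 5, 2, 1]

def f7521_I0 : Inst := { kinds := [.lev 7, .lev 5, .expl 2, .expl 1], lv := [[[0], [1, 3, 5, 7, 9, 11, 13, 15], [1, 3, 5, 7, 9, 11, 13, 15], [1, 3, 5, 7, 9, 11, 13, 15], [1, 3, 5, 7, 9, 11, 13, 15], [1, 3, 5, 7, 9, 11, 13, 15], [1, 3, 5, 7, 9, 11, 13, 15], [1, 3, 5, 7, 9, 11, 13, 15], [1, 3, 5, 7, 9, 11, 13, 15], [2, 4, 6, 8, 10, 12, 14, 16], [2, 4, 6, 8, 10, 12, 14, 16], [2, 4, 6, 8, 10, 12, 14, 16], [2, 4, 6, 8, 10, 12, 14, 16], [2, 4, 6, 8, 10, 12, 14, 16], [2, 4, 6, 8, 10, 12, 14, 16], [2, 4, 6, 8, 10, 12, 14, 16], [2, 4, 6, 8, 10, 12, 14, 16]], [[0], [1, 3, 5, 7, 9, 11], [1, 3, 5, 7, 9, 11], [1, 3, 5, 7, 9, 11], [1, 3, 5, 7, 9, 11], [2, 4, 6, 8, 10, 12], [2, 4, 6, 8, 10, 12], [2, 4, 6, 8, 10, 12], [2, 4, 6, 8, 10, 12], [1, 3, 5, 7, 9, 11], [1, 3, 5, 7, 9, 11], [1, 3, 5, 7, 9, 11], [1, 3, 5, 7, 9, 11], [2, 4, 6,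 8, 10, 12], [2, 4, 6, 8, 10, 12], [2, 4, 6, 8, 10, 12], [2, 4, 6, 8, 10, 12]]], ne := [(0, 1), (0, 2), (0, 3), (0, 4), (0, 5), (0, 6), (0, 7), (0, 8), (0, 9), (0, 10), (0, 11), (0, 12), (0, 13), (0, 14), (0, 15), (0, 16), (1, 1), (1, 2), (1, 3), (1, 4), (1, 5), (1, 6), (1, 7), (1, 8), (1, 9), (1, 10), (1, 11), (1, 12)], size := [(0, 1, 1), (0, 2, 1), (0, 3, 1), (0, 4, 1), (0, 5, 1), (0, 6, 1), (0, 7, 1), (0, 8, 1), (0, 9, 1), (0, 10, 1), (0, 11, 1), (0, 12, 1), (0, 13, 1), (0, 14, 1), (0, 15, 1), (0, 16, 1), (1, 1, 1), (1, 2, 1), (1, 11, 1), (1, 12, 1)], lex := [(1, 2), (2, 3), (3, 4), (5, 6), (6, 7), (7, 8), (9, 10), (10, 11), (11, 12), (13, 14), (14, 15), (15, 16)], five := [(0, 1)], forbid := [(0, 5, 1), (0, 6, 1), (0, 7, 1), (0, 8, 1)] }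

theorem f7521_fam : famE f7521_T f7521_cd f7521_m [(0, 1, 0), (1, 0, 0)] [] [[(f7521_I0, [(0, 1, 1, 2)])]] = true := by decide +kernel

end Pool.Agent.Work.MP_92a29d_co.Place
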