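import Pool.Agent.Work.MP_92a29d_co_h36.Assembly
import Pool.Agent.Work.MP_92a29d_co_h36.F7521
import Pool.Agent.Work.MP_92a29d_co_h36.F6621

/-!
(7,5,2,1) and (6,6,2,1): reduction to one instance each.
-/

namespace Pool.Agent.Work.MP_92a29d_co.Place

open SimpleGraph Finset Pool.Agent.Work.MP_92a29d_co_h45

theorem tuple_7521 : Tuple4 7 5 2 1 :=
  ⟨by norm_num, by norm_num, by norm_num, by norm_num, by unfold Good3; omega⟩

theorem tuple_6621 : Tuple4 6 6 2 1 :=
  ⟨by norm_num, by norm_num, by norm_num, by norm_num, by unfold Good3; omega⟩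

section

variable {V : Type*} [Fintype V] [DecidableEq V]

omit [DecidableEq V] in
/-- the only vertex on a single level -/
theorem exists_of_single {L : ℕ} {f : V → ZMod L} {j : ZMod L} (h : lsize f j = 1) :
    ∃ v, f v = j ∧ ∀ u, f u = j → u = v := by
  classical
  rw [lsize_eq, Finset.card_eq_one] at h
  obtain ⟨v, hv⟩ := h
  refine ⟨v, ?_, ?_⟩
  · have : v ∈ univ.filter fun u => f u = j := by rw [hv]; exact mem_singleton_self v
    exact (mem_filter.1 this).2
  · intro u hu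
    have : u ∈ univ.filter fun u => f u = j := mem_filter.2 ⟨mem_univ _, hu⟩
    rw [hv] at this
    exact mem_singleton.1 this

theorem cd7_zero : ∀ a < 17, (cdAt f7521_cd 0).d a = 0 → a = 0 := by decide
theorem cd5_zero : ∀ a < 13, (cdAt f7521_cd 1).d a = 0 → a = 0 := by decide
theorem cd7_bd : ∀ a < 17, (cdAt f7521_cd 0).lo a = 1 ∧ (cdAt f7521_cd 0).hi a = 1 := by decide
theorem cd5_bd : ∀ a < 13, (cdAt f7521_cd 1).lo a = 1 ∧ (cdAt f7521_cd 1).hi a =
    if a ≤ 2 ∨ 11 ≤ a then 1 else 3 := by decide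
theorem cd6_zero : ∀ i < 2, ∀ a < 15, (cdAt f6621_cd i).d a = 0 → a = 0 := by decide
theorem cd6_bd : ∀ i < 2, ∀ a < 15, (cdAt f6621_cd i).lo a = 1 ∧ (cdAt f6621_cd i).hi a =
    if a ≤ 2 ∨ 13 ≤ a then 1 else 2 := by decide

theorem val_eq_zero_iff' {L : ℕ} [NeZero L] {x y : ZMod L} : (x - y).val = 0 ↔ x = y := by
  rw [ZMod.val_eq_zero, sub_eq_zero]

/-- (7,5,2,1) -/
theorem cover_7521 (hV : Fintype.card V = 17) {G : Fin 4 → SimpleGraph V}
    (hcov : Cover V ![7, 5, 2, 1] G) : ∃ M, IsModel f7521_I0 M := by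
  have hα := tuple_7521.alphaEight hcov
  obtain ⟨f0, h0⟩ := cycHom_of_four_le hV (m := 7) (by norm_num) (hα 0)
    (fun v p hp => hcov.girth 0 v p hp)
  obtain ⟨f1, h1⟩ := cycHom_of_four_le hV (m := 5) (by norm_num) (hα 1)
    (fun v p hp => hcov.girth 1 v p hp)
  obtain ⟨j, hj⟩ := exists_singles hV h1 (hα 1) 5 (by norm_num)
  have hj2 := hj 2 (by norm_num)
  obtain ⟨v, hv, hvu⟩ := exists_of_single hj2
  have hs0 := lsize_seven hV h0 (hα 0)
  obtain ⟨v', hv', hvu'⟩ := exists_of_single (hs0 (f0 v))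
  have hvv : v = v' := hvu' v rfl
  subst hvv
  have hc0 : ClsOK (cdAt f7521_cd 0) (G 0) (fun u => (f0 u - f0 v).val) := by
    refine clsOK_level h0 (f0 v) rfl rfl ?_
    intro a ha
    rw [(cd7_bd a ha).1, (cd7_bd a ha).2, hs0]
    exact ⟨le_rfl, le_rfl⟩
  have hc1 : ClsOK (cdAt f7521_cd 1) (G 1) (fun u => (f1 u - (j + (2 : ℕ))).val) := by
    refine clsOK_level h1 (j + (2 : ℕ)) rfl rfl ?_
    intro a ha
    rw [(cd5_bd a ha).1, (cd5_bd a ha).2]
    have hb := lsize_bounds hV h1 (hα 1) (j + (2 : ℕ) + a)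
    refine ⟨hb.1, ?_⟩
    split
    · rename_i h
      rcases h with h | h
      · have e : j + ((2 : ℕ) : ZMod (2 * 5 + 3)) + (a : ZMod (2 * 5 + 3)) =
            j + ((2 + a : ℕ) : ZMod (2 * 5 + 3)) := by
          push_cast; ring
        rw [e, hj (2 + a) (by omega)]
      · have h13 : ((13 : ℕ) : ZMod (2 * 5 + 3)) = 0 := ZMod.natCast_self _
        have e : j + ((2 : ℕ) : ZMod (2 * 5 + 3)) + (a : ZMod (2 * 5 + 3)) =
            j + ((a - 11 : ℕ) : ZMod (2 * 5 + 3)) := by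
          obtain ⟨b, rfl⟩ := Nat.exists_eq_add_of_le h
          rw [Nat.add_sub_cancel_left]
          push_cast
          have h13' : (13 : ZMod (2 * 5 + 3)) = 0 := h13
          linear_combination h13'
        rw [e, hj (a - 11) (by omega)]
    · have := hb.2
      omega
  have hconf := Conf.of_two (m := ![7, 5, 2, 1]) (rel := [(0, 1, 0), (1, 0, 0)]) hcov hc0 hc1 (by
    intro r hr u hu
    simp only [List.mem_cons, List.not_mem_nil, or_false] at hr
    rcases hr with rfl | rfl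
    · have h2 := cd7_zero _ (ZMod.val_lt (f0 u - f0 v)) hu
      rw [val_eq_zero_iff'] at h2
      change (f1 u - (j + ((2 : ℕ) : ZMod (2 * 5 + 3)))).val = 0
      rw [hvu' u h2, hv, sub_self, ZMod.val_zero]
    · have h2 := cd5_zero _ (ZMod.val_lt (f1 u - (j + ((2 : ℕ) : ZMod (2 * 5 + 3))))) hu
      rw [val_eq_zero_iff'] at h2
      change (f0 u - f0 v).val = 0
      rw [hvu u h2, sub_self, ZMod.val_zero])
  obtain ⟨Is, hIs, I, hI, M, hM⟩ := Conf.exists_instE f7521_fam hV hconf hα (by simp)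
  rw [List.mem_singleton] at hIs
  subst hIs
  rw [List.mem_singleton] at hI
  subst hI
  exact ⟨M, hM⟩

open Classical in
/-- the vertices whose level is in the middle of the thirteen single levels -/
theorem card_not_mid {f : V → ZMod (2 * 6 + 3)} {j : ZMod (2 * 6 + 3)}
    (h1 : ∀ s : ℕ, s < 13 → lsize f (j + s) = 1) (h2 : lsize f (j + 13) = 2)
    (h3 : lsize f (j + 14) = 2) :
    (univ.filter fun v => ¬ ∃ s : ℕ, 2 ≤ s ∧ s ≤ 10 ∧ f v = j + s).card ≤ 8 := by
  classical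
  have hsub : (univ.filter fun v => ¬ ∃ s : ℕ, 2 ≤ s ∧ s ≤ 10 ∧ f v = j + s) ⊆
      ({0, 1, 11, 12, 13, 14} : Finset ℕ).biUnion fun s => univ.filter fun v => f v = j + s := by
    intro v hv
    rw [mem_filter] at hv
    have h4 : f v = j + ((f v - j).val : ZMod (2 * 6 + 3)) := by
      rw [ZMod.natCast_zmod_val]; ring
    have h5 := ZMod.val_lt (f v - j)
    rw [mem_biUnion]
    refine ⟨(f v - j).val, ?_, mem_filter.2 ⟨mem_univ _, h4⟩⟩
    have h6 : ¬ (2 ≤ (f v - j).val ∧ (f v - j).val ≤ 10) := fun h => hv.2 ⟨_, h.1, h.2, h4⟩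
    simp only [mem_insert, mem_singleton]
    omega
  refine (Finset.card_le_card hsub).trans (Finset.card_biUnion_le.trans ?_)
  have e : ∀ s : ℕ, (univ.filter fun v => f v = j + (s : ZMod (2 * 6 + 3))).card =
      lsize f (j + s) := fun s => (lsize_eq f _).symm
  simp only [e]
  have h4 : lsize f (j + ((13 : ℕ) : ZMod (2 * 6 + 3))) = 2 := h2
  have h5 : lsize f (j + ((14 : ℕ) : ZMod (2 * 6 + 3))) = 2 := h3
  rw [Finset.sum_insert (by decide), Finset.sum_insert (by decide), Finset.sum_insert (by decide),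
    Finset.sum_insert (by decide), Finset.sum_insert (by decide), Finset.sum_singleton,
    h1 0 (by norm_num), h1 1 (by norm_num), h1 11 (by norm_num), h1 12 (by norm_num), h4, h5]
  norm_num

/-- the class data of a class with `m = 6` counted from a middle vertex -/
theorem clsOK_six {G : SimpleGraph V} {f : V → ZMod (2 * 6 + 3)} (hf : CycHom G (2 * 6 + 3) f)
    {j : ZMod (2 * 6 + 3)} (h1 : ∀ s : ℕ, s < 13 → lsize f (j + s) = 1)
    (h2 : lsize f (j + 13) = 2) (h3 : lsize f (j + 14) = 2) {s : ℕ} (hs : 2 ≤ s) (hs2 : s ≤ 10)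
    (i : ℕ) (hi : i < 2) :
    ClsOK (cdAt f6621_cd i) G (fun u => (f u - (j + s)).val) := by
  have hk : (cdAt f6621_cd i).kind = .lev 6 := by
    interval_cases i <;> rfl
  have hn : (cdAt f6621_cd i).n = 2 * 6 + 3 := by
    interval_cases i <;> rfl
  refine clsOK_level hf (j + s) hk hn ?_
  intro a ha
  rw [(cd6_bd i hi a ha).1, (cd6_bd i hi a ha).2]
  have h15 : ((15 : ℕ) : ZMod (2 * 6 + 3)) = 0 := ZMod.natCast_self _
  have h15' : (15 : ZMod (2 * 6 + 3)) = 0 := h15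
  rcases Nat.lt_or_ge (s + a) 13 with h | h
  · have e : j + (s : ZMod (2 * 6 + 3)) + (a : ZMod (2 * 6 + 3)) =
        j + ((s + a : ℕ) : ZMod (2 * 6 + 3)) := by push_cast; ring
    rw [e, h1 _ h]
    refine ⟨le_rfl, ?_⟩
    split <;> norm_num
  · rcases Nat.lt_or_ge (s + a) 15 with h' | h'
    · have h4 : s + a = 13 ∨ s + a = 14 := by omega
      have e : j + (s : ZMod (2 * 6 + 3)) + (a : ZMod (2 * 6 + 3)) =
          j + ((s + a : ℕ) : ZMod (2 * 6 + 3)) := by push_cast; ring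
      have h5 : lsize f (j + ((s + a : ℕ) : ZMod (2 * 6 + 3))) = 2 := by
        rcases h4 with h4 | h4
        · rw [h4]; exact h2
        · rw [h4]; exact h3
      rw [e, h5, if_neg (by omega)]
      norm_num
    · have e : j + (s : ZMod (2 * 6 + 3)) + (a : ZMod (2 * 6 + 3)) =
          j + ((s + a - 15 : ℕ) : ZMod (2 * 6 + 3)) := by
        obtain ⟨b, hb⟩ := Nat.exists_eq_add_of_le h'
        rw [hb, Nat.add_sub_cancel_left]
        have h6 : ((s + a : ℕ) : ZMod (2 * 6 + 3)) = ((15 + b : ℕ) : ZMod (2 * 6 + 3)) := by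
          rw [hb]
        push_cast at h6
        linear_combination h6 + h15'
      rw [e, h1 _ (by omega)]
      refine ⟨le_rfl, ?_⟩
      split <;> norm_num

/-- (6,6,2,1) -/
theorem cover_6621 (hV : Fintype.card V = 17) {G : Fin 4 → SimpleGraph V}
    (hcov : Cover V ![6, 6, 2, 1] G) : ∃ M, IsModel f6621_I0 M := by
  classical
  have hα := tuple_6621.alphaEight hcov
  obtain ⟨f0, h0⟩ := cycHom_of_four_le hV (m := 6) (by norm_num) (hα 0)
    (fun v p hp => hcov.girth 0 v p hp)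
  obtain ⟨f1, h1⟩ := cycHom_of_four_le hV (m := 6) (by norm_num) (hα 1)
    (fun v p hp => hcov.girth 1 v p hp)
  obtain ⟨j, a1, a2, a3⟩ := profile_six hV h0 (hα 0)
  obtain ⟨k, b1, b2, b3⟩ := profile_six hV h1 (hα 1)
  have hn0 := card_not_mid a1 a2 a3
  have hn1 := card_not_mid b1 b2 b3
  obtain ⟨v, hv0, hv1⟩ : ∃ v, (∃ s : ℕ, 2 ≤ s ∧ s ≤ 10 ∧ f0 v = j + s) ∧
      ∃ s : ℕ, 2 ≤ s ∧ s ≤ 10 ∧ f1 v = k + s := by
    by_contra hcon
    push Not at hcon
    have h2 : (univ : Finset V) ⊆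
        (univ.filter fun v => ¬ ∃ s : ℕ, 2 ≤ s ∧ s ≤ 10 ∧ f0 v = j + s) ∪
        (univ.filter fun v => ¬ ∃ s : ℕ, 2 ≤ s ∧ s ≤ 10 ∧ f1 v = k + s) := by
      intro v _
      rw [mem_union, mem_filter, mem_filter]
      by_cases h : ∃ s : ℕ, 2 ≤ s ∧ s ≤ 10 ∧ f0 v = j + s
      · right
        refine ⟨mem_univ _, ?_⟩
        rintro ⟨s, h3, h4, h5⟩
        exact hcon v h s h3 h4 h5
      · left
        exact ⟨mem_univ _, h⟩
    have h3 := (Finset.card_le_card h2).trans (Finset.card_union_le _ _)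
    rw [Finset.card_univ, hV] at h3
    omega
  obtain ⟨s, hs1, hs2, hs⟩ := hv0
  obtain ⟨t, ht1, ht2, ht⟩ := hv1
  have hc0 := clsOK_six h0 a1 a2 a3 hs1 hs2 0 (by norm_num)
  have hc1 := clsOK_six h1 b1 b2 b3 ht1 ht2 1 (by norm_num)
  obtain ⟨v0, hv0, hu0⟩ := exists_of_single (a1 s (by omega))
  obtain ⟨v1, hv1, hu1⟩ := exists_of_single (b1 t (by omega))
  have e0 := hu0 v hs
  have e1 := hu1 v ht
  subst e0
  subst e1
  have hconf := Conf.of_two (m := ![6, 6, 2, 1]) (rel := [(0, 1, 0), (1, 0, 0)]) hcov hc0 hc1 (by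
    intro r hr u hu
    simp only [List.mem_cons, List.not_mem_nil, or_false] at hr
    rcases hr with rfl | rfl
    · have h2 := cd6_zero 0 (by norm_num) _
        (ZMod.val_lt (f0 u - (j + (s : ZMod (2 * 6 + 3))))) hu
      rw [val_eq_zero_iff'] at h2
      change (f1 u - (k + (t : ZMod (2 * 6 + 3)))).val = 0
      rw [hu0 u h2, hv1, sub_self, ZMod.val_zero]
    · have h2 := cd6_zero 1 (by norm_num) _
        (ZMod.val_lt (f1 u - (k + (t : ZMod (2 * 6 + 3))))) hu
      rw [val_eq_zero_iff'] at h2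
      change (f0 u - (j + (s : ZMod (2 * 6 + 3)))).val = 0
      rw [hu1 u h2, hv0, sub_self, ZMod.val_zero])
  obtain ⟨Is, hIs, I, hI, M, hM⟩ := Conf.exists_instE f6621_fam hV hconf hα (by simp)
  rw [List.mem_singleton] at hIs
  subst hIs
  rw [List.mem_singleton] at hI
  subst hI
  exact ⟨M, hM⟩

end

end Pool.Agent.Work.MP_92a29d_co.Place
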