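import Pool.Agent.Work.MP_92a29d_co_h36.CG4322P
import Pool.Agent.Work.MP_92a29d_cert.g4322M_J0.Fin
import Pool.Agent.Work.MP_92a29d_cert.g4322P_J0.Fin

/-!
(4,3,2,2) cannot be avoided on 17 vertices.
-/

namespace Pool.Agent.Work.MP_92a29d_co.Place

theorem not_avoid_4322 : ¬ Avoid (Fin 17) ![4, 3, 2, 2] := by
  intro h
  obtain ⟨G, hG⟩ := avoid_iff_cover.1 h
  exact case_4322 (by simp) hG (fun _ => Pool.Agent.Work.MP_92a29d_cert.g4322M_J0.unsat)
    (fun _ => Pool.Agent.Work.MP_92a29d_cert.g4322P_J0.unsat)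

end Pool.Agent.Work.MP_92a29d_co.Place
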