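import Pool.Agent.Work.MP_92a29d_co_h36.C4431MM
import Pool.Agent.Work.MP_92a29d_cert.h4431PP0_J0.Fin
import Pool.Agent.Work.MP_92a29d_cert.h4431PP1_J0.Fin
import Pool.Agent.Work.MP_92a29d_cert.h4431PP2_J0.Fin
import Pool.Agent.Work.MP_92a29d_cert.h4431PP3_J0.Fin
import Pool.Agent.Work.MP_92a29d_cert.h4431PP4_J0.Fin
import Pool.Agent.Work.MP_92a29d_cert.h4431PP5_J0.Fin
import Pool.Agent.Work.MP_92a29d_cert.h4431MP0_J0.Fin
import Pool.Agent.Work.MP_92a29d_cert.h4431MP1_J0.Fin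
import Pool.Agent.Work.MP_92a29d_cert.h4431MP2_J0.Fin
import Pool.Agent.Work.MP_92a29d_cert.h4431MP3_J0.Fin
import Pool.Agent.Work.MP_92a29d_cert.h4431MP4_J0.Fin
import Pool.Agent.Work.MP_92a29d_cert.h4431MP5_J0.Fin
import Pool.Agent.Work.MP_92a29d_cert.g4431E1_J0.Fin
import Pool.Agent.Work.MP_92a29d_cert.g4431E2_J0.Fin
import Pool.Agent.Work.MP_92a29d_cert.g4431N1_J0.Fin
import Pool.Agent.Work.MP_92a29d_cert.g4431N3_J0.Fin
import Pool.Agent.Work.MP_92a29d_cert.g4431N5_J0.Fin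
import Pool.Agent.Work.MP_92a29d_cert.g4431N7_J0.Fin
import Pool.Agent.Work.MP_92a29d_cert.g4431N9_J0.Fin

/-!
(4,4,3,1) cannot be avoided on 17 vertices.
-/

namespace Pool.Agent.Work.MP_92a29d_co.Place

open Pool.Agent.Work.MP_92a29d_co_h45

theorem all_4431 : ∀ J ∈ [h4431PP0_J0, h4431PP1_J0, h4431PP2_J0, h4431PP3_J0, h4431PP4_J0,
    h4431PP5_J0, h4431MP0_J0, h4431MP1_J0, h4431MP2_J0, h4431MP3_J0, h4431MP4_J0, h4431MP5_J0],
    ∀ M, ¬ IsModelX J M := by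
  intro J hJ
  simp only [List.mem_cons, List.not_mem_nil, or_false] at hJ
  rcases hJ with rfl | rfl | rfl | rfl | rfl | rfl | rfl | rfl | rfl | rfl | rfl | rfl
  · exact fun _ => Pool.Agent.Work.MP_92a29d_cert.h4431PP0_J0.unsat
  · exact fun _ => Pool.Agent.Work.MP_92a29d_cert.h4431PP1_J0.unsat
  · exact fun _ => Pool.Agent.Work.MP_92a29d_cert.h4431PP2_J0.unsat
  · exact fun _ => Pool.Agent.Work.MP_92a29d_cert.h4431PP3_J0.unsat
  · exact fun _ => Pool.Agent.Work.MP_92a29d_cert.h4431PP4_J0.unsat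
  · exact fun _ => Pool.Agent.Work.MP_92a29d_cert.h4431PP5_J0.unsat
  · exact fun _ => Pool.Agent.Work.MP_92a29d_cert.h4431MP0_J0.unsat
  · exact fun _ => Pool.Agent.Work.MP_92a29d_cert.h4431MP1_J0.unsat
  · exact fun _ => Pool.Agent.Work.MP_92a29d_cert.h4431MP2_J0.unsat
  · exact fun _ => Pool.Agent.Work.MP_92a29d_cert.h4431MP3_J0.unsat
  · exact fun _ => Pool.Agent.Work.MP_92a29d_cert.h4431MP4_J0.unsat
  · exact fun _ => Pool.Agent.Work.MP_92a29d_cert.h4431MP5_J0.unsat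

theorem not_avoid_4431 : ¬ Avoid (Fin 17) ![4, 4, 3, 1] := by
  intro h
  obtain ⟨G, hG⟩ := avoid_iff_cover.1 h
  exact case_4431_all (by simp) hG all_4431
    (fun _ => Pool.Agent.Work.MP_92a29d_cert.g4431E1_J0.unsat)
    (fun _ => Pool.Agent.Work.MP_92a29d_cert.g4431E2_J0.unsat)
    (fun _ => Pool.Agent.Work.MP_92a29d_cert.g4431N1_J0.unsat)
    (fun _ => Pool.Agent.Work.MP_92a29d_cert.g4431N3_J0.unsat)
    (fun _ => Pool.Agent.Work.MP_92a29d_cert.g4431N5_J0.unsat)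
    (fun _ => Pool.Agent.Work.MP_92a29d_cert.g4431N7_J0.unsat)
    (fun _ => Pool.Agent.Work.MP_92a29d_cert.g4431N9_J0.unsat)

end Pool.Agent.Work.MP_92a29d_co.Place
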