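import Pool.Agent.Work.MP_92a29d_co_h36.C7331
import Pool.Agent.Work.MP_92a29d_cert.g7331x1_J0.Fin
import Pool.Agent.Work.MP_92a29d_cert.g7331x2_J0.Fin

/-!
(7,3,3,1) cannot be avoided on 17 vertices.
-/

namespace Pool.Agent.Work.MP_92a29d_co.Place

theorem not_avoid_7331 : ¬ Avoid (Fin 17) ![7, 3, 3, 1] := by
  intro h
  obtain ⟨G, hG⟩ := avoid_iff_cover.1 h
  exact case_7331 (by simp) hG (fun _ => Pool.Agent.Work.MP_92a29d_cert.g7331x1_J0.unsat)
    (fun _ => Pool.Agent.Work.MP_92a29d_cert.g7331x2_J0.unsat)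

end Pool.Agent.Work.MP_92a29d_co.Place
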