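import Pool.Agent.Work.MP_92a29d_co_h36.CPairs
import Pool.Agent.Work.MP_92a29d_cert.f7521_I0.Fin
import Pool.Agent.Work.MP_92a29d_cert.f6621_I0.Fin

/-!
(7,5,2,1) and (6,6,2,1) cannot be avoided on 17 vertices.
-/

namespace Pool.Agent.Work.MP_92a29d_co.Place

theorem not_avoid_7521 : ¬ Avoid (Fin 17) ![7, 5, 2, 1] := by
  intro h
  obtain ⟨G, hG⟩ := avoid_iff_cover.1 h
  obtain ⟨M, hM⟩ := cover_7521 (by simp) hG
  exact Pool.Agent.Work.MP_92a29d_cert.f7521_I0.unsat hM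

theorem not_avoid_6621 : ¬ Avoid (Fin 17) ![6, 6, 2, 1] := by
  intro h
  obtain ⟨G, hG⟩ := avoid_iff_cover.1 h
  obtain ⟨M, hM⟩ := cover_6621 (by simp) hG
  exact Pool.Agent.Work.MP_92a29d_cert.f6621_I0.unsat hM

end Pool.Agent.Work.MP_92a29d_co.Place
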