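import Pool.Agent.Work.MP_92a29d_co_h36.Bridge

/-!
Assembly tools: two or three coded classes.
-/

namespace Pool.Agent.Work.MP_92a29d_co.Place

open SimpleGraph Finset Pool.Agent.Work.MP_92a29d_co_h45

section

variable {V : Type*} [Fintype V] [DecidableEq V]

/-- labels of three classes -/
def xs (X0 X1 X2 : V → ℕ) : ℕ → V → ℕ
  | 0 => X0
  | 1 => X1
  | _ => X2

theorem Conf.of_two {c0 c1 : CD} {m : Fin 4 → ℕ} {rel : List (ℕ × ℕ × ℕ)}
    {G : Fin 4 → SimpleGraph V} {X0 X1 : V → ℕ} (hcov : Cover V m G)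
    (h0 : ClsOK c0 (G 0) X0) (h1 : ClsOK c1 (G 1) X1)
    (hrel : ∀ r ∈ rel, ∀ u, (cdAt [c0, c1] r.1).d (xs X0 X1 X1 r.1 u) = 0 →
      xs X0 X1 X1 r.2.1 u = r.2.2) :
    Conf [c0, c1] m rel G (xs X0 X1 X1) := by
  refine Conf.of_classes hcov (by simp) ?_ hrel
  intro i hi
  have hi' : i.val < 2 := hi
  obtain ⟨i, hi4⟩ := i
  rcases i with _ | _ | i
  · exact h0
  · exact h1
  · simp only at hi'
    omega

theorem Conf.of_three {c0 c1 c2 : CD} {m : Fin 4 → ℕ} {rel : List (ℕ × ℕ × ℕ)}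
    {G : Fin 4 → SimpleGraph V} {X0 X1 X2 : V → ℕ} (hcov : Cover V m G)
    (h0 : ClsOK c0 (G 0) X0) (h1 : ClsOK c1 (G 1) X1) (h2 : ClsOK c2 (G 2) X2)
    (hrel : ∀ r ∈ rel, ∀ u, (cdAt [c0, c1, c2] r.1).d (xs X0 X1 X2 r.1 u) = 0 →
      xs X0 X1 X2 r.2.1 u = r.2.2) :
    Conf [c0, c1, c2] m rel G (xs X0 X1 X2) := by
  refine Conf.of_classes hcov (by simp) ?_ hrel
  intro i hi
  have hi' : i.val < 3 := hi
  obtain ⟨i, hi4⟩ := i
  rcases i with _ | _ | _ | i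
  · exact h0
  · exact h1
  · exact h2
  · simp only at hi'
    omega

end

end Pool.Agent.Work.MP_92a29d_co.Place
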