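import Pool.Agent.Work.MP_92a29d_co_h36.BRule

/-!
Certificates for the balls of an edge.
-/

set_option maxRecDepth 100000

namespace Pool.Agent.Work.MP_92a29d_co.Ball

def a64205_0 : Tr Rule := (.node (.node (.node (.node (.node (.node (.leaf (.tri 10 12 11)) (.leaf (.nb 16 45182))) (.leaf (.wwe 12 10 15))) (.node (.leaf (.tri 12 16 15)) (.leaf (.nb 11 98430)))) (.node (.node (.leaf (.tri 10 16 14)) (.leaf (.wwe 15 12 16))) (.node (.leaf (.tri 13 15 16)) (.leaf (.nb 13 49278))))) (.node (.node (.node (.leaf (.tri 10 16 13)) (.leaf (.wwe 14 11 13))) (.node (.leaf (.tri 10 14 16)) (.leaf (.nb 11 118910)))) (.node (.node (.leaf (.tri 13 15 14)) (.leaf (.nb 10 114814))) (.node (.leaf (.wwe 10 11 14)) (.leaf (.nb 14 77950)))))) (.node (.node (.node (.node (.leaf (.tri 11 13 12)) (.leaf (.wwe 13 11 15))) (.node (.leaf (.tri 14 10 15)) (.leaf (.nb 11 90238)))) (.node (.node (.leaf (.tri 12 11 14)) (.leaf (.wwe 16 13 14))) (.node (.leaf (.tri 15 10 16)) (.leaf (.nb 13 118910))))) (.node (.node (.node (.leaf (.tri 12 11 13)) (.leaf (.wwe 15 11 13))) (.node (.leaf (.tri 12 13 16)) (.leaf (.nb 12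 114814)))) (.node (.node (.leaf (.tri 11 13 15)) (.leaf (.nb 10 102526))) (.node (.leaf (.wwe 11 10 12)) (.leaf (.nb 15 20606)))))))

def a64205_1 : Tr Rule := (.node (.node (.node (.node (.node (.node (.leaf (.tri 10 13 12)) (.leaf (.ord 10 0 3))) (.leaf (.wwe 12 15 16))) (.node (.leaf (.tri 13 12 15)) (.leaf (.nb 11 73854)))) (.node (.node (.leaf (.tri 11 15 14)) (.leaf (.wwe 16 10 13))) (.node (.leaf (.tri 14 12 16)) (.leaf (.nb 13 102526))))) (.node (.node (.node (.leaf (.tri 11 15 13)) (.leaf (.wwe 14 13 16))) (.node (.leaf (.tri 11 13 16)) (.leaf (.nb 11 28798)))) (.node (.node (.leaf (.tri 10 13 15)) (.leaf (.nb 10 24702))) (.node (.leaf (.wwe 10 14 15)) (.leaf (.nb 15 73854)))))) (.node (.node (.node (.node (.leaf (.ew 11 12)) (.leaf (.wwe 13 12 16))) (.node (.leaf (.tri 14 16 15)) (.leaf (.nb 11 102526)))) (.node (.node (.leaf (.ew 12 14)) (.leaf (.nb 10 98430))) (.node (.leaf (.tri 15 14 16)) (.leaf (.nb 14 106622))))) (.node (.node (.node (.leaf (.ew 12 13)) (.leaf (.wwe 15 12 14))) (.node (.leaf (.tri 13 10 16)) (.leaf (.nb 12 90238)))) (.node (.node (.leaf (.tri 12 10 15)) (.leaf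 (.nb 10 12414))) (.node (.leaf (.wwe 11 10 15)) (.leaf (.nb 16 49278)))))))

def a64205_2 : Tr Rule := (.node a64205_0 a64205_1)

def a64205_3 : Tr Rule := (.node (.node (.node (.node (.node (.node (.leaf (.tri 10 14 11)) (.leaf (.ord 10 0 1))) (.leaf (.wwe 12 14 15))) (.node (.leaf (.tri 13 10 15)) (.leaf (.nb 11 49278)))) (.node (.node (.leaf (.tri 11 12 14)) (.leaf (.wwe 15 14 16))) (.node (.leaf (.tri 14 10 16)) (.leaf (.nb 13 69758))))) (.node (.node (.node (.leaf (.tri 11 12 13)) (.leaf (.wwe 14 10 15))) (.node (.leaf (.ew 10 16)) (.leaf (.nb 11 77950)))) (.node (.node (.leaf (.ew 13 14)) (.leaf (.nb 10 41086))) (.node (.leaf (.wwe 10 11 15)) (.leaf (.nb 14 110718)))))) (.node (.node (.node (.node (.leaf (.tri 11 15 12)) (.leaf (.wwe 13 10 16))) (.node (.leaf (.tri 14 12 15)) (.leaf (.nb 11 69758)))) (.node (.node (.leaf (.tri 12 15 14)) (.leaf (.wwe 16 13 15))) (.node (.leaf (.tri 15 12 16)) (.leaf (.nb 14 73854))))) (.node (.node (.node (.leaf (.tri 12 15 13)) (.leaf (.wwe 15 10 14))) (.node (.leaf (.tri 12 15 16)) (.leaf (.nb 12 106622)))) (.node (.node (.leaf (.tri 11 16 15)) (.leaf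 (.nb 10 86142))) (.node (.leaf (.wwe 11 10 14)) (.leaf (.nb 15 28798)))))))

def a64205_4 : Tr Rule := (.node (.node (.node (.node (.node (.node (.leaf (.tri 10 15 12)) (.leaf (.ord 10 1 3))) (.leaf (.wwe 13 12 14))) (.node (.leaf (.tri 13 16 15)) (.leaf (.nb 11 106622)))) (.node (.node (.leaf (.ew 11 14)) (.leaf (.wwe 16 10 14))) (.node (.leaf (.tri 14 15 16)) (.leaf (.nb 13 86142))))) (.node (.node (.node (.leaf (.ew 11 13)) (.leaf (.wwe 15 11 12))) (.node (.leaf (.tri 12 10 16)) (.leaf (.nb 12 82046)))) (.node (.node (.leaf (.tri 10 16 15)) (.leaf (.nb 10 57470))) (.node (.leaf (.wwe 10 13 16)) (.leaf (.nb 15 90238)))))) (.node (.node (.node (.node (.leaf (.tri 10 14 13)) (.leaf (.wwe 14 10 12))) (.node (.leaf (.tri 10 12 16)) (.leaf (.nb 11 86142)))) (.node (.node (.leaf (.tri 13 11 14)) (.leaf (.nb 10 82046))) (.node (.leaf (.wwe 10 11 13)) (.leaf (.nb 14 36990))))) (.node (.node (.node (.leaf (.tri 10 13 14)) (.leaf (.wwe 15 10 16))) (.node (.leaf (.tri 13 12 16)) (.leaf (.nb 12 123006)))) (.node (.node (.leaf (.tri 12 13 15)) (.leaf (.nb 10 110718))) (.node (.leaf (.wwe 12 10 13))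 (.leaf (.nb 16 57470)))))))

def a64205_5 : Tr Rule := (.node a64205_3 a64205_4)

def a64205_6 : Tr Rule := (.node (.node (.node (.node (.node (.node (.leaf (.tri 10 13 11)) (.leaf (.nb 16 61566))) (.leaf (.wwe 12 13 15))) (.node (.leaf (.ew 12 15)) (.leaf (.nb 11 82046)))) (.node (.node (.leaf (.ew 10 14)) (.leaf (.wwe 15 13 16))) (.node (.leaf (.ew 13 16)) (.leaf (.nb 13 114814))))) (.node (.node (.node (.leaf (.ew 10 13)) (.leaf (.wwe 14 12 13))) (.node (.leaf (.tri 10 15 16)) (.leaf (.nb 11 12414)))) (.node (.node (.leaf (.tri 13 16 14)) (.leaf (.nb 10 73854))) (.node (.leaf (.wwe 10 12 14)) (.leaf (.nb 14 45182)))))) (.node (.node (.node (.node (.leaf (.tri 11 14 12)) (.leaf (.wwe 13 12 15))) (.node (.leaf (.tri 14 11 15)) (.leaf (.nb 11 57470)))) (.node (.node (.leaf (.tri 12 13 14)) (.leaf (.wwe 16 12 15))) (.node (.leaf (.tri 15 11 16)) (.leaf (.nb 14 98430))))) (.node (.node (.node (.leaf (.tri 12 14 13)) (.leaf (.wwe 15 12 13))) (.node (.leaf (.tri 12 14 16)) (.leaf (.nb 12 73854)))) (.node (.node (.leaf (.tri 11 14 15)) (.leaf (.nb 10 20606))) (.node (.leaf (.wwe 11 10 13)) (.leaf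 (.nb 15 86142)))))))

def a64205_7 : Tr Rule := (.node (.node (.node (.node (.node (.node (.leaf (.tri 10 14 12)) (.leaf (.ord 10 1 2))) (.leaf (.wwe 13 10 12))) (.node (.leaf (.tri 13 14 15)) (.leaf (.nb 11 41086)))) (.node (.node (.leaf (.tri 11 16 14)) (.leaf (.wwe 16 12 13))) (.node (.leaf (.tri 14 13 16)) (.leaf (.nb 13 20606))))) (.node (.node (.node (.leaf (.tri 11 16 13)) (.leaf (.wwe 15 10 12))) (.node (.leaf (.ew 11 16)) (.leaf (.nb 12 98430)))) (.node (.node (.leaf (.tri 10 14 15)) (.leaf (.nb 10 90238))) (.node (.leaf (.wwe 10 11 16)) (.leaf (.nb 15 24702)))))) (.node (.node (.node (.node (.leaf (.tri 10 12 13)) (.leaf (.wwe 13 15 16))) (.node (.leaf (.ew 14 15)) (.leaf (.nb 11 20606)))) (.node (.node (.leaf (.tri 13 10 14)) (.leaf (.nb 10 16510))) (.node (.leaf (.ew 15 16)) (.leaf (.nb 14 69758))))) (.node (.node (.node (.leaf (.tri 10 12 14)) (.leaf (.wwe 15 13 14))) (.node (.leaf (.tri 13 11 16)) (.leaf (.nb 12 57470)))) (.node (.node (.leaf (.tri 12 11 15)) (.leaf (.nb 10 77950))) (.node (.leaf (.wwe 11 13 15)) (.leaf (.nb 16 41086)))))))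

def a64205_8 : Tr Rule := (.node a64205_6 a64205_7)

def a64205_9 : Tr Rule := (.node (.node (.node (.node (.node (.node (.leaf (.tri 10 16 11)) (.leaf (.ord 10 0 2))) (.leaf (.wwe 12 11 16))) (.node (.leaf (.tri 13 11 15)) (.leaf (.nb 11 114814)))) (.node (.node (.leaf (.tri 11 13 14)) (.leaf (.wwe 16 10 12))) (.node (.leaf (.tri 14 11 16)) (.leaf (.nb 13 36990))))) (.node (.node (.node (.leaf (.tri 11 14 13)) (.leaf (.wwe 14 11 16))) (.node (.leaf (.tri 11 12 16)) (.leaf (.nb 11 45182)))) (.node (.node (.leaf (.tri 10 12 15)) (.leaf (.nb 10 106622))) (.node (.leaf (.wwe 10 13 15)) (.leaf (.nb 15 82046)))))) (.node (.node (.node (.node (.leaf (.tri 11 16 12)) (.leaf (.wwe 13 11 16))) (.node (.leaf (.tri 14 13 15)) (.leaf (.nb 11 36990)))) (.node (.node (.leaf (.tri 12 16 14)) (.leaf (.wwe 16 14 15))) (.node (.leaf (.tri 15 13 16)) (.leaf (.nb 14 41086))))) (.node (.node (.node (.leaf (.tri 12 16 13)) (.leaf (.wwe 15 11 14))) (.node (.leaf (.ew 12 16)) (.leaf (.nb 12 24702)))) (.node (.node (.leaf (.ew 11 15)) (.leaf (.nb 10 53374))) (.node (.leaf (.wwe 11 13 14)) (.leaf (.nb 15 94334)))))))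

def a64205_10 : Tr Rule := (.node (.node (.node (.node (.node (.node (.leaf (.ew 10 12)) (.leaf (.ord 10 2 3))) (.leaf (.wwe 13 10 15))) (.node (.leaf (.ew 13 15)) (.leaf (.nb 11 24702)))) (.node (.node (.leaf (.tri 12 10 14)) (.leaf (.wwe 16 12 14))) (.node (.leaf (.ew 14 16)) (.leaf (.nb 13 53374))))) (.node (.node (.node (.leaf (.tri 12 10 13)) (.leaf (.wwe 15 10 13))) (.node (.leaf (.tri 12 11 16)) (.leaf (.nb 12 49278)))) (.node (.node (.leaf (.ew 10 15)) (.leaf (.nb 10 69758))) (.node (.leaf (.wwe 10 14 16)) (.leaf (.nb 15 69758)))))) (.node (.node (.node (.node (.leaf (.tri 10 15 13)) (.leaf (.wwe 14 10 13))) (.node (.leaf (.tri 10 13 16)) (.leaf (.nb 11 53374)))) (.node (.node (.leaf (.tri 13 12 14)) (.leaf (.nb 10 49278))) (.node (.leaf (.wwe 10 12 13)) (.leaf (.nb 14 102526))))) (.node (.node (.node (.leaf (.tri 10 15 14)) (.leaf (.wwe 15 11 16))) (.node (.leaf (.tri 13 14 16)) (.leaf (.nb 13 82046)))) (.node (.node (.leaf (.tri 12 14 15)) (.leaf (.nb 10 28798))) (.node (.leaf (.wwe 12 13 14)) (.leaf (.nb 16 53374)))))))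

def a64205_11 : Tr Rule := (.node a64205_9 a64205_10)

def b64205_12 : Tr ℕ := (.node (.node (.node (.node (.node (.node (.leaf (39612390029052)) (.leaf (79390653008693004))) (.node (.leaf (5514057697718037382765265127)) (.leaf (15905070297356)))) (.node (.node (.leaf (21317870327290448497709737206011)) (.leaf (4732274479))) (.leaf (79395695920985888)))) (.node (.node (.node (.leaf (34547610405971208958750421260)) (.leaf (4738781415))) (.node (.leaf (1786)) (.leaf (287)))) (.node (.node (.leaf (122737768050957)) (.leaf (3916480743))) (.leaf (79956077702965040))))) (.node (.node (.node (.node (.leaf (2722142633609110962090234)) (.leaf (4732051671))) (.node (.leaf (122763017692941)) (.leaf (946391)))) (.node (.node (.leaf (663010188331005757181)) (.leaf (268787530348234913550))) (.leaf (325204685829922850572)))) (.node (.node (.node (.leaf (34547534865395869284444607965)) (.leaf (19383396135197))) (.node (.leaf (5456030678780610358635778317)) (.leaf (0)))) (.node (.node (.leaf (22743938651942027494366618261313)) (.leaf (956173))) (.leaf (19383709778188)))))) (.node (.node (.node (.node (.node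 (.leaf (21317889683958577244266006810908)) (.leaf (19382483646256))) (.node (.leaf (5514059137716996705436614939)) (.leaf (15877813621020)))) (.node (.node (.leaf (34548984632349239014906246961)) (.leaf (1156588))) (.leaf (19727228322059)))) (.node (.node (.node (.leaf (5513972381521911358636013070)) (.leaf (4738782971))) (.node (.leaf (5456030678780610358686029600)) (.leaf (1515)))) (.node (.node (.leaf (1346205411263010342736105)) (.leaf (956209))) (.leaf (19383715111162))))) (.node (.node (.node (.node (.leaf (141507012222857638528348670824679)) (.leaf (2058411320914377492221))) (.node (.leaf (7317278)) (.leaf (1787)))) (.node (.node (.leaf (1346184663460865154908375)) (.leaf (16041906454813))) (.leaf (325204770491462557927)))) (.node (.node (.node (.leaf (34547610405971103019433042134)) (.leaf (19383394940685))) (.leaf (8443899166451611991066363))) (.node (.node (.leaf (663010188331005757182)) (.leaf (954618))) (.leaf (4732350747)))))))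

def b64205_13 : Tr ℕ := (.node (.node (.node (.node (.node (.node (.leaf (39612390029053)) (.leaf (246785737484829509405))) (.node (.leaf (80240095356195030)) (.leaf (3876419376)))) (.node (.node (.leaf (5513972360068537662766626589)) (.leaf (1155340))) (.leaf (1332038311921397615677673)))) (.node (.node (.node (.leaf (502733903120942863)) (.leaf (4738782990))) (.node (.leaf (5456030678780610358687225615)) (.leaf (1807)))) (.node (.node (.leaf (2059198045949057410813)) (.leaf (3916632278))) (.leaf (327571306410828404527))))) (.node (.node (.node (.node (.leaf (162252324336473854)) (.leaf (878401))) (.node (.leaf (7317246)) (.leaf (1552)))) (.node (.node (.leaf (330963645161440962352)) (.leaf (65621955651424832))) (.leaf (19726366236941)))) (.node (.node (.node (.leaf (34547610405971103019433043761)) (.leaf (325199339041779130635))) (.leaf (325204770492351674127))) (.node (.node (.leaf (502733897936781594)) (.leaf (954600))) (.leaf (4732351020)))))) (.node (.node (.node (.node (.node (.leaf (39612390041340)) (.leaf (1332368398925796971058973))) (.node (.leaf (2715689731403799860461850))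 (.leaf (3876419324)))) (.node (.node (.leaf (122737769316636)) (.leaf (1501))) (.leaf (79395696206272305)))) (.node (.node (.node (.leaf (502733903120941289)) (.leaf (79394390569767145))) (.node (.leaf (331391767433356144891)) (.leaf (1822)))) (.node (.node (.leaf (3883075393)) (.leaf (3916486104))) (.leaf (4732352322))))) (.node (.node (.node (.node (.leaf (34547610405971208958745028401)) (.leaf (19410048676108))) (.node (.leaf (29965271307)) (.leaf (1499)))) (.node (.node (.leaf (34547610405971104161565108000)) (.leaf (3916482008))) (.leaf (19383714824406)))) (.node (.node (.node (.leaf (122758404032249)) (.leaf (4732274427))) (.leaf (325204774160606286092))) (.node (.node (.leaf (643400606527576450828)) (.leaf (1550))) (.leaf (2058025136147429189423)))))))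

def b64205_14 : Tr ℕ := (.node b64205_12 b64205_13)

def b64205_15 : Tr ℕ := (.node (.node (.node (.node (.node (.node (.leaf (39612390029054)) (.leaf (19382483644700))) (.node (.leaf (30887733057)) (.leaf (3883073803)))) (.node (.node (.leaf (8434475196770288823105293)) (.leaf (4732274156))) (.leaf (79395695920985851)))) (.node (.node (.node (.leaf (8434475196770314687194927)) (.leaf (2058111359230211561228))) (.node (.leaf (5456030678780610358692344056)) (.leaf (251)))) (.node (.node (.leaf (80801671181996264)) (.leaf (956172))) (.leaf (330968538400535265549))))) (.node (.node (.node (.node (.leaf (11149894809241890329027789067)) (.leaf (31156166887))) (.node (.leaf (29971439866)) (.leaf (231)))) (.node (.node (.leaf (2715689731403774057043708)) (.leaf (268787530348234838282))) (.leaf (79395695921059650)))) (.node (.node (.node (.leaf (141507012222857637967597747245323)) (.leaf (4732274447))) (.leaf (1332038739936672450838813))) (.node (.node (.leaf (5554022752505379066431512859)) (.leaf (954582))) (.leaf (19383709779761)))))) (.node (.node (.node (.node (.node (.leaf (502555570911295229))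 (.leaf (19382483646220))) (.node (.leaf (45561707504839802027074257002764)) (.leaf (3876419341)))) (.node (.node (.leaf (141512641054102483005055450530075)) (.leaf (282))) (.leaf (1332038393159363739178763)))) (.node (.node (.node (.leaf (22585230874750628514881236488423)) (.leaf (1156929))) (.node (.leaf (1332038739936672450851081)) (.leaf (1824)))) (.node (.node (.leaf (22585580339317841593226407031033)) (.leaf (16041922122304))) (.leaf (19383715112428))))) (.node (.node (.node (.node (.leaf (8434475283183106706698473)) (.leaf (79503559377338635))) (.node (.leaf (122737751275313)) (.leaf (1858)))) (.node (.node (.leaf (5514057364529070644663529704)) (.leaf (3916481068))) (.leaf (79395695920768817)))) (.node (.node (.node (.leaf (34547610405971103019433042187)) (.leaf (19383396053225))) (.leaf (503296985580744935))) (.node (.node (.leaf (5514057364523741311820472551)) (.leaf (233))) (.leaf (1155359)))))))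

def b64205_16 : Tr ℕ := (.node (.node (.node (.node (.node (.node (.leaf (9670993659)) (.leaf (79390653015064844))) (.node (.leaf (29965276924)) (.leaf (948016)))) (.node (.node (.leaf (34548984631906197401563541772)) (.leaf (4732129836))) (.leaf (19753377845462)))) (.node (.node (.node (.leaf (268710211865907619633)) (.leaf (11143916252916892147148427549))) (.node (.leaf (22347895922610103342559042601210)) (.leaf (1805)))) (.node (.node (.leaf (22585579037757881499345449023279)) (.leaf (3916633849))) (.leaf (79395697095320108))))) (.node (.node (.node (.node (.leaf (1270645323321761925748494)) (.leaf (1155286))) (.node (.leaf (29971570919)) (.leaf (574)))) (.node (.node (.leaf (502733897936721662)) (.leaf (16016454086870))) (.leaf (19383714824477)))) (.node (.node (.node (.leaf (141507012222857637967597740582669)) (.leaf (79394390234009866))) (.leaf (325204770492351672568))) (.node (.node (.leaf (122737768050972)) (.leaf (3909973790))) (.leaf (80802838238769383)))))) (.node (.node (.node (.node (.node (.leaf (122694231179515)) (.leaf (19382483646257))) (.node (.leaf (7315741)) (.leaf (3876417804))))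 (.node (.node (.leaf (29965275712)) (.leaf (1100953724306370205901084))) (.leaf (325204770492660328224)))) (.node (.node (.node (.leaf (34547534865395869284444608288)) (.leaf (1332015258467213785618205))) (.node (.leaf (1332038739936672452093728)) (.leaf (269)))) (.node (.node (.leaf (22743648514172543278853786621744)) (.leaf (3916486466))) (.leaf (79395675251458279))))) (.node (.node (.node (.node (.leaf (141507012222858071895041725482475)) (.leaf (19387355547405))) (.node (.leaf (7317261)) (.leaf (1857)))) (.node (.node (.leaf (502733897936720155)) (.leaf (16041905123615))) (.leaf (4732352252)))) (.node (.node (.node (.leaf (8434475196770288823103770)) (.leaf (19383396266540))) (.leaf (325204665996441420061))) (.node (.node (.leaf (29965275403)) (.leaf (1015888793292140117542688))) (.leaf (325184114723600105740)))))))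

def b64205_17 : Tr ℕ := (.node b64205_15 b64205_16)

def h64205_0 : List ℕ := [20363456462957523536237470044263, 65560038726040446942046036200681736, 59394265454040388877820601794195720, 1043949744432228304580716, 14023617199957302451553360924855, 16169713369417363794220438277743219407246280667245, 63611818248509757889103691447148647, 330403859149176413642101302048333397378638133036248477660734811391346651245, 4234273980054896753736125910532363, 16639810215084648182260852769035, 242141107663709585675, 49262313936785476, 408610081360217205859701758737025759768770, 61341852261665090835999259789324392, 263232901391157475387536373455163297847, 64265845066200555514537791439081500, 506657919209423410763123293287879208427548, 4549765810512688286552280106051074204655247388, 40911366942887324830480882112622700, 70369088278880289, 600028784680116866363425, 490279167285067832552070077857440190304466, 5820625462999947848386145150278873170932318490, 15766907707058528607623436111895, 3849673186867872432638095383, 31169551444233959572787368039673884, 263232902264021760331511075200187854876, 16244500770241986003031593959714,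 31169551444233959572788128449151266, 522942285860567722852203245031369857855780, 2635133004, 1099799264157663340178999085945569257070620, 73465038027579594, 217688451143606322710600597414337466398199353670928330855, 39982916398321692, 362911381517502072827488395275144667239, 76568960509689888, 21553078136160519771212818575422, 19823824302149596468399647453202748400901391020140, 963795338091391254922446794478080793952359, 936556785990697087179434547761304268325024, 71468436230612173556519177548955028658870230234542189, 57420964555808996, 305666273120361237398740451240226173270582398541937301646910654345498521703, 3671204363833559, 4410345608437345467892941031, 9988320553188651622605139878191, 343323902138214375969594075584882644266672415297493168435, 282000138461823998567049753853573008795833556420891648303, 8456897694929124, 295338033692093532518834113078787831110168278709707444199727, 968217723124979062611990, 5642560261415225, 670356293508717447128333789498053494918320356, 1065223, 366647628186620887075, 16904237880463394, 367896401096319464430136480466414096363898954045, 370176193614627139896,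 4954435764171557642209467333059724245219747425073669030356764467503, 1045416575380711276126068935526810298761376, 387824611441600401705623790, 4194611262, 5091062213767288586724135014397337416068726160923647673973219631, 72624672495948024, 1073413, 1347820, 6428549388887432707374183883205096785896284265454883513008005423, 376037351927341229377918883975510841655361, 12302246359372, 326448494633516792159057914808223104430573363344951644234, 4936840196214238840795493897909395738545047199540666332152524903, 4282020838949575855239194355742938635184771407, 17539759618152271813519012938525172257597178646863, 4549755047854851133975509443959801456354177359, 1374787992052934171764586695008021108523341991854861844525391, 304975223990207423445759866454036461059273732864316076370, 291064189907284658680620372490625787645731156, 335641599622298381778542730795967642846190751177550131538, 294261599089630434973989592102480373467652018853211611476, 20221503112938017457409698583497003547622712589563217404088336838759, 343263887633586173092597018980664419397976, 383131750288181218255095651876984935661239833024377762136,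 9111490396232707475883244208472, 261596119898267125775618108864093640569176, 63846445846634491372196301495159075160, 462895745900315432216968498619483463995736, 1127172057562873655781932000796862259257688, 47722214115178047493909178377167192, 757104370801414222466253487715103488205144, 17815017465438648584090170979873963010074642604376, 15593453343319506408537953205100888, 222551292608791294296, 17630010478079721040307815591482422465147880989016, 68798963902787505703160921565761880, 68798963903585222506772537282728280, 263624036409038925512473436584982554830019539129222631781, 79324920993118775913282876610902661562191547125367128, 158156932657597608300804078384839219286360, 326126969344893167903064]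

def h64205_1 : List ℕ := [1714234123179996441809253, 3557027909, 19365008274861633620850390275463399099749640704344, 29784876403488418750342242707237309533194067120492, 58853353782014296, 3201986773195037722356791737591607745098609508696, 21856569360728, 1786235288594900485743295800284791381074284, 4282135175239759653254950207311489555409314156, 1225501795905674432808618645177630209786200, 72738788914032284012, 5450821733291497659574653442926070711434880611134631620448203096, 237517592617416548696, 22012085735997791502626568488671418499416, 14157252411736, 541055056911887841642059202436296824641750044791122949725778264, 326775626293190295663576346669228508640183284271038649037144, 78949222412892004809533418247576583462241073211359576, 18452372523911788659749715964033468762896566022488, 5708239208090608842836689805656, 492491036691119868308967585814983808458414346404620614855534221813090975474008, 28922631762712702459405948944728, 392260616922851861257919673918876001239422, 4329824495, 408651288397286179901383723919046224634200, 2014915686835573227778508603629818439996200666647375348962976087553316342576136020521304,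 1973666140761847353309315416, 97494118120594151631841245075307667214082320361154857623248745631600984, 1111151234462275406215249214567457045666971407612600512958808, 97489169856106273388882005634871533820110222654278668251588557987664216, 3728618578830189752950347337986, 1312245785745155164015282831642597322219864, 1214147430115511738783301987330984907395416, 105262058863877004576649967929429937673108346232500339734678665130692952, 396151491420136522091539138322999873880, 254473213575215450556107657226176880420797651318386250072, 433497109065538440321407455260708926898883550148554890170712, 1302787, 1642825, 1646992, 246760112099495956824, 88684653115170264939870126222823789085009562218082693, 16954942882621851285500391055704, 319036786725591486310090389317032006021, 6225438657637231836493746530749837343185949746651995274777608223404300173951185240, 1133529370529891931783277, 90169720797462432632917587756784918428746645144961413, 1209048033236076871926104, 22016923728816977883628715000644282443648309232005, 6196717179804723634658322391623455760377402696702139098497839507, 5322185346361565403484730139826920815921338344851132081394757976,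 3473166361, 26117577309572527290863825456585815234497496514488113943992465961304, 266689029138125689314568007390492023870908966181495492952, 26189134068044120, 21273726087731383632974310122803354118730262654303184613571063992664, 309573458620163789654924758471244556763935939071170974040, 496126452729435709006213, 1268012886508190882116255544455709451715241334742824510951768, 1099825861033440069989941523445966365028755, 26117577309572527290863825456667026294583956740291426338037709824344, 3164692309902907299204581600236843713662384672690218356843424153944, 384682202483057605455002164649316341867836237137996960088, 499617124458066265614143240796241466508997131540189598085, 1494052929524974540165948010808174081676782577640818628645208, 29344258507178, 336301, 1185393556529049285964120, 7022541561658196251090604462, 28766980201948465229567639609688, 121604412749021613, 3910148498, 25089516920707698369564236175379011875906428646121901, 742734200474205195871110607650119633192228524551074111557572256499785484870541741, 4833789007873561907433422387136269402687175916537407194315194797, 1495451487112723320356684744115476671556673965,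 19257435835312729872072088846765, 19695121838737659991554051015505548620359898506841213681573261836717, 5039985579492839150862996844090355624912982560136739465326854573, 140851513133060575404709134479315374, 39646288034902938894177472803768678279950657839533, 278923547805075297625627178407451540642888182670650868141, 58921449209326191021, 1268012877540412600223128423476643468902805226595922293916077, 23024406569513311273062539510861920423791564259757, 68416155711947096, 43588552297392594845972639263310469560939766126512507632918388343669165, 44017807665561602936850434110011379207941698569215640078986177947558317, 7868259227111177905454591931188542200132789849633058545579950510, 126967074875253180, 115141, 12232100434264, 356913897703872166446400095478995518299737440182600518893882970629635592621, 409919310278428734049597774974015601589467172402338405222322216527648706990, 87137192134427580646371497758671356251402268628680808466517396392006086, 1876286, 9009517635749580186530570590571764331501158854, 18698368977738959312284095898030, 1481552342078650341229270686207391601026283070116078219448750,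 21276065638910252370039667534627046271364349367059183104196087669080]

def h64205_2 : List ℕ := [1544395408779838979495425354741155661065108746632275169038790, 22562043079055778800694648841662196988632448205230, 70097, 1545261521, 1327161809, 387736017, 2770096595, 1647061, 24953023697365, 69266491674804693, 1360716248, 1511875032, 2367500760, 236790233, 421290457, 926135061417866047603162, 4749581468127]

def t64205 : Tr Rule := (.node (.node a64205_2 a64205_5) (.node a64205_8 a64205_11))

def u64205 : Tr ℕ := (.node b64205_14 b64205_17)

def h64205 : List ℕ := h64205_0 ++ (h64205_1 ++ (h64205_2))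

def lab64205 : List ℕ := [0, 1, 2, 2, 2, 2, 2, 3, 3, 3, 4, 4, 6, 6, 6, 6, 6]

theorem c64205 : check lab64205 t64205 264 u64205 h64205 480 = true := by decide +kernel

def a73205_0 : Tr Rule := (.node (.node (.node (.node (.node (.leaf (.tri 10 12 11)) (.leaf (.wwe 13 11 14))) (.node (.leaf (.tri 13 16 15)) (.leaf (.nb 11 90366)))) (.node (.node (.leaf (.tri 11 16 14)) (.leaf (.wwe 16 10 15))) (.node (.leaf (.tri 14 12 16)) (.leaf (.nb 14 37118))))) (.node (.node (.node (.leaf (.tri 11 15 13)) (.leaf (.wwe 15 11 13))) (.node (.leaf (.tri 11 15 16)) (.leaf (.nb 12 41214)))) (.node (.node (.leaf (.tri 10 16 15)) (.leaf (.nb 10 69886))) (.node (.leaf (.wwe 11 12 15)) (.leaf (.nb 16 41214)))))) (.node (.node (.node (.node (.leaf (.tri 11 15 12)) (.leaf (.wwe 14 12 13))) (.node (.leaf (.tri 10 12 16)) (.leaf (.nb 11 119038)))) (.node (.node (.leaf (.tri 13 10 14)) (.leaf (.nb 10 114942))) (.node (.leaf (.tri 15 14 16)) (.leaf (.nb 15 24830))))) (.node (.node (.node (.leaf (.ew 12 13)) (.leaf (.wwe 15 12 16))) (.node (.leaf (.tri 13 10 16)) (.leaf (.nb 13 102654)))) (.node (.node (.leaf (.tri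 12 13 15)) (.leaf (.nb 10 45310))) (.node (.leaf (.wwe 12 13 14)) (.leaf (.ord 10 0 1)))))))

def a73205_1 : Tr Rule := (.node (.node (.node (.node (.node (.leaf (.tri 10 15 12)) (.leaf (.wwe 13 10 16))) (.node (.leaf (.tri 14 12 15)) (.leaf (.nb 11 102654)))) (.node (.node (.leaf (.tri 12 13 14)) (.leaf (.nb 10 98558))) (.node (.leaf (.tri 15 10 16)) (.leaf (.nb 14 45310))))) (.node (.node (.node (.leaf (.tri 12 11 13)) (.leaf (.wwe 15 12 14))) (.node (.leaf (.tri 12 13 16)) (.leaf (.nb 12 123134)))) (.node (.node (.leaf (.tri 11 16 15)) (.leaf (.nb 10 86270))) (.node (.leaf (.wwe 11 14 16)) (.leaf (.nb 16 12542)))))) (.node (.node (.node (.node (.leaf (.tri 10 14 13)) (.leaf (.wwe 14 13 16))) (.node (.leaf (.ew 10 16)) (.leaf (.nb 11 110846)))) (.node (.node (.leaf (.tri 13 16 14)) (.leaf (.nb 10 24830))) (.node (.leaf (.wwe 10 11 16)) (.leaf (.nb 15 78078))))) (.node (.node (.node (.leaf (.tri 10 16 14)) (.leaf (.wwe 16 10 14))) (.node (.leaf (.tri 13 15 16)) (.leaf (.nb 14 73982)))) (.node (.node (.leaf (.tri 13 10 15)) (.leaf (.nb 11 73982))) (.node (.leaf (.wwe 12 14 16)) (.leaf (.ord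 10 1 3)))))))

def a73205_2 : Tr Rule := (.node a73205_0 a73205_1)

def a73205_3 : Tr Rule := (.node (.node (.node (.node (.node (.leaf (.tri 10 13 12)) (.leaf (.wwe 13 12 15))) (.node (.leaf (.tri 14 10 15)) (.leaf (.nb 11 69886)))) (.node (.node (.leaf (.tri 12 10 14)) (.leaf (.wwe 16 14 15))) (.node (.leaf (.tri 14 15 16)) (.leaf (.nb 14 12542))))) (.node (.node (.node (.leaf (.ew 11 13)) (.leaf (.wwe 15 10 14))) (.node (.leaf (.tri 12 10 16)) (.leaf (.nb 12 90366)))) (.node (.node (.leaf (.tri 11 13 15)) (.leaf (.nb 10 102654))) (.node (.leaf (.wwe 11 14 15)) (.leaf (.nb 16 57598)))))) (.node (.node (.node (.node (.leaf (.ew 11 12)) (.leaf (.wwe 14 12 15))) (.node (.leaf (.tri 10 14 16)) (.leaf (.nb 11 78078)))) (.node (.node (.leaf (.tri 13 12 14)) (.leaf (.nb 10 41214))) (.node (.leaf (.wwe 10 11 14)) (.leaf (.nb 15 69886))))) (.node (.node (.node (.leaf (.tri 10 13 14)) (.leaf (.wwe 15 14 16))) (.node (.leaf (.tri 13 12 16)) (.leaf (.nb 13 53502)))) (.node (.node (.leaf (.tri 12 16 15)) (.leaf (.nb 11 98558))) (.node (.leaf (.wwe 12 13 15)) (.leaf (.ord 10 0 3)))))))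

def a73205_4 : Tr Rule := (.node a73205_3 (.node (.node (.node (.node (.node (.leaf (.ew 10 12)) (.leaf (.wwe 13 12 16))) (.node (.leaf (.tri 14 16 15)) (.leaf (.nb 11 86270)))) (.node (.node (.leaf (.tri 12 16 14)) (.leaf (.nb 10 82174))) (.node (.leaf (.tri 15 12 16)) (.leaf (.nb 15 82174))))) (.node (.node (.node (.leaf (.tri 12 15 13)) (.leaf (.wwe 15 10 16))) (.node (.leaf (.tri 12 15 16)) (.leaf (.nb 13 114942)))) (.node (.node (.leaf (.tri 12 10 15)) (.leaf (.nb 10 12542))) (.node (.leaf (.wwe 12 10 13)) (.leaf (.nb 16 28926)))))) (.node (.node (.node (.node (.leaf (.ew 10 13)) (.leaf (.wwe 15 10 12))) (.node (.leaf (.tri 11 13 16)) (.leaf (.nb 12 98558)))) (.node (.node (.leaf (.tri 10 12 15)) (.leaf (.nb 10 57598))) (.node (.leaf (.wwe 11 12 13)) (.leaf (.nb 15 94462))))) (.node (.node (.node (.leaf (.tri 11 13 14)) (.leaf (.wwe 16 12 14))) (.node (.leaf (.tri 14 10 16)) (.leaf (.nb 14 106750)))) (.node (.node (.leaf (.tri 13 12 15)) (.leaf (.nb 11 106750))) (.leaf (.wwe 13 10 12)))))))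

def a73205_5 : Tr Rule := (.node a73205_2 a73205_4)

def a73205_6 : Tr Rule := (.node (.node (.node (.node (.node (.leaf (.tri 10 16 11)) (.leaf (.wwe 13 12 14))) (.node (.leaf (.ew 13 15)) (.leaf (.nb 11 57598)))) (.node (.node (.leaf (.ew 11 14)) (.leaf (.wwe 16 12 15))) (.node (.leaf (.tri 14 13 16)) (.leaf (.nb 14 102654))))) (.node (.node (.node (.leaf (.tri 11 16 13)) (.leaf (.wwe 15 12 13))) (.node (.leaf (.ew 11 16)) (.leaf (.nb 12 106750)))) (.node (.node (.leaf (.ew 10 15)) (.leaf (.nb 10 37118))) (.node (.leaf (.wwe 11 13 15)) (.leaf (.nb 16 24830)))))) (.node (.node (.node (.node (.leaf (.tri 11 16 12)) (.leaf (.wwe 14 11 15))) (.node (.leaf (.tri 10 13 16)) (.leaf (.nb 11 12542)))) (.node (.node (.leaf (.tri 13 11 14)) (.leaf (.nb 10 73982))) (.node (.leaf (.ew 15 16)) (.leaf (.nb 15 90366))))) (.node (.node (.node (.leaf (.tri 10 12 14)) (.leaf (.wwe 15 13 16))) (.node (.leaf (.tri 13 11 16)) (.leaf (.nb 13 86270)))) (.node (.node (.leaf (.tri 12 14 15)) (.leaf (.nb 10 28926))) (.node (.leaf (.wwe 12 11 15)) (.leaf (.ord 10 0 2)))))))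

def a73205_7 : Tr Rule := (.node a73205_6 (.node (.node (.node (.node (.node (.leaf (.tri 10 16 12)) (.leaf (.wwe 13 11 16))) (.node (.leaf (.tri 14 13 15)) (.leaf (.nb 11 20734)))) (.node (.node (.leaf (.tri 12 15 14)) (.leaf (.nb 10 16638))) (.node (.leaf (.tri 15 11 16)) (.leaf (.nb 14 110846))))) (.node (.node (.node (.leaf (.tri 12 14 13)) (.leaf (.wwe 15 13 14))) (.node (.leaf (.tri 12 14 16)) (.leaf (.nb 13 82174)))) (.node (.node (.leaf (.ew 11 15)) (.leaf (.nb 10 53502))) (.node (.leaf (.wwe 11 15 16)) (.leaf (.nb 16 45310)))))) (.node (.node (.node (.node (.leaf (.tri 10 16 13)) (.leaf (.wwe 14 15 16))) (.node (.leaf (.tri 11 12 16)) (.leaf (.nb 11 28926)))) (.node (.node (.leaf (.ew 13 14)) (.leaf (.nb 10 90366))) (.node (.leaf (.wwe 10 14 16)) (.leaf (.nb 15 28926))))) (.node (.node (.node (.leaf (.ew 10 14)) (.leaf (.wwe 16 11 14))) (.node (.leaf (.ew 13 16)) (.leaf (.nb 14 41214)))) (.node (.node (.leaf (.tri 13 11 15)) (.leaf (.nb 11 41214))) (.leaf (.wwe 12 15 16)))))))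

def a73205_8 : Tr Rule := (.node (.node (.node (.node (.node (.leaf (.tri 10 14 12)) (.leaf (.wwe 13 14 15))) (.node (.leaf (.tri 14 11 15)) (.leaf (.nb 11 37118)))) (.node (.node (.leaf (.tri 12 11 14)) (.leaf (.nb 10 33022))) (.node (.leaf (.ew 14 16)) (.leaf (.nb 14 78078))))) (.node (.node (.node (.leaf (.tri 12 10 13)) (.leaf (.wwe 15 11 14))) (.node (.leaf (.tri 12 11 16)) (.leaf (.nb 12 57598)))) (.node (.node (.leaf (.tri 11 14 15)) (.leaf (.nb 10 20734))) (.node (.leaf (.wwe 11 10 16)) (.leaf (.nb 16 53502)))))) (.node (.node (.node (.node (.leaf (.tri 10 12 13)) (.leaf (.wwe 14 10 16))) (.node (.leaf (.tri 10 15 16)) (.leaf (.nb 11 45310)))) (.node (.node (.leaf (.tri 13 15 14)) (.leaf (.nb 10 106750))) (.node (.leaf (.wwe 10 14 15)) (.leaf (.nb 15 86270))))) (.node (.node (.node (.leaf (.tri 10 15 14)) (.leaf (.wwe 16 12 13))) (.node (.leaf (.tri 13 14 16)) (.leaf (.nb 13 119038)))) (.node (.node (.leaf (.ew 12 15)) (.leaf (.nb 11 49406))) (.node (.leaf (.wwe 12 13 16)) (.leaf (.ord 10 1 2)))))))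

def a73205_9 : Tr Rule := (.node a73205_8 (.node (.node (.node (.node (.node (.leaf (.tri 11 14 12)) (.leaf (.wwe 13 15 16))) (.node (.leaf (.ew 14 15)) (.leaf (.nb 11 53502)))) (.node (.node (.leaf (.ew 12 14)) (.leaf (.nb 10 49406))) (.node (.leaf (.tri 15 13 16)) (.leaf (.nb 15 73982))))) (.node (.node (.node (.leaf (.tri 12 16 13)) (.leaf (.wwe 15 11 16))) (.node (.leaf (.ew 12 16)) (.leaf (.nb 13 69886)))) (.node (.node (.leaf (.tri 12 11 15)) (.leaf (.nb 10 78078))) (.node (.leaf (.wwe 12 10 14)) (.leaf (.nb 16 61694)))))) (.node (.node (.node (.node (.leaf (.tri 11 14 13)) (.leaf (.wwe 15 10 13))) (.node (.leaf (.tri 11 14 16)) (.leaf (.nb 12 114942)))) (.node (.node (.leaf (.tri 10 14 15)) (.leaf (.nb 10 123134))) (.node (.leaf (.wwe 11 12 14)) (.leaf (.nb 16 49406))))) (.node (.node (.node (.leaf (.tri 11 15 14)) (.leaf (.wwe 16 13 14))) (.node (.leaf (.tri 14 11 16)) (.leaf (.nb 14 69886)))) (.node (.node (.leaf (.tri 13 14 15)) (.leaf (.nb 11 24830))) (.leaf (.wwe 13 11 12)))))))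

def a73205_10 : Tr Rule := (.node a73205_7 a73205_9)

def b73205_11 : Tr ℕ := (.node (.node (.node (.node (.node (.node (.leaf (4159961276869612329071780089)) (.leaf (309063026033456064250))) (.node (.leaf (14714733117691)) (.leaf (1789)))) (.node (.node (.leaf (1015615536560386610427643)) (.leaf (18421333713147))) (.leaf (8758800635)))) (.node (.node (.node (.leaf (14800145921787)) (.leaf (1265921727636573768505154))) (.node (.leaf (146948290155509500)) (.leaf (0)))) (.node (.node (.leaf (60621371349254429)) (.leaf (1097997))) (.leaf (35876349310786))))) (.node (.node (.node (.node (.leaf (4159961630806118356688548089)) (.leaf (1341441524687938843095288))) (.node (.leaf (60271521069913849)) (.leaf (269)))) (.node (.node (.leaf (4159961237669998460818790173)) (.leaf (309043499944478093561))) (.leaf (5173305583599899085791946511)))) (.node (.node (.node (.leaf (69792805921869521462820311376376076)) (.leaf (30887733057))) (.leaf (601900196476658546498))) (.node (.node (.leaf (16958988113538074259170706714889)) (.leaf (1516))) (.leaf (2138326)))))) (.node (.node (.node (.node (.node (.leaf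 (4159805461828759761916440825)) (.leaf (1265921804196662446514426))) (.node (.leaf (3592464140)) (.leaf (1786)))) (.node (.node (.leaf (14800139491066)) (.leaf (18421585524545))) (.leaf (37138482427659)))) (.node (.node (.node (.leaf (5147823989129311297138042618)) (.leaf (18421585666315))) (.leaf (354985470459015200872068680109039382796))) (.node (.node (.leaf (75732647414833434)) (.leaf (4497387803))) (.leaf (2138397))))) (.node (.node (.node (.node (.leaf (60621397695641067)) (.leaf (18421591879931))) (.node (.leaf (601900196476966973655)) (.leaf (575)))) (.node (.node (.leaf (4159961237670102777214387673)) (.leaf (18421333717243))) (.leaf (2139900)))) (.node (.node (.node (.leaf (4165868918562282221834651387)) (.leaf (4497457438))) (.leaf (2058472512791784767703))) (.node (.node (.leaf (69792647812345683942674983977873692)) (.leaf (7459065))) (.leaf (1839)))))))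

def b73205_12 : Tr ℕ := (.node (.node (.node (.node (.node (.node (.leaf (60536846979928349)) (.leaf (75454840340199234))) (.node (.leaf (14714733119226)) (.leaf (29964990203)))) (.node (.node (.leaf (248305137071745529596)) (.leaf (75454814307428128))) (.leaf (21158756185781204420993653788941)))) (.node (.node (.node (.leaf (4159961612440420389103841513)) (.leaf (309062921786272891094))) (.leaf (126447446574860))) (.node (.node (.leaf (14800139489528)) (.leaf (2710927814566881375789613))) (.leaf (22506311872825613579898456016634))))) (.node (.node (.node (.node (.leaf (248305244961340629549)) (.leaf (5185215709989637428240941323))) (.node (.leaf (601900196476966973654)) (.leaf (1822)))) (.node (.node (.leaf (17039201229496400672223284881147)) (.leaf (75453782905968413))) (.leaf (147052812462618434)))) (.node (.node (.node (.leaf (248305137071745517034)) (.leaf (18421585666299))) (.leaf (35876047401229))) (.node (.node (.leaf (4140377978160013160009933031)) (.leaf (30552332097))) (.leaf (2139936)))))) (.node (.node (.node (.node (.node (.leaf (1015618203901679224464875)) (.leaf (3591495911)))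 (.node (.leaf (16964924989469472762051379193615)) (.leaf (1517)))) (.node (.node (.leaf (1270585376750452291380987)) (.leaf (1098012))) (.leaf (8758800668)))) (.node (.node (.node (.leaf (14800145920286)) (.leaf (18421585667580))) (.leaf (21158782867134523443702983157516))) (.node (.node (.leaf (8758585153)) (.leaf (268))) (.leaf (8758585099))))) (.node (.node (.node (.node (.leaf (69792598302002034636286585625166057)) (.leaf (309495633281713039153))) (.node (.leaf (146948290759415617)) (.leaf (1787)))) (.node (.node (.leaf (14800139491065)) (.leaf (18421333717279))) (.leaf (146949526776981280)))) (.node (.node (.node (.leaf (1017057841445869684187420)) (.leaf (79957388572845853))) (.leaf (146948290155280194))) (.node (.node (.leaf (1017388739382356632119054)) (.leaf (30015611095))) (.leaf (1265922170136418789226238)))))))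

def b73205_13 : Tr ℕ := (.node b73205_11 b73205_12)

def b73205_14 : Tr ℕ := (.node (.node (.node (.node (.node (.node (.leaf (4159961277215826571917502256)) (.leaf (309063026060410611486))) (.node (.leaf (2465717556526952628594427)) (.leaf (9647781643)))) (.node (.node (.leaf (1017057937604758574450429)) (.leaf (4497457366))) (.leaf (146948290709153531)))) (.node (.node (.node (.leaf (4159961612440420383969939723)) (.leaf (309062921786272892701))) (.leaf (18356859023647))) (.node (.node (.leaf (14800139489564)) (.leaf (1099585))) (.leaf (8758874343))))) (.node (.node (.node (.node (.leaf (4165869270203620063859160879)) (.leaf (327586787598434918686))) (.node (.leaf (14714726823709)) (.leaf (540)))) (.node (.node (.leaf (60621371355404028)) (.leaf (309058694782846619931))) (.leaf (2138379)))) (.node (.node (.node (.leaf (4165868918221521529819230766)) (.leaf (75453784097009878))) (.leaf (35875779039446))) (.node (.node (.leaf (246872150439514584827)) (.leaf (18490288365783))) (.leaf (8758589195)))))) (.node (.node (.node (.node (.node (.leaf (1015577505329312804495592)) (.leaf (19657361617111)))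 (.node (.leaf (4140377623136362695184405037)) (.leaf (1857)))) (.node (.node (.leaf (248305137071734900202)) (.leaf (4497457403))) (.leaf (86689241879035340581937667258831117)))) (.node (.node (.node (.leaf (17039202764555961979602276042543)) (.leaf (641095023970044999490))) (.leaf (1261161299372282567840317))) (.node (.node (.leaf (3591272257)) (.leaf (1097979))) (.leaf (10097964394156759073674981662))))) (.node (.node (.node (.node (.leaf (4159961589382270530463184634)) (.leaf (18421591881466))) (.node (.leaf (75171076129289995)) (.leaf (287)))) (.node (.node (.leaf (60621371355402525)) (.leaf (18420434327293))) (.leaf (2139934)))) (.node (.node (.node (.leaf (29344148468077041580770445068)) (.leaf (327505463594376615712))) (.leaf (2465364767873337098618689))) (.node (.node (.leaf (4159890796827973427494110973)) (.leaf (1821))) (.leaf (1341795482019339729819407)))))))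

def b73205_15 : Tr ℕ := (.node (.node (.node (.node (.node (.node (.leaf (4159805439928314013396762891)) (.leaf (5185215709989529380923089178))) (.node (.leaf (2630666036734075800389390)) (.leaf (7315671)))) (.node (.node (.leaf (427013554922561823)) (.leaf (75454814303065851))) (.leaf (35876047536414)))) (.node (.node (.node (.leaf (247953119744520999469)) (.leaf (75454814889226780))) (.leaf (10098209606731339392844153082))) (.node (.node (.leaf (3613315305)) (.leaf (4497323789))) (.leaf (8758874381))))) (.node (.node (.node (.node (.leaf (427121444501041402)) (.leaf (1265921804196662451470584))) (.node (.leaf (2465383204769656724091148)) (.leaf (1823)))) (.node (.node (.leaf (18465695252169638795392171747085)) (.leaf (18421333717277))) (.leaf (8765030614)))) (.node (.node (.node (.leaf (60621371355408158)) (.leaf (1341462297559779197957954))) (.leaf (601900196476027676412))) (.node (.node (.leaf (1017388739384718277011193)) (.leaf (30552191259))) (.leaf (522)))))) (.node (.node (.node (.node (.node (.leaf (4159961630806099801825841385)) (.leaf (5185215356032217839966323259))) (.node (.leaf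 (246872150302367125773)) (.leaf (1840)))) (.node (.node (.leaf (248305137051451245119)) (.leaf (11084702478769175725622665448))) (.leaf (4836794474121201749006010106)))) (.node (.node (.node (.leaf (3613316875)) (.leaf (75454814889160954))) (.leaf (2465383204768393406456092))) (.node (.node (.leaf (4141818238918474516074116893)) (.leaf (1515))) (.leaf (8758585120))))) (.node (.node (.node (.node (.leaf (4159963029742362179534829359)) (.leaf (4497458955))) (.node (.leaf (146947190945575126)) (.leaf (1788)))) (.node (.node (.leaf (248305137046547330811)) (.leaf (4497395927))) (.leaf (146949526776979725)))) (.node (.node (.node (.leaf (4165868918562282226683265309)) (.leaf (878401))) (.leaf (35876047401191))) (.node (.node (.leaf (246785843080274620701)) (.leaf (7329601))) (.leaf (5495994294351235320013496570)))))))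

def b73205_16 : Tr ℕ := (.node b73205_14 b73205_15)

def h73205_0 : List ℕ := [722120873, 47577105772437549, 844840754131166, 1695178936, 32790638277513656189640080663802024, 16351062534019000833971389949311916522973239177384, 13153616312437061513986990887005, 1493930148, 102658439839111028996, 239297712374871050644951967629519999040, 19589269998924296111975792664782399578241711679303151412855563559005, 4345565447, 220685608720920206352091336636504244295, 2885836832, 1857651668820177252082409565, 3443441134455405543868768349, 1079894494313942371698379535287408903195142710340210301104242, 453545536931961034113197, 22734762515974017538416310734795022, 1055275220322233837057641114475835094359626029448299297531752519, 3003408416, 4393350321755016607735249874766234209583464513, 4758156117068517666755846909393401911303800914616449945980661813, 1035868931377484387297837978182032186840861814010799972446261, 925623035338263829549285, 996473052534552230238439062578960529518688, 484796091097065231162959350870678149611619, 320531900703418175587, 7530042316264064311883274268952, 18699684000968573026287525056565,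 14931739943437023372602631902343448, 22067916534742561704547960644883030880536, 26752840253182045, 194872451257065492756, 8254287551252520135483201906742268034607883955351605, 4749095199, 92423082112590514460818504809104532184422541542248724, 1344932856046806781705160009010014201471081, 4144394337, 82442056274313071482603419919847526, 868962727692386628292653, 903893679764806950153237785688169475641461, 19151708869681255, 19434765367304260, 56164929360469497634198818048757865, 18219799647199715464325891644862835286984727438449256094518194868277, 13431472830369097034271959815237739621338391331105, 2497721802546803941123194758817201936799973665, 1475484329095971408452091463551917340311841, 855031322557544761360542335758286065844513, 152328794327851528739952735277035040666003646048419484755215698352215822569748, 84571257114792559919050007143455526933784313452515604, 4798753437458675, 1024249, 4211163442, 12919463039073, 63337918098043121, 4371272817813582396827702771899146430300033046, 2418914236275440251669786872, 909308952346021950303948716117802331918401, 198531981127562914115762, 46168082527834208,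 61372108643190300878345290777648664276792370557882467, 18817881993460471353998367910402787170557950332993, 315712794669363517118360269364746044862837404183363325974, 15050303864855, 99956468488814441504960348584923201, 3037089853, 1525398576480246095408595041533805458173408932454704561262899, 4700497272910350557840146537, 598916907136433502799350786715904401215509, 137988220037950167560471901944527323941669930144773525609, 8224738838672731466409864958193317354671220985877, 1613968872915111106184678241626457225637316091691715116609361399923581329289537, 1263245146975955952005834244872417009996083, 3269104063670342256798357627931593621094832853357577885282853925140, 853999998726928801074587471797458993956617352436849018220871, 297749992119390841199453614532097761607, 6737450431791102454046706053140, 991553, 1061685000085558597505859955503131266429258, 152737700290054440383000279790864513151306, 5100503090, 844018651425427181323733231934172730429774, 942013282171235349452167458903817838059625, 54893462989844486, 65557029158504687255533430121705478, 9869841509320209237600616064493130208002325143558,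 1440711466152755796983814, 4061401395, 5721108822, 207422848857943873227679068028159713286, 757064471568495219716171366979613487435782, 269785602612940324874, 16170159122909969442607181934017917802073693786446, 3841683235378423661260446574499806729623631728974, 82690666803989767369265939083676410232517567776723278, 29048304328114868191394665955086445617830584045917, 64255943209958441876118756294467819, 7694688163319698233201378961418442664551145821]

def h73205_1 : List ℕ := [1204262279732009493737516, 1114657204337385384390961, 1831896636378485634064609871793449355402550731101, 55452427012722759, 13952486744118, 1469271215740525845525461190841242977861135158383109848221501223423315957436765, 15609534381018587737372060004710, 1048719312293006548382054, 1896717607596012702619923663119911039753347430, 1056281678199963525714128134511408549618025, 1562124928015474192997295637388560966097133926, 301951020946711562160530468068373624411956545951148433771, 17995363864207397898012279100201059350590417965418, 55259291230026019973433579045106187931977638854826299754, 11476756725884, 5988962431227267594591972644877558251254519148359818282479615130679132928809034086,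 354010964336784252263345037534635576855209193527167050090, 4571935883294956414148889152912447250612212081, 362262316074600815333501225632252518849383035607717561381500078369327747379, 1242927468123746641520819557605602562608061431016123492938097, 1475253782780656705441403638820382120562143307898017194299761, 88431577309790181045793710650629749267383464754540999691306327259599217, 362233857744725414532464361532598693107280992758883781200742629451472687473, 106120145756991566008628500387538266266783763381353905389245737161961830, 98680, 13470124982276, 3946694284604177883973783928, 1020140706420408334471545, 982479754820254568693634306747428408829383032, 4549613374703894863667220024140032320898306424, 1029547490900922013754626468036738448879388795928116255494520, 1548393384442484133154509177, 4798462967335956447069397369, 4161692025, 1581362, 86523170061041545593, 5226087596409, 1837046787636158203957624, 5488041459616349270941276674527472762530271608, 8474762449893359943364119779829987291944157561, 1517490848935641878161858340593229631116833145, 74318236181262605944755799505473912, 1404732146938554028776749274695210704015736,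 15361392456485879452072277888496872866825660737749369, 28079288648587779664762477339843815408171355781697912, 268508278647368773172867339321886687609, 2755306992014, 95224759163208935256239814427808590190112981369, 1166573260836765039038840, 14088868684153, 134931852828131565910609760210785891138603697177844220281, 8042565156706068868077383054253488066586691993977, 1028348, 6795764099, 308036473442004182814081231277725773429022930654708863352, 15925112424401966320620725047672, 402044155236389703346407488518769520419406046858064269119864, 215607586820934996345, 222011907332458359602114276846330155384, 1253781, 1687794, 116277415730622873, 996543869871732375826841, 996438931237463182139768, 78954979104085592499451699278481498661423622026400120, 251361078105198955344190595938119491172958118265669259640, 1048421589984762978474001504213445130853146615771157738520953, 5912912363897, 99203058316831502713, 185494069059677712671482417614194483090779628953534959992, 54526169328898685154361865168982392, 1763147455372737305825653192654081620582793593, 151834555239484993551787733538278369866086722450048389496,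 20442587684960901201139475124600, 318774415528811353100107537217411036062269622084284420472, 102786842363241173050729740018572471263505165450653176184, 4679453933496299773954377912306292856803163475489703102428713336, 6325303703823909175629510663477933549349932665361645893202710904, 4194640613753, 9611991522137710499972557722972806034604347768, 30512592043011612354196497113993593, 115185637135153215038235411726984765038274054214521569331458081776177528, 16808096276363340849744056038344681725547163128184, 266675, 2048360883, 13232225325467986790458985234867, 324342668881730435742133935422977032568, 3724464057593732939232685854910149486366638456, 59115476375254857106628918852374821221171710549633351882206122165879160, 1054602150897974446343616386151018346007418633549722303545720, 218009946274217884784853076934741676467, 301740276138398528660252531709164867960, 5424685770452472252639818837358306392669039161733476395919097718061707894105788851, 53228808146661375375044629034127795, 102738577824803713406388861386107518001341500770580136373, 1723504074883622892254507848631911643158456324315754835121754547,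 329489169067381184647369010228181115749496357396007330169, 5167994450760513879017752338999448959360391570048438565902983544, 5101818306, 23028324585922]

def h73205_2 : List ℕ := [30106665603522, 723202501, 958091717, 857485765, 7484481989, 774989351807733173330376, 2350670281, 974868938, 216809907961957705686885145466084573643]

def t73205 : Tr Rule := (.node a73205_5 a73205_10)

def u73205 : Tr ℕ := (.node b73205_13 b73205_16)

def h73205 : List ℕ := h73205_0 ++ (h73205_1 ++ (h73205_2))

def lab73205 : List ℕ := [0, 1, 2, 2, 2, 2, 2, 2, 3, 3, 4, 4, 6, 6, 6, 6, 6]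

theorem c73205 : check lab73205 t73205 253 u73205 h73205 461 = true := by decide +kernel

def a55205_0 : Tr Rule := (.node (.node (.node (.node (.node (.leaf (.tri 10 12 11)) (.leaf (.wwe 13 11 14))) (.node (.leaf (.tri 13 16 15)) (.leaf (.nb 11 90174)))) (.node (.node (.leaf (.tri 11 16 14)) (.leaf (.wwe 16 10 15))) (.node (.leaf (.tri 14 12 16)) (.leaf (.nb 14 36926))))) (.node (.node (.node (.leaf (.tri 11 15 13)) (.leaf (.wwe 15 11 13))) (.node (.leaf (.tri 11 15 16)) (.leaf (.nb 12 41022)))) (.node (.node (.leaf (.tri 10 16 15)) (.leaf (.nb 10 69694))) (.node (.leaf (.wwe 11 12 15)) (.leaf (.nb 16 41022)))))) (.node (.node (.node (.node (.leaf (.tri 11 15 12)) (.leaf (.wwe 14 12 13))) (.node (.leaf (.tri 10 12 16)) (.leaf (.nb 11 118846)))) (.node (.node (.leaf (.tri 13 10 14)) (.leaf (.nb 10 114750))) (.node (.leaf (.tri 15 14 16)) (.leaf (.nb 15 24638))))) (.node (.node (.node (.leaf (.ew 12 13)) (.leaf (.wwe 15 12 16))) (.node (.leaf (.tri 13 10 16)) (.leaf (.nb 13 102462)))) (.node (.node (.leaf (.tri 12 13 15)) (.leaf (.nb 10 45118))) (.node (.leaf (.wwe 12 13 14)) (.leaf (.ord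 10 0 1)))))))

def a55205_1 : Tr Rule := (.node (.node (.node (.node (.node (.leaf (.tri 10 15 12)) (.leaf (.wwe 13 10 16))) (.node (.leaf (.tri 14 12 15)) (.leaf (.nb 11 102462)))) (.node (.node (.leaf (.tri 12 13 14)) (.leaf (.nb 10 98366))) (.node (.leaf (.tri 15 10 16)) (.leaf (.nb 14 45118))))) (.node (.node (.node (.leaf (.tri 12 11 13)) (.leaf (.wwe 15 12 14))) (.node (.leaf (.tri 12 13 16)) (.leaf (.nb 12 122942)))) (.node (.node (.leaf (.tri 11 16 15)) (.leaf (.nb 10 86078))) (.node (.leaf (.wwe 11 14 16)) (.leaf (.nb 16 12350)))))) (.node (.node (.node (.node (.leaf (.tri 10 14 13)) (.leaf (.wwe 14 13 16))) (.node (.leaf (.ew 10 16)) (.leaf (.nb 11 110654)))) (.node (.node (.leaf (.tri 13 16 14)) (.leaf (.nb 10 24638))) (.node (.leaf (.wwe 10 11 16)) (.leaf (.nb 15 77886))))) (.node (.node (.node (.leaf (.tri 10 16 14)) (.leaf (.wwe 16 10 14))) (.node (.leaf (.tri 13 15 16)) (.leaf (.nb 14 73790)))) (.node (.node (.leaf (.tri 13 10 15)) (.leaf (.nb 11 73790))) (.node (.leaf (.wwe 12 14 16)) (.leaf (.ord 10 1 3)))))))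

def a55205_2 : Tr Rule := (.node a55205_0 a55205_1)

def a55205_3 : Tr Rule := (.node (.node (.node (.node (.node (.leaf (.tri 10 13 12)) (.leaf (.wwe 13 12 15))) (.node (.leaf (.tri 14 10 15)) (.leaf (.nb 11 69694)))) (.node (.node (.leaf (.tri 12 10 14)) (.leaf (.wwe 16 14 15))) (.node (.leaf (.tri 14 15 16)) (.leaf (.nb 14 12350))))) (.node (.node (.node (.leaf (.ew 11 13)) (.leaf (.wwe 15 10 14))) (.node (.leaf (.tri 12 10 16)) (.leaf (.nb 12 90174)))) (.node (.node (.leaf (.tri 11 13 15)) (.leaf (.nb 10 102462))) (.node (.leaf (.wwe 11 14 15)) (.leaf (.nb 16 57406)))))) (.node (.node (.node (.node (.leaf (.ew 11 12)) (.leaf (.wwe 14 12 15))) (.node (.leaf (.tri 10 14 16)) (.leaf (.nb 11 77886)))) (.node (.node (.leaf (.tri 13 12 14)) (.leaf (.nb 10 41022))) (.node (.leaf (.wwe 10 11 14)) (.leaf (.nb 15 69694))))) (.node (.node (.node (.leaf (.tri 10 13 14)) (.leaf (.wwe 15 14 16))) (.node (.leaf (.tri 13 12 16)) (.leaf (.nb 13 53310)))) (.node (.node (.leaf (.tri 12 16 15)) (.leaf (.nb 11 98366))) (.node (.leaf (.wwe 12 13 15)) (.leaf (.ord 10 0 3)))))))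

def a55205_4 : Tr Rule := (.node a55205_3 (.node (.node (.node (.node (.node (.leaf (.ew 10 12)) (.leaf (.wwe 13 12 16))) (.node (.leaf (.tri 14 16 15)) (.leaf (.nb 11 86078)))) (.node (.node (.leaf (.tri 12 16 14)) (.leaf (.nb 10 81982))) (.node (.leaf (.tri 15 12 16)) (.leaf (.nb 15 81982))))) (.node (.node (.node (.leaf (.tri 12 15 13)) (.leaf (.wwe 15 10 16))) (.node (.leaf (.tri 12 15 16)) (.leaf (.nb 13 114750)))) (.node (.node (.leaf (.tri 12 10 15)) (.leaf (.nb 10 12350))) (.node (.leaf (.wwe 12 10 13)) (.leaf (.nb 16 28734)))))) (.node (.node (.node (.node (.leaf (.ew 10 13)) (.leaf (.wwe 15 10 12))) (.node (.leaf (.tri 11 13 16)) (.leaf (.nb 12 98366)))) (.node (.node (.leaf (.tri 10 12 15)) (.leaf (.nb 10 57406))) (.node (.leaf (.wwe 11 12 13)) (.leaf (.nb 15 94270))))) (.node (.node (.node (.leaf (.tri 11 13 14)) (.leaf (.wwe 16 12 14))) (.node (.leaf (.tri 14 10 16)) (.leaf (.nb 14 106558)))) (.node (.node (.leaf (.tri 13 12 15)) (.leaf (.nb 11 106558))) (.leaf (.wwe 13 10 12)))))))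

def a55205_5 : Tr Rule := (.node a55205_2 a55205_4)

def a55205_6 : Tr Rule := (.node (.node (.node (.node (.node (.leaf (.tri 10 16 11)) (.leaf (.wwe 13 12 14))) (.node (.leaf (.ew 13 15)) (.leaf (.nb 11 57406)))) (.node (.node (.leaf (.ew 11 14)) (.leaf (.wwe 16 12 15))) (.node (.leaf (.tri 14 13 16)) (.leaf (.nb 14 102462))))) (.node (.node (.node (.leaf (.tri 11 16 13)) (.leaf (.wwe 15 12 13))) (.node (.leaf (.ew 11 16)) (.leaf (.nb 12 106558)))) (.node (.node (.leaf (.ew 10 15)) (.leaf (.nb 10 36926))) (.node (.leaf (.wwe 11 13 15)) (.leaf (.nb 16 24638)))))) (.node (.node (.node (.node (.leaf (.tri 11 16 12)) (.leaf (.wwe 14 11 15))) (.node (.leaf (.tri 10 13 16)) (.leaf (.nb 11 12350)))) (.node (.node (.leaf (.tri 13 11 14)) (.leaf (.nb 10 73790))) (.node (.leaf (.ew 15 16)) (.leaf (.nb 15 90174))))) (.node (.node (.node (.leaf (.tri 10 12 14)) (.leaf (.wwe 15 13 16))) (.node (.leaf (.tri 13 11 16)) (.leaf (.nb 13 86078)))) (.node (.node (.leaf (.tri 12 14 15)) (.leaf (.nb 10 28734))) (.node (.leaf (.wwe 12 11 15)) (.leaf (.ord 10 0 2)))))))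

def a55205_7 : Tr Rule := (.node a55205_6 (.node (.node (.node (.node (.node (.leaf (.tri 10 16 12)) (.leaf (.wwe 13 11 16))) (.node (.leaf (.tri 14 13 15)) (.leaf (.nb 11 20542)))) (.node (.node (.leaf (.tri 12 15 14)) (.leaf (.nb 10 16446))) (.node (.leaf (.tri 15 11 16)) (.leaf (.nb 14 110654))))) (.node (.node (.node (.leaf (.tri 12 14 13)) (.leaf (.wwe 15 13 14))) (.node (.leaf (.tri 12 14 16)) (.leaf (.nb 13 81982)))) (.node (.node (.leaf (.ew 11 15)) (.leaf (.nb 10 53310))) (.node (.leaf (.wwe 11 15 16)) (.leaf (.nb 16 45118)))))) (.node (.node (.node (.node (.leaf (.tri 10 16 13)) (.leaf (.wwe 14 15 16))) (.node (.leaf (.tri 11 12 16)) (.leaf (.nb 11 28734)))) (.node (.node (.leaf (.ew 13 14)) (.leaf (.nb 10 90174))) (.node (.leaf (.wwe 10 14 16)) (.leaf (.nb 15 28734))))) (.node (.node (.node (.leaf (.ew 10 14)) (.leaf (.wwe 16 11 14))) (.node (.leaf (.ew 13 16)) (.leaf (.nb 14 41022)))) (.node (.node (.leaf (.tri 13 11 15)) (.leaf (.nb 11 41022))) (.leaf (.wwe 12 15 16)))))))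

def a55205_8 : Tr Rule := (.node (.node (.node (.node (.node (.leaf (.tri 10 14 12)) (.leaf (.wwe 13 14 15))) (.node (.leaf (.tri 14 11 15)) (.leaf (.nb 11 36926)))) (.node (.node (.leaf (.tri 12 11 14)) (.leaf (.nb 10 32830))) (.node (.leaf (.ew 14 16)) (.leaf (.nb 14 77886))))) (.node (.node (.node (.leaf (.tri 12 10 13)) (.leaf (.wwe 15 11 14))) (.node (.leaf (.tri 12 11 16)) (.leaf (.nb 12 57406)))) (.node (.node (.leaf (.tri 11 14 15)) (.leaf (.nb 10 20542))) (.node (.leaf (.wwe 11 10 16)) (.leaf (.nb 16 53310)))))) (.node (.node (.node (.node (.leaf (.tri 10 12 13)) (.leaf (.wwe 14 10 16))) (.node (.leaf (.tri 10 15 16)) (.leaf (.nb 11 45118)))) (.node (.node (.leaf (.tri 13 15 14)) (.leaf (.nb 10 106558))) (.node (.leaf (.wwe 10 14 15)) (.leaf (.nb 15 86078))))) (.node (.node (.node (.leaf (.tri 10 15 14)) (.leaf (.wwe 16 12 13))) (.node (.leaf (.tri 13 14 16)) (.leaf (.nb 13 118846)))) (.node (.node (.leaf (.ew 12 15)) (.leaf (.nb 11 49214))) (.node (.leaf (.wwe 12 13 16)) (.leaf (.ord 10 1 2)))))))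

def a55205_9 : Tr Rule := (.node a55205_8 (.node (.node (.node (.node (.node (.leaf (.tri 11 14 12)) (.leaf (.wwe 13 15 16))) (.node (.leaf (.ew 14 15)) (.leaf (.nb 11 53310)))) (.node (.node (.leaf (.ew 12 14)) (.leaf (.nb 10 49214))) (.node (.leaf (.tri 15 13 16)) (.leaf (.nb 15 73790))))) (.node (.node (.node (.leaf (.tri 12 16 13)) (.leaf (.wwe 15 11 16))) (.node (.leaf (.ew 12 16)) (.leaf (.nb 13 69694)))) (.node (.node (.leaf (.tri 12 11 15)) (.leaf (.nb 10 77886))) (.node (.leaf (.wwe 12 10 14)) (.leaf (.nb 16 61502)))))) (.node (.node (.node (.node (.leaf (.tri 11 14 13)) (.leaf (.wwe 15 10 13))) (.node (.leaf (.tri 11 14 16)) (.leaf (.nb 12 114750)))) (.node (.node (.leaf (.tri 10 14 15)) (.leaf (.nb 10 122942))) (.node (.leaf (.wwe 11 12 14)) (.leaf (.nb 16 49214))))) (.node (.node (.node (.leaf (.tri 11 15 14)) (.leaf (.wwe 16 13 14))) (.node (.leaf (.tri 14 11 16)) (.leaf (.nb 14 69694)))) (.node (.node (.leaf (.tri 13 14 15)) (.leaf (.nb 11 24638))) (.leaf (.wwe 13 11 12)))))))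

def a55205_10 : Tr Rule := (.node a55205_7 a55205_9)

def b55205_11 : Tr ℕ := (.node (.node (.node (.node (.node (.node (.leaf (4159961276869612329071780089)) (.leaf (309063026033456064250))) (.node (.leaf (14714733117691)) (.leaf (1789)))) (.node (.node (.leaf (1015615536560386610427643)) (.leaf (18421333713147))) (.leaf (8758800635)))) (.node (.node (.node (.leaf (14800145921787)) (.leaf (1265921727636573768505154))) (.node (.leaf (146948290155509500)) (.leaf (0)))) (.node (.node (.leaf (60621371349254429)) (.leaf (1097997))) (.leaf (35876349310786))))) (.node (.node (.node (.node (.leaf (4159961630806118356688548089)) (.leaf (1341441524687938843095288))) (.node (.leaf (60271521069913849)) (.leaf (269)))) (.node (.node (.leaf (4159961237669998460818790173)) (.leaf (309043499944478093561))) (.leaf (5173305583599899085791946511)))) (.node (.node (.node (.leaf (69792805921869521462820311376376076)) (.leaf (30887733057))) (.leaf (601900196476658546498))) (.node (.node (.leaf (16958988113538074259170706714889)) (.leaf (1516))) (.leaf (2138326)))))) (.node (.node (.node (.node (.node (.leaf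 (4159805461828759761916440825)) (.leaf (1265921804196662446514426))) (.node (.leaf (3592464140)) (.leaf (1786)))) (.node (.node (.leaf (14800139491066)) (.leaf (18421585524545))) (.leaf (37138482427659)))) (.node (.node (.node (.leaf (5147823989129311297138042618)) (.leaf (18421585666315))) (.leaf (354985470459015200872068680109039382796))) (.node (.node (.leaf (75732647414833434)) (.leaf (4497387803))) (.leaf (2138397))))) (.node (.node (.node (.node (.leaf (60621397695641067)) (.leaf (18421591879931))) (.node (.leaf (601900196476966973655)) (.leaf (575)))) (.node (.node (.leaf (4159961237670102777214387673)) (.leaf (18421333717243))) (.leaf (2139900)))) (.node (.node (.node (.leaf (4165868918562282221834651387)) (.leaf (4497457438))) (.leaf (2058472512791784767703))) (.node (.node (.leaf (69792647812345683942674983977873692)) (.leaf (7459065))) (.leaf (1839)))))))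

def b55205_12 : Tr ℕ := (.node (.node (.node (.node (.node (.node (.leaf (60536846979928349)) (.leaf (75454840340199234))) (.node (.leaf (14714733119226)) (.leaf (29964990203)))) (.node (.node (.leaf (248305137071745529596)) (.leaf (75454814307428128))) (.leaf (21158756185781204420993653788941)))) (.node (.node (.node (.leaf (4159961612440420389103841513)) (.leaf (309062921786272891094))) (.leaf (126447446574860))) (.node (.node (.leaf (14800139489528)) (.leaf (2710927814566881375789613))) (.leaf (22506311872825613579898456016634))))) (.node (.node (.node (.node (.leaf (248305244961340629549)) (.leaf (5185215709989637428240941323))) (.node (.leaf (601900196476966973654)) (.leaf (1822)))) (.node (.node (.leaf (17039201229496400672223284881147)) (.leaf (75453782905968413))) (.leaf (147052812462618434)))) (.node (.node (.node (.leaf (248305137071745517034)) (.leaf (18421585666299))) (.leaf (35876047401229))) (.node (.node (.leaf (4140377978160013160009933031)) (.leaf (30552332097))) (.leaf (2139936)))))) (.node (.node (.node (.node (.node (.leaf (1015618203901679224464875)) (.leaf (3591495911)))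 (.node (.leaf (16964924989469472762051379193615)) (.leaf (1517)))) (.node (.node (.leaf (1270585376750452291380987)) (.leaf (1098012))) (.leaf (8758800668)))) (.node (.node (.node (.leaf (14800145920286)) (.leaf (18421585667580))) (.leaf (21158782867134523443702983157516))) (.node (.node (.leaf (8758585153)) (.leaf (268))) (.leaf (8758585099))))) (.node (.node (.node (.node (.leaf (69792598302002034636286585625166057)) (.leaf (309495633281713039153))) (.node (.leaf (146948290759415617)) (.leaf (1787)))) (.node (.node (.leaf (14800139491065)) (.leaf (18421333717279))) (.leaf (146949526776981280)))) (.node (.node (.node (.leaf (1017057841445869684187420)) (.leaf (79957388572845853))) (.leaf (146948290155280194))) (.node (.node (.leaf (1017388739382356632119054)) (.leaf (30015611095))) (.leaf (1265922170136418789226238)))))))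

def b55205_13 : Tr ℕ := (.node b55205_11 b55205_12)

def b55205_14 : Tr ℕ := (.node (.node (.node (.node (.node (.node (.leaf (4159961277215826571917502256)) (.leaf (309063026060410611486))) (.node (.leaf (2465717556526952628594427)) (.leaf (9647781643)))) (.node (.node (.leaf (1017057937604758574450429)) (.leaf (4497457366))) (.leaf (146948290709153531)))) (.node (.node (.node (.leaf (4159961612440420383969939723)) (.leaf (309062921786272892701))) (.leaf (18356859023647))) (.node (.node (.leaf (14800139489564)) (.leaf (1099585))) (.leaf (8758874343))))) (.node (.node (.node (.node (.leaf (4165869270203620063859160879)) (.leaf (327586787598434918686))) (.node (.leaf (14714726823709)) (.leaf (540)))) (.node (.node (.leaf (60621371355404028)) (.leaf (309058694782846619931))) (.leaf (2138379)))) (.node (.node (.node (.leaf (4165868918221521529819230766)) (.leaf (75453784097009878))) (.leaf (35875779039446))) (.node (.node (.leaf (246872150439514584827)) (.leaf (18490288365783))) (.leaf (8758589195)))))) (.node (.node (.node (.node (.node (.leaf (1015577505329312804495592)) (.leaf (19657361617111)))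 (.node (.leaf (4140377623136362695184405037)) (.leaf (1857)))) (.node (.node (.leaf (248305137071734900202)) (.leaf (4497457403))) (.leaf (86689241879035340581937667258831117)))) (.node (.node (.node (.leaf (17039202764555961979602276042543)) (.leaf (641095023970044999490))) (.leaf (1261161299372282567840317))) (.node (.node (.leaf (3591272257)) (.leaf (1097979))) (.leaf (10097964394156759073674981662))))) (.node (.node (.node (.node (.leaf (4159961589382270530463184634)) (.leaf (18421591881466))) (.node (.leaf (75171076129289995)) (.leaf (287)))) (.node (.node (.leaf (60621371355402525)) (.leaf (18420434327293))) (.leaf (2139934)))) (.node (.node (.node (.leaf (29344148468077041580770445068)) (.leaf (327505463594376615712))) (.leaf (2465364767873337098618689))) (.node (.node (.leaf (4159890796827973427494110973)) (.leaf (1821))) (.leaf (1341795482019339729819407)))))))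

def b55205_15 : Tr ℕ := (.node (.node (.node (.node (.node (.node (.leaf (4159805439928314013396762891)) (.leaf (5185215709989529380923089178))) (.node (.leaf (2630666036734075800389390)) (.leaf (7315671)))) (.node (.node (.leaf (427013554922561823)) (.leaf (75454814303065851))) (.leaf (35876047536414)))) (.node (.node (.node (.leaf (247953119744520999469)) (.leaf (75454814889226780))) (.leaf (10098209606731339392844153082))) (.node (.node (.leaf (3613315305)) (.leaf (4497323789))) (.leaf (8758874381))))) (.node (.node (.node (.node (.leaf (427121444501041402)) (.leaf (1265921804196662451470584))) (.node (.leaf (2465383204769656724091148)) (.leaf (1823)))) (.node (.node (.leaf (18465695252169638795392171747085)) (.leaf (18421333717277))) (.leaf (8765030614)))) (.node (.node (.node (.leaf (60621371355408158)) (.leaf (1341462297559779197957954))) (.leaf (601900196476027676412))) (.node (.node (.leaf (1017388739384718277011193)) (.leaf (30552191259))) (.leaf (522)))))) (.node (.node (.node (.node (.node (.leaf (4159961630806099801825841385)) (.leaf (5185215356032217839966323259))) (.node (.leaf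 (246872150302367125773)) (.leaf (1840)))) (.node (.node (.leaf (248305137051451245119)) (.leaf (11084702478769175725622665448))) (.leaf (4836794474121201749006010106)))) (.node (.node (.node (.leaf (3613316875)) (.leaf (75454814889160954))) (.leaf (2465383204768393406456092))) (.node (.node (.leaf (4141818238918474516074116893)) (.leaf (1515))) (.leaf (8758585120))))) (.node (.node (.node (.node (.leaf (4159963029742362179534829359)) (.leaf (4497458955))) (.node (.leaf (146947190945575126)) (.leaf (1788)))) (.node (.node (.leaf (248305137046547330811)) (.leaf (4497395927))) (.leaf (146949526776979725)))) (.node (.node (.node (.leaf (4165868918562282226683265309)) (.leaf (878401))) (.leaf (35876047401191))) (.node (.node (.leaf (246785843080274620701)) (.leaf (7329601))) (.leaf (5495994294351235320013496570)))))))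

def b55205_16 : Tr ℕ := (.node b55205_14 b55205_15)

def h55205_0 : List ℕ := [722120873, 47577105772437549, 844840754131166, 1695178936, 32790638277513656189640080663802024, 16351062534019000833971389949311916522973239177384, 13153616312437061513986990887005, 1493930148, 102658439839111028996, 239297712374871050644951967629519999040, 19589269998924296111975792664782399578241711679303151412855563559005, 4345565447, 220685608720920206352091336636504244295, 2885836832, 1857651668820177252082409565, 3443441134455405543868768349, 1079894494313942371698379535287408903195142710340210301104242, 453545536931961034113197, 22734762515974017538416310734795022, 1055275220322233837057641114475835094359626029448299297531752519, 3003408416, 4393350321755016607735249874766234209583464513, 4758156117068517666755846909393401911303800914616449945980661813, 1035868931377484387297837978182032186840861814010799972446261, 925623035338263829549285, 996473052534552230238439062578960529518688, 484796091097065231162959350870678149611619, 320531900703418175587, 7530042316264064311883274268952, 18699684000968573026287525056565,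 14931739943437023372602631902343448, 22067916534742561704547960644883030880536, 26752840253182045, 194872451257065492756, 8254287551252520135483201906742268034607883955351605, 4749095199, 92423082112590514460818504809104532184422541542248724, 1344932856046806781705160009010014201471081, 4144394337, 82442056274313071482603419919847526, 868962727692386628292653, 903893679764806950153237785688169475641461, 19151708869681255, 19434765367304260, 56164929360469497634198818048757865, 18219799647199715464325891644862835286984727438449256094518194868277, 13431472830369097034271959815237739621338391331105, 2497721802546803941123194758817201936799973665, 1475484329095971408452091463551917340311841, 855031322557544761360542335758286065844513, 152328794327851528739952735277035040666003646048419484755215698352215822569748, 84571257114792559919050007143455526933784313452515604, 4798753437458675, 1024249, 4211163442, 12919463039073, 63337918098043121, 4371272817813582396827702771899146430300033046, 2418914236275440251669786872, 909308952346021950303948716117802331918401, 198531981127562914115762, 46168082527834208,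 61372108643190300878345290777648664276792370557882467, 18817881993460471353998367910402787170557950332993, 315712794669363517118360269364746044862837404183363325974, 15050303864855, 99956468488814441504960348584923201, 3037089853, 1525398576480246095408595041533805458173408932454704561262899, 4700497272910350557840146537, 598916907136433502799350786715904401215509, 137988220037950167560471901944527323941669930144773525609, 8224738838672731466409864958193317354671220985877, 1613968872915111106184678241626457225637316091691715116609361399923581329289537, 1263245146975955952005834244872417009996083, 3269104063670342256798357627931593621094832853357577885282853925140, 853999998726928801074587471797458993956617352436849018220871, 297749992119390841199453614532097761607, 6737450431791102454046706053140, 991553, 1061685000085558597505859955503131266429258, 152737700290054440383000279790864513151306, 5100503090, 844018651425427181323733231934172730429774, 942013282171235349452167458903817838059625, 54893462989844486, 65557029158504687255533430121705478, 9869841509320209237600616064493130208002325143558,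 1440711466152755796983814, 4061401395, 5721108822, 207422848857943873227679068028159713286, 757064471568495219716171366979613487435782, 269785602612940324874, 16170159122909969442607181934017917802073693786446, 3841683235378423661260446574499806729623631728974, 82690666803989767369265939083676410232517567776723278, 29048304328114868191394665955086445617830584045917, 64255943209958441876118756294467819, 7694688163319698233201378961418442664551145821]

def h55205_1 : List ℕ := [1204262279732009493737516, 1114657204337385384390961, 1831896636378485634064609871793449355402550731101, 55452427012722759, 13952486744118, 1469271215740525845525461190841242977861135158383109848221501223423315957436765, 15609534381018587737372060004710, 1048719312293006548382054, 1896717607596012702619923663119911039753347430, 1056281678199963525714128134511408549618025, 1562124928015474192997295637388560966097133926, 301951020946711562160530468068373624411956545951148433771, 17995363864207397898012279100201059350590417965418, 55259291230026019973433579045106187931977638854826299754, 11476756725884, 5988962431227267594591972644877558251254519148359818282479615130679132928809034086,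 354010964336784252263345037534635576855209193527167050090, 4571935883294956414148889152912447250612212081, 362262316074600815333501225632252518849383035607717561381500078369327747379, 1242927468123746641520819557605602562608061431016123492938097, 1475253782780656705441403638820382120562143307898017194299761, 88431577309790181045793710650629749267383464754540999691306327259599217, 362233857744725414532464361532598693107280992758883781200742629451472687473, 106120145756991566008628500387538266266783763381353905389245737161961830, 98680, 13470124982276, 3946694284604177883973783928, 1020140706420408334471545, 982479754820254568693634306747428408829383032, 4549613374703894863667220024140032320898306424, 1029547490900922013754626468036738448879388795928116255494520, 1548393384442484133154509177, 4798462967335956447069397369, 4161692025, 1581362, 86523170061041545593, 5226087596409, 1837046787636158203957624, 5488041459616349270941276674527472762530271608, 8474762449893359943364119779829987291944157561, 1517490848935641878161858340593229631116833145, 74318236181262605944755799505473912, 1404732146938554028776749274695210704015736,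 15361392456485879452072277888496872866825660737749369, 28079288648587779664762477339843815408171355781697912, 268508278647368773172867339321886687609, 2755306992014, 95224759163208935256239814427808590190112981369, 1166573260836765039038840, 14088868684153, 134931852828131565910609760210785891138603697177844220281, 8042565156706068868077383054253488066586691993977, 1028348, 6795764099, 308036473442004182814081231277725773429022930654708863352, 15925112424401966320620725047672, 402044155236389703346407488518769520419406046858064269119864, 215607586820934996345, 222011907332458359602114276846330155384, 1253781, 1687794, 116277415730622873, 996543869871732375826841, 996438931237463182139768, 78954979104085592499451699278481498661423622026400120, 251361078105198955344190595938119491172958118265669259640, 1048421589984762978474001504213445130853146615771157738520953, 5912912363897, 99203058316831502713, 185494069059677712671482417614194483090779628953534959992, 54526169328898685154361865168982392, 1763147455372737305825653192654081620582793593, 151834555239484993551787733538278369866086722450048389496,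 20442587684960901201139475124600, 318774415528811353100107537217411036062269622084284420472, 102786842363241173050729740018572471263505165450653176184, 4679453933496299773954377912306292856803163475489703102428713336, 6325303703823909175629510663477933549349932665361645893202710904, 4194640613753, 9611991522137710499972557722972806034604347768, 30512592043011612354196497113993593, 115185637135153215038235411726984765038274054214521569331458081776177528, 16808096276363340849744056038344681725547163128184, 266675, 2048360883, 13232225325467986790458985234867, 324342668881730435742133935422977032568, 3724464057593732939232685854910149486366638456, 59115476375254857106628918852374821221171710549633351882206122165879160, 1054602150897974446343616386151018346007418633549722303545720, 218009946274217884784853076934741676467, 301740276138398528660252531709164867960, 5424685770452472252639818837358306392669039161733476395919097718061707894105788851, 53228808146661375375044629034127795, 102738577824803713406388861386107518001341500770580136373, 1723504074883622892254507848631911643158456324315754835121754547,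 329489169067381184647369010228181115749496357396007330169, 5167994450760513879017752338999448959360391570048438565902983544, 5101818306, 23028324585922]

def h55205_2 : List ℕ := [30106665603522, 723202501, 958091717, 857485765, 7484481989, 774989351807733173330376, 2350670281, 974868938, 216809907961957705686885145466084573643]

def t55205 : Tr Rule := (.node a55205_5 a55205_10)

def u55205 : Tr ℕ := (.node b55205_13 b55205_16)

def h55205 : List ℕ := h55205_0 ++ (h55205_1 ++ (h55205_2))

def lab55205 : List ℕ := [0, 1, 2, 2, 2, 2, 3, 3, 3, 3, 4, 4, 6, 6, 6, 6, 6]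

theorem c55205 : check lab55205 t55205 253 u55205 h55205 461 = true := by decide +kernel

def a73016_0 : Tr Rule := (.node (.node (.node (.node (.node (.node (.leaf (.tri 10 12 11)) (.leaf (.cnt 2 32 3 2))) (.leaf (.cnt 0 22 1 0))) (.node (.node (.leaf (.tri 13 15 16)) (.leaf (.cnt 5 0 30 8))) (.leaf (.cnt 1 28 1 1)))) (.node (.node (.node (.leaf (.tri 12 16 15)) (.leaf (.cnt 3 32 4 3))) (.leaf (.cnt 0 36 0 0))) (.node (.leaf (.wwe 13 12 14)) (.leaf (.cnt 1 40 0 2))))) (.node (.node (.node (.node (.leaf (.tri 12 16 13)) (.leaf (.cnt 2 40 2 0))) (.leaf (.cnt 0 30 0 1))) (.node (.leaf (.tri 15 10 16)) (.leaf (.cnt 1 32 2 1)))) (.node (.node (.node (.leaf (.ew 10 16)) (.leaf (.cnt 3 32 7 2))) (.leaf (.cnt 0 40 1 0))) (.node (.leaf (.nb 12 52478)) (.leaf (.cnt 2 24 2 4)))))) (.node (.node (.node (.node (.node (.leaf (.tri 11 13 12)) (.leaf (.cnt 2 32 4 2))) (.leaf (.cnt 0 26 1 0))) (.node (.leaf (.tri 14 12 16)) (.leaf (.cnt 1 32 0 2)))) (.node (.node (.node (.leaf (.ew 13 15)) (.leaf (.cnt 3 32 6 1))) (.leaf (.cnt 0 38 0 1))) (.node (.leaf (.wwe 13 12 16)) (.leaf (.cnt 1 40 2 0))))) (.node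 (.node (.node (.node (.leaf (.ew 12 14)) (.leaf (.cnt 3 16 7 8))) (.leaf (.cnt 0 32 1 0))) (.node (.leaf (.ew 15 16)) (.leaf (.cnt 1 36 1 2)))) (.node (.node (.node (.leaf (.ew 12 16)) (.leaf (.cnt 4 32 7 0))) (.leaf (.cnt 1 20 2 1))) (.node (.leaf (.nb 15 23806)) (.leaf (.cnt 2 32 2 2)))))))

def a73016_1 : Tr Rule := (.node (.node (.node (.node (.node (.node (.leaf (.tri 10 16 11)) (.leaf (.cnt 2 32 3 4))) (.leaf (.cnt 0 24 1 0))) (.node (.node (.leaf (.tri 14 10 16)) (.leaf (.root))) (.leaf (.cnt 1 28 2 0)))) (.node (.node (.node (.leaf (.tri 13 11 15)) (.leaf (.cnt 3 32 5 2))) (.leaf (.cnt 0 36 1 0))) (.node (.leaf (.wwe 13 10 16)) (.leaf (.cnt 1 40 1 1))))) (.node (.node (.node (.node (.leaf (.tri 12 15 14)) (.leaf (.cnt 3 16 7 6))) (.leaf (.cnt 0 32 0 0))) (.node (.leaf (.tri 15 12 16)) (.leaf (.cnt 1 36 1 0)))) (.node (.node (.node (.leaf (.tri 12 11 16)) (.leaf (.cnt 4 0 16 14))) (.leaf (.cnt 0 42 0 1))) (.node (.leaf (.nb 13 23806)) (.leaf (.cnt 2 24 3 4)))))) (.node (.node (.node (.node (.node (.leaf (.tri 11 14 13)) (.leaf (.cnt 2 40 0 0))) (.leaf (.cnt 0 28 1 0))) (.node (.leaf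 (.tri 14 15 16)) (.leaf (.cnt 1 32 1 2)))) (.node (.node (.node (.leaf (.ew 14 15)) (.leaf (.cnt 3 32 6 3))) (.leaf (.cnt 0 40 0 0))) (.node (.leaf (.wwe 16 14 15)) (.leaf (.cnt 2 16 4 3))))) (.node (.node (.node (.node (.leaf (.ew 13 14)) (.leaf (.cnt 3 16 8 6))) (.leaf (.cnt 0 34 0 1))) (.node (.leaf (.wwe 12 11 14)) (.leaf (.cnt 1 40 0 0)))) (.node (.node (.node (.leaf (.tri 13 11 16)) (.leaf (.cnt 4 32 9 0))) (.leaf (.cnt 1 24 2 0))) (.node (.leaf (.nb 16 52478)) (.leaf (.cnt 2 32 2 4)))))))

def a73016_2 : Tr Rule := (.node a73016_0 a73016_1)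

def a73016_3 : Tr Rule := (.node (.node (.node (.node (.node (.node (.leaf (.tri 10 15 11)) (.leaf (.cnt 2 32 3 3))) (.leaf (.cnt 0 24 0 1))) (.node (.node (.leaf (.ew 13 16)) (.leaf (.cnt 5 0 31 7))) (.leaf (.cnt 1 28 1 2)))) (.node (.node (.node (.leaf (.tri 13 10 15)) (.leaf (.cnt 3 32 4 4))) (.leaf (.cnt 0 36 0 1))) (.node (.leaf (.wwe 13 14 15)) (.leaf (.cnt 1 40 1 0))))) (.node (.node (.node (.node (.leaf (.tri 12 11 14)) (.leaf (.cnt 2 40 3 0))) (.leaf (.cnt 0 30 1 0))) (.node (.leaf (.tri 15 11 16)) (.leaf (.cnt 1 36 0 1)))) (.node (.node (.node (.leaf (.tri 12 10 16)) (.leaf (.cnt 4 0 16 13))) (.leaf (.cnt 0 42 0 0))) (.node (.leaf (.nb 13 52478)) (.leaf (.cnt 2 24 3 3)))))) (.node (.node (.node (.node (.node (.leaf (.tri 10 14 13)) (.leaf (.cnt 2 32 4 3))) (.leaf (.cnt 0 28 0 1))) (.node (.leaf (.tri 14 13 16)) (.leaf (.cnt 1 32 1 1)))) (.node (.node (.node (.leaf (.tri 14 11 15)) (.leaf (.cnt 3 32 6 2))) (.leaf (.cnt 0 38 1 0))) (.node (.leaf (.wwe 13 15 16)) (.leaf (.cnt 1 40 2 1))))) (.node (.node (.node (.node (.leaf (.tri 13 15 14)) (.leaf (.cnt 3 16 8 5))) (.leaf (.cnt 0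 34 0 0))) (.node (.leaf (.wwe 11 10 15)) (.leaf (.cnt 1 36 2 1)))) (.node (.node (.node (.leaf (.tri 13 10 16)) (.leaf (.cnt 4 32 8 0))) (.leaf (.cnt 1 24 1 2))) (.node (.leaf (.nb 15 15614)) (.leaf (.cnt 2 32 2 3)))))))

def a73016_4 : Tr Rule := (.node (.node (.node (.node (.node (.node (.leaf (.ew 10 11)) (.leaf (.cnt 2 32 4 1))) (.leaf (.cnt 0 26 0 0))) (.node (.leaf (.tri 14 11 16)) (.leaf (.cnt 1 28 2 1)))) (.node (.node (.node (.leaf (.tri 13 16 15)) (.leaf (.cnt 3 32 5 3))) (.leaf (.cnt 0 38 0 0))) (.node (.leaf (.wwe 13 11 16)) (.leaf (.cnt 1 40 1 2))))) (.node (.node (.node (.node (.leaf (.tri 12 16 14)) (.leaf (.cnt 3 16 7 7))) (.leaf (.cnt 0 32 0 1))) (.node (.leaf (.tri 15 13 16)) (.leaf (.cnt 1 36 1 1)))) (.node (.node (.node (.leaf (.tri 12 15 16)) (.leaf (.cnt 4 0 16 15))) (.leaf (.cnt 0 42 1 0))) (.node (.leaf (.nb 15 7422)) (.leaf (.cnt 2 24 4 2)))))) (.node (.node (.node (.node (.node (.leaf (.tri 12 14 13)) (.leaf (.cnt 2 40 1 0))) (.leaf (.cnt 0 30 0 0))) (.node (.leaf (.ew 14 16)) (.leaf (.cnt 1 32 2 0)))) (.node (.node (.node (.leaf (.tri 10 11 16)) (.leaf (.cnt 3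 32 7 0))) (.leaf (.cnt 0 40 0 1))) (.node (.leaf (.nb 10 46334)) (.leaf (.cnt 2 24 2 3))))) (.node (.node (.node (.node (.leaf (.tri 11 12 15)) (.leaf (.cnt 3 16 8 7))) (.leaf (.cnt 0 34 1 0))) (.node (.leaf (.wwe 12 14 15)) (.leaf (.cnt 1 40 0 1)))) (.node (.node (.node (.leaf (.tri 13 12 16)) (.leaf (.cnt 5 0 29 9))) (.leaf (.cnt 1 24 2 1))) (.node (.leaf (.nb 16 23806)) (.leaf (.cnt 2 32 3 1)))))))

def a73016_5 : Tr Rule := (.node a73016_3 a73016_4)

def b73016_6 : Tr ℕ := (.node (.node (.node (.node (.node (.node (.leaf (1207)) (.leaf (1496))) (.node (.leaf (11493565098)) (.leaf (743)))) (.node (.node (.leaf (2213233)) (.leaf (1323))) (.node (.leaf (2806560)) (.leaf (1789))))) (.node (.node (.node (.leaf (1263)) (.leaf (1391))) (.node (.leaf (11495670441)) (.leaf (677)))) (.node (.node (.leaf (2790640)) (.leaf (1390))) (.leaf (685))))) (.node (.node (.node (.node (.leaf (937)) (.leaf (1393))) (.node (.leaf (2806046)) (.leaf (680)))) (.node (.node (.leaf (87003658179303)) (.leaf (806))) (.leaf (2806246)))) (.node (.node (.node (.leaf (746)) (.leaf (1788))) (.node (.leaf (2807548)) (.leaf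 (266)))) (.node (.node (.leaf (80541299782914729)) (.leaf (1260))) (.leaf (287)))))) (.node (.node (.node (.node (.node (.leaf (1143)) (.leaf (1803))) (.node (.leaf (19658559178095)) (.leaf (741)))) (.node (.node (.leaf (1350865596629186495596299)) (.leaf (1259))) (.node (.leaf (1992047)) (.leaf (0))))) (.node (.node (.node (.leaf (810)) (.leaf (1328))) (.node (.leaf (288290907980978684153)) (.leaf (265)))) (.node (.node (.leaf (55873740191484)) (.leaf (1324))) (.leaf (286))))) (.node (.node (.node (.node (.leaf (873)) (.leaf (69822908680151305))) (.node (.leaf (25720497400)) (.leaf (675)))) (.node (.node (.leaf (937405724563689498398)) (.leaf (1787))) (.leaf (2806441)))) (.node (.node (.node (.leaf (19663407793519)) (.leaf (1389))) (.node (.leaf (1025272)) (.leaf (1790)))) (.node (.node (.leaf (11493566203)) (.leaf (807))) (.leaf (1497)))))))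

def h73016_0 : List ℕ := [978785977286412728352653001158796, 635043, 2701795492, 639141, 1030237299396489420881936273538, 2534039719, 549032, 81090373730126639918739599318310830111, 218439761, 1063953938248472909599264778, 28884292680127408804322421028434086, 209170874659476795416478576227360749990671931174585842240322906925967967166390066777953261671295368018452879677904850372654481706974439202892701858, 271153758258187249069342829, 465754262013683405887515156006854454695531209800433498999024233195283021229343637703917698432964471803817534289157670394745462950, 35807128006864539261667793448993856290303744722897485170468056981844134, 19321832146238757148199759634753225323026174321110529680152319189705551327491772601949812895425873211558, 634106838364964142826777970300661486172497494780083037692073, 91952352011062367461754661910359137929543481386502275100, 46074952238102419984245586315432133743903319954117795587490983563484611143745256340831663461071681978167509425105102211572719778, 21839238043475933566777816697635850301513, 3074328068382648624177128538533455278895917046212462205229984874002965630155014625826331224482837198281558622516760738,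 5630806261481530, 281987788038578990477676266130646721058989080543620133045, 2925897415430806189999411910029385, 6740578597518130962451126773717332450816134739136297587477232361639, 33902676, 2312867377253247143541872614173150219266584608925455743991279608483728679582273702, 166538941112062614101766359311816142566242321728218470435692716712280938116263240655217521331963465099829117063566419162438056943782, 522769442725330393657606518057510702837941, 368831, 372927, 159936, 180417, 638329025, 336068, 38055139294253932740, 263188119970106168592867750157335933122, 1795969223, 1097419658309811042437921209627200424898881621456208403609502712718320650689323203, 356553, 471242, 561355, 2416599244, 691593371630136550998987393062203592290498, 1443664078, 458959, 557264, 2450153681, 536786, 2148303058, 1779192019, 418004, 426196, 311510, 319703, 671887576, 688664793, 5707291013338]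

def t73016 : Tr Rule := (.node a73016_2 a73016_5)

def u73016 : Tr ℕ := b73016_6

def h73016 : List ℕ := h73016_0

def lab73016 : List ℕ := [0, 1, 2, 2, 2, 2, 2, 2, 3, 3, 5, 6, 6, 6, 6, 6, 6]

theorem c73016 : check lab73016 t73016 163 u73016 h73016 220 = true := by decide +kernel

def a55304_0 : Tr Rule := (.node (.node (.node (.node (.node (.node (.leaf (.tri 10 13 11)) (.leaf (.wwe 11 10 14))) (.node (.leaf (.tri 12 16 15)) (.leaf (.nb 13 81982)))) (.node (.node (.leaf (.tri 11 13 14)) (.leaf (.wwe 15 11 14))) (.node (.leaf (.tri 14 12 16)) (.leaf (.ord 11 0 1))))) (.node (.node (.node (.leaf (.tri 11 14 13)) (.leaf (.wwe 14 11 13))) (.node (.leaf (.tri 14 12 15)) (.leaf (.nb 16 49214)))) (.node (.node (.leaf (.ew 13 14)) (.leaf (.nb 10 49214))) (.leaf (.tri 15 14 16))))) (.node (.node (.node (.node (.leaf (.tri 10 14 13)) (.leaf (.wwe 13 11 15))) (.node (.leaf (.tri 13 16 15)) (.leaf (.nb 14 106558)))) (.node (.node (.leaf (.tri 13 10 14)) (.leaf (.wwe 16 10 15))) (.node (.leaf (.tri 15 10 16)) (.leaf (.ord 11 1 3))))) (.node (.node (.node (.leaf (.tri 12 16 13)) (.leaf (.wwe 14 13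 16))) (.node (.leaf (.tri 10 13 16)) (.leaf (.ord 10 0 2)))) (.node (.node (.leaf (.tri 11 13 15)) (.leaf (.nb 11 57406))) (.leaf (.wwe 10 14 15)))))) (.node (.node (.node (.node (.node (.leaf (.tri 10 16 11)) (.leaf (.wwe 11 12 15))) (.node (.leaf (.tri 13 10 15)) (.leaf (.nb 14 98366)))) (.node (.node (.leaf (.tri 11 16 14)) (.leaf (.wwe 15 10 16))) (.node (.leaf (.tri 14 15 16)) (.leaf (.ord 11 0 3))))) (.node (.node (.node (.leaf (.tri 11 16 13)) (.leaf (.wwe 14 11 15))) (.node (.leaf (.tri 14 16 15)) (.leaf (.nb 16 24638)))) (.node (.node (.leaf (.tri 10 14 15)) (.leaf (.nb 11 73790))) (.leaf (.wwe 10 11 14))))) (.node (.node (.node (.node (.leaf (.tri 10 16 13)) (.leaf (.wwe 13 14 15))) (.node (.leaf (.tri 14 10 15)) (.leaf (.nb 15 73790)))) (.node (.node (.leaf (.tri 13 15 14)) (.leaf (.nb 10 98366))) (.leaf (.tri 15 12 16)))) (.node (.node (.node (.leaf (.tri 10 15 14)) (.leaf (.wwe 15 11 13))) (.node (.leaf (.tri 14 10 16)) (.leaf (.ord 10 1 2)))) (.node (.node (.leaf (.tri 11 16 15)) (.leaf (.nb 12 41022))) (.leaf (.wwe 10 13 16)))))))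

def a55304_1 : Tr Rule := (.node (.node (.node (.node (.node (.node (.leaf (.tri 10 14 11)) (.leaf (.wwe 11 10 15))) (.node (.leaf (.ew 12 15)) (.leaf (.nb 13 114750)))) (.node (.node (.leaf (.tri 11 15 14)) (.leaf (.wwe 15 13 14))) (.node (.leaf (.tri 14 13 16)) (.leaf (.ord 11 0 2))))) (.node (.node (.node (.leaf (.tri 11 15 13)) (.leaf (.wwe 14 10 15))) (.node (.leaf (.tri 14 13 15)) (.leaf (.nb 16 41022)))) (.node (.node (.leaf (.tri 10 13 15)) (.leaf (.nb 10 114750))) (.leaf (.ew 15 16))))) (.node (.node (.node (.node (.leaf (.tri 10 15 13)) (.leaf (.wwe 13 12 15))) (.node (.leaf (.ew 13 15)) (.leaf (.nb 15 81982)))) (.node (.node (.leaf (.tri 13 11 14)) (.leaf (.wwe 16 11 15))) (.leaf (.tri 15 11 16)))) (.node (.node (.node (.leaf (.tri 10 13 14)) (.leaf (.wwe 14 15 16))) (.node (.leaf (.tri 11 13 16)) (.leaf (.ord 10 0 3)))) (.node (.node (.leaf (.tri 11 14 15)) (.leaf (.nb 12 73790))) (.leaf (.wwe 10 11 16)))))) (.node (.node (.node (.node (.node (.leaf (.tri 11 16 12)) (.leaf (.wwe 11 14 15))) (.node (.leaf (.tri 13 14 15)) (.leaf (.nb 14 41022)))) (.node (.node (.leaf (.ew 11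 14)) (.leaf (.wwe 15 14 16))) (.node (.leaf (.ew 14 16)) (.leaf (.ord 11 1 2))))) (.node (.node (.node (.leaf (.ew 11 13)) (.leaf (.wwe 14 13 15))) (.node (.leaf (.ew 14 15)) (.leaf (.nb 16 57406)))) (.node (.node (.leaf (.tri 10 16 15)) (.leaf (.nb 11 41022))) (.leaf (.wwe 10 11 15))))) (.node (.node (.node (.node (.leaf (.ew 10 13)) (.leaf (.wwe 14 10 13))) (.node (.leaf (.tri 14 11 15)) (.leaf (.nb 15 90174)))) (.node (.node (.leaf (.tri 13 16 14)) (.leaf (.nb 10 81982))) (.leaf (.tri 15 13 16)))) (.node (.node (.node (.leaf (.tri 10 16 14)) (.leaf (.wwe 15 10 14))) (.node (.leaf (.tri 14 11 16)) (.leaf (.ord 10 1 3)))) (.node (.node (.leaf (.ew 11 15)) (.leaf (.nb 12 24638))) (.leaf (.wwe 10 15 16)))))))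

def a55304_2 : Tr Rule := (.node a55304_0 a55304_1)

def b55304_3 : Tr ℕ := (.node (.node (.node (.node (.node (.leaf (9302120190)) (.leaf (2635743508109112386818314))) (.node (.leaf (126448357581340)) (.leaf (2283259)))) (.node (.node (.leaf (30871025439)) (.leaf (4213368569))) (.node (.leaf (7536891)) (.leaf (1790))))) (.node (.node (.node (.leaf (3899846906)) (.leaf (7385375))) (.node (.leaf (30871179532)) (.leaf (287)))) (.node (.node (.leaf (7538463)) (.leaf (251))) (.node (.leaf (123905714022173)) (.leaf (1517)))))) (.node (.node (.node (.node (.leaf (2621222460348877771040505)) (.leaf (7385356))) (.node (.leaf (4817632840406043290593388010)) (.leaf (1514)))) (.node (.node (.leaf (2121446236984479618811)) (.leaf (1028654))) (.node (.leaf (1839)) (.leaf (1805))))) (.node (.node (.node (.leaf (952111)) (.leaf (231))) (.node (.leaf (7538444)) (.leaf (1786)))) (.node (.node (.leaf (126448357581087)) (.leaf (1532))) (.node (.leaf (2078788226177972696864)) (.leaf (0)))))))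

def b55304_4 : Tr ℕ := (.node b55304_3 (.node (.node (.node (.node (.node (.leaf (18425880563999)) (.leaf (663010667855508123913))) (.node (.leaf (30871181050)) (.leaf (6203129)))) (.node (.node (.leaf (7536871)) (.leaf (4161917177))) (.node (.leaf (1840)) (.leaf (557))))) (.node (.node (.node (.leaf (3899848478)) (.leaf (1803))) (.node (.leaf (7536909)) (.leaf (1496)))) (.node (.node (.leaf (517932472652133884)) (.leaf (1824))) (.node (.leaf (123905714020601)) (.leaf (1551)))))) (.node (.node (.node (.node (.leaf (2621513063927626024986397)) (.leaf (7386585))) (.node (.leaf (2121878019731009758990)) (.leaf (1804)))) (.node (.node (.leaf (30877546251)) (.leaf (1028381))) (.node (.leaf (2635389560923407852349197)) (.leaf (266))))) (.node (.node (.node (.leaf (30871023865)) (.leaf (1552))) (.node (.leaf (7538426)) (.leaf (285)))) (.node (.node (.leaf (126453502035726)) (.leaf (537))) (.leaf (30250418462)))))))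

def h55304_0 : List ℕ := [28147910440939545, 386273380, 1577230366, 7447892208381456397575468908548, 471153, 467060, 499833, 450668, 446575, 512124, 448631736218867789230206, 596389036410423040170477264495382277644845802757672220491902, 40983542513211523056919077090531467098843153042989670519343094733762686, 517241162395807694572148881065052557308030, 123621124671566356555874977727545598081, 1915491076255445434811547774, 2083169206394510338268437604185677495671676434328048690394210435, 123383713267684909187, 26180541330264141, 552654092763950635016321, 12533834250680795266267104563136974979754035179647480930691398897798, 367449939494640224043616163724708119845884387457, 10005747683889531990837168894185821176512332087870617696819946369162, 2443079509669132144248417883663207742705949877282696503549796491, 13376460919285304600607159261471252073083408291716786728333390426252, 637168123552692545676338620837583932350475, 503950, 472273545159065804754977, 44903542372560959640627645623063877886669129263931535, 34580380879909368460635128954681352335, 1837864825241566750057852971, 687520845920271484281861331984734448263698909185323305865226197065749848711311,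 406177716103035207868559, 99182777276140417166, 56129336849871923560989332269580717035961794060411023, 486491384126659906596907, 157849286949204776061258037381302744017723726019774963855, 839487640, 7149225304218, 28827, 118761050960506040474, 7011266261134, 95447712267251681223806162792699458011365394370170814898487817338129858715, 9479494946076147068937943937885379990797244310720758400656297537692, 7685828213954656441267600666778, 67748001, 98465, 218738849, 27305547028603043, 2314329820819370290023166138050156484263862299644354695111774372, 38828011299127853951999131720393228612314417568097697074631923701792929, 688525479, 8111482613928, 233641, 705327273, 51974541846303389849482842432126061406293605982008444277387428, 101302444, 604672172, 680213358724048090747054, 100352314669085024431, 127152, 1141563568, 2321954722966366895328661682]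

def t55304 : Tr Rule := a55304_2

def u55304 : Tr ℕ := b55304_4

def h55304 : List ℕ := h55304_0

def lab55304 : List ℕ := [0, 1, 2, 2, 2, 2, 3, 3, 3, 3, 4, 4, 4, 6, 6, 6, 6]

theorem c55304 : check lab55304 t55304 117 u55304 h55304 179 = true := by decide +kernel

def a65114_0 : Tr Rule := (.node (.node (.node (.node (.node (.node (.leaf (.tri 11 13 12)) (.leaf (.wwe 12 15 16))) (.node (.leaf (.ew 14 15)) (.leaf (.nb 14 12414)))) (.node (.node (.leaf (.ew 12 14)) (.leaf (.nb 11 20606))) (.leaf (.tri 14 13 16)))) (.node (.node (.node (.leaf (.tri 12 16 13)) (.leaf (.wwe 15 12 14))) (.node (.leaf (.ew 12 16)) (.leaf (.nb 15 28798)))) (.node (.node (.leaf (.tri 12 14 15)) (.leaf (.nb 12 77950))) (.leaf (.wwe 11 12 15))))) (.node (.node (.node (.node (.leaf (.tri 11 14 13)) (.leaf (.wwe 13 14 16))) (.node (.leaf (.ew 11 16)) (.leaf (.nb 15 20606)))) (.node (.node (.leaf (.tri 13 16 14)) (.leaf (.nb 11 77950))) (.leaf (.tri 15 13 16)))) (.node (.node (.node (.leaf (.ew 11 14)) (.leaf (.nb 11 4222))) (.leaf (.tri 13 15 16))) (.node (.node (.leaf (.tri 13 16 15)) (.leaf (.nb 13 69758))) (.leaf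 (.wwe 12 13 15)))))) (.node (.node (.node (.node (.node (.leaf (.tri 11 15 12)) (.leaf (.wwe 13 12 15))) (.node (.leaf (.tri 11 14 16)) (.leaf (.nb 14 45182)))) (.node (.node (.leaf (.tri 13 12 14)) (.leaf (.nb 11 53374))) (.leaf (.ew 14 16)))) (.node (.node (.node (.leaf (.tri 11 15 14)) (.leaf (.wwe 16 13 15))) (.node (.leaf (.tri 13 12 16)) (.leaf (.nb 16 53374)))) (.node (.node (.leaf (.ew 12 15)) (.leaf (.nb 12 110718))) (.leaf (.wwe 12 11 14))))) (.node (.node (.node (.node (.leaf (.tri 12 14 13)) (.leaf (.wwe 14 12 13))) (.node (.leaf (.tri 12 14 16)) (.leaf (.nb 15 12414)))) (.node (.node (.leaf (.tri 11 14 15)) (.leaf (.nb 11 28798))) (.leaf (.ew 15 16)))) (.node (.node (.node (.leaf (.tri 12 15 14)) (.leaf (.nb 11 36990))) (.leaf (.tri 14 11 16))) (.node (.node (.leaf (.tri 14 13 15)) (.leaf (.nb 13 102526))) (.leaf (.wwe 12 13 16)))))))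

def a65114_1 : Tr Rule := (.node (.node (.node (.node (.node (.node (.leaf (.tri 11 14 12)) (.leaf (.wwe 13 12 14))) (.node (.leaf (.tri 11 13 16)) (.leaf (.nb 14 77950)))) (.node (.node (.leaf (.tri 13 11 14)) (.leaf (.nb 11 86142))) (.leaf (.tri 14 15 16)))) (.node (.node (.node (.leaf (.ew 12 13)) (.leaf (.wwe 15 11 16))) (.node (.leaf (.tri 13 11 16)) (.leaf (.nb 16 36990)))) (.node (.node (.leaf (.tri 12 16 15)) (.leaf (.nb 12 45182))) (.leaf (.wwe 11 13 16))))) (.node (.node (.node (.node (.leaf (.tri 11 16 13)) (.leaf (.wwe 13 15 16))) (.node (.leaf (.tri 12 13 16)) (.leaf (.nb 15 86142)))) (.node (.node (.leaf (.ew 13 14)) (.leaf (.nb 11 45182))) (.leaf (.tri 15 14 16)))) (.node (.node (.node (.leaf (.tri 12 13 14)) (.leaf (.nb 11 69758))) (.leaf (.ew 13 16))) (.node (.node (.leaf (.tri 14 11 15)) (.leaf (.nb 13 36990))) (.leaf (.wwe 12 14 15)))))) (.node (.node (.node (.node (.node (.leaf (.tri 11 16 12)) (.leaf (.wwe 13 12 16))) (.node (.leaf (.tri 11 15 16)) (.leaf (.nb 15 69758)))) (.node (.node (.leaf (.tri 13 15 14)) (.leaf (.nb 11 12414))) (.leaf (.tri 15 12 16)))) (.node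 (.node (.node (.leaf (.tri 11 16 14)) (.leaf (.wwe 16 14 15))) (.node (.leaf (.tri 13 14 16)) (.leaf (.nb 16 12414)))) (.node (.node (.leaf (.tri 13 12 15)) (.leaf (.nb 12 28798))) (.leaf (.wwe 12 13 14))))) (.node (.node (.node (.node (.leaf (.tri 12 15 13)) (.leaf (.wwe 14 12 16))) (.node (.leaf (.tri 12 15 16)) (.leaf (.nb 15 77950)))) (.node (.node (.leaf (.tri 12 13 15)) (.leaf (.nb 12 102526))) (.leaf (.wwe 11 12 13)))) (.node (.node (.node (.leaf (.tri 12 16 14)) (.leaf (.nb 11 102526))) (.leaf (.tri 14 12 16))) (.node (.node (.leaf (.tri 14 16 15)) (.leaf (.nb 13 53374))) (.leaf (.wwe 12 14 16)))))))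

def a65114_2 : Tr Rule := (.node a65114_0 a65114_1)

def b65114_3 : Tr ℕ := (.node (.node (.node (.node (.node (.node (.leaf (3893334267)) (.leaf (30289012473))) (.node (.leaf (504)) (.leaf (2213662)))) (.node (.node (.leaf (17184641233468)) (.leaf (9664841501))) (.node (.leaf (29981978892)) (.leaf (0))))) (.node (.node (.node (.leaf (8463249691)) (.leaf (7394778))) (.node (.leaf (29988419322)) (.leaf (284)))) (.node (.node (.leaf (8456741133)) (.leaf (7313148))) (.leaf (1787))))) (.node (.node (.node (.node (.leaf (8463251196)) (.leaf (7395066))) (.node (.leaf (29981906685)) (.leaf (1821)))) (.node (.node (.leaf (65620782891513611)) (.leaf (7313146))) (.leaf (7319819)))) (.node (.node (.node (.leaf (2066223)) (.leaf (7393567))) (.node (.leaf (151750888779659021)) (.leaf (1498)))) (.node (.node (.leaf (2066172)) (.leaf (9060868364))) (.leaf (508101856293007647)))))) (.node (.node (.node (.node (.node (.leaf (8463251230)) (.leaf (38217089939247))) (.node (.leaf (287238474354482340124)) (.leaf (540)))) (.node (.node (.leaf (3910115612)) (.leaf (7311644))) (.leaf (29981980410)))) (.node (.node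 (.node (.leaf (601895413669461872927)) (.leaf (30284050716))) (.node (.leaf (7319801)) (.leaf (1497)))) (.node (.node (.leaf (2064634)) (.leaf (1785))) (.leaf (39517911380201))))) (.node (.node (.node (.node (.leaf (19525985613561)) (.leaf (30289012476))) (.node (.leaf (29981905129)) (.leaf (286)))) (.node (.node (.leaf (16015833544443)) (.leaf (7313182))) (.leaf (7319838)))) (.node (.node (.node (.leaf (3910254877)) (.leaf (1805))) (.node (.leaf (7321391)) (.leaf (233)))) (.node (.node (.leaf (2064667)) (.leaf (2212126))) (.leaf (30290190910)))))))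

def h65114_0 : List ℕ := [7320069143408727, 30399709818388489, 115294402466656850029, 21676597685964848, 2687993441124866249360541517686951936, 117768286, 162459123442500422322477305283457491626621235812076916736, 9009193847963745, 124525095603379769389, 8082104336428243113920893735027, 1426141198, 870306292001210402485647023531876646444421224, 2689292226574983736900765444026617970, 7307932167754185932377343400250833126500350775410, 481698675927531881824377, 45097046568334766928923887673861095020798066, 219839581393059812138084194786304128103854184510019185643634, 40378154064793370741, 53677384967327496449699362757889671017883649822232334460, 28810399245534838613347597522255122592440229097033854, 419246487516428223606526453508032430252077, 33163812140085125050494, 1291902983, 36810205713637143215025966448694587463773113419381084284, 12709726939750338691, 6259856650493180538371912683644, 2141269002162929422252726734645787406780338307, 9225285978095641762577162040400328425704300503932362876, 2899450925004210173898144920030926898475487356, 3231258718344, 1269198639211507917069958094984, 1489628034558315754009239602,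 132593574573303242888, 5497860223112, 403000677228226119317924522734687260614792, 101029116601858158249204713405993762952, 42192958353836412458714846445281416, 2514896294703269747418570888, 11236940033798749410942093100703444067317793644118140, 290617486872347024572320953041786672701874312, 26287509206976671900091388617326739, 125319640437028234837976931346973760979091, 1586290186380784667917320339, 79781264299873182598593322906846572680, 156853127078322369697128631094439653512, 622741, 20776517955968667784, 348562687012013370453295257, 132599203591482880136, 89819525266621678039193, 86173, 5362585993374, 5431305539742, 204959, 1141493919, 9417219739809, 2888903041187]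

def t65114 : Tr Rule := a65114_2

def u65114 : Tr ℕ := b65114_3

def h65114 : List ℕ := h65114_0

def lab65114 : List ℕ := [0, 1, 2, 2, 2, 2, 2, 3, 3, 3, 3, 4, 5, 6, 6, 6, 6]

theorem c65114 : check lab65114 t65114 108 u65114 h65114 164 = true := by decide +kernel

def a74015_0 : Tr Rule := (.node (.node (.node (.node (.node (.node (.leaf (.tri 11 13 12)) (.leaf (.nb 12 100606))) (.node (.leaf (.ew 11 16)) (.leaf (.cnt 0 42 0 0)))) (.node (.node (.leaf (.tri 13 15 14)) (.leaf (.nb 15 67838))) (.node (.leaf (.wwe 12 11 15)) (.leaf (.root))))) (.node (.node (.node (.leaf (.tri 12 16 13)) (.leaf (.nb 13 18686))) (.node (.leaf (.ew 14 16)) (.leaf (.cnt 2 32 1 2)))) (.node (.node (.leaf (.tri 12 14 15)) (.leaf (.nb 16 35070))) (.leaf (.wwe 15 14 16))))) (.node (.node (.node (.node (.leaf (.ew 11 12)) (.leaf (.nb 12 26878))) (.node (.leaf (.tri 14 11 16)) (.leaf (.cnt 1 36 0 2)))) (.node (.node (.leaf (.tri 11 13 15)) (.leaf (.nb 15 26878))) (.leaf (.wwe 14 13 15)))) (.node (.node (.node (.leaf (.tri 12 16 14)) (.leaf (.nb 13 39166))) (.node (.leaf (.ew 15 16)) (.leaf (.cnt 3 32 3 3)))) (.node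 (.node (.leaf (.ew 14 15)) (.leaf (.cnt 0 34 0 0))) (.leaf (.nb 11 51454)))))) (.node (.node (.node (.node (.node (.leaf (.tri 11 15 12)) (.leaf (.nb 12 51454))) (.node (.leaf (.tri 12 13 16)) (.leaf (.cnt 1 32 1 0)))) (.node (.node (.leaf (.ew 13 14)) (.leaf (.nb 15 10494))) (.leaf (.wwe 13 14 16)))) (.node (.node (.node (.leaf (.tri 12 11 14)) (.leaf (.nb 13 51454))) (.node (.leaf (.tri 15 12 16)) (.leaf (.cnt 2 40 0 1)))) (.node (.node (.leaf (.tri 14 12 15)) (.leaf (.nb 16 39166))) (.leaf (.wwe 16 11 15))))) (.node (.node (.node (.node (.leaf (.tri 12 14 13)) (.leaf (.nb 13 35070))) (.node (.leaf (.tri 14 13 16)) (.leaf (.cnt 1 40 0 2)))) (.node (.node (.leaf (.tri 11 16 15)) (.leaf (.nb 15 22782))) (.leaf (.wwe 14 15 16)))) (.node (.node (.node (.leaf (.tri 13 11 14)) (.leaf (.nb 14 100606))) (.node (.leaf (.wwe 11 12 16)) (.leaf (.cnt 4 32 6 0)))) (.node (.node (.leaf (.tri 11 13 16)) (.leaf (.cnt 0 36 0 0))) (.leaf (.nb 11 108798)))))))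

def a74015_1 : Tr Rule := (.node (.node (.node (.node (.node (.node (.leaf (.tri 11 14 12)) (.leaf (.nb 12 84222))) (.node (.leaf (.tri 12 11 16)) (.leaf (.cnt 0 44 0 1)))) (.node (.node (.leaf (.tri 13 16 14)) (.leaf (.nb 15 84222))) (.leaf (.wwe 12 11 16)))) (.node (.node (.node (.leaf (.ew 12 13)) (.leaf (.nb 13 84222))) (.node (.leaf (.tri 15 11 16)) (.leaf (.cnt 2 32 3 2)))) (.node (.node (.leaf (.tri 14 11 15)) (.leaf (.nb 16 51454))) (.leaf (.wwe 16 12 14))))) (.node (.node (.node (.node (.leaf (.tri 12 11 13)) (.leaf (.nb 13 67838))) (.node (.leaf (.tri 14 12 16)) (.leaf (.cnt 1 40 0 0)))) (.node (.node (.leaf (.tri 11 14 15)) (.leaf (.nb 15 71934))) (.leaf (.wwe 14 12 16)))) (.node (.node (.node (.leaf (.ew 12 14)) (.leaf (.nb 13 22782))) (.node (.leaf (.wwe 11 12 15)) (.leaf (.cnt 3 32 5 1)))) (.node (.node (.leaf (.tri 11 12 16)) (.leaf (.cnt 0 34 0 1))) (.leaf (.nb 11 116990)))))) (.node (.node (.node (.node (.node (.leaf (.tri 11 16 12)) (.leaf (.nb 12 10494))) (.node (.leaf (.tri 13 15 16)) (.leaf (.cnt 1 32 2 1)))) (.node (.node (.leaf (.tri 11 12 15)) (.leaf (.nb 15 76030)))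 (.leaf (.wwe 14 12 13)))) (.node (.node (.node (.leaf (.tri 12 13 14)) (.leaf (.nb 13 6398))) (.node (.leaf (.tri 15 14 16)) (.leaf (.cnt 2 40 2 1)))) (.node (.node (.leaf (.tri 14 16 15)) (.leaf (.cnt 0 32 0 1))) (.leaf (.wwe 16 14 15))))) (.node (.node (.node (.node (.leaf (.tri 12 15 13)) (.leaf (.nb 13 100606))) (.node (.leaf (.tri 14 15 16)) (.leaf (.cnt 1 44 1 0)))) (.node (.node (.leaf (.ew 11 15)) (.leaf (.nb 15 14590))) (.leaf (.wwe 15 11 16)))) (.node (.node (.node (.leaf (.tri 13 12 14)) (.leaf (.nb 14 14590))) (.node (.leaf (.wwe 12 13 14)) (.leaf (.cnt 5 0 32 6)))) (.node (.node (.leaf (.tri 11 14 16)) (.leaf (.cnt 0 40 0 0))) (.leaf (.nb 12 67838)))))))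

def a74015_2 : Tr Rule := (.node a74015_0 a74015_1)

def b74015_3 : Tr ℕ := (.node (.node (.node (.node (.node (.node (.leaf (936)) (.leaf (1550))) (.leaf (79694463023091963))) (.node (.leaf (102877543798524)) (.leaf (1500)))) (.node (.node (.leaf (11144176357686808937959039262)) (.leaf (1160990))) (.node (.leaf (6127865)) (.leaf (1821))))) (.node (.node (.node (.leaf (80521570594959626)) (.leaf (37043709265658))) (.node (.leaf (19727290462491)) (.leaf (1395)))) (.node (.node (.leaf (23322690111)) (.leaf (1159708))) (.node (.leaf (1324)) (.leaf (1803)))))) (.node (.node (.node (.node (.leaf (391289809695375629)) (.leaf (37044547088617))) (.node (.leaf (4749123833)) (.leaf (1497)))) (.node (.node (.leaf (391289809695596831)) (.leaf (4195463401))) (.node (.leaf (1496)) (.leaf (687))))) (.node (.node (.node (.leaf (391289809695597048)) (.leaf (19478186280735))) (.node (.leaf (6127902)) (.leaf (4216541434)))) (.node (.node (.leaf (6133226)) (.leaf (1024283))) (.node (.leaf (19478181181231)) (.leaf (284)))))))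

def b74015_4 : Tr ℕ := (.node (.node (.node (.node (.node (.node (.leaf (872)) (.leaf (0))) (.leaf (151734738848171807))) (.node (.leaf (9669808394)) (.leaf (1806)))) (.node (.node (.leaf (1602723060513164620042)) (.leaf (4748908282))) (.node (.leaf (4749127946)) (.leaf (751))))) (.node (.node (.node (.leaf (664244673119083606300)) (.leaf (19456655790620))) (.node (.leaf (80821673431897886)) (.leaf (1331)))) (.node (.node (.leaf (4799385887)) (.leaf (1159417))) (.node (.leaf (79781551487825695)) (.leaf (233)))))) (.node (.node (.node (.node (.leaf (664244673140870989565)) (.leaf (4755415327))) (.node (.leaf (5694016)) (.leaf (1823)))) (.node (.node (.leaf (39605741285934)) (.leaf (4750164200))) (.node (.leaf (1390)) (.leaf (286))))) (.node (.node (.node (.leaf (664244673136928356092)) (.leaf (4755416572))) (.node (.leaf (6129405)) (.leaf (3076347)))) (.node (.node (.leaf (162149249718462221)) (.leaf (283))) (.node (.leaf (19452428005625)) (.leaf (285)))))))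

def b74015_5 : Tr ℕ := (.node b74015_3 b74015_4)

def h74015_0 : List ℕ := [454768, 450673, 20831622865629279, 122864558608665427488807, 54190407354891395136, 340039210375221705093159, 8118748870862322599670701724184691, 1470171891575703920581955588, 1946636363, 696690836757413435149877367, 1903313831265729293968497197175, 14609356680715901860191699361349751, 11038861604854254762523580222783612, 275901624387, 8659560153128, 1174577178, 11549766361551110148, 43888218231344225797443686371736846463, 2533757051801665, 618677286083422484332669, 174862471668659405308030, 1208111130, 1605757138706359255515525428490471937780736044, 392043840476754552690556845547982871036039, 1605811547989734567605992782272186883970199688, 1689469409587278, 651715436245044808937516, 540811, 417932, 17736497297985559, 343031224375909526430965546254306707546251, 1218691723095977600156737675, 16163147345990058122, 1325457418, 4754018635396805737137289367691, 2466836493, 16889667035246731, 24489285214810261, 716298090892931550991687819, 4992380267773497167484646146187, 10308173791245, 3328743720248831311182691930251,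 2602725952933037295506646802440272, 387253653518392905805977, 1348542863306061283651264032921, 2774204521393363671561697611915, 55855167030756158106881710561331622027, 651417, 131232, 688435360, 2181607586, 604635299, 381092, 405669, 114323343592013569050520919311991312546, 217279820876255761129636114006298971717180056982588551422881600527776367648909, 82455622493260115543458947688794042530, 688297, 422058, 397483, 721989804, 6118785556653, 5087959859373, 4538237591725, 37038, 552726098096]

def t74015 : Tr Rule := a74015_2

def u74015 : Tr ℕ := b74015_5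

def h74015 : List ℕ := h74015_0

def lab74015 : List ℕ := [0, 1, 2, 2, 2, 2, 2, 2, 3, 3, 3, 5, 6, 6, 6, 6, 6]

theorem c74015 : check lab74015 t74015 113 u74015 h74015 178 = true := by decide +kernel

def a65105_0 : Tr Rule := (.node (.node (.node (.node (.node (.node (.leaf (.tri 11 13 12)) (.leaf (.nb 11 114814))) (.leaf (.tri 11 12 16))) (.node (.node (.leaf (.tri 13 12 14)) (.leaf (.nb 13 69758))) (.leaf (.tri 15 14 16)))) (.node (.node (.node (.leaf (.tri 12 15 13)) (.leaf (.nb 12 73854))) (.leaf (.tri 13 12 16))) (.node (.node (.leaf (.tri 12 14 15)) (.leaf (.nb 15 90238))) (.leaf (.wwe 13 15 16))))) (.node (.node (.node (.node (.leaf (.tri 11 15 13)) (.leaf (.nb 12 98430))) (.leaf (.ew 11 16))) (.node (.node (.leaf (.tri 11 13 15)) (.leaf (.nb 14 106622))) (.leaf (.wwe 13 11 15)))) (.node (.node (.node (.leaf (.ew 11 14)) (.leaf (.nb 12 90238))) (.leaf (.tri 14 13 16))) (.node (.node (.leaf (.tri 14 12 15)) (.leaf (.nb 16 12414))) (.leaf (.wwe 16 11 13)))))) (.node (.node (.node (.node (.node (.leaf (.ew 11 12)) (.leaf (.nb 11 106622))) (.leaf (.tri 11 14 16))) (.node (.node (.leaf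 (.ew 13 14)) (.leaf (.nb 13 20606))) (.leaf (.wwe 11 15 16)))) (.node (.node (.node (.leaf (.ew 12 13)) (.leaf (.nb 12 106622))) (.leaf (.tri 13 15 16))) (.node (.node (.leaf (.tri 13 16 15)) (.leaf (.nb 15 12414))) (.leaf (.wwe 15 11 12))))) (.node (.node (.node (.node (.leaf (.ew 11 13)) (.leaf (.nb 12 49278))) (.leaf (.ew 12 16))) (.node (.node (.leaf (.tri 11 16 15)) (.leaf (.nb 14 12414))) (.leaf (.wwe 13 12 16)))) (.node (.node (.node (.leaf (.ew 12 14)) (.leaf (.nb 13 82046))) (.leaf (.tri 15 11 16))) (.node (.leaf (.tri 14 16 15)) (.leaf (.wwe 16 13 15)))))))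

def a65105_1 : Tr Rule := (.node (.node (.node (.node (.node (.node (.leaf (.tri 11 16 12)) (.leaf (.nb 11 41086))) (.leaf (.tri 11 13 16))) (.node (.node (.leaf (.tri 13 16 14)) (.leaf (.nb 13 36990))) (.leaf (.ew 15 16)))) (.node (.node (.node (.leaf (.tri 12 16 13)) (.leaf (.nb 12 41086))) (.leaf (.tri 13 14 16))) (.node (.node (.leaf (.tri 13 14 15)) (.leaf (.nb 15 86142))) (.leaf (.wwe 14 13 15))))) (.node (.node (.node (.node (.leaf (.tri 11 16 13)) (.leaf (.nb 12 82046))) (.leaf (.tri 12 13 16))) (.node (.node (.leaf (.tri 11 14 15)) (.leaf (.nb 14 102526))) (.leaf (.wwe 13 11 16)))) (.node (.node (.node (.leaf (.tri 12 11 14)) (.leaf (.nb 12 57470))) (.leaf (.ew 14 16))) (.node (.leaf (.tri 14 13 15)) (.leaf (.wwe 16 11 15)))))) (.node (.node (.node (.node (.node (.leaf (.tri 11 14 13)) (.leaf (.nb 11 57470))) (.leaf (.tri 11 15 16))) (.node (.node (.leaf (.tri 11 12 15)) (.leaf (.nb 14 98430))) (.leaf (.wwe 12 11 13)))) (.node (.node (.node (.leaf (.tri 11 16 14)) (.leaf (.nb 12 24702))) (.leaf (.tri 14 11 16))) (.node (.node (.leaf (.tri 14 11 15)) (.leaf (.nb 16 57470))) (.leaf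 (.wwe 15 11 16))))) (.node (.node (.node (.node (.leaf (.tri 12 14 13)) (.leaf (.nb 12 114814))) (.leaf (.tri 13 11 16))) (.node (.node (.leaf (.ew 11 15)) (.leaf (.nb 15 82046))) (.leaf (.wwe 13 14 16)))) (.node (.node (.node (.leaf (.tri 13 11 14)) (.leaf (.nb 13 114814))) (.leaf (.tri 15 13 16))) (.node (.leaf (.ew 14 15)) (.leaf (.nb 17 106622)))))))

def a65105_2 : Tr Rule := (.node a65105_0 a65105_1)

def b65105_3 : Tr ℕ := (.node (.node (.node (.node (.node (.node (.leaf (38355071911675)) (.leaf (1532))) (.leaf (7386909))) (.node (.node (.leaf (79958483236155660)) (.leaf (1786))) (.leaf (1496)))) (.node (.node (.node (.leaf (30256649980)) (.leaf (521))) (.leaf (1175838))) (.node (.leaf (123906022150716)) (.leaf (1028364))))) (.node (.node (.node (.node (.leaf (507514162484455162)) (.leaf (249))) (.leaf (19726701924620))) (.node (.leaf (7386877)) (.leaf (1020170)))) (.node (.node (.node (.leaf (30256648424)) (.leaf (283))) (.leaf (1177341))) (.node (.leaf (7385374)) (.leaf (1804)))))) (.node (.node (.node (.node (.node (.leaf (38349076074728)) (.leaf (1020187))) (.leaf (1803))) (.node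 (.node (.leaf (157098844634605324)) (.leaf (0))) (.leaf (126448015820558)))) (.node (.node (.node (.leaf (123931231944990)) (.leaf (1787))) (.leaf (1175803))) (.node (.leaf (4749123833)) (.leaf (1840))))) (.node (.node (.node (.node (.leaf (123931238319920)) (.leaf (1534))) (.leaf (4816089337))) (.node (.leaf (123906015930141)) (.leaf (7536889)))) (.node (.node (.node (.leaf (30256649978)) (.leaf (1806))) (.leaf (287))) (.node (.leaf (4749127946)) (.leaf (251)))))))

def h65105_0 : List ℕ := [141771322021681582727200, 503672915, 17457221797535775, 6029943133871273079446753916790439837235834667039, 24698647076336734533413904062322944901068717016870948, 103698608520747258157846146559424741473, 96563684078389477724987167723816586935340627010043134049, 24019285774681816228793902355066916, 3660138179502145, 1275187204, 88913927832441377788407260038125085038500736499856850975, 70915069376529017466983, 325897483922620698210353, 2815301033201737, 3963439475387565421224922312807, 4504838021128267, 24017859571028323365006717804245023, 6759891267318909224479545100273889155589024935967, 5785441962811474030,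 97224164160802115222257774, 2305847889622204526, 1561308082841425536841150717827653642297479278, 5340283182912468479037781727815077998, 1650364054994570224350776278000336768174854254, 200820, 3250405364966311673910652260468, 255053909474743305961582, 8108965851142, 2306130738954907758, 555413945611628582924180714901399056896116, 6942891019150285578411023977718541470177258086516, 495739, 73852, 19619376112997949565, 8659426308213, 49279, 50839679, 5467749120076399181733453877364, 4812410642562, 772231299, 185073795, 19430227936039044]

def t65105 : Tr Rule := a65105_2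

def u65105 : Tr ℕ := b65105_3

def h65105 : List ℕ := h65105_0

def lab65105 : List ℕ := [0, 1, 2, 2, 2, 2, 2, 3, 3, 3, 3, 4, 6, 6, 6, 6, 6]

theorem c65105 : check lab65105 t65105 93 u65105 h65105 134 = true := by decide +kernel

def a74105_0 : Tr Rule := (.node (.node (.node (.node (.node (.node (.leaf (.tri 11 13 12)) (.leaf (.nb 12 98558))) (.leaf (.tri 11 13 16))) (.node (.node (.leaf (.tri 13 12 14)) (.leaf (.nb 14 78078))) (.leaf (.tri 15 13 16)))) (.node (.node (.node (.leaf (.tri 11 12 14)) (.leaf (.nb 13 37118))) (.leaf (.tri 13 12 16))) (.node (.node (.leaf (.tri 12 14 15)) (.leaf (.nb 15 28926))) (.leaf (.wwe 15 13 16))))) (.node (.node (.node (.node (.leaf (.tri 11 12 13)) (.leaf (.nb 12 57598))) (.leaf (.tri 12 13 16))) (.node (.node (.leaf (.tri 11 13 15)) (.leaf (.nb 15 20734))) (.leaf (.wwe 12 11 14)))) (.node (.node (.node (.leaf (.tri 12 15 14)) (.leaf (.nb 14 41214))) (.leaf (.tri 14 12 16))) (.node (.leaf (.tri 13 14 15)) (.leaf (.nb 11 82174)))))) (.node (.node (.node (.node (.node (.leaf (.tri 11 16 12)) (.leaf (.nb 12 49406))) (.leaf (.ew 11 16))) (.node (.node (.leaf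 (.tri 13 16 14)) (.leaf (.nb 15 90366))) (.leaf (.ew 15 16)))) (.node (.node (.node (.leaf (.ew 11 14)) (.leaf (.nb 14 98558))) (.leaf (.ew 13 16))) (.node (.node (.leaf (.tri 13 11 15)) (.leaf (.nb 16 28926))) (.leaf (.wwe 16 11 13))))) (.node (.node (.node (.node (.leaf (.ew 11 13)) (.leaf (.nb 13 49406))) (.leaf (.ew 12 16))) (.node (.node (.leaf (.ew 11 15)) (.leaf (.nb 15 12542))) (.leaf (.wwe 13 15 16)))) (.node (.node (.node (.leaf (.ew 12 14)) (.leaf (.nb 14 69886))) (.leaf (.tri 15 11 16))) (.node (.leaf (.tri 14 13 15)) (.leaf (.nb 11 24830)))))))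

def a74105_1 : Tr Rule := (.node (.node (.node (.node (.node (.node (.leaf (.tri 11 14 12)) (.leaf (.nb 12 82174))) (.leaf (.tri 11 14 16))) (.node (.node (.leaf (.tri 13 15 14)) (.leaf (.nb 15 73982))) (.leaf (.tri 15 14 16)))) (.node (.node (.node (.leaf (.tri 11 13 14)) (.leaf (.nb 13 86270))) (.leaf (.tri 13 14 16))) (.node (.node (.leaf (.ew 12 15)) (.leaf (.nb 16 24830))) (.leaf (.wwe 15 14 16))))) (.node (.node (.node (.node (.leaf (.tri 11 14 13)) (.leaf (.nb 13 82174))) (.leaf (.tri 12 14 16))) (.node (.node (.leaf (.tri 11 14 15)) (.leaf (.nb 15 86270))) (.leaf (.wwe 12 13 16)))) (.node (.node (.node (.leaf (.tri 12 16 14)) (.leaf (.nb 14 106750))) (.leaf (.ew 14 16))) (.node (.leaf (.tri 14 11 15)) (.leaf (.nb 11 41214)))))) (.node (.node (.node (.node (.node (.leaf (.ew 11 12)) (.leaf (.nb 12 24830))) (.leaf (.tri 12 11 16))) (.node (.node (.leaf (.ew 13 14)) (.leaf (.nb 15 69886))) (.leaf (.wwe 11 13 16)))) (.node (.node (.node (.leaf (.tri 12 13 14)) (.leaf (.nb 14 73982))) (.leaf (.tri 14 11 16))) (.node (.leaf (.tri 13 12 15)) (.leaf (.wwe 16 12 13))))) (.node (.node (.node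 (.node (.leaf (.tri 12 14 13)) (.leaf (.nb 13 114942))) (.leaf (.tri 13 11 16))) (.node (.node (.leaf (.tri 12 13 15)) (.leaf (.nb 15 78078))) (.leaf (.wwe 14 11 13)))) (.node (.node (.node (.leaf (.tri 13 11 14)) (.leaf (.nb 14 37118))) (.leaf (.tri 15 12 16))) (.node (.leaf (.tri 11 12 16)) (.leaf (.nb 11 57598)))))))

def a74105_2 : Tr Rule := (.node a74105_0 a74105_1)

def b74105_3 : Tr ℕ := (.node (.node (.node (.node (.node (.node (.leaf (3608195338)) (.leaf (954617))) (.leaf (880924))) (.node (.node (.leaf (3614422488)) (.leaf (286))) (.leaf (1788)))) (.node (.node (.node (.leaf (14804675700184)) (.leaf (1840))) (.leaf (4755490591))) (.node (.leaf (3608273163)) (.leaf (7464751))))) (.node (.node (.node (.node (.leaf (14804675698954)) (.leaf (1823))) (.leaf (215))) (.node (.leaf (80240031193669916)) (.leaf (4748976361)))) (.node (.node (.node (.leaf (14804675781184)) (.leaf (1498))) (.leaf (4749119720))) (.node (.leaf (14779459625536)) (.leaf (1500)))))) (.node (.node (.node (.node (.node (.leaf (122831676428864)) (.leaf (1024286))) (.leaf (880925))) (.node (.node (.leaf (882427))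 (.leaf (0))) (.leaf (19451523219705)))) (.node (.node (.node (.leaf (3614422778)) (.leaf (1822))) (.leaf (7325488))) (.node (.leaf (3608269086)) (.leaf (283))))) (.node (.node (.node (.node (.leaf (14804675700493)) (.leaf (233))) (.leaf (1568))) (.node (.leaf (3608273183)) (.leaf (1159418)))) (.node (.node (.node (.leaf (3614422798)) (.leaf (251))) (.leaf (7325470))) (.node (.leaf (3608266510)) (.leaf (573)))))))

def h74105_0 : List ℕ := [5067856509423705, 72647850363413762090, 24017463391634051296676093976809514, 349486255935176655093853, 24017542600430140614761766984208478, 1315542743051563754663874602, 1160790784192994462853668960, 20770851767273740654312794167009376, 119638310284841372508858371941547225186, 12662246190534585426213908102119466, 268734544, 19621344030925070436, 4874038722614880395619522327027814, 22619598249330257210796641039104946258, 19706410288185444, 85080328871968924221184874036523860068, 212408000588908001871906669614100413587556, 1962514578158795130797428801690587193090953320, 442468, 12397, 101458499849106227310, 479172082986510792771389029649251830259821, 3941475717279810,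 6814337665075848364920680898670, 32176877681548646815259312831884486362503273496633453, 1238410551411, 348572167484417239161340019, 1851141575082677578901802171736341225425789043, 391969100214800182882414, 110343773678178646984051348720430010478, 139384, 587649144, 112997685458620686103249208387752665203, 25369908443265355891, 34905164872126574, 503933, 450686, 487550, 990355582, 5705646461055, 5843303477375, 2819663343746]

def t74105 : Tr Rule := a74105_2

def u74105 : Tr ℕ := b74105_3

def h74105 : List ℕ := h74105_0

def lab74105 : List ℕ := [0, 1, 2, 2, 2, 2, 2, 2, 3, 3, 3, 4, 6, 6, 6, 6, 6]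

theorem c74105 : check lab74105 t74105 91 u74105 h74105 132 = true := by decide +kernel

def a65015_0 : Tr Rule := (.node (.node (.node (.node (.node (.node (.leaf (.tri 11 13 12)) (.leaf (.nb 12 100478))) (.leaf (.tri 11 14 16))) (.node (.node (.leaf (.tri 13 15 14)) (.leaf (.nb 15 67710))) (.leaf (.tri 15 14 16)))) (.node (.node (.node (.leaf (.tri 11 12 14)) (.leaf (.nb 13 39038))) (.leaf (.tri 13 14 16))) (.node (.node (.leaf (.ew 12 15)) (.leaf (.nb 16 34942))) (.leaf (.wwe 15 14 16))))) (.node (.node (.node (.node (.leaf (.tri 11 12 13)) (.leaf (.nb 13 34942))) (.leaf (.tri 12 14 16))) (.node (.node (.leaf (.tri 11 14 15)) (.leaf (.nb 15 75902))) (.leaf (.wwe 12 13 16)))) (.node (.node (.node (.leaf (.tri 12 16 14)) (.leaf (.nb 14 6270))) (.leaf (.ew 14 16))) (.node (.leaf (.tri 14 11 15)) (.leaf (.nb 11 43134)))))) (.node (.node (.node (.node (.node (.leaf (.tri 11 16 12)) (.leaf (.nb 12 43134))) (.leaf (.tri 12 11 16))) (.node (.node (.leaf (.ew 13 14)) (.leaf (.nb 15 84094))) (.leaf (.wwe 11 13 16)))) (.node (.node (.node (.leaf (.ew 11 14)) (.leaf (.nb 14 75902))) (.leaf (.tri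 14 11 16))) (.node (.leaf (.tri 13 12 15)) (.leaf (.wwe 16 12 13))))) (.node (.node (.node (.node (.leaf (.ew 11 13)) (.leaf (.nb 13 6270))) (.leaf (.tri 13 11 16))) (.node (.node (.leaf (.tri 12 13 15)) (.leaf (.nb 15 6270))) (.leaf (.wwe 14 11 13)))) (.node (.node (.node (.leaf (.tri 13 11 14)) (.leaf (.nb 14 39038))) (.leaf (.tri 15 12 16))) (.node (.leaf (.tri 11 12 16)) (.leaf (.nb 11 59518)))))))

def a65015_1 : Tr Rule := (.node (.node (.node (.node (.node (.node (.leaf (.tri 11 14 12)) (.leaf (.nb 12 75902))) (.leaf (.ew 11 16))) (.node (.node (.leaf (.tri 13 16 14)) (.leaf (.nb 15 18558))) (.leaf (.ew 15 16)))) (.node (.node (.node (.leaf (.tri 11 13 14)) (.leaf (.nb 14 34942))) (.leaf (.ew 13 16))) (.node (.node (.leaf (.tri 13 11 15)) (.leaf (.nb 16 39038))) (.leaf (.wwe 16 11 13))))) (.node (.node (.node (.node (.leaf (.tri 11 14 13)) (.leaf (.nb 13 84094))) (.leaf (.ew 12 16))) (.node (.node (.leaf (.ew 11 15)) (.leaf (.nb 15 26750))) (.leaf (.wwe 13 15 16)))) (.node (.node (.node (.leaf (.ew 12 14)) (.leaf (.nb 14 71806))) (.leaf (.tri 15 11 16))) (.node (.leaf (.tri 14 13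 15)) (.leaf (.nb 11 26750)))))) (.node (.node (.node (.node (.node (.leaf (.ew 11 12)) (.leaf (.nb 12 26750))) (.leaf (.tri 12 13 16))) (.node (.node (.leaf (.tri 11 13 15)) (.leaf (.nb 15 10366))) (.leaf (.wwe 12 11 14)))) (.node (.node (.node (.leaf (.tri 12 13 14)) (.leaf (.nb 14 43134))) (.leaf (.tri 14 12 16))) (.node (.leaf (.tri 13 14 15)) (.leaf (.nb 11 84094))))) (.node (.node (.node (.node (.leaf (.tri 12 14 13)) (.leaf (.nb 13 71806))) (.leaf (.tri 13 12 16))) (.node (.node (.leaf (.tri 12 14 15)) (.leaf (.nb 15 22654))) (.leaf (.wwe 15 13 16)))) (.node (.node (.node (.leaf (.tri 13 12 14)) (.leaf (.nb 14 14462))) (.leaf (.tri 15 13 16))) (.node (.leaf (.tri 11 13 16)) (.leaf (.nb 12 67710)))))))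

def a65015_2 : Tr Rule := (.node a65015_0 a65015_1)

def b65015_3 : Tr ℕ := (.node (.node (.node (.node (.node (.node (.leaf (3608195338)) (.leaf (954617))) (.leaf (880924))) (.node (.node (.leaf (3614422488)) (.leaf (286))) (.leaf (1788)))) (.node (.node (.node (.leaf (14804675700184)) (.leaf (1840))) (.leaf (4755490591))) (.node (.leaf (3608273163)) (.leaf (7464751))))) (.node (.node (.node (.node (.leaf (14804675698954)) (.leaf (1823))) (.leaf (215))) (.node (.leaf (80240031193669916)) (.leaf (4748976361)))) (.node (.node (.node (.leaf (14804675781184)) (.leaf (1498))) (.leaf (4749119720))) (.node (.leaf (14779459625536)) (.leaf (1500)))))) (.node (.node (.node (.node (.node (.leaf (122831676428864)) (.leaf (1024286))) (.leaf (880925))) (.node (.node (.leaf (882427)) (.leaf (0))) (.leaf (19451523219705)))) (.node (.node (.node (.leaf (3614422778)) (.leaf (1822))) (.leaf (7325488))) (.node (.leaf (3608269086)) (.leaf (283))))) (.node (.node (.node (.node (.leaf (14804675700493)) (.leaf (233))) (.leaf (1568))) (.node (.leaf (3608273183)) (.leaf (1159418)))) (.node (.node (.node (.leaf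 (3614422798)) (.leaf (251))) (.leaf (7325470))) (.node (.leaf (3608266510)) (.leaf (573)))))))

def h65015_0 : List ℕ := [4786312863580249, 71494647315093946409, 25639976912406689299768556484984873, 373096935146476561346652, 25640056121212223350819968782811229, 1218823953962707502722351145, 1141443247560037428046762079, 21744328180738969936804683924459615, 116979529695470372285426117086661681249, 12337806884376762557916494455762985, 251936841, 18468140982605275235, 4549123970110724097646642260545637, 21290694851307814742250434743628800086, 19987816528638051, 89067688261522503362271654483040039011, 206962152516700749380317222555860246892643, 1784108616570550066417637735048476124631973991, 438371, 12396, 92235127812251451501, 435614610467799398876184911358914885767276, 6475575141339210, 6497405672204523977431406760045, 30680299982577499555969642712239631799809651107090540, 1169607168114, 329219908484414384755769458, 1895737619632315496564031031798840158329426034, 401413833180539456528493, 113001905071947310253387525086249402477, 135287, 570867831, 110338904948535876833422792983199584370, 24216705326158954610,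 34623621175935085, 499836, 446589, 483453, 973574269, 5843068633214, 5705847742590, 2750927085697]

def t65015 : Tr Rule := a65015_2

def u65015 : Tr ℕ := b65015_3

def h65015 : List ℕ := h65015_0

def lab65015 : List ℕ := [0, 1, 2, 2, 2, 2, 2, 3, 3, 3, 3, 5, 6, 6, 6, 6, 6]

theorem c65015 : check lab65015 t65015 90 u65015 h65015 131 = true := by decide +kernel

def a74006_0 : Tr Rule := (.node (.node (.node (.node (.node (.node (.leaf (.tri 11 13 12)) (.leaf (.cnt 1 36 1 2))) (.leaf (.nb 14 98558))) (.node (.node (.leaf (.ew 14 15)) (.leaf (.cnt 3 16 8 7))) (.leaf (.cnt 0 38 1 0)))) (.node (.node (.node (.leaf (.tri 12 11 15)) (.leaf (.cnt 2 32 2 4))) (.leaf (.cnt 0 32 0 1))) (.node (.node (.leaf (.wwe 13 14 15)) (.leaf (.cnt 5 0 30 8))) (.leaf (.cnt 1 28 2 1))))) (.node (.node (.node (.node (.leaf (.tri 13 11 14)) (.leaf (.cnt 1 40 2 0))) (.leaf (.cnt 0 28 1 0))) (.node (.node (.leaf (.tri 11 15 16)) (.leaf (.cnt 4 0 16 14))) (.leaf (.cnt 0 42 0 0)))) (.node (.node (.node (.leaf (.tri 13 16 15)) (.leaf (.cnt 2 32 4 2))) (.leaf (.cnt 0 36 0 0))) (.node (.leaf (.wwe 15 13 14)) (.leaf (.cnt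 1 32 2 1)))))) (.node (.node (.node (.node (.node (.leaf (.ew 11 12)) (.leaf (.cnt 1 40 0 1))) (.leaf (.cnt 0 28 0 0))) (.node (.node (.leaf (.tri 11 13 16)) (.leaf (.cnt 3 32 6 1))) (.leaf (.cnt 0 40 0 1)))) (.node (.node (.node (.leaf (.tri 13 12 15)) (.leaf (.cnt 2 32 3 3))) (.leaf (.cnt 0 34 0 1))) (.node (.node (.leaf (.wwe 14 13 15)) (.leaf (.root))) (.leaf (.cnt 1 32 1 1))))) (.node (.node (.node (.node (.leaf (.tri 13 16 14)) (.leaf (.cnt 2 24 4 3))) (.leaf (.cnt 0 30 1 0))) (.node (.node (.leaf (.tri 12 14 16)) (.leaf (.cnt 4 32 7 0))) (.leaf (.cnt 1 28 1 1)))) (.node (.node (.node (.leaf (.tri 14 12 15)) (.leaf (.cnt 2 40 2 0))) (.leaf (.cnt 0 36 1 0))) (.node (.leaf (.nb 11 57598)) (.leaf (.cnt 1 36 0 2)))))))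

def a74006_1 : Tr Rule := (.node (.node (.node (.node (.node (.node (.leaf (.tri 11 16 12)) (.leaf (.cnt 1 36 2 1))) (.leaf (.nb 16 57598))) (.node (.node (.leaf (.tri 11 12 16)) (.leaf (.cnt 3 32 5 2))) (.leaf (.cnt 0 40 0 0)))) (.node (.node (.node (.leaf (.tri 13 11 15)) (.leaf (.cnt 2 32 3 2))) (.leaf (.cnt 0 32 1 0))) (.node (.node (.leaf (.wwe 14 11 15)) (.leaf (.cnt 5 0 31 7))) (.leaf (.cnt 1 32 0 2))))) (.node (.node (.node (.node (.leaf (.tri 13 12 14)) (.leaf (.cnt 2 24 4 2))) (.leaf (.cnt 0 30 0 1))) (.node (.node (.leaf (.ew 11 16)) (.leaf (.cnt 4 0 16 15))) (.leaf (.cnt 1 28 0 2)))) (.node (.node (.node (.leaf (.ew 13 15)) (.leaf (.cnt 2 40 1 0))) (.leaf (.cnt 0 36 0 1))) (.node (.leaf (.nb 11 114942)) (.leaf (.cnt 1 36 0 1)))))) (.node (.node (.node (.node (.node (.leaf (.tri 11 12 14)) (.leaf (.cnt 1 40 1 1))) (.leaf (.cnt 0 28 0 1))) (.node (.node (.leaf (.tri 11 14 16)) (.leaf (.cnt 3 32 6 2))) (.leaf (.cnt 0 40 1 0)))) (.node (.node (.node (.leaf (.tri 13 14 15)) (.leaf (.cnt 2 32 4 1))) (.leaf (.cnt 0 34 1 0))) (.node (.leaf (.wwe 15 12 14)) (.leaf (.cnt 1 32 1 2)))))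 (.node (.node (.node (.node (.leaf (.ew 13 14)) (.leaf (.cnt 2 32 2 3))) (.leaf (.cnt 0 32 0 0))) (.node (.node (.leaf (.ew 12 16)) (.leaf (.cnt 4 32 8 0))) (.leaf (.cnt 1 28 1 2)))) (.node (.node (.node (.leaf (.tri 14 13 15)) (.leaf (.cnt 3 16 8 6))) (.leaf (.cnt 0 38 0 1))) (.node (.leaf (.nb 12 57598)) (.leaf (.cnt 1 36 1 1)))))))

def a74006_2 : Tr Rule := (.node a74006_0 a74006_1)

def b74006_3 : Tr ℕ := (.node (.node (.node (.node (.node (.node (.leaf (1335)) (.leaf (1331))) (.leaf (2343470))) (.node (.leaf (1260)) (.leaf (740)))) (.node (.node (.node (.leaf (937)) (.leaf (679))) (.leaf (1391))) (.node (.leaf (9362715956)) (.leaf (864))))) (.node (.node (.node (.node (.leaf (1207)) (.leaf (744))) (.leaf (572))) (.node (.leaf (807)) (.leaf (1134)))) (.node (.node (.leaf (4212183308)) (.leaf (678))) (.node (.leaf (9065169111)) (.leaf (736)))))) (.node (.node (.node (.node (.node (.leaf (1271)) (.leaf (251))) (.leaf (2344240))) (.node (.leaf (5178025)) (.leaf (1198)))) (.node (.node (.node (.leaf (873)) (.leaf (0))) (.leaf (1327))) (.node (.leaf (2343652)) (.leaf (800))))) (.node (.node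 (.node (.node (.leaf (1143)) (.leaf (1804))) (.leaf (1789))) (.node (.leaf (743)) (.leaf (928)))) (.node (.node (.leaf (1324)) (.leaf (1264))) (.node (.leaf (2286899)) (.leaf (1514)))))))

def h74006_0 : List ℕ := [2316260057840582711, 286811, 327772, 348253, 1493540958, 352351, 281612935880737, 128942905066526210965675271443030753347, 319586, 3572952696641021981848901100245068, 1359347811, 307301, 16153007169527320617, 99824214168510779525022847826550750480180210353563039590304092625538604785288966349229785189, 43812146786389340213, 3943605282783291, 571845389301946797373891765882149409278521294866567905327639231687877548453989, 4060220902812097302105744716360042952026686883111225549041113282828333803860839238560191024883168587866, 200879519238967443959108605918340910717607315809340710367333, 86125, 192622, 266351, 1023828079, 409711, 1191596144, 1392914546, 356468, 1476763765, 344182, 323703, 282744, 156932156589010313803743303285029030692137628918725365657713, 434298, 1728524410, 1225150587, 252158076, 1057419389, 755490943]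

def t74006 : Tr Rule := a74006_2

def u74006 : Tr ℕ := b74006_3

def h74006 : List ℕ := h74006_0

def lab74006 : List ℕ := [0, 1, 2, 2, 2, 2, 2, 2, 3, 3, 3, 6, 6, 6, 6, 6, 6]

theorem c74006 : check lab74006 t74006 91 u74006 h74006 128 = true := by decide +kernel

def a65006_0 : Tr Rule := (.node (.node (.node (.node (.node (.node (.leaf (.tri 11 13 12)) (.leaf (.nb 15 12414))) (.leaf (.ew 12 16))) (.node (.leaf (.ew 12 14)) (.leaf (.wwe 16 11 14)))) (.node (.node (.leaf (.tri 12 11 13)) (.leaf (.wwe 11 12 16))) (.node (.leaf (.ew 14 15)) (.leaf (.nb 14 41086))))) (.node (.node (.node (.node (.leaf (.tri 11 14 13)) (.leaf (.nb 16 41086))) (.leaf (.tri 14 13 16))) (.node (.leaf (.ew 13 14)) (.leaf (.nb 13 36990)))) (.node (.node (.leaf (.tri 11 13 14)) (.leaf (.wwe 12 13 16))) (.node (.leaf (.ew 11 16)) (.leaf (.nb 15 90238)))))) (.node (.node (.node (.node (.node (.leaf (.tri 11 16 12)) (.leaf (.nb 15 28798))) (.leaf (.ew 13 16))) (.node (.leaf (.tri 13 12 14)) (.leaf (.nb 12 41086)))) (.node (.node (.leaf (.tri 12 15 13)) (.leaf (.wwe 12 11 13))) (.node (.leaf (.tri 11 13 16)) (.leaf (.nb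 15 73854))))) (.node (.node (.node (.leaf (.tri 11 16 13)) (.leaf (.wwe 11 12 13))) (.node (.leaf (.ew 11 15)) (.leaf (.nb 14 98430)))) (.node (.node (.leaf (.ew 11 14)) (.leaf (.wwe 13 11 12))) (.node (.leaf (.tri 12 13 16)) (.leaf (.nb 15 20606)))))))

def a65006_1 : Tr Rule := (.node (.node (.node (.node (.node (.node (.leaf (.tri 11 14 12)) (.leaf (.nb 15 77950))) (.leaf (.tri 13 14 16))) (.node (.leaf (.tri 13 11 14)) (.leaf (.nb 11 41086)))) (.node (.node (.leaf (.tri 12 14 13)) (.leaf (.wwe 11 14 16))) (.node (.leaf (.tri 11 12 16)) (.leaf (.nb 15 82046))))) (.node (.node (.node (.node (.leaf (.tri 11 15 13)) (.leaf (.nb 16 24702))) (.leaf (.ew 14 16))) (.node (.leaf (.tri 11 13 15)) (.leaf (.nb 13 86142)))) (.node (.node (.leaf (.tri 11 16 14)) (.leaf (.wwe 12 14 16))) (.node (.leaf (.tri 12 11 16)) (.leaf (.nb 15 69758)))))) (.node (.node (.node (.node (.node (.leaf (.ew 11 12)) (.leaf (.nb 16 49278))) (.leaf (.tri 14 11 16))) (.node (.leaf (.tri 13 15 14)) (.leaf (.nb 13 49278)))) (.node (.node (.leaf (.ew 12 13)) (.leaf (.wwe 12 11 16))) (.node (.leaf (.tri 11 14 16)) (.leaf (.nb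 15 24702))))) (.node (.node (.node (.leaf (.ew 11 13)) (.leaf (.wwe 11 12 14))) (.node (.leaf (.tri 14 16 15)) (.leaf (.nb 14 73854)))) (.node (.node (.leaf (.tri 12 13 14)) (.leaf (.wwe 16 11 12))) (.node (.leaf (.tri 12 14 16)) (.leaf (.nb 15 86142)))))))

def a65006_2 : Tr Rule := (.node a65006_0 a65006_1)

def b65006_3 : Tr ℕ := (.node (.node (.node (.node (.node (.node (.leaf (4748972318)) (.leaf (1787))) (.leaf (8456738555))) (.node (.node (.leaf (79958371583633147)) (.leaf (1822))) (.leaf (1163514)))) (.node (.node (.node (.leaf (19457226141945)) (.leaf (1839))) (.leaf (1857))) (.node (.leaf (79958345181411067)) (.leaf (1499))))) (.node (.node (.node (.node (.leaf (34664620082975)) (.leaf (1532))) (.leaf (4195467550))) (.node (.leaf (34639365251357)) (.leaf (1165103)))) (.node (.node (.node (.leaf (2066172)) (.leaf (1550))) (.leaf (4765753612))) (.node (.leaf (34638796011311)) (.leaf (1028381)))))) (.node (.node (.node (.node (.node (.leaf (79696798865946363)) (.leaf (251))) (.leaf (2064633))) (.node (.node (.leaf (8456877855)) (.leaf (0))) (.leaf (1163547)))) (.node (.node (.node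 (.leaf (326337339899608277277)) (.leaf (232))) (.leaf (9654437644))) (.node (.leaf (2064667)) (.leaf (1500))))) (.node (.node (.node (.node (.leaf (8463042012)) (.leaf (1786))) (.leaf (504))) (.node (.leaf (8456876282)) (.leaf (284)))) (.node (.node (.node (.leaf (80064173193540156)) (.leaf (1823))) (.leaf (4765755167))) (.node (.leaf (8456738590)) (.leaf (954600)))))))

def h65006_0 : List ℕ := [2815506553970752, 1107443742, 21419175279699203732615032811298848, 359354130209373956017066679065896762220576, 16330428252311622, 201580604, 310377403915193952932782648474632550744066, 1057071131, 68035600570801913933, 1276682333928299652924366924, 4261698388047, 10653624273365333219242179313336082511, 37849276684786066411590, 81087775522442414770229863479903580236, 4192139739212, 5207625596951546638675073884566466417906258395219, 2615709572109740973941248569429, 59835706778443204446574257417476161619, 6193893653827633, 415599379660607204962380, 12377, 2853278031089594967949536763993, 40371396808567783514, 292876659673156538224728, 2853394036117963358355648249946, 21911141936210882650, 79758549902554392289655129591230341209,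 326705636070731838873450911651420176752729, 131169, 671453281, 273928393616912898469978, 27676593953163141210, 28431034668687459, 409702, 82023, 273928393619798982275170, 318034712688367661311242637416, 3918772150378, 705007723, 285638763, 151416940, 16331735113850989]

def t65006 : Tr Rule := a65006_2

def u65006 : Tr ℕ := b65006_3

def h65006 : List ℕ := h65006_0

def lab65006 : List ℕ := [0, 1, 2, 2, 2, 2, 2, 3, 3, 3, 3, 6, 6, 6, 6, 6, 6]

theorem c65006 : check lab65006 t65006 70 u65006 h65006 111 = true := by decide +kernel

def a74114_0 : Tr Rule := (.node (.node (.node (.node (.node (.leaf (.tri 11 14 13)) (.leaf (.ew 14 16))) (.node (.leaf (.tri 14 12 15)) (.leaf (.nb 12 102654)))) (.node (.node (.leaf (.tri 13 15 14)) (.leaf (.wwe 14 11 16))) (.node (.leaf (.ew 12 16)) (.leaf (.nb 12 94462))))) (.node (.node (.node (.leaf (.tri 11 16 14)) (.leaf (.ew 15 16))) (.node (.leaf (.tri 11 14 16)) (.leaf (.nb 12 78078)))) (.node (.node (.leaf (.tri 13 11 15)) (.leaf (.wwe 16 11 14))) (.node (.leaf (.ew 13 16)) (.leaf (.nb 14 37118)))))) (.node (.node (.node (.node (.leaf (.tri 11 13 14))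 (.leaf (.tri 15 13 16))) (.node (.leaf (.ew 14 15)) (.leaf (.nb 12 53502)))) (.node (.node (.leaf (.tri 11 14 15)) (.leaf (.wwe 15 11 16))) (.node (.leaf (.tri 13 14 16)) (.leaf (.nb 13 69886))))) (.node (.node (.node (.leaf (.tri 13 11 14)) (.leaf (.wwe 13 14 16))) (.node (.leaf (.ew 11 16)) (.leaf (.nb 12 110846)))) (.node (.node (.leaf (.tri 13 16 15)) (.leaf (.wwe 16 14 15))) (.node (.leaf (.tri 14 13 16)) (.leaf (.nb 15 20734)))))))

def a74114_1 : Tr Rule := (.node (.node (.node (.node (.node (.leaf (.ew 11 13)) (.leaf (.tri 15 11 16))) (.node (.leaf (.tri 14 13 15)) (.leaf (.nb 12 86270)))) (.node (.node (.leaf (.ew 13 14)) (.leaf (.wwe 14 15 16))) (.node (.leaf (.tri 13 11 16)) (.leaf (.nb 12 61694))))) (.node (.node (.node (.leaf (.ew 11 14)) (.leaf (.wwe 11 14 16))) (.node (.leaf (.tri 11 15 16)) (.leaf (.nb 12 45310)))) (.node (.node (.leaf (.tri 13 14 15)) (.leaf (.wwe 16 11 15))) (.node (.leaf (.tri 14 11 16)) (.leaf (.nb 14 12542)))))) (.node (.node (.node (.node (.leaf (.tri 11 15 14)) (.leaf (.tri 15 14 16))) (.node (.leaf (.tri 11 13 16)) (.leaf (.nb 12 119038)))) (.node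 (.node (.leaf (.ew 11 15)) (.leaf (.wwe 15 14 16))) (.node (.leaf (.tri 13 15 16)) (.leaf (.nb 13 20734))))) (.node (.node (.node (.leaf (.tri 13 12 14)) (.leaf (.wwe 14 11 13))) (.node (.leaf (.tri 12 13 16)) (.leaf (.nb 12 28926)))) (.node (.node (.leaf (.ew 13 15)) (.leaf (.nb 11 4350))) (.node (.leaf (.tri 14 15 16)) (.leaf (.nb 16 12542)))))))

def a74114_2 : Tr Rule := (.node a74114_0 a74114_1)

def h74114_0 : List ℕ := [41219052732368348968189712427546513429, 6756980861673535, 74945529705234780196, 122838035220441533210690, 264454834235101493088323, 15252530846025386075802031378968644, 736175107181394020102409145716517939343278146, 1063868924116934511527350342, 41223595833218366736497020315285676102, 4504837584838706, 1412167030616408768450428998, 17848758735597479513042586882367558, 61515, 1970944335917111, 58802657696822648908, 277683710181619169110205103020450710339659, 19082279261791944836214361656678943371545344399949899, 10646483994081108075192976268637548624, 67793874555556312716910919011143041104, 20549941244264524, 6668747974686521330990172552103393245754254753867, 36948,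 285519956, 218415188, 97043055206981603038737865295599595606, 4041023172849339370092215238741, 201637977, 340057, 3506170064986, 2956380717147]

def t74114 : Tr Rule := a74114_2

def u74114 : Tr ℕ := (.node (.node (.node (.node (.node (.leaf (18426423644446)) (.leaf (1787))) (.node (.leaf (1097977)) (.leaf (1785)))) (.node (.node (.leaf (4498637066)) (.leaf (251))) (.node (.leaf (1515)) (.leaf (286))))) (.node (.node (.node (.leaf (4498638585)) (.leaf (1028383))) (.node (.leaf (1099549)) (.leaf (1840)))) (.node (.node (.leaf (1098300)) (.leaf (558))) (.leaf (29981837085))))) (.node (.node (.node (.node (.leaf (4178616589)) (.leaf (4212257034))) (.node (.leaf (4749119720)) (.leaf (266)))) (.node (.node (.leaf (4498638623)) (.leaf (1532))) (.node (.leaf (4816220426)) (.leaf (0))))) (.node (.node (.node (.leaf (18426417422585)) (.leaf (2361102))) (.node (.leaf (268)) (.leaf (576)))) (.node (.node (.leaf (4503609595)) (.leaf (1803))) (.leaf (7321358))))))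

def h74114 : List ℕ := h74114_0

def lab74114 : List ℕ := [0, 1, 2, 2, 2, 2, 2, 2, 3, 3, 3, 4, 5, 6, 6, 6, 6]

theorem c74114 : check lab74114 t74114 64 u74114 h74114 93 = true := by decide +kernel

def a74204_0 : Tr Rule := (.node (.node (.node (.node (.node (.node (.leaf (.tri 12 15 14)) (.leaf (.wwe 14 15 16))) (.node (.leaf (.tri 14 13 15)) (.leaf (.nb 13 98558)))) (.node (.node (.leaf (.tri 12 14 15)) (.leaf (.nb 11 41214))) (.node (.leaf (.tri 14 15 16)) (.leaf (.nb 16 24830))))) (.node (.node (.node (.leaf (.ew 13 14)) (.leaf (.wwe 16 14 15))) (.node (.leaf (.tri 13 14 16)) (.leaf (.nb 14 73982)))) (.node (.node (.leaf (.tri 13 14 15)) (.leaf (.nb 12 49406))) (.leaf (.tri 15 13 16))))) (.node (.node (.node (.node (.leaf (.ew 12 14)) (.leaf (.wwe 15 13 16))) (.node (.leaf (.tri 11 13 16)) (.leaf (.nb 13 49406)))) (.node (.node (.leaf (.tri 13 11 15)) (.leaf (.nb 12 65790))) (.leaf (.tri 15 11 16)))) (.node (.node (.node (.leaf (.ew 11 15)) (.leaf (.nb 11 49406))) (.node (.leaf (.tri 14 12 16)) (.leaf (.nb 15 24830)))) (.node (.node (.leaf (.tri 14 11 15)) (.leaf (.nb 12 41214))) (.leaf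 (.ew 15 16)))))) (.node (.node (.node (.node (.node (.leaf (.tri 12 16 14)) (.leaf (.wwe 15 13 14))) (.node (.leaf (.ew 14 15)) (.leaf (.nb 13 82174)))) (.node (.node (.leaf (.ew 12 15)) (.leaf (.nb 11 24830))) (.node (.leaf (.ew 14 16)) (.leaf (.nb 16 57598))))) (.node (.node (.node (.leaf (.tri 11 13 15)) (.leaf (.nb 11 98558))) (.node (.leaf (.tri 14 11 16)) (.leaf (.nb 14 106750)))) (.node (.node (.leaf (.ew 13 15)) (.leaf (.nb 12 73982))) (.leaf (.tri 15 14 16))))) (.node (.node (.node (.node (.leaf (.tri 13 16 14)) (.leaf (.wwe 15 14 16))) (.node (.leaf (.ew 11 16)) (.leaf (.nb 13 114942)))) (.node (.node (.leaf (.tri 13 12 15)) (.leaf (.nb 12 33022))) (.leaf (.tri 15 12 16)))) (.node (.node (.node (.leaf (.tri 12 13 15)) (.leaf (.nb 11 73982))) (.node (.leaf (.tri 14 13 16)) (.leaf (.nb 15 90366)))) (.node (.node (.leaf (.tri 14 12 15)) (.leaf (.nb 12 24830))) (.leaf (.wwe 13 15 16)))))))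

def b74204_1 : Tr ℕ := (.node (.node (.node (.node (.node (.leaf (162149043560113934)) (.leaf (1177373))) (.node (.leaf (25099886859)) (.leaf (1803)))) (.node (.node (.leaf (25122887454)) (.leaf (1028671))) (.node (.leaf (19731852539678)) (.leaf (249))))) (.node (.node (.node (.leaf (664244674077156937997)) (.leaf (287))) (.node (.leaf (6129439)) (.leaf (1806)))) (.node (.node (.leaf (6129113)) (.leaf (30300824110))) (.node (.leaf (1176110)) (.leaf (1789)))))) (.node (.node (.node (.node (.leaf (39586883548939)) (.leaf (1175821))) (.node (.leaf (6127902)) (.leaf (1787)))) (.node (.node (.leaf (9669809933)) (.leaf (251))) (.node (.leaf (4817346811)) (.leaf (1788))))) (.node (.node (.node (.leaf (161887428814086393)) (.leaf (1028362))) (.node (.leaf (1496)) (.leaf (267)))) (.node (.node (.leaf (25101002525)) (.leaf (1497))) (.node (.leaf (18494885320462)) (.leaf (0)))))))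

def h74204_0 : List ℕ := [203094045069467732467718, 822083613, 11823530039648301, 566249478258748, 36907844402157817865, 15963072012142480908059613934714392601, 3505297395742, 14919273663291456, 15578633866172853831665728838905886, 12008058285603357908887447661654046, 909178353700761559594315843, 13306449548201850275661105527521310, 1121887912956362186138067013, 1218696460444521015420411973, 77103665121318814342072822332790173765, 3023824855109, 1115151630705579934784452130146545571517988933, 27928394971533658302684493128724066373, 1258360904, 1180010791560730903115432005, 37231044622001241653162404006764761164, 1122034305174822154127298636, 436445253, 377845820794826354114629, 402964561, 386199633, 6338640013277278743263940259922, 872755284, 3093769298004, 453267541, 352653398, 3437349929047]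

def t74204 : Tr Rule := a74204_0

def u74204 : Tr ℕ := b74204_1

def h74204 : List ℕ := h74204_0

def lab74204 : List ℕ := [0, 1, 2, 2, 2, 2, 2, 2, 3, 3, 3, 4, 4, 6, 6, 6, 6]

theorem c74204 : check lab74204 t74204 58 u74204 h74204 89 = true := by decide +kernel

def a65204_0 : Tr Rule := (.node (.node (.node (.node (.node (.node (.leaf (.tri 12 15 14)) (.leaf (.wwe 14 15 16))) (.node (.leaf (.tri 14 13 15)) (.leaf (.nb 13 98430)))) (.node (.node (.leaf (.tri 12 14 15)) (.leaf (.nb 11 41086))) (.node (.leaf (.tri 14 15 16)) (.leaf (.nb 16 24702))))) (.node (.node (.node (.leaf (.ew 13 14)) (.leaf (.wwe 16 14 15))) (.node (.leaf (.tri 13 14 16)) (.leaf (.nb 14 73854)))) (.node (.node (.leaf (.tri 13 14 15)) (.leaf (.nb 12 49278))) (.leaf (.tri 15 13 16))))) (.node (.node (.node (.node (.leaf (.ew 12 14)) (.leaf (.wwe 15 13 16))) (.node (.leaf (.tri 11 13 16)) (.leaf (.nb 13 49278)))) (.node (.node (.leaf (.tri 13 11 15)) (.leaf (.nb 12 65662))) (.leaf (.tri 15 11 16)))) (.node (.node (.node (.leaf (.ew 11 15)) (.leaf (.nb 11 49278))) (.node (.leaf (.tri 14 12 16)) (.leaf (.nb 15 24702))))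 (.node (.node (.leaf (.tri 14 11 15)) (.leaf (.nb 12 41086))) (.leaf (.ew 15 16)))))) (.node (.node (.node (.node (.node (.leaf (.tri 12 16 14)) (.leaf (.wwe 15 13 14))) (.node (.leaf (.ew 14 15)) (.leaf (.nb 13 82046)))) (.node (.node (.leaf (.ew 12 15)) (.leaf (.nb 11 24702))) (.node (.leaf (.ew 14 16)) (.leaf (.nb 16 57470))))) (.node (.node (.node (.leaf (.tri 11 13 15)) (.leaf (.nb 11 98430))) (.node (.leaf (.tri 14 11 16)) (.leaf (.nb 14 106622)))) (.node (.node (.leaf (.ew 13 15)) (.leaf (.nb 12 73854))) (.leaf (.tri 15 14 16))))) (.node (.node (.node (.node (.leaf (.tri 13 16 14)) (.leaf (.wwe 15 14 16))) (.node (.leaf (.ew 11 16)) (.leaf (.nb 13 114814)))) (.node (.node (.leaf (.tri 13 12 15)) (.leaf (.nb 12 32894))) (.leaf (.tri 15 12 16)))) (.node (.node (.node (.leaf (.tri 12 13 15)) (.leaf (.nb 11 73854))) (.node (.leaf (.tri 14 13 16)) (.leaf (.nb 15 90238)))) (.node (.node (.leaf (.tri 14 12 15)) (.leaf (.nb 12 24702))) (.leaf (.wwe 13 15 16)))))))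

def b65204_1 : Tr ℕ := (.node (.node (.node (.node (.node (.leaf (162149043560113934)) (.leaf (1177373))) (.node (.leaf (25099886859)) (.leaf (1803)))) (.node (.node (.leaf (25122887454)) (.leaf (1028671))) (.node (.leaf (19731852539678)) (.leaf (249))))) (.node (.node (.node (.leaf (664244674077156937997)) (.leaf (287))) (.node (.leaf (6129439)) (.leaf (1806)))) (.node (.node (.leaf (6129113)) (.leaf (30300824110))) (.node (.leaf (1176110)) (.leaf (1789)))))) (.node (.node (.node (.node (.leaf (39586883548939)) (.leaf (1175821))) (.node (.leaf (6127902)) (.leaf (1787)))) (.node (.node (.leaf (9669809933)) (.leaf (251))) (.node (.leaf (4817346811)) (.leaf (1788))))) (.node (.node (.node (.leaf (161887428814086393)) (.leaf (1028362))) (.node (.leaf (1496)) (.leaf (267)))) (.node (.node (.leaf (25101002525)) (.leaf (1497))) (.node (.leaf (18494885320462)) (.leaf (0)))))))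

def h65204_0 : List ℕ := [203094045069467732467718, 822083613, 11823530039648301, 566249478258748, 36907844402157817865, 15963072012142480908059613934714392601, 3505297395742, 14919273663291456, 15578633866172853831665728838905886, 12008058285603357908887447661654046, 909178353700761559594315843, 13306449548201850275661105527521310, 1121887912956362186138067013, 1218696460444521015420411973, 77103665121318814342072822332790173765, 3023824855109, 1115151630705579934784452130146545571517988933, 27928394971533658302684493128724066373, 1258360904, 1180010791560730903115432005, 37231044622001241653162404006764761164, 1122034305174822154127298636, 436445253, 377845820794826354114629, 402964561, 386199633, 6338640013277278743263940259922, 872755284, 3093769298004, 453267541, 352653398, 3437349929047]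

def t65204 : Tr Rule := a65204_0

def u65204 : Tr ℕ := b65204_1

def h65204 : List ℕ := h65204_0

def lab65204 : List ℕ := [0, 1, 2, 2, 2, 2, 2, 3, 3, 3, 3, 4, 4, 6, 6, 6, 6]

theorem c65204 : check lab65204 t65204 58 u65204 h65204 89 = true := by decide +kernel

def a74213_0 : Tr Rule := (.node (.node (.node (.node (.node (.node (.leaf (.tri 11 15 14)) (.leaf (.wwe 16 11 15))) (.node (.leaf (.ew 11 16)) (.leaf (.nb 16 57598)))) (.node (.node (.leaf (.ew 12 15)) (.leaf (.nb 13 90366))) (.leaf (.tri 15 14 16)))) (.node (.node (.node (.leaf (.tri 13 16 14)) (.leaf (.nb 11 106750))) (.node (.leaf (.tri 14 13 16)) (.leaf (.ord 11 1 3)))) (.node (.node (.leaf (.tri 14 13 15)) (.leaf (.nb 14 106750))) (.leaf (.wwe 15 13 14))))) (.node (.node (.node (.node (.leaf (.ew 11 14)) (.leaf (.nb 11 73982))) (.node (.leaf (.tri 14 11 16)) (.leaf (.ord 11 0 3)))) (.node (.node (.leaf (.tri 14 11 15)) (.leaf (.nb 13 123134))) (.leaf (.wwe 14 11 15)))) (.node (.node (.node (.leaf (.tri 11 14 15)) (.leaf (.nb 12 24830))) (.leaf (.tri 15 12 16))) (.node (.node (.leaf (.ew 14 15)) (.leaf (.nb 15 90366))) (.leaf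 (.wwe 15 14 16)))))) (.node (.node (.node (.node (.node (.leaf (.tri 11 16 14)) (.leaf (.wwe 16 14 15))) (.node (.leaf (.tri 13 15 16)) (.leaf (.ord 11 0 2)))) (.node (.node (.leaf (.tri 13 16 15)) (.leaf (.nb 13 57598))) (.leaf (.ew 15 16)))) (.node (.node (.node (.leaf (.ew 13 14)) (.leaf (.nb 12 73982))) (.node (.leaf (.ew 14 16)) (.leaf (.ord 11 2 3)))) (.node (.node (.leaf (.tri 14 16 15)) (.leaf (.nb 15 73982))) (.leaf (.wwe 15 11 16))))) (.node (.node (.node (.node (.leaf (.tri 13 15 14)) (.leaf (.nb 11 41214))) (.node (.leaf (.tri 14 12 16)) (.leaf (.ord 11 1 2)))) (.node (.node (.leaf (.tri 14 12 15)) (.leaf (.nb 14 73982))) (.leaf (.wwe 14 15 16)))) (.node (.node (.node (.leaf (.tri 12 14 15)) (.leaf (.nb 13 106750))) (.leaf (.tri 15 13 16))) (.node (.node (.leaf (.tri 11 14 16)) (.leaf (.nb 16 41214))) (.leaf (.wwe 16 13 14)))))))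

def b74213_1 : Tr ℕ := (.node (.node (.node (.node (.node (.node (.leaf (19731803457291)) (.leaf (1789))) (.leaf (2205434))) (.node (.leaf (25100920590)) (.leaf (1099551)))) (.node (.node (.leaf (4463761182)) (.leaf (1097977))) (.node (.leaf (4816232733)) (.leaf (1497))))) (.node (.node (.node (.leaf (25106044686)) (.leaf (4178616589))) (.node (.leaf (6129402)) (.leaf (574)))) (.node (.node (.leaf (30575485177)) (.leaf (251))) (.node (.leaf (1175801)) (.leaf (249)))))) (.node (.node (.node (.node (.node (.leaf (102813941163770)) (.leaf (0))) (.leaf (287))) (.node (.leaf (6129438)) (.leaf (268)))) (.node (.node (.leaf (6129405)) (.leaf (1787))) (.node (.leaf (19663133132575)) (.leaf (250))))) (.node (.node (.node (.leaf (19731802269451)) (.leaf (1786))) (.node (.leaf (1496)) (.leaf (1803)))) (.node (.node (.leaf (7463161)) (.leaf (1532))) (.node (.leaf (1175838)) (.leaf (1788)))))))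

def h74213_0 : List ℕ := [654340102, 12696494455050530841, 16551080816504603339600027912831005, 13792824269168646, 204849, 4595987866422707103191181361177, 213043, 245818, 11821949944725529, 5330869450170440806261638879015702587, 239574738348741253671412383795415775162393, 3288824715275933949337023006447316268006959722521, 3380861554712618, 40358448753530675265, 249895, 316425075492058051133505, 63809435991654613658207514684693680193, 4811521007684, 13230905476927553, 1392805328037206723219689543, 192573, 15579109235270749757739194653085767, 772051019, 20556, 185138870079567320972289889663383373090891, 319562, 285503567, 50647119, 520405072, 3248780290015150885556365631563, 249939, 319103059, 302325844, 2818857853013]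

def t74213 : Tr Rule := a74213_0

def u74213 : Tr ℕ := b74213_1

def h74213 : List ℕ := h74213_0

def lab74213 : List ℕ := [0, 1, 2, 2, 2, 2, 2, 2, 3, 3, 3, 4, 4, 5, 6, 6, 6]

theorem c74213 : check lab74213 t74213 54 u74213 h74213 87 = true := by decide +kernel

def a65123_0 : Tr Rule := (.node (.node (.node (.node (.node (.node (.leaf (.tri 12 14 13)) (.leaf (.wwe 16 12 15))) (.node (.leaf (.ew 13 16)) (.leaf (.ord 12 0 1)))) (.node (.node (.leaf (.ew 14 15)) (.leaf (.nb 13 77950))) (.leaf (.tri 15 14 16)))) (.node (.node (.node (.leaf (.tri 12 16 15)) (.leaf (.nb 11 45182))) (.leaf (.ew 14 16))) (.node (.node (.leaf (.tri 12 15 16)) (.leaf (.nb 14 45182))) (.leaf (.wwe 15 11 16))))) (.node (.node (.node (.node (.leaf (.ew 11 15)) (.leaf (.nb 11 12414))) (.node (.leaf (.tri 14 12 16)) (.leaf (.ord 12 1 2)))) (.node (.node (.leaf (.ew 11 16)) (.leaf (.nb 13 94334))) (.leaf (.wwe 13 12 16)))) (.node (.node (.node (.leaf (.tri 14 11 15)) (.leaf (.nb 12 94334))) (.leaf (.tri 15 12 16))) (.node (.node (.leaf (.tri 13 14 16)) (.leaf (.nb 15 28798))) (.leaf (.wwe 16 12 14)))))) (.node (.node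 (.node (.node (.node (.leaf (.tri 11 14 15)) (.leaf (.wwe 16 14 15))) (.node (.leaf (.tri 14 11 16)) (.leaf (.ord 12 0 3)))) (.node (.node (.leaf (.tri 11 14 16)) (.leaf (.nb 13 110718))) (.leaf (.ew 15 16)))) (.node (.node (.node (.leaf (.ew 12 15)) (.leaf (.nb 11 28798))) (.leaf (.tri 15 11 16))) (.node (.node (.leaf (.ew 12 16)) (.leaf (.nb 15 12414))) (.leaf (.wwe 15 14 16))))) (.node (.node (.node (.node (.leaf (.tri 12 14 15)) (.leaf (.nb 11 77950))) (.leaf (.tri 14 13 16))) (.node (.node (.leaf (.tri 12 14 16)) (.leaf (.nb 14 12414))) (.leaf (.wwe 15 12 14)))) (.node (.node (.node (.leaf (.tri 14 13 15)) (.leaf (.nb 12 61566))) (.leaf (.tri 15 13 16))) (.node (.node (.leaf (.tri 13 15 16)) (.leaf (.nb 16 45182))) (.leaf (.wwe 16 11 15)))))))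

def h65123_0 : List ℕ := [57648048097934192645, 3961543700166011406517297872921, 2932389895927153904452817227828, 3380124172975834555414810802723001291649126076468, 80098749725960853773871177753, 14603810689982821685058962425151543, 3882895732327119822169357647927, 80334429908316811567160, 3654133320382352038218313060296611955502148198455, 773792829005901882672164919, 468566163466228842412821753874759315993358395, 59817208586246989986135957630135324727, 229438, 19605298308404363326, 251899968, 386101312, 587460674, 67350595, 53315, 436473923, 3368059928638, 286791, 184832071, 453263431, 2612565123144, 352546891, 100966475, 3093601501261]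

def t65123 : Tr Rule := a65123_0

def u65123 : Tr ℕ := (.node (.node (.node (.node (.node (.leaf (4822456075)) (.leaf (284))) (.node (.leaf (287)) (.leaf (266)))) (.node (.node (.leaf (1496)) (.leaf (250))) (.leaf (1803)))) (.node (.node (.node (.leaf (25101059834)) (.leaf (1499))) (.node (.leaf (7393549)) (.leaf (1823)))) (.node (.node (.leaf (4816156428)) (.leaf (1786))) (.leaf (574))))) (.node (.node (.node (.node (.leaf (6129421)) (.leaf (556))) (.node (.leaf (4765831743)) (.leaf (1789)))) (.node (.node (.leaf (1095435)) (.leaf (1821))) (.leaf (268)))) (.node (.node (.node (.leaf (6129405)) (.leaf (1550))) (.node (.leaf (1805)) (.leaf (0)))) (.node (.node (.leaf (1175819)) (.leaf (1514))) (.leaf (1787))))))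

def h65123 : List ℕ := h65123_0

def lab65123 : List ℕ := [0, 1, 2, 2, 2, 2, 2, 3, 3, 3, 3, 4, 5, 5, 6, 6, 6]

theorem c65123 : check lab65123 t65123 51 u65123 h65123 78 = true := by decide +kernel

def a73007_0 : Tr Rule := (.node (.node (.node (.node (.node (.leaf (.tri 10 12 11)) (.leaf (.cnt 1 20 2 1))) (.node (.leaf (.cnt 0 22 0 1)) (.leaf (.cnt 2 32 3 4)))) (.node (.node (.leaf (.ew 11 15)) (.leaf (.cnt 1 36 2 1))) (.node (.leaf (.cnt 0 34 1 0)) (.leaf (.cnt 3 32 8 1))))) (.node (.node (.node (.leaf (.tri 10 14 13)) (.leaf (.cnt 1 32 1 2))) (.node (.leaf (.cnt 0 30 0 1)) (.leaf (.cnt 3 16 7 7)))) (.node (.node (.leaf (.ew 15 16)) (.leaf (.cnt 2 24 3 4))) (.node (.leaf (.cnt 0 40 0 1)) (.leaf (.cnt 4 32 9 0)))))) (.node (.node (.node (.node (.leaf (.ew 10 11)) (.leaf (.cnt 1 24 2 1))) (.node (.leaf (.cnt 0 24 0 1)) (.leaf (.cnt 2 40 1 0)))) (.node (.node (.leaf (.ew 14 16)) (.leaf (.cnt 2 16 4 2))) (.node (.leaf (.cnt 0 36 1 0)) (.leaf (.cnt 4 0 16 14))))) (.node (.node (.node (.leaf (.tri 11 12 15)) (.leaf (.cnt 1 32 2 1))) (.node (.leaf (.cnt 0 32 1 0)) (.leaf (.cnt 3 32 7 1))))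 (.node (.node (.leaf (.cnt 0 20 1 0)) (.leaf (.cnt 2 32 2 4))) (.node (.leaf (.cnt 1 20 1 2)) (.leaf (.cnt 5 0 30 8)))))))

def a73007_1 : Tr Rule := (.node (.node (.node (.node (.node (.leaf (.tri 10 16 11)) (.leaf (.cnt 1 24 1 2))) (.node (.leaf (.cnt 0 22 1 0)) (.leaf (.cnt 2 32 4 3)))) (.node (.node (.leaf (.tri 14 15 16)) (.leaf (.cnt 1 40 1 0))) (.node (.leaf (.cnt 0 36 0 1)) (.leaf (.cnt 4 0 16 13))))) (.node (.node (.node (.leaf (.ew 10 13)) (.leaf (.cnt 1 32 2 0))) (.node (.leaf (.cnt 0 32 0 1)) (.leaf (.cnt 3 32 6 2)))) (.node (.node (.leaf (.wwe 11 10 12)) (.leaf (.cnt 2 24 4 3))) (.node (.leaf (.cnt 0 40 1 0)) (.leaf (.cnt 5 0 29 9)))))) (.node (.node (.node (.node (.leaf (.tri 11 15 12)) (.leaf (.cnt 1 28 2 1))) (.node (.leaf (.cnt 0 26 1 0)) (.leaf (.cnt 3 16 6 7)))) (.node (.node (.leaf (.tri 15 13 16)) (.leaf (.cnt 2 16 4 3))) (.node (.leaf (.cnt 0 38 1 0)) (.leaf (.cnt 4 32 8 0))))) (.node (.node (.node (.leaf (.tri 11 16 15)) (.leaf (.cnt 1 36 1 2))) (.node (.leaf (.cnt 0 34 0 0)) (.leaf (.cnt 3 32 7 2)))) (.node (.node (.leaf (.cnt 0 22 0 0)) (.leaf (.cnt 2 32 3 3))) (.node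 (.leaf (.cnt 1 20 2 0)) (.leaf (.root)))))))

def a73007_2 : Tr Rule := (.node a73007_0 a73007_1)

def b73007_3 : Tr ℕ := (.node (.node (.node (.node (.node (.node (.leaf (1343)) (.leaf (486))) (.leaf (664))) (.node (.leaf (740)) (.leaf (679)))) (.node (.node (.leaf (1144)) (.leaf (809))) (.node (.leaf (927)) (.leaf (283))))) (.node (.node (.node (.node (.leaf (1271)) (.leaf (0))) (.leaf (1325))) (.node (.leaf (1197)) (.leaf (267)))) (.node (.node (.leaf (874)) (.leaf (745))) (.node (.leaf (792)) (.leaf (504)))))) (.node (.node (.node (.node (.node (.leaf (1279)) (.leaf (1858))) (.leaf (1389))) (.node (.leaf (676)) (.leaf (266)))) (.node (.node (.leaf (938)) (.leaf (741))) (.node (.leaf (863)) (.leaf (1517))))) (.node (.node (.node (.leaf (1208)) (.leaf (1261))) (.node (.leaf (1133)) (.leaf (282)))) (.node (.node (.leaf (808)) (.leaf (675))) (.node (.leaf (728)) (.leaf (1857)))))))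

def h73007_0 : List ℕ := [2310629183564415006, 176192, 1298470742392286231117495091253292, 872681538, 237635, 1040445508, 241733, 217158, 188487, 151624, 156148811088731266856405099995426003473367095, 245834, 1023668299, 233548, 855908429, 172110, 127055, 3654356469354591388361143173317281484061842632777, 168017, 204882, 906256467, 196692, 200788, 147541, 159830, 86103, 90199, 102488, 106584, 32857, 50696282, 101044314, 17150044, 218497118, 1032134717537]

def t73007 : Tr Rule := a73007_2

def u73007 : Tr ℕ := b73007_3

def h73007 : List ℕ := h73007_0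

def lab73007 : List ℕ := [0, 1, 2, 2, 2, 2, 2, 2, 3, 3, 6, 6, 6, 6, 6, 6, 6]

theorem c73007 : check lab73007 t73007 64 u73007 h73007 98 = true := by decide +kernel

def a65213_0 : Tr Rule := (.node (.node (.node (.node (.node (.node (.leaf (.tri 11 14 12)) (.leaf (.nb 11 73854))) (.node (.leaf (.tri 13 15 16)) (.leaf (.ord 11 0 3)))) (.node (.node (.leaf (.tri 11 16 15)) (.leaf (.nb 14 41086))) (.leaf (.wwe 12 11 15)))) (.node (.node (.node (.leaf (.ew 11 14)) (.leaf (.nb 13 90238))) (.leaf (.tri 15 12 16))) (.node (.node (.leaf (.ew 13 15)) (.leaf (.nb 16 41086))) (.leaf (.wwe 14 15 16))))) (.node (.node (.node (.node (.leaf (.tri 12 15 13)) (.leaf (.nb 12 24702))) (.node (.leaf (.tri 14 13 16)) (.leaf (.ord 11 1 3)))) (.node (.node (.leaf (.tri 12 16 15)) (.leaf (.nb 15 73854))) (.leaf (.wwe 13 12 16)))) (.node (.node (.node (.leaf (.ew 12 14)) (.leaf (.nb 13 123006))) (.leaf (.tri 15 14 16))) (.node (.node (.leaf (.tri 14 16 15)) (.leaf (.nb 16 57470))) (.leaf (.wwe 15 13 16)))))) (.node (.node (.node (.node (.node (.leaf (.tri 11 14 13)) (.leaf (.nb 11 41086))) (.node (.leaf (.ew 13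 16)) (.leaf (.ord 11 1 2)))) (.node (.node (.leaf (.ew 11 15)) (.leaf (.nb 14 106622))) (.leaf (.wwe 13 11 16)))) (.node (.node (.node (.leaf (.tri 12 16 14)) (.leaf (.nb 13 57470))) (.leaf (.tri 15 13 16))) (.node (.node (.leaf (.tri 14 11 15)) (.leaf (.nb 16 24702))) (.leaf (.wwe 15 11 16))))) (.node (.node (.node (.node (.leaf (.tri 11 16 14)) (.leaf (.nb 13 106622))) (.node (.leaf (.ew 14 16)) (.leaf (.ord 11 2 3)))) (.node (.node (.leaf (.tri 13 14 15)) (.leaf (.nb 15 90238))) (.leaf (.wwe 14 12 15)))) (.node (.node (.node (.leaf (.tri 11 14 15)) (.leaf (.nb 14 73854))) (.leaf (.ew 15 16))) (.node (.node (.leaf (.tri 13 14 16)) (.leaf (.ord 11 0 2))) (.leaf (.wwe 15 14 16)))))))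

def h65213_0 : List ℕ := [196655, 620777475, 49184681664139048890244766878627041286, 204849, 225334, 5912555797258275, 4202218735117336515655639386749967500192619134985, 70501531398310378200735761114739422248403472817328455689, 1031547273275, 846693343969337, 2336713879611, 9572142257659963, 81089399778963079907784382304625901625, 3099180318900265, 13844348871178548619497204167929043081334194522263611, 285458464, 5308809394720575944688972951618, 56711689627321716090317053241046670669057310448368717883, 872656965, 3505851183174, 654553159, 245831, 285507657]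

def t65213 : Tr Rule := a65213_0

def u65213 : Tr ℕ := (.node (.node (.node (.node (.node (.leaf (4463761182)) (.leaf (1025786))) (.leaf (2351371))) (.node (.node (.leaf (7399198)) (.leaf (285))) (.leaf (4195481339)))) (.node (.node (.node (.leaf (30307116831)) (.leaf (249))) (.leaf (36975895897850))) (.node (.node (.leaf (7399161)) (.leaf (0))) (.leaf (1024287))))) (.node (.node (.node (.node (.leaf (37048825206522)) (.leaf (250))) (.leaf (4195402012))) (.node (.node (.leaf (1024249)) (.leaf (574))) (.leaf (4816228638)))) (.node (.node (.node (.leaf (30307115257)) (.leaf (1805))) (.leaf (80906150276421080))) (.node (.leaf (1806)) (.leaf (4195406091))))))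

def h65213 : List ℕ := h65213_0

def lab65213 : List ℕ := [0, 1, 2, 2, 2, 2, 2, 3, 3, 3, 3, 4, 4, 5, 6, 6, 6]

theorem c65213 : check lab65213 t65213 52 u65213 h65213 74 = true := by decide +kernel

def h75104_0 : List ℕ := [844425097940998, 20495, 844493867757576, 67174417, 28690, 49170, 57362, 33632276, 50417686]

def t75104 : Tr Rule := (.node (.node (.node (.node (.leaf (.tri 12 13 14)) (.leaf (.nb 12 49406))) (.node (.leaf (.tri 15 13 16)) (.leaf (.nb 14 41214)))) (.node (.node (.leaf (.tri 12 16 14)) (.leaf (.nb 14 98558))) (.node (.leaf (.nb 12 98558)) (.leaf (.nb 16 41214))))) (.node (.node (.node (.leaf (.tri 12 15 14)) (.leaf (.nb 13 98558))) (.node (.leaf (.ew 15 16)) (.leaf (.nb 15 73982)))) (.node (.node (.leaf (.ew 12 14)) (.leaf (.nb 14 73982))) (.leaf (.nb 12 82174)))))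

def u75104 : Tr ℕ := (.node (.node (.node (.node (.leaf (287)) (.leaf (0))) (.leaf (286))) (.node (.leaf (285)) (.leaf (250)))) (.node (.node (.leaf (1496)) (.leaf (284))) (.node (.leaf (1804)) (.leaf (539)))))

def h75104 : List ℕ := h75104_0

def lab75104 : List ℕ := [0, 1, 2, 2, 2, 2, 2, 2, 3, 3, 3, 3, 4, 6, 6, 6, 6]

theorem c75104 : check lab75104 t75104 15 u75104 h75104 23 = true := by decide +kernel

def h66104_0 : List ℕ := [844425097940998, 20495, 844493867757576, 67174417, 28690, 49170, 57362, 33632276, 50417686]

def t66104 : Tr Rule := (.node (.node (.node (.node (.leaf (.tri 12 13 14)) (.leaf (.nb 12 49278))) (.node (.leaf (.tri 15 13 16)) (.leaf (.nb 14 41086)))) (.node (.node (.leaf (.tri 12 16 14)) (.leaf (.nb 14 98430))) (.node (.leaf (.nb 12 98430)) (.leaf (.nb 16 41086))))) (.node (.node (.node (.leaf (.tri 12 15 14)) (.leaf (.nb 13 98430))) (.node (.leaf (.ew 15 16)) (.leaf (.nb 15 73854)))) (.node (.node (.leaf (.ew 12 14)) (.leaf (.nb 14 73854))) (.leaf (.nb 12 82046)))))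

def u66104 : Tr ℕ := (.node (.node (.node (.node (.leaf (287)) (.leaf (0))) (.leaf (286))) (.node (.leaf (285)) (.leaf (250)))) (.node (.node (.leaf (1496)) (.leaf (284))) (.node (.leaf (1804)) (.leaf (539)))))

def h66104 : List ℕ := h66104_0

def lab66104 : List ℕ := [0, 1, 2, 2, 2, 2, 2, 3, 3, 3, 3, 3, 4, 6, 6, 6, 6]

theorem c66104 : check lab66104 t66104 15 u66104 h66104 23 = true := by decide +kernel

def h75203_0 : List ℕ := [24586, 8203, 83935243, 32782, 36878, 16830479, 67158031, 53264, 50380816, 8074392419208073235]

def t75203 : Tr Rule := (.node (.node (.node (.node (.leaf (.tri 14 12 16)) (.leaf (.nb 12 49406))) (.leaf (.tri 15 13 16))) (.node (.node (.leaf (.ew 14 16)) (.leaf (.nb 14 98558))) (.leaf (.ew 15 16)))) (.node (.node (.node (.leaf (.tri 14 13 16)) (.leaf (.nb 13 49406))) (.leaf (.tri 15 14 16))) (.node (.node (.leaf (.tri 15 12 16)) (.leaf (.nb 15 82174))) (.leaf (.nb 17 65790)))))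

def u75203 : Tr ℕ := (.node (.node (.node (.node (.leaf (1496)) (.leaf (1805))) (.leaf (284))) (.node (.leaf (1803)) (.leaf (1804)))) (.node (.node (.node (.leaf (1497)) (.leaf (0))) (.leaf (1821))) (.node (.leaf (285)) (.leaf (1822)))))

def h75203 : List ℕ := h75203_0

def lab75203 : List ℕ := [0, 1, 2, 2, 2, 2, 2, 2, 3, 3, 3, 3, 4, 4, 6, 6, 6]

theorem c75203 : check lab75203 t75203 12 u75203 h75203 21 = true := by decide +kernel

def h66203_0 : List ℕ := [24586, 8203, 83935243, 32782, 36878, 16830479, 67158031, 53264, 50380816, 8074392419208073235]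

def t66203 : Tr Rule := (.node (.node (.node (.node (.leaf (.tri 14 12 16)) (.leaf (.nb 12 49278))) (.leaf (.tri 15 13 16))) (.node (.node (.leaf (.ew 14 16)) (.leaf (.nb 14 98430))) (.leaf (.ew 15 16)))) (.node (.node (.node (.leaf (.tri 14 13 16)) (.leaf (.nb 13 49278))) (.leaf (.tri 15 14 16))) (.node (.node (.leaf (.tri 15 12 16)) (.leaf (.nb 15 82046))) (.leaf (.nb 17 65662)))))

def u66203 : Tr ℕ := (.node (.node (.node (.node (.leaf (1496)) (.leaf (1805))) (.leaf (284))) (.node (.leaf (1803)) (.leaf (1804)))) (.node (.node (.node (.leaf (1497)) (.leaf (0))) (.leaf (1821))) (.node (.leaf (285)) (.leaf (1822)))))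

def h66203 : List ℕ := h66203_0

def lab66203 : List ℕ := [0, 1, 2, 2, 2, 2, 2, 3, 3, 3, 3, 3, 4, 4, 6, 6, 6]

theorem c66203 : check lab66203 t66203 12 u66203 h66203 21 = true := by decide +kernel

def h76004_0 : List ℕ := [8199, 16814088, 16392, 20490, 36876, 50376716, 412484689933]

def t76004 : Tr Rule := (.node (.node (.node (.node (.leaf (.tri 14 13 15)) (.leaf (.nb 13 33022))) (.leaf (.ew 14 16))) (.node (.leaf (.ew 14 15)) (.leaf (.nb 17 16638)))) (.node (.node (.leaf (.tri 14 16 15)) (.leaf (.nb 17 98558))) (.node (.leaf (.tri 14 13 16)) (.leaf (.nb 13 65790)))))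

def u76004 : Tr ℕ := (.node (.node (.node (.leaf (1514)) (.leaf (1804))) (.node (.leaf (1497)) (.leaf (0)))) (.node (.node (.leaf (1785)) (.leaf (1787))) (.leaf (251))))

def h76004 : List ℕ := h76004_0

def lab76004 : List ℕ := [0, 1, 2, 2, 2, 2, 2, 2, 3, 3, 3, 3, 3, 6, 6, 6, 6]

theorem c76004 : check lab76004 t76004 9 u76004 h76004 15 = true := by decide +kernel

def h76013_0 : List ℕ := [8199, 16814088, 16392, 24586, 36876, 50376716, 343765213197]

def t76013 : Tr Rule := (.node (.node (.node (.node (.leaf (.tri 14 13 15)) (.leaf (.nb 13 41214))) (.leaf (.ew 14 16))) (.node (.leaf (.ew 14 15)) (.leaf (.nb 17 24830)))) (.node (.node (.leaf (.tri 14 16 15)) (.leaf (.nb 17 106750))) (.node (.leaf (.tri 14 13 16)) (.leaf (.nb 13 73982)))))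

def u76013 : Tr ℕ := (.node (.node (.node (.leaf (1514)) (.leaf (1804))) (.node (.leaf (1497)) (.leaf (0)))) (.node (.node (.leaf (1785)) (.leaf (1787))) (.leaf (251))))

def h76013 : List ℕ := h76013_0

def lab76013 : List ℕ := [0, 1, 2, 2, 2, 2, 2, 2, 3, 3, 3, 3, 3, 5, 6, 6, 6]

theorem c76013 : check lab76013 t76013 9 u76013 h76013 15 = true := by decide +kernel

def h76103_0 : List ℕ := [8199, 16814088, 16392, 20490, 36876, 50376716, 412484689933]

def t76103 : Tr Rule := (.node (.node (.node (.node (.leaf (.tri 14 13 15)) (.leaf (.nb 13 33022))) (.leaf (.ew 14 16))) (.node (.leaf (.ew 14 15)) (.leaf (.nb 17 16638)))) (.node (.node (.leaf (.tri 14 16 15)) (.leaf (.nb 17 98558))) (.node (.leaf (.tri 14 13 16)) (.leaf (.nb 13 65790)))))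

def u76103 : Tr ℕ := (.node (.node (.node (.leaf (1514)) (.leaf (1804))) (.node (.leaf (1497)) (.leaf (0)))) (.node (.node (.leaf (1785)) (.leaf (1787))) (.leaf (251))))

def h76103 : List ℕ := h76103_0

def lab76103 : List ℕ := [0, 1, 2, 2, 2, 2, 2, 2, 3, 3, 3, 3, 3, 4, 6, 6, 6]

theorem c76103 : check lab76103 t76103 9 u76103 h76103 15 = true := by decide +kernel

def h75212_0 : List ℕ := [12295, 33591304, 16394, 20490, 16814091, 36876, 100716558]

def t75212 : Tr Rule := (.node (.node (.node (.node (.leaf (.tri 15 12 16)) (.leaf (.nb 15 82174))) (.leaf (.nb 12 49406))) (.node (.leaf (.tri 15 14 16)) (.leaf (.nb 14 82174)))) (.node (.node (.leaf (.tri 15 13 16)) (.leaf (.nb 13 49406))) (.node (.leaf (.ew 15 16)) (.leaf (.nb 14 114942)))))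

def u75212 : Tr ℕ := (.node (.node (.node (.leaf (1496)) (.leaf (1804))) (.node (.leaf (285)) (.leaf (0)))) (.node (.node (.leaf (1803)) (.leaf (1805))) (.leaf (284))))

def h75212 : List ℕ := h75212_0

def lab75212 : List ℕ := [0, 1, 2, 2, 2, 2, 2, 2, 3, 3, 3, 3, 4, 4, 5, 6, 6]

theorem c75212 : check lab75212 t75212 9 u75212 h75212 15 = true := by decide +kernel

def h66212_0 : List ℕ := [12295, 33591304, 16394, 20490, 16814091, 36876, 100716558]

def t66212 : Tr Rule := (.node (.node (.node (.node (.leaf (.tri 15 12 16)) (.leaf (.nb 15 82046))) (.leaf (.nb 12 49278))) (.node (.leaf (.tri 15 14 16)) (.leaf (.nb 14 82046)))) (.node (.node (.leaf (.tri 15 13 16)) (.leaf (.nb 13 49278))) (.node (.leaf (.ew 15 16)) (.leaf (.nb 14 114814)))))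

def u66212 : Tr ℕ := (.node (.node (.node (.leaf (1496)) (.leaf (1804))) (.node (.leaf (285)) (.leaf (0)))) (.node (.node (.leaf (1803)) (.leaf (1805))) (.leaf (284))))

def h66212 : List ℕ := h66212_0

def lab66212 : List ℕ := [0, 1, 2, 2, 2, 2, 2, 3, 3, 3, 3, 3, 4, 4, 5, 6, 6]

theorem c66212 : check lab66212 t66212 9 u66212 h66212 15 = true := by decide +kernel

def h64403_0 : List ℕ := [4098, 20483, 16390]

def t64403 : Tr Rule := (.node (.node (.node (.leaf (.tri 15 14 16)) (.leaf (.nb 16 49278))) (.leaf (.nb 14 98430))) (.node (.leaf (.ew 15 16)) (.leaf (.nb 15 82046))))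

def u64403 : Tr ℕ := (.node (.node (.leaf (1496)) (.leaf (0))) (.leaf (1803)))

def h64403 : List ℕ := h64403_0

def lab64403 : List ℕ := [0, 1, 2, 2, 2, 2, 2, 3, 3, 3, 4, 4, 4, 4, 6, 6, 6]

theorem c64403 : check lab64403 t64403 5 u64403 h64403 7 = true := by decide +kernel

def h64412_0 : List ℕ := [4098, 20483, 16390]

def t64412 : Tr Rule := (.node (.node (.node (.leaf (.tri 15 14 16)) (.leaf (.nb 16 49278))) (.leaf (.nb 14 114814))) (.node (.leaf (.ew 15 16)) (.leaf (.nb 15 82046))))

def u64412 : Tr ℕ := (.node (.node (.leaf (1496)) (.leaf (0))) (.leaf (1803)))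

def h64412 : List ℕ := h64412_0

def lab64412 : List ℕ := [0, 1, 2, 2, 2, 2, 2, 3, 3, 3, 4, 4, 4, 4, 5, 6, 6]

theorem c64412 : check lab64412 t64412 5 u64412 h64412 7 = true := by decide +kernel

def h74303_0 : List ℕ := [4098, 20483, 16390]

def t74303 : Tr Rule := (.node (.node (.node (.leaf (.tri 15 14 16)) (.leaf (.nb 16 49406))) (.leaf (.nb 14 98558))) (.node (.leaf (.ew 15 16)) (.leaf (.nb 15 82174))))

def u74303 : Tr ℕ := (.node (.node (.leaf (1496)) (.leaf (0))) (.leaf (1803)))

def h74303 : List ℕ := h74303_0

def lab74303 : List ℕ := [0, 1, 2, 2, 2, 2, 2, 2, 3, 3, 3, 4, 4, 4, 6, 6, 6]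

theorem c74303 : check lab74303 t74303 5 u74303 h74303 7 = true := by decide +kernel

def h74312_0 : List ℕ := [4098, 20483, 16390]

def t74312 : Tr Rule := (.node (.node (.node (.leaf (.tri 15 14 16)) (.leaf (.nb 16 49406))) (.leaf (.nb 14 114942))) (.node (.leaf (.ew 15 16)) (.leaf (.nb 15 82174))))

def u74312 : Tr ℕ := (.node (.node (.leaf (1496)) (.leaf (0))) (.leaf (1803)))

def h74312 : List ℕ := h74312_0

def lab74312 : List ℕ := [0, 1, 2, 2, 2, 2, 2, 2, 3, 3, 3, 4, 4, 4, 5, 6, 6]

theorem c74312 : check lab74312 t74312 5 u74312 h74312 7 = true := by decide +kernel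

def h65303_0 : List ℕ := [4098, 20483, 16390]

def t65303 : Tr Rule := (.node (.node (.node (.leaf (.tri 15 14 16)) (.leaf (.nb 16 49278))) (.leaf (.nb 14 98430))) (.node (.leaf (.ew 15 16)) (.leaf (.nb 15 82046))))

def u65303 : Tr ℕ := (.node (.node (.leaf (1496)) (.leaf (0))) (.leaf (1803)))

def h65303 : List ℕ := h65303_0

def lab65303 : List ℕ := [0, 1, 2, 2, 2, 2, 2, 3, 3, 3, 3, 4, 4, 4, 6, 6, 6]

theorem c65303 : check lab65303 t65303 5 u65303 h65303 7 = true := by decide +kernel

def h65312_0 : List ℕ := [4098, 20483, 16390]

def t65312 : Tr Rule := (.node (.node (.node (.leaf (.tri 15 14 16)) (.leaf (.nb 16 49278))) (.leaf (.nb 14 114814))) (.node (.leaf (.ew 15 16)) (.leaf (.nb 15 82046))))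

def u65312 : Tr ℕ := (.node (.node (.leaf (1496)) (.leaf (0))) (.leaf (1803)))

def h65312 : List ℕ := h65312_0

def lab65312 : List ℕ := [0, 1, 2, 2, 2, 2, 2, 3, 3, 3, 3, 4, 4, 4, 5, 6, 6]

theorem c65312 : check lab65312 t65312 5 u65312 h65312 7 = true := by decide +kernel

def h76112_0 : List ℕ := [4098, 20483, 16390]

def t76112 : Tr Rule := (.node (.node (.node (.leaf (.tri 15 14 16)) (.leaf (.nb 13 49406))) (.leaf (.nb 13 16638))) (.node (.leaf (.ew 15 16)) (.leaf (.nb 13 82174))))

def u76112 : Tr ℕ := (.node (.node (.leaf (1496)) (.leaf (0))) (.leaf (1803)))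

def h76112 : List ℕ := h76112_0

def lab76112 : List ℕ := [0, 1, 2, 2, 2, 2, 2, 2, 3, 3, 3, 3, 3, 4, 5, 6, 6]

theorem c76112 : check lab76112 t76112 5 u76112 h76112 7 = true := by decide +kernel

end Pool.Agent.Work.MP_92a29d_co.Ball
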