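import Pool.Agent.Work.MP_92a29d_co_h36.BModel
import Pool.Agent.Work.MP_92a29d_co_h36.BCert0
import Pool.Agent.Work.MP_92a29d_co_h36.BCert1
import Pool.Agent.Work.MP_92a29d_co_h36.BCert2
import Pool.Agent.Work.MP_92a29d_co_h36.BCert3
import Pool.Agent.Work.MP_92a29d_co_h36.BCert4
import Pool.Agent.Work.MP_92a29d_co_h36.BCert5
import Pool.Agent.Work.MP_92a29d_co_h36.BCert6
import Pool.Agent.Work.MP_92a29d_co_h36.BCert7
import Pool.Agent.Work.MP_92a29d_co_h36.BCert8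
import Pool.Agent.Work.MP_92a29d_co_h36.BCert9

/-!
Graphs with 17 vertices, no closed walks of length three and five, no independent set with nine
vertices and at least 39 edges map to the cycle of length seven or to the Moebius ladder with 12
vertices.
-/

namespace Pool.Agent.Work.MP_92a29d_co.Ball

open SimpleGraph Finset

/-- the size patterns -/
def pats : List (ℕ × ℕ × ℕ × ℕ × ℕ) := [
  (6, 4, 3, 1, 3), (6, 4, 3, 2, 2), (5, 5, 2, 2, 3), (5, 5, 3, 1, 3),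
  (5, 5, 3, 2, 2), (6, 5, 2, 2, 2), (7, 3, 3, 1, 3), (6, 4, 2, 2, 3),
  (5, 5, 0, 0, 7), (6, 6, 1, 1, 3), (7, 5, 0, 1, 4), (7, 3, 4, 0, 3),
  (7, 3, 5, 0, 2), (7, 4, 4, 0, 2), (7, 5, 3, 0, 2), (7, 6, 2, 0, 2),
  (5, 5, 2, 1, 4), (6, 4, 2, 1, 4), (7, 3, 2, 1, 4), (6, 4, 1, 2, 4),
  (6, 4, 0, 1, 6), (6, 4, 0, 0, 7), (7, 3, 3, 0, 4), (7, 5, 1, 1, 3),
  (7, 5, 0, 0, 5), (6, 6, 0, 0, 5), (7, 3, 4, 1, 2), (7, 7, 0, 0, 3),
  (7, 7, 1, 0, 2), (7, 3, 1, 0, 6), (6, 4, 1, 0, 6), (5, 5, 1, 0, 6),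
  (5, 5, 1, 1, 5), (7, 3, 1, 1, 5), (6, 4, 1, 1, 5), (6, 4, 0, 2, 5),
  (6, 4, 3, 0, 4), (6, 5, 0, 2, 4), (6, 4, 2, 0, 5), (7, 3, 2, 0, 5),
  (5, 5, 2, 0, 5), (7, 3, 0, 1, 6), (5, 5, 3, 0, 4), (6, 5, 1, 1, 4),
  (7, 4, 0, 1, 5), (6, 5, 1, 0, 5), (7, 4, 1, 0, 5), (6, 5, 0, 1, 5),
  (7, 4, 0, 0, 6), (6, 5, 0, 0, 6), (7, 4, 1, 1, 4), (7, 4, 2, 0, 4),
  (6, 5, 2, 0, 4), (7, 4, 2, 1, 3), (6, 5, 1, 2, 3), (7, 3, 0, 0, 7),
  (6, 5, 2, 1, 3), (7, 5, 1, 0, 4), (6, 6, 1, 0, 4), (7, 5, 2, 0, 3),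
  (6, 6, 2, 0, 3), (7, 6, 0, 0, 4), (7, 6, 0, 1, 3), (7, 6, 1, 0, 3),
  (7, 5, 2, 1, 2), (6, 6, 2, 1, 2), (6, 4, 4, 0, 3), (6, 4, 4, 1, 2),
  (7, 4, 3, 0, 3), (7, 4, 3, 1, 2), (6, 5, 3, 0, 3), (6, 5, 3, 1, 2),
  (7, 6, 1, 1, 2)]

/-- membership as a Boolean -/
def inP (a b p q r : ℕ) : Bool :=
  pats.any fun t => Nat.beq a t.1 && (Nat.beq b t.2.1 && (Nat.beq p t.2.2.1 &&
    (Nat.beq q t.2.2.2.1 && Nat.beq r t.2.2.2.2)))

theorem inP_all : ∀ a < 8, ∀ b < 8, ∀ p < 6, ∀ q < 6,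
    (Nat.blt (a + b) 10 || (Nat.blt a b || (Nat.blt 8 (b + p) || (Nat.blt 8 (a + q) ||
      (Nat.blt 15 (a + b + p + q) || ((Nat.beq a b && Nat.blt p q) ||
        inP a b p q (17 - (a + b + p + q)))))))) = true := by
  decide +kernel

/-- no pattern has a model -/
theorem noMod : ∀ t ∈ pats, ∀ g,
    Mod (labOf t.1 t.2.1 t.2.2.1 t.2.2.2.1 t.2.2.2.2) g → False :=
  List.forall_mem_cons.2 ⟨fun _ h => check_sound c64313 h,
  List.forall_mem_cons.2 ⟨fun _ h => check_sound c64322 h,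
  List.forall_mem_cons.2 ⟨fun _ h => check_sound c55223 h,
  List.forall_mem_cons.2 ⟨fun _ h => check_sound c55313 h,
  List.forall_mem_cons.2 ⟨fun _ h => check_sound c55322 h,
  List.forall_mem_cons.2 ⟨fun _ h => check_sound c65222 h,
  List.forall_mem_cons.2 ⟨fun _ h => check_sound c73313 h,
  List.forall_mem_cons.2 ⟨fun _ h => check_sound c64223 h,
  List.forall_mem_cons.2 ⟨fun _ h => check_sound c55007 h,
  List.forall_mem_cons.2 ⟨fun _ h => check_sound c66113 h,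
  List.forall_mem_cons.2 ⟨fun _ h => check_sound c75014 h,
  List.forall_mem_cons.2 ⟨fun _ h => check_sound c73403 h,
  List.forall_mem_cons.2 ⟨fun _ h => check_sound c73502 h,
  List.forall_mem_cons.2 ⟨fun _ h => check_sound c74402 h,
  List.forall_mem_cons.2 ⟨fun _ h => check_sound c75302 h,
  List.forall_mem_cons.2 ⟨fun _ h => check_sound c76202 h,
  List.forall_mem_cons.2 ⟨fun _ h => check_sound c55214 h,
  List.forall_mem_cons.2 ⟨fun _ h => check_sound c64214 h,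
  List.forall_mem_cons.2 ⟨fun _ h => check_sound c73214 h,
  List.forall_mem_cons.2 ⟨fun _ h => check_sound c64124 h,
  List.forall_mem_cons.2 ⟨fun _ h => check_sound c64016 h,
  List.forall_mem_cons.2 ⟨fun _ h => check_sound c64007 h,
  List.forall_mem_cons.2 ⟨fun _ h => check_sound c73304 h,
  List.forall_mem_cons.2 ⟨fun _ h => check_sound c75113 h,
  List.forall_mem_cons.2 ⟨fun _ h => check_sound c75005 h,
  List.forall_mem_cons.2 ⟨fun _ h => check_sound c66005 h,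
  List.forall_mem_cons.2 ⟨fun _ h => check_sound c73412 h,
  List.forall_mem_cons.2 ⟨fun _ h => check_sound c77003 h,
  List.forall_mem_cons.2 ⟨fun _ h => check_sound c77102 h,
  List.forall_mem_cons.2 ⟨fun _ h => check_sound c73106 h,
  List.forall_mem_cons.2 ⟨fun _ h => check_sound c64106 h,
  List.forall_mem_cons.2 ⟨fun _ h => check_sound c55106 h,
  List.forall_mem_cons.2 ⟨fun _ h => check_sound c55115 h,
  List.forall_mem_cons.2 ⟨fun _ h => check_sound c73115 h,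
  List.forall_mem_cons.2 ⟨fun _ h => check_sound c64115 h,
  List.forall_mem_cons.2 ⟨fun _ h => check_sound c64025 h,
  List.forall_mem_cons.2 ⟨fun _ h => check_sound c64304 h,
  List.forall_mem_cons.2 ⟨fun _ h => check_sound c65024 h,
  List.forall_mem_cons.2 ⟨fun _ h => check_sound c64205 h,
  List.forall_mem_cons.2 ⟨fun _ h => check_sound c73205 h,
  List.forall_mem_cons.2 ⟨fun _ h => check_sound c55205 h,
  List.forall_mem_cons.2 ⟨fun _ h => check_sound c73016 h,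
  List.forall_mem_cons.2 ⟨fun _ h => check_sound c55304 h,
  List.forall_mem_cons.2 ⟨fun _ h => check_sound c65114 h,
  List.forall_mem_cons.2 ⟨fun _ h => check_sound c74015 h,
  List.forall_mem_cons.2 ⟨fun _ h => check_sound c65105 h,
  List.forall_mem_cons.2 ⟨fun _ h => check_sound c74105 h,
  List.forall_mem_cons.2 ⟨fun _ h => check_sound c65015 h,
  List.forall_mem_cons.2 ⟨fun _ h => check_sound c74006 h,
  List.forall_mem_cons.2 ⟨fun _ h => check_sound c65006 h,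
  List.forall_mem_cons.2 ⟨fun _ h => check_sound c74114 h,
  List.forall_mem_cons.2 ⟨fun _ h => check_sound c74204 h,
  List.forall_mem_cons.2 ⟨fun _ h => check_sound c65204 h,
  List.forall_mem_cons.2 ⟨fun _ h => check_sound c74213 h,
  List.forall_mem_cons.2 ⟨fun _ h => check_sound c65123 h,
  List.forall_mem_cons.2 ⟨fun _ h => check_sound c73007 h,
  List.forall_mem_cons.2 ⟨fun _ h => check_sound c65213 h,
  List.forall_mem_cons.2 ⟨fun _ h => check_sound c75104 h,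
  List.forall_mem_cons.2 ⟨fun _ h => check_sound c66104 h,
  List.forall_mem_cons.2 ⟨fun _ h => check_sound c75203 h,
  List.forall_mem_cons.2 ⟨fun _ h => check_sound c66203 h,
  List.forall_mem_cons.2 ⟨fun _ h => check_sound c76004 h,
  List.forall_mem_cons.2 ⟨fun _ h => check_sound c76013 h,
  List.forall_mem_cons.2 ⟨fun _ h => check_sound c76103 h,
  List.forall_mem_cons.2 ⟨fun _ h => check_sound c75212 h,
  List.forall_mem_cons.2 ⟨fun _ h => check_sound c66212 h,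
  List.forall_mem_cons.2 ⟨fun _ h => check_sound c64403 h,
  List.forall_mem_cons.2 ⟨fun _ h => check_sound c64412 h,
  List.forall_mem_cons.2 ⟨fun _ h => check_sound c74303 h,
  List.forall_mem_cons.2 ⟨fun _ h => check_sound c74312 h,
  List.forall_mem_cons.2 ⟨fun _ h => check_sound c65303 h,
  List.forall_mem_cons.2 ⟨fun _ h => check_sound c65312 h,
  List.forall_mem_cons.2 ⟨fun _ h => check_sound c76112 h,
  fun _ h => absurd h (List.not_mem_nil)⟩⟩⟩⟩⟩⟩⟩⟩⟩⟩⟩⟩⟩⟩⟩⟩⟩⟩⟩⟩⟩⟩⟩⟩⟩⟩⟩⟩⟩⟩⟩⟩⟩⟩⟩⟩⟩⟩⟩⟩⟩⟩⟩⟩⟩⟩⟩⟩⟩⟩⟩⟩⟩⟩⟩⟩⟩⟩⟩⟩⟩⟩⟩⟩⟩⟩⟩⟩⟩⟩⟩⟩⟩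

variable {V : Type*} [Fintype V] {G : SimpleGraph V} {x y : V}

open Classical in
theorem core (hV : Fintype.card V = 17) (hG : Odd7 G) (hxy : G.Adj x y) (hα : AlphaEight G)
    (he : 39 ≤ G.edgeFinset.card) (h7 : ¬ ∃ f : V → ZMod 7, CycHom G 7 f)
    (h12 : ¬ ∃ f : V → ℕ, M12Hom G f) (hd : 8 ≤ cn G x y 2 + cn G x y 3)
    (hle : cn G x y 3 ≤ cn G x y 2) (heq : cn G x y 2 = cn G x y 3 → cn G x y 5 ≤ cn G x y 4) :
    False := by
  have h6 : 2 ≤ cn G x y 6 := by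
    by_contra hcon
    exact h7 (cycHom_of_nearBip hG (nearBip_of_small hG hxy (by omega)))
  have h2 := cn_two_le hG hxy hα (by omega)
  have h3 := cn_indep hG hxy hα {0, 3, 4} (by decide)
  have h4 := cn_indep hG hxy hα {1, 2, 5} (by decide)
  have h5 := cn_sum (G := G) (x := x) (y := y) hV
  rw [Finset.sum_insert (by decide), Finset.sum_insert (by decide), Finset.sum_singleton,
    cn_zero] at h3
  rw [Finset.sum_insert (by decide), Finset.sum_insert (by decide), Finset.sum_singleton,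
    cn_one hxy.ne] at h4
  rw [cn_zero, cn_one hxy.ne] at h5
  obtain ⟨g, hg⟩ := ball_mod hV hG hxy hα he h7 h12 rfl rfl rfl rfl rfl
  generalize cn G x y 2 = a at *
  generalize cn G x y 3 = b at *
  generalize cn G x y 4 = p at *
  generalize cn G x y 5 = q at *
  generalize cn G x y 6 = r at *
  have h8 := inP_all (a + 1) (by omega) (b + 1) (by omega) p (by omega) q (by omega)
  have e : 17 - (a + 1 + (b + 1) + p + q) = r := by omega
  rw [e] at h8
  simp only [Bool.or_eq_true, Bool.and_eq_true, blt_iff, Nat.beq_eq] at h8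
  rcases h8 with h | h | h | h | h | h | h
  · omega
  · omega
  · omega
  · omega
  · omega
  · have := heq (by omega)
    omega
  · unfold inP at h
    rw [List.any_eq_true] at h
    obtain ⟨t, ht, h9⟩ := h
    simp only [Bool.and_eq_true, Nat.beq_eq] at h9
    obtain ⟨e1, e2, e3, e4, e5⟩ := h9
    refine noMod t ht g ?_
    rw [← e1, ← e2, ← e3, ← e4, ← e5]
    exact hg

open Classical in
/-- the classification -/
theorem ball_classify (hV : Fintype.card V = 17) (hG : Odd7 G) (hα : AlphaEight G)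
    (he : 39 ≤ G.edgeFinset.card) :
    (∃ f : V → ZMod 7, CycHom G 7 f) ∨ ∃ f : V → ℕ, M12Hom G f := by
  by_contra hcon
  push Not at hcon
  obtain ⟨h7', h12'⟩ := hcon
  have h7 : ¬ ∃ f : V → ZMod 7, CycHom G 7 f := by
    rintro ⟨f, hf⟩
    exact h7' f hf
  have h12 : ¬ ∃ f : V → ℕ, M12Hom G f := by
    rintro ⟨f, hf⟩
    exact h12' f hf
  obtain ⟨x, y, hxy, hd⟩ := exists_big_edge (G := G) hV he
  have dx : ∀ x : V, (univ.filter fun v => G.Adj x v).card = G.degree x := by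
    intro x
    rw [← G.card_neighborFinset_eq_degree, G.neighborFinset_eq_filter]
  have e1 := cn_two hxy
  have e2 := cn_three hG hxy
  have e3 := cn_two hxy.symm
  have e4 := cn_three hG hxy.symm
  have e5 := cn_swap hG hxy
  have e6 := cn_swap hG hxy.symm
  rw [dx] at e1 e2 e3 e4
  rcases Nat.lt_trichotomy (G.degree x) (G.degree y) with h | h | h
  · exact core hV hG hxy.symm hα he h7 h12 (by omega) (by omega) (by omega)
  · rcases Nat.le_total (cn G x y 5) (cn G x y 4) with h1 | h1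
    · exact core hV hG hxy hα he h7 h12 (by omega) (by omega) (fun _ => h1)
    · exact core hV hG hxy.symm hα he h7 h12 (by omega) (by omega) (fun _ => by omega)
  · exact core hV hG hxy hα he h7 h12 (by omega) (by omega) (by omega)

end Pool.Agent.Work.MP_92a29d_co.Ball
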