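import Pool.Agent.Work.MP_92a29d_co_h36.BNorm

/-!
The ball of an edge gives a model.
-/

namespace Pool.Agent.Work.MP_92a29d_co.Ball

open SimpleGraph Finset

/-- the list of labels of a size pattern -/
def labOf (a b p q r : ℕ) : List ℕ :=
  0 :: 1 :: (List.replicate (a - 1) 2 ++ (List.replicate (b - 1) 3 ++
    (List.replicate p 4 ++ (List.replicate q 5 ++ List.replicate r 6))))

/-- homomorphisms to the Moebius ladder with 12 vertices -/
def M12Hom {V : Type*} (G : SimpleGraph V) (f : V → ℕ) : Prop :=
  ∀ u w, G.Adj u w → tA 12 (f u) (f w) = true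

section

variable {V : Type*} [Fintype V] {G : SimpleGraph V} {x y : V}

open Classical in
/-- number of vertices with a label -/
noncomputable def cn (G : SimpleGraph V) (x y : V) (k : ℕ) : ℕ :=
  (univ.filter fun v => lbl G x y v = k).card

theorem cn_zero : cn G x y 0 = 1 := by
  classical
  unfold cn
  rw [Finset.card_eq_one]
  refine ⟨x, ?_⟩
  ext v
  simp only [mem_filter, mem_univ, true_and, mem_singleton]
  constructor
  · exact (lbl_spec v).1
  · rintro rfl
    exact lbl_x

theorem cn_one (h : x ≠ y) : cn G x y 1 = 1 := by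
  classical
  unfold cn
  rw [Finset.card_eq_one]
  refine ⟨y, ?_⟩
  ext v
  simp only [mem_filter, mem_univ, true_and, mem_singleton]
  constructor
  · exact (lbl_spec v).2.1
  · rintro rfl
    exact lbl_y h

open Classical in
theorem cn_two (hxy : G.Adj x y) : cn G x y 2 + 1 = (univ.filter fun v => G.Adj x v).card := by
  have e : (univ.filter fun v => G.Adj x v) =
      insert y (univ.filter fun v => lbl G x y v = 2) := by
    ext v
    simp only [mem_filter, mem_univ, true_and, mem_insert]
    constructor
    · intro h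
      by_cases h1 : v = y
      · exact Or.inl h1
      · exact Or.inr (lbl_two v h.ne' h1 h)
    · rintro (rfl | h)
      · exact hxy
      · exact ((lbl_spec v).2.2.1 h).2.2
  rw [e, Finset.card_insert_of_notMem]
  · unfold cn
    congr!
  · simp only [mem_filter, mem_univ, true_and]
    rw [lbl_y hxy.ne]
    norm_num

open Classical in
theorem cn_three (hG : Odd7 G) (hxy : G.Adj x y) :
    cn G x y 3 + 1 = (univ.filter fun v => G.Adj y v).card := by
  have e : (univ.filter fun v => G.Adj y v) =
      insert x (univ.filter fun v => lbl G x y v = 3) := by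
    ext v
    simp only [mem_filter, mem_univ, true_and, mem_insert]
    constructor
    · intro h
      by_cases h1 : v = x
      · exact Or.inl h1
      · exact Or.inr (lbl_three v h1 h.ne' (fun h2 => hG.three x y v hxy h h2.symm) h)
    · rintro (rfl | h)
      · exact hxy.symm
      · exact ((lbl_spec v).2.2.2.1 h).2.2.2
  rw [e, Finset.card_insert_of_notMem]
  · unfold cn
    congr!
  · simp only [mem_filter, mem_univ, true_and]
    rw [lbl_x]
    norm_num

theorem cn_swap (hG : Odd7 G) (hxy : G.Adj x y) : cn G x y 4 = cn G y x 5 := by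
  classical
  unfold cn
  congr 1
  ext v
  simp only [mem_filter, mem_univ, true_and]
  exact lbl_swap hG hxy v

theorem cn_sum (hV : Fintype.card V = 17) : cn G x y 0 + cn G x y 1 + cn G x y 2 + cn G x y 3 +
    cn G x y 4 + cn G x y 5 + cn G x y 6 = 17 := by
  classical
  have h := Finset.card_eq_sum_card_fiberwise (f := lbl G x y) (s := (univ : Finset V))
    (t := Finset.range 7) (fun v _ => Finset.mem_coe.2 (Finset.mem_range.2 (lbl_lt v)))
  rw [Finset.card_univ, hV] at h
  rw [h]
  simp only [Finset.sum_range_succ, Finset.sum_range_zero, zero_add]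
  rfl

open Classical in
/-- a set of vertices whose labels are pairwise not adjacent is small -/
theorem cn_indep (hG : Odd7 G) (hxy : G.Adj x y) (hα : AlphaEight G) (T : Finset ℕ)
    (hT : ∀ a ∈ T, ∀ b ∈ T, lA a b = false) : ∑ k ∈ T, cn G x y k ≤ 8 := by
  have h1 : ∑ k ∈ T, cn G x y k = (univ.filter fun v => lbl G x y v ∈ T).card := by
    have h := Finset.card_eq_sum_card_fiberwise (f := lbl G x y)
      (s := (univ.filter fun v => lbl G x y v ∈ T)) (t := T) (fun v hv => by
        rw [Finset.coe_filter] at hv
        exact Finset.mem_coe.2 hv.2)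
    rw [h]
    refine Finset.sum_congr rfl fun k hk => ?_
    unfold cn
    congr 1
    ext v
    simp only [mem_filter, mem_univ, true_and]
    constructor
    · intro h
      exact ⟨by rw [h]; exact hk, h⟩
    · exact fun h => h.2
  rw [h1]
  refine hα _ ?_
  intro u hu w hw huw
  rw [mem_filter] at hu hw
  have h2 := lbl_adj hG hxy huw
  rw [hT _ hu.2 _ hw.2] at h2
  exact Bool.noConfusion h2

/-- one more vertex next to the neighbours of `x` -/
theorem cn_two_le (hG : Odd7 G) (hxy : G.Adj x y) (hα : AlphaEight G) (h6 : cn G x y 6 ≠ 0) :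
    cn G x y 2 + 2 ≤ 8 := by
  classical
  have h7 : ∃ z, lbl G x y z = 6 := by
    by_contra hcon
    push Not at hcon
    apply h6
    unfold cn
    rw [Finset.card_eq_zero, Finset.filter_eq_empty_iff]
    intro v _
    exact hcon v
  obtain ⟨z, hz⟩ := h7
  have hb : ∀ a b : ℕ, (a = 1 ∨ a = 2 ∨ a = 6) → (b = 1 ∨ b = 2) → lA a b = false := by
    rintro a b (rfl | rfl | rfl) (rfl | rfl) <;> decide
  have h8 := hα (insert z (insert y (univ.filter fun v => lbl G x y v = 2))) (by
    intro u hu w hw huw
    rw [mem_insert, mem_insert, mem_filter] at hu hw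
    have h9 := lbl_adj hG hxy huw
    have h10 := lbl_adj hG hxy huw.symm
    have hu' : u = z ∨ lbl G x y u = 1 ∨ lbl G x y u = 2 := by
      rcases hu with h | h | h
      · exact Or.inl h
      · exact Or.inr (Or.inl (by rw [h]; exact lbl_y hxy.ne))
      · exact Or.inr (Or.inr h.2)
    have hw' : w = z ∨ lbl G x y w = 1 ∨ lbl G x y w = 2 := by
      rcases hw with h | h | h
      · exact Or.inl h
      · exact Or.inr (Or.inl (by rw [h]; exact lbl_y hxy.ne))
      · exact Or.inr (Or.inr h.2)
    rcases hu' with h1 | h1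
    · rcases hw' with h2 | h2
      · rw [h1, h2] at huw
        exact G.irrefl huw
      · rw [hb _ _ (by rw [h1, hz]; exact Or.inr (Or.inr rfl)) h2] at h9
        exact Bool.noConfusion h9
    · have h3 : lbl G x y w = 1 ∨ lbl G x y w = 2 ∨ lbl G x y w = 6 := by
        rcases hw' with h2 | h2 | h2
        · rw [h2, hz]; exact Or.inr (Or.inr rfl)
        · exact Or.inl h2
        · exact Or.inr (Or.inl h2)
      rw [hb _ _ h3 h1] at h10
      exact Bool.noConfusion h10)
  rw [Finset.card_insert_of_notMem, Finset.card_insert_of_notMem] at h8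
  · exact h8
  · rw [mem_filter, lbl_y hxy.ne]
    rintro ⟨_, h⟩
    exact absurd h (by norm_num)
  · rw [mem_insert, mem_filter, hz, not_or]
    refine ⟨?_, ?_⟩
    · rintro rfl
      rw [lbl_y hxy.ne] at hz
      exact absurd hz (by norm_num)
    · rintro ⟨_, h⟩
      exact absurd h (by norm_num)

/-- the parts -/
def pt (a : ℕ) : Bool := a == 1 || a == 2 || a == 5

theorem lA_parts' : ∀ a < 7, ∀ b < 7,
    (a == 6 || b == 6 || !(lA a b) || (pt a != pt b)) = true := by decide

theorem lA_parts (a : ℕ) (ha : a < 7) (b : ℕ) (hb : b < 7) (h1 : a ≠ 6) (h2 : b ≠ 6)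
    (h3 : lA a b = true) : pt a ≠ pt b := by
  have h := lA_parts' a ha b hb
  simp only [Bool.or_eq_true, beq_iff_eq, Bool.not_eq_true', bne_iff_ne] at h
  rcases h with ((h | h) | h) | h
  · exact absurd h h1
  · exact absurd h h2
  · rw [h3] at h
    exact Bool.noConfusion h
  · exact h

/-- the colouring by the parts -/
theorem nearBip_of_small (hG : Odd7 G) (hxy : G.Adj x y) (h6 : cn G x y 6 ≤ 1) : NearBip G := by
  classical
  have key := lA_parts
  let c : V → Bool := fun v => pt (lbl G x y v)
  rcases Nat.le_one_iff_eq_zero_or_eq_one.1 h6 with h | h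
  · refine ⟨x, c, ?_⟩
    have hno : ∀ v, lbl G x y v ≠ 6 := by
      intro v hv
      unfold cn at h
      rw [Finset.card_eq_zero, Finset.filter_eq_empty_iff] at h
      exact h (mem_univ v) hv
    intro u w _ _ huw
    exact key _ (lbl_lt u) _ (lbl_lt w) (hno u) (hno w) (lbl_adj hG hxy huw)
  · unfold cn at h
    rw [Finset.card_eq_one] at h
    obtain ⟨z, hz⟩ := h
    refine ⟨z, c, ?_⟩
    have hno : ∀ v, v ≠ z → lbl G x y v ≠ 6 := by
      intro v hv h1
      have : v ∈ univ.filter fun v => lbl G x y v = 6 := by
        rw [mem_filter]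
        exact ⟨mem_univ _, h1⟩
      rw [hz, mem_singleton] at this
      exact hv this
    intro u w hu hw huw
    exact key _ (lbl_lt u) _ (lbl_lt w) (hno u hu) (hno w hw) (lbl_adj hG hxy huw)

end

end Pool.Agent.Work.MP_92a29d_co.Ball
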