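import Pool.Agent.Work.MP_92a29d_co_h36.BMod

/-!
The ball of an edge gives a model: the model.
-/

namespace Pool.Agent.Work.MP_92a29d_co.Ball

open SimpleGraph Finset

theorem labOf_length {a b p q r : ℕ} (h : a + b + p + q + r = 15) :
    (labOf (a + 1) (b + 1) p q r).length = 17 := by
  unfold labOf
  simp only [List.length_cons, List.length_append, List.length_replicate, Nat.add_sub_cancel]
  omega

theorem labOf_sorted (a b p q r : ℕ) : (labOf a b p q r).Pairwise (· ≤ ·) := by
  unfold labOf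
  simp only [List.pairwise_cons, List.pairwise_append, List.pairwise_replicate, List.mem_cons,
    List.mem_append, List.mem_replicate]
  refine ⟨?_, ?_, ?_, ?_, ?_⟩
  · intro x hx
    omega
  · intro x hx
    omega
  · exact Or.inr le_rfl
  · refine ⟨Or.inr le_rfl, ?_, ?_⟩
    · refine ⟨Or.inr le_rfl, ⟨Or.inr le_rfl, Or.inr le_rfl, ?_⟩, ?_⟩
      · intro x hx y hy
        omega
      · intro x hx y hy
        omega
    · intro x hx y hy
      omega
  · intro x hx y hy
    omega

theorem labOf_mono {a b p q r : ℕ} (h : (labOf a b p q r).length = 17) (i j : ℕ) (hij : i ≤ j)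
    (hj : j < 17) : lb (labOf a b p q r) i ≤ lb (labOf a b p q r) j := by
  rcases Nat.eq_or_lt_of_le hij with rfl | hlt
  · exact le_rfl
  · have h1 := List.pairwise_iff_getElem.1 (labOf_sorted a b p q r) i j (by omega) (by omega) hlt
    unfold lb
    rw [List.getD_eq_getElem _ _ (by omega), List.getD_eq_getElem _ _ (by omega)]
    exact h1

variable {V : Type*} [Fintype V] {G : SimpleGraph V} {x y : V}

theorem labOf_multiset (hxy : G.Adj x y) {a b p q r : ℕ} (ha : cn G x y 2 = a)
    (hb : cn G x y 3 = b) (hp : cn G x y 4 = p) (hq : cn G x y 5 = q) (hr : cn G x y 6 = r) :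
    Multiset.map (lbl G x y) univ.val = (labOf (a + 1) (b + 1) p q r : Multiset ℕ) := by
  classical
  ext k
  have h1 : Multiset.count k (Multiset.map (lbl G x y) univ.val) = cn G x y k := by
    rw [Multiset.count_map]
    unfold cn
    change _ = Multiset.card (Multiset.filter _ _)
    congr 1
    refine Multiset.filter_congr fun v _ => ?_
    exact eq_comm
  rw [h1, Multiset.coe_count]
  unfold labOf
  simp only [List.count_cons, List.count_append, List.count_replicate, Nat.add_sub_cancel,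
    beq_iff_eq]
  by_cases h : k < 7
  · interval_cases k
    · rw [cn_zero]; norm_num
    · rw [cn_one hxy.ne]; norm_num
    · rw [ha]; norm_num
    · rw [hb]; norm_num
    · rw [hp]; norm_num
    · rw [hq]; norm_num
    · rw [hr]; norm_num
  · have h2 : cn G x y k = 0 := by
      unfold cn
      rw [Finset.card_eq_zero, Finset.filter_eq_empty_iff]
      intro v _ hv
      exact h (hv ▸ lbl_lt v)
    rw [h2]
    repeat rw [if_neg (by omega)]

theorem lF_cases' : ∀ a < 7, ∀ b < 7, (!(lF a b) ||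
    ((a == 0 && b == 1) || ((a == 0 && b == 2) || ((a == 1 && b == 0) || ((a == 1 && b == 3) ||
      ((a == 2 && b == 0) || (a == 3 && b == 1))))))) = true := by decide

theorem lF_cases (a : ℕ) (ha : a < 7) (b : ℕ) (hb : b < 7) (h : lF a b = true) :
    (a = 0 ∧ b = 1) ∨ (a = 0 ∧ b = 2) ∨ (a = 1 ∧ b = 0) ∨ (a = 1 ∧ b = 3) ∨ (a = 2 ∧ b = 0) ∨
      (a = 3 ∧ b = 1) := by
  have h1 := lF_cases' a ha b hb
  rw [h] at h1
  simpa using h1

omit [Fintype V] in
theorem lbl_forced (hxy : G.Adj x y) (u v : V) (h : lF (lbl G x y u) (lbl G x y v) = true) :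
    G.Adj u v := by
  have hu := lbl_spec (G := G) (x := x) (y := y) u
  have hv := lbl_spec (G := G) (x := x) (y := y) v
  rcases lF_cases _ (lbl_lt u) _ (lbl_lt v) h with ⟨h1, h2⟩ | ⟨h1, h2⟩ | ⟨h1, h2⟩ | ⟨h1, h2⟩ |
    ⟨h1, h2⟩ | ⟨h1, h2⟩
  · rw [hu.1 h1, hv.2.1 h2]
    exact hxy
  · rw [hu.1 h1]
    exact (hv.2.2.1 h2).2.2
  · rw [hu.2.1 h1, hv.1 h2]
    exact hxy.symm
  · rw [hu.2.1 h1]
    exact (hv.2.2.2.1 h2).2.2.2
  · rw [hv.1 h2]
    exact (hu.2.2.1 h1).2.2.symm
  · rw [hv.2.1 h2]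
    exact (hu.2.2.2.1 h1).2.2.2.symm

theorem tA_symm {t a b : ℕ} (h : tA t a b = true) : tA t b a = true := by
  unfold tA at *
  rcases hb : Nat.beq t 7 with _ | _
  · rw [hb, cond_false] at h
    rw [cond_false]
    simp only [Bool.or_eq_true, Nat.beq_eq] at h ⊢
    omega
  · rw [hb, cond_true] at h
    rw [cond_true]
    simp only [Bool.or_eq_true, Nat.beq_eq] at h ⊢
    omega

omit [Fintype V] in
theorem cycHom_of_tA {f : V → ℕ} (h : ∀ u w, G.Adj u w → tA 7 (f u) (f w) = true) :
    CycHom G 7 (fun v => ((f v : ℕ) : ZMod 7)) := by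
  intro u w huw
  have h1 := h u w huw
  unfold tA at h1
  rw [show Nat.beq 7 7 = true from rfl, cond_true] at h1
  simp only [Bool.or_eq_true, Nat.beq_eq] at h1
  simp only
  rcases h1 with h1 | h1
  · left
    have := (ZMod.natCast_eq_natCast_iff' (f u + 1) (f w) 7).2 h1
    push_cast at this
    exact this.symm
  · right
    have := (ZMod.natCast_eq_natCast_iff' (f w + 1) (f u) 7).2 h1
    push_cast at this
    rw [← this]
    ring

open Classical in
theorem ball_mod (hV : Fintype.card V = 17) (hG : Odd7 G) (hxy : G.Adj x y) (hα : AlphaEight G)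
    (he : 39 ≤ G.edgeFinset.card) (h7 : ¬ ∃ f : V → ZMod 7, CycHom G 7 f)
    (h12 : ¬ ∃ f : V → ℕ, M12Hom G f) {a b p q r : ℕ} (ha : cn G x y 2 = a)
    (hb : cn G x y 3 = b) (hp : cn G x y 4 = p) (hq : cn G x y 5 = q) (hr : cn G x y 6 = r) :
    ∃ g, Mod (labOf (a + 1) (b + 1) p q r) g := by
  have hsum := cn_sum (G := G) (x := x) (y := y) hV
  rw [cn_zero, cn_one hxy.ne, ha, hb, hp, hq, hr] at hsum
  have hlen := labOf_length (a := a) (b := b) (p := p) (q := q) (r := r) (by omega)
  set L := labOf (a + 1) (b + 1) p q r with hL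
  obtain ⟨σ0, hσ0, _⟩ := Place.exists_order hV (f := lbl G x y) (g := fun _ => 0) (N := 1)
    (fun _ => Nat.one_pos) hlen (labOf_multiset hxy ha hb hp hq hr)
  obtain ⟨σ, hσ, hord⟩ := exists_ordered (lbl G x y) L G.Adj (labOf_mono hlen) ⟨σ0, hσ0⟩
  have hi : ∀ v : V, σ ⟨(σ.symm v).val, (σ.symm v).isLt⟩ = v := fun v => σ.apply_symm_apply v
  have hg : ∀ u w, G.Adj u w → gOf G.Adj σ (σ.symm u).val (σ.symm w).val := by
    intro u w huw
    refine ⟨(σ.symm u).isLt, (σ.symm w).isLt, ?_⟩
    rw [hi, hi]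
    exact huw
  have hs : ∀ v, lb L (σ.symm v).val = lbl G x y v := by
    intro v
    rw [← hσ, σ.apply_symm_apply]
  have hgs : ∀ i j, gOf G.Adj σ i j → gOf G.Adj σ j i := by
    rintro i j ⟨h1, h2, h3⟩
    exact ⟨h2, h1, h3.symm⟩
  -- every edge in increasing order
  have hedge : ∀ u w, G.Adj u w → ∃ i j, i < j ∧ j < 17 ∧ gOf G.Adj σ i j ∧
      ((i = (σ.symm u).val ∧ j = (σ.symm w).val) ∨ (j = (σ.symm u).val ∧ i = (σ.symm w).val)) := by
    intro u w huw
    have hne : (σ.symm u).val ≠ (σ.symm w).val := by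
      intro h
      exact huw.ne (σ.symm.injective (Fin.ext h))
    rcases Nat.lt_or_gt_of_ne hne with h | h
    · exact ⟨_, _, h, (σ.symm w).isLt, hg u w huw, Or.inl ⟨rfl, rfl⟩⟩
    · exact ⟨_, _, h, (σ.symm u).isLt, hg w u huw.symm, Or.inr ⟨rfl, rfl⟩⟩
  refine ⟨gOf G.Adj σ, ?_⟩
  constructor
  · exact hgs
  · rintro u ⟨h1, _, h3⟩
    exact G.irrefl h3
  · rintro i j k ⟨h1, h2, h3⟩ ⟨_, h4, h5⟩ ⟨_, _, h6⟩
    exact hG.three _ _ _ h3 h5 h6
  · rintro i j k l m ⟨h1, h2, h3⟩ ⟨_, h4, h5⟩ ⟨_, h6, h7⟩ ⟨_, h8, h9⟩ ⟨_, _, h10⟩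
    exact hG.five _ _ _ _ _ h3 h5 h7 h9 h10
  · rintro u v hu hv ⟨_, _, h3⟩
    have h4 := lbl_adj hG hxy h3
    rw [hσ, hσ] at h4
    exact h4
  · intro u v hu hv huv hf
    refine ⟨hu, hv, lbl_forced hxy _ _ ?_⟩
    rw [hσ, hσ]
    exact hf
  · rfl
  · rfl
  · intro u hu hl
    have h1 := hσ ⟨u, hu⟩
    simp only at h1
    have hw : ∃ w, lbl G x y w + 2 = lb L u ∧ G.Adj w (σ ⟨u, hu⟩) := by
      rcases hl with hl | hl
      · rw [hl] at h1
        obtain ⟨_, _, _, _, w, hw1, hw2, hw3⟩ := (lbl_spec _).2.2.2.2.1 h1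
        refine ⟨w, ?_, hw3⟩
        rw [lbl_two w hw2.ne' hw1 hw2, hl]
      · rw [hl] at h1
        obtain ⟨_, _, _, _, _, w, hw1, hw2, hw3⟩ := (lbl_spec _).2.2.2.2.2.1 h1
        refine ⟨w, ?_, hw3⟩
        rw [lbl_three w hw1 hw2.ne' (fun h => hG.three x y w hxy hw2 h.symm) hw2, hl]
    obtain ⟨w, hw1, hw2⟩ := hw
    refine ⟨(σ.symm w).val, (σ.symm w).isLt, ?_, (σ.symm w).isLt, hu, ?_⟩
    · rw [hs, hw1]
    · rw [hi]
      exact hw2
  · -- number of edges
    let F : ℕ × ℕ → Sym2 V := fun p =>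
      if h : p.1 < 17 ∧ p.2 < 17 then s(σ ⟨p.1, h.1⟩, σ ⟨p.2, h.2⟩) else s(x, x)
    rw [List.countP_eq_length_filter]
    refine le_trans he (le_trans ?_ (List.toFinset_card_le _))
    refine le_trans (Finset.card_le_card (t := Finset.image F _) ?_) Finset.card_image_le
    intro e hee
    rw [mem_edgeFinset] at hee
    induction e using Sym2.ind with
    | _ u w =>
      rw [mem_edgeSet] at hee
      obtain ⟨i, j, hij, hj, hgij, hc⟩ := hedge u w hee
      rw [Finset.mem_image]
      refine ⟨(i, j), ?_, ?_⟩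
      · rw [List.mem_toFinset, List.mem_filter, mem_pairs]
        exact ⟨⟨hij, hj⟩, decide_eq_true hgij⟩
      · simp only [F]
        rw [dif_pos ⟨by omega, hj⟩]
        rcases hc with ⟨rfl, rfl⟩ | ⟨rfl, rfl⟩
        · rw [hi, hi]
        · rw [hi, hi, Sym2.eq_swap]
  · -- not nearly bipartite
    intro v c
    by_contra hcon
    push Not at hcon
    apply h7
    apply cycHom_of_nearBip hG
    refine ⟨if h : v < 17 then σ ⟨v, h⟩ else x, fun u => c (σ.symm u).val, ?_⟩
    intro u w hu hw huw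
    obtain ⟨i, j, hij, hj, hgij, hc⟩ := hedge u w huw
    have hv : ∀ u : V, u ≠ (if h : v < 17 then σ ⟨v, h⟩ else x) → (σ.symm u).val ≠ v := by
      intro u hu hv
      rw [dif_pos (hv ▸ (σ.symm u).isLt)] at hu
      apply hu
      subst hv
      exact (hi u).symm
    have h1 := hv u hu
    have h2 := hv w hw
    rcases hc with ⟨rfl, rfl⟩ | ⟨rfl, rfl⟩
    · exact hcon _ _ hij hj h1 h2 hgij
    · exact (hcon _ _ hij hj h2 h1 hgij).symm
  · -- homomorphisms
    intro t ht f
    by_contra hcon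
    push Not at hcon
    have h1 : ∀ u w, G.Adj u w → tA t (f (σ.symm u).val) (f (σ.symm w).val) = true := by
      intro u w huw
      obtain ⟨i, j, hij, hj, hgij, hc⟩ := hedge u w huw
      have h2 := hcon i j hij hj hgij
      rw [Ne, Bool.not_eq_false] at h2
      rcases hc with ⟨rfl, rfl⟩ | ⟨rfl, rfl⟩
      · exact h2
      · exact tA_symm h2
    rcases ht with rfl | rfl
    · exact h7 ⟨_, cycHom_of_tA (f := fun u => f (σ.symm u).val) h1⟩
    · exact h12 ⟨fun u => f (σ.symm u).val, h1⟩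
  · -- independent sets
    intro P hP
    by_contra hcon
    push Not at hcon
    have h1 := hα (univ.filter fun v => P (σ.symm v).val = true) (by
      intro u hu w hw huw
      rw [mem_filter] at hu hw
      obtain ⟨i, j, hij, hj, hgij, hc⟩ := hedge u w huw
      rcases hc with ⟨rfl, rfl⟩ | ⟨rfl, rfl⟩
      · exact hcon _ _ hij hj hgij hu.2 hw.2
      · exact hcon _ _ hij hj hgij hw.2 hu.2)
    have h2 : (List.range 17).countP P = (((List.range 17).filter P).toFinset).card := by
      rw [List.toFinset_card_of_nodup (List.nodup_range.filter _), List.countP_eq_length_filter]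
    rw [h2] at hP
    have h3 : (((List.range 17).filter P).toFinset).card ≤
        (univ.filter fun v => P (σ.symm v).val = true).card := by
      refine Finset.card_le_card_of_injOn (fun i => if h : i < 17 then σ ⟨i, h⟩ else x) ?_ ?_
      · intro i hi'
        rw [Finset.mem_coe, List.mem_toFinset, List.mem_filter, List.mem_range] at hi'
        simp only
        rw [dif_pos hi'.1, Finset.mem_coe, mem_filter]
        refine ⟨mem_univ _, ?_⟩
        rw [σ.symm_apply_apply]
        exact hi'.2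
      · intro i hi' j hj' hij
        rw [Finset.mem_coe, List.mem_toFinset, List.mem_filter, List.mem_range] at hi' hj'
        simp only at hij
        rw [dif_pos hi'.1, dif_pos hj'.1] at hij
        have := σ.injective hij
        exact Fin.mk.inj this
    omega
  · intro u hu hl _ _
    exact hord u hu hl

end Pool.Agent.Work.MP_92a29d_co.Ball
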