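import Pool.Agent.Work.MP_92a29d_co_h36.BRule
import Pool.Agent.Work.MP_92a29d_co_h16.Levels
import Pool.Agent.Work.MP_92a29d_co_h16.Struct

/-!
Graphs without closed walks of length three and five: nearly bipartite graphs map to the cycle of
length seven; an edge with large degrees.
-/

namespace Pool.Agent.Work.MP_92a29d_co.Ball

open SimpleGraph Finset

variable {V : Type*} {G : SimpleGraph V}

/-- no closed walks of length three and five -/
structure Odd7 (G : SimpleGraph V) : Prop where
  three : ∀ a b c, G.Adj a b → G.Adj b c → G.Adj c a → False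
  five : ∀ a b c d e, G.Adj a b → G.Adj b c → G.Adj c d → G.Adj d e → G.Adj e a → False

theorem odd7_of_walk (h : ∀ v (p : G.Walk v v), Odd p.length → 5 < p.length) : Odd7 G := by
  constructor
  · intro a b c h1 h2 h3
    have := h a (.cons h1 (.cons h2 (.cons h3 .nil))) (by
      simp only [Walk.length_cons, Walk.length_nil]; decide)
    simp at this
  · intro a b c d e h1 h2 h3 h4 h5
    have := h a (.cons h1 (.cons h2 (.cons h3 (.cons h4 (.cons h5 .nil))))) (by
      simp only [Walk.length_cons, Walk.length_nil]; decide)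
    simp at this

/-- nearly bipartite -/
def NearBip (G : SimpleGraph V) : Prop :=
  ∃ z, ∃ c : V → Bool, ∀ u w, u ≠ z → w ≠ z → G.Adj u w → c u ≠ c w

open Classical in
/-- the map of a nearly bipartite graph -/
noncomputable def nbMap (G : SimpleGraph V) (z : V) (c : V → Bool) (v : V) : ZMod 7 :=
  if v = z then 0 else
    if c v = true then
      (if G.Adj z v then 1 else if ∃ w, w ≠ z ∧ c w = false ∧ G.Adj z w ∧ G.Adj w v then 5 else 3)
    else
      (if G.Adj z v then 6 else if ∃ w, w ≠ z ∧ c w = true ∧ G.Adj z w ∧ G.Adj w v then 2 else 4)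

theorem nbMap_adj (hG : Odd7 G) {z : V} {c : V → Bool} {u w : V} (huw : G.Adj u w)
    (hu : u ≠ z) (hw : w ≠ z) (h1 : c u = true) (h2 : c w = false) :
    nbMap G z c w = nbMap G z c u + 1 ∨ nbMap G z c w = nbMap G z c u - 1 := by
  unfold nbMap
  rw [if_neg hu, if_neg hw, if_pos h1, if_neg (by rw [h2]; exact Bool.false_ne_true)]
  by_cases h3 : G.Adj z u
  · rw [if_pos h3]
    have h4 : ¬ G.Adj z w := fun h4 => hG.three z u w h3 huw h4.symm
    rw [if_neg h4, if_pos ⟨u, hu, h1, h3, huw⟩]
    left; decide
  · rw [if_neg h3]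
    by_cases h4 : G.Adj z w
    · rw [if_pos h4, if_pos ⟨w, hw, h2, h4, huw.symm⟩]
      left; decide
    · rw [if_neg h4]
      by_cases h5 : ∃ w, w ≠ z ∧ c w = false ∧ G.Adj z w ∧ G.Adj w u
      · rw [if_pos h5]
        have h6 : ¬ ∃ u, u ≠ z ∧ c u = true ∧ G.Adj z u ∧ G.Adj u w := by
          rintro ⟨n, hn1, hn2, hn3, hn4⟩
          obtain ⟨m, hm1, hm2, hm3, hm4⟩ := h5
          exact hG.five z m u w n hm3 hm4 huw hn4.symm hn3.symm
        rw [if_neg h6]
        right; decide
      · rw [if_neg h5]
        by_cases h6 : ∃ u, u ≠ z ∧ c u = true ∧ G.Adj z u ∧ G.Adj u w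
        · rw [if_pos h6]
          right; decide
        · rw [if_neg h6]
          left; decide

/-- a nearly bipartite graph maps to the cycle of length seven -/
theorem cycHom_of_nearBip (hG : Odd7 G) (h : NearBip G) : ∃ f : V → ZMod 7, CycHom G 7 f := by
  obtain ⟨z, c, hc⟩ := h
  refine ⟨nbMap G z c, ?_⟩
  have hz : ∀ w, w ≠ z → G.Adj z w → nbMap G z c w = 1 ∨ nbMap G z c w = 6 := by
    intro w hw h1
    unfold nbMap
    rw [if_neg hw]
    by_cases h2 : c w = true
    · rw [if_pos h2, if_pos h1]
      exact Or.inl rfl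
    · rw [if_neg h2, if_pos h1]
      exact Or.inr rfl
  have hz0 : nbMap G z c z = 0 := by
    unfold nbMap
    rw [if_pos rfl]
  intro u w huw
  by_cases hu : u = z
  · subst hu
    rw [hz0]
    rcases hz w huw.ne' huw with h | h
    · left; rw [h]; decide
    · right; rw [h]; decide
  · by_cases hw : w = z
    · subst hw
      rw [hz0]
      rcases hz u hu huw.symm with h | h
      · right; rw [h]; decide
      · left; rw [h]; decide
    · have h1 := hc u w hu hw huw
      rcases h2 : c u with _ | _
      · have h3 : c w = true := by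
          rcases h4 : c w with _ | _
          · rw [h2, h4] at h1
            exact absurd rfl h1
          · rfl
        have := nbMap_adj hG huw.symm hw hu h3 h2
        rcases this with h | h
        · right
          rw [h]; ring
        · left
          rw [h]; ring
      · have h3 : c w = false := by
          rcases h4 : c w with _ | _
          · rfl
          · rw [h2, h4] at h1
            exact absurd rfl h1
        exact nbMap_adj hG huw hu hw h2 h3

open Classical in
/-- an edge whose ends have degree sum at least ten -/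
theorem exists_big_edge [Fintype V] (hV : Fintype.card V = 17)
    (he : 39 ≤ G.edgeFinset.card) : ∃ x y, G.Adj x y ∧ 10 ≤ G.degree x + G.degree y := by
  by_contra hcon
  push Not at hcon
  have h1 : ∑ v, G.degree v = 2 * G.edgeFinset.card := G.sum_degrees_eq_twice_card_edges
  have h2 : ∑ x, ∑ y ∈ G.neighborFinset x, (G.degree x + G.degree y) ≤
      ∑ x, ∑ y ∈ G.neighborFinset x, 9 := by
    refine Finset.sum_le_sum fun x _ => Finset.sum_le_sum fun y hy => ?_
    have := hcon x y ((G.mem_neighborFinset x y).1 hy)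
    omega
  have h3 : ∑ x, ∑ y ∈ G.neighborFinset x, 9 = 9 * ∑ v, G.degree v := by
    rw [Finset.mul_sum]
    refine Finset.sum_congr rfl fun x _ => ?_
    rw [Finset.sum_const, G.card_neighborFinset_eq_degree, smul_eq_mul, mul_comm]
  have h4 : ∑ x, ∑ y ∈ G.neighborFinset x, G.degree y = ∑ x, G.degree x * G.degree x := by
    have h5 : ∀ x, ∑ y ∈ G.neighborFinset x, G.degree y =
        ∑ y, if G.Adj x y then G.degree y else 0 := by
      intro x
      rw [← Finset.sum_filter]
      refine Finset.sum_congr ?_ fun _ _ => rfl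
      ext y
      simp
    rw [Finset.sum_congr rfl fun x _ => h5 x, Finset.sum_comm]
    refine Finset.sum_congr rfl fun y _ => ?_
    rw [← Finset.sum_filter, Finset.sum_const, smul_eq_mul]
    congr 1
    rw [← G.card_neighborFinset_eq_degree]
    congr 1
    ext x
    simp [G.adj_comm]
  have h5 : ∑ x, ∑ y ∈ G.neighborFinset x, G.degree x = ∑ x, G.degree x * G.degree x := by
    refine Finset.sum_congr rfl fun x _ => ?_
    rw [Finset.sum_const, G.card_neighborFinset_eq_degree, smul_eq_mul]
  have h6 : ∑ x, ∑ y ∈ G.neighborFinset x, (G.degree x + G.degree y) =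
      2 * ∑ x, G.degree x * G.degree x := by
    rw [two_mul]
    nth_rw 1 [← h5]
    rw [← h4, ← Finset.sum_add_distrib]
    exact Finset.sum_congr rfl fun x _ => Finset.sum_add_distrib
  have h7 := Finset.sum_mul_sq_le_sq_mul_sq (Finset.univ : Finset V) (fun _ => (1 : ℤ))
    (fun v => (G.degree v : ℤ))
  simp only [one_mul, one_pow, Finset.sum_const, Finset.card_univ, hV, nsmul_eq_mul,
    mul_one] at h7
  have h8 : (∑ v, (G.degree v : ℤ)) = 2 * (G.edgeFinset.card : ℤ) := by
    exact_mod_cast h1
  have h9 : (∑ v, ((G.degree v : ℤ)) ^ 2) = ((∑ x, G.degree x * G.degree x : ℕ) : ℤ) := by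
    push_cast
    exact Finset.sum_congr rfl fun x _ => sq _
  rw [h8, h9] at h7
  rw [h6, h3, h1] at h2
  have h10 : ((∑ x, G.degree x * G.degree x : ℕ) : ℤ) ≤ 9 * (G.edgeFinset.card : ℤ) := by
    have : (2 * ∑ x, G.degree x * G.degree x : ℕ) ≤ 9 * (2 * G.edgeFinset.card) := h2
    omega
  have h11 : (39 : ℤ) ≤ G.edgeFinset.card := by exact_mod_cast he
  have h12 : (2 * (G.edgeFinset.card : ℤ)) ^ 2 ≤
      17 * ((∑ x, G.degree x * G.degree x : ℕ) : ℤ) := by exact_mod_cast h7
  generalize (G.edgeFinset.card : ℤ) = e at h10 h11 h12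
  generalize ((∑ x, G.degree x * G.degree x : ℕ) : ℤ) = S at h10 h12
  nlinarith

end Pool.Agent.Work.MP_92a29d_co.Ball
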