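import Mathlib

/-!
Enumeration of placements: count vectors of a code function under linear constraints.

A specification consists of constraints `(mask, lo, hi)`: the number of points whose code is in
the set given by `mask` is between `lo` and `hi`.  The function `Spec.check` runs through all count
vectors that satisfy the constraints and checks that each of them is carried by one of the
allowed maps of codes to one of the listed placements.
-/

namespace Pool.Agent.Work.MP_92a29d_co.Place

/-- a constraint `(mask, lo, hi)` -/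
abbrev Con := ℕ × ℕ × ℕ

/-- force the evaluation of a number -/
def frc (n : ℕ) (K : ℕ → Bool) : Bool :=
  Nat.rec (motive := fun _ => Bool) (K 0) (fun m _ => K (Nat.succ m)) n

theorem frc_eq (n : ℕ) (K : ℕ → Bool) : frc n K = K n := by
  cases n <;> rfl

/-- packed vector, base 64 -/
def enc (f : Con → ℕ) : List Con → ℕ
  | [] => 0
  | q :: t => f q + 64 * enc f t

/-- data of one code: the code, its packed weight, the packed lower bounds of the constraints whose
last code it is (as `32 - lo`) -/
abbrev Dat := ℕ × ℕ × ℕ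

def bitW (c : ℕ) (q : Con) : ℕ := if q.1.testBit c then 1 else 0

def low (c : ℕ) (q : Con) : ℕ := if q.1 >>> (c + 1) = 0 then 32 - q.2.1 else 32

def mkD (L : List Con) (c : ℕ) : Dat := (c, enc (bitW c) L, enc (low c) L)

def mkDs (L : List Con) : ℕ → ℕ → List Dat
  | _, 0 => []
  | c, n + 1 => mkD L c :: mkDs L (c + 1) n

/-- add copies of the code -/
def loop (HG G : ℕ) (rec : ℕ → List ℕ → Bool) (w gl : ℕ) (F : ℕ) :
    ℕ → ℕ → List ℕ → Bool :=
  Nat.rec (motive := fun _ => ℕ → ℕ → List ℕ → Bool) (fun _ _ _ => false)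
    (fun _ ih n s acc => cond (Nat.beq (Nat.land (Nat.sub HG s) G) G)
      (and (cond (Nat.beq (Nat.land (Nat.add s gl) G) G) (rec s (n :: acc)) true)
        (frc (Nat.add s w) fun s' => frc (Nat.succ n) fun n' => ih n' s' acc)) true) F

/-- the enumeration -/
def dfs (HG G : ℕ) (leaf : List ℕ → Bool) (D : List Dat) : ℕ → List ℕ → Bool :=
  List.rec (motive := fun _ => ℕ → List ℕ → Bool) (fun _ acc => leaf acc)
    (fun d _ ih s acc => loop HG G ih d.2.1 d.2.2 18 0 s acc) D

/-- image of a code under a map given by the list of its values -/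
def app (τ : List ℕ) (c : ℕ) : ℕ := τ.getD c 0

/-- scalar product -/
def dot (N : List ℕ) : List ℕ → ℕ → (ℕ → Bool) → Bool :=
  List.rec (motive := fun _ => List ℕ → ℕ → (ℕ → Bool) → Bool) (fun _ s K => K s)
    (fun a _ ih P s K => List.rec (motive := fun _ => Bool) (K s)
      (fun b P' _ => frc (Nat.add s (Nat.mul a b)) fun s' => ih P' s' K) P) N

structure Spec where
  K : ℕ
  cons : List Con
  data : List Dat
  HG : ℕ
  G : ℕ
  maps : List (List ℕ)
  /-- powers of the values of the maps, reversed -/
  mapsP : List (List ℕ)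
  places : List (List ℕ)
  /-- packed places -/
  placesP : List ℕ

def pack (p : List ℕ) : ℕ := (p.map fun x => 32 ^ x).sum

def anyL {α : Type} (f : α → Bool) (l : List α) : Bool :=
  List.rec (motive := fun _ => Bool) false (fun a _ ih => or (f a) ih) l

theorem anyL_iff {α : Type} (f : α → Bool) (l : List α) :
    anyL f l = true ↔ ∃ a ∈ l, f a = true := by
  induction l with
  | nil => simp [anyL]
  | cons a t ih =>
    change or (f a) (anyL f t) = true ↔ _
    rw [Bool.or_eq_true, ih]
    simp

def leaf (mapsP : List (List ℕ)) (placesP : List ℕ) (acc : List ℕ) : Bool :=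
  anyL (fun P => dot acc P 0 fun s => anyL (fun p => Nat.beq s p) placesP) mapsP

def Spec.check (S : Spec) : Bool :=
  decide (S.data = mkDs S.cons 0 S.K) && decide (S.HG = enc (fun q => q.2.2 + 32) S.cons) &&
    decide (S.G = enc (fun _ => 32) S.cons) &&
    decide (∀ q ∈ S.cons, q.2.1 ≤ 32 ∧ q.2.2 < 32) &&
    decide (∀ τ ∈ S.maps, τ.length = S.K) &&
    decide (∀ p ∈ S.places, p.length < 32) &&
    decide (S.mapsP = S.maps.map fun τ => (τ.map fun x => 32 ^ x).reverse) &&
    decide (S.placesP = S.places.map pack) &&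
    dfs S.HG S.G (leaf S.mapsP S.placesP) S.data 0 []

/-! ### soundness -/

theorem enc_add (f g : Con → ℕ) (L : List Con) :
    enc f L + enc g L = enc (fun q => f q + g q) L := by
  induction L with
  | nil => rfl
  | cons q t ih => simp only [enc]; rw [← ih]; ring

theorem enc_congr {f g : Con → ℕ} {L : List Con} (h : ∀ q ∈ L, f q = g q) : enc f L = enc g L := by
  induction L with
  | nil => rfl
  | cons q t ih =>
    simp only [enc]
    rw [h q (by simp), ih (fun q' hq' => h q' (by simp [hq']))]

theorem land_32 {a : ℕ} (h1 : 32 ≤ a) (h2 : a < 64) : a &&& 32 = 32 := by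
  interval_cases a <;> rfl

theorem land_block {a b x y : ℕ} (ha : a < 64) (hb : b < 64) :
    (a + 64 * x) &&& (b + 64 * y) = (a &&& b) + 64 * (x &&& y) := by
  apply Nat.eq_of_testBit_eq
  intro i
  have hab : a &&& b < 2 ^ 6 := lt_of_le_of_lt Nat.and_le_left ha
  have e1 := Nat.testBit_two_pow_mul_add x (show a < 2 ^ 6 from ha) i
  have e2 := Nat.testBit_two_pow_mul_add y (show b < 2 ^ 6 from hb) i
  have e3 := Nat.testBit_two_pow_mul_add (x &&& y) hab i
  rw [Nat.testBit_and, show a + 64 * x = 2 ^ 6 * x + a by ring,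
    show b + 64 * y = 2 ^ 6 * y + b by ring,
    show (a &&& b) + 64 * (x &&& y) = 2 ^ 6 * (x &&& y) + (a &&& b) by ring, e1, e2, e3]
  split
  · rw [Nat.testBit_and]
  · rw [Nat.testBit_and]

theorem guard_ok {f : Con → ℕ} {L : List Con} (h : ∀ q ∈ L, 32 ≤ f q ∧ f q < 64) :
    Nat.beq (Nat.land (enc f L) (enc (fun _ => 32) L)) (enc (fun _ => 32) L) = true := by
  rw [Nat.beq_eq]
  induction L with
  | nil =>
    change Nat.land 0 0 = 0
    decide
  | cons q t ih =>
    have h1 := ih (fun q' hq' => h q' (by simp [hq']))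
    have h2 := h q (by simp)
    simp only [enc]
    change (f q + 64 * enc f t) &&& (32 + 64 * enc (fun _ => 32) t) = _
    rw [land_block h2.2 (by norm_num), land_32 h2.1 h2.2]
    congr 1
    congr 1

/-- number of points with a code below `c` counted by the constraint `q` -/
def part (M : ℕ → ℕ) (c : ℕ) (q : Con) : ℕ :=
  ∑ d ∈ Finset.range c, if q.1.testBit d then M d else 0

theorem part_succ (M : ℕ → ℕ) (c : ℕ) (q : Con) :
    part M (c + 1) q = part M c q + M c * bitW c q := by
  unfold part bitW
  rw [Finset.sum_range_succ]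
  split <;> simp

theorem part_mono (M : ℕ → ℕ) {c d : ℕ} (h : c ≤ d) (q : Con) : part M c q ≤ part M d q := by
  unfold part
  exact Finset.sum_le_sum_of_subset (Finset.range_mono h)

theorem part_eq_of_shift (M : ℕ → ℕ) {c d : ℕ} (h : c ≤ d) (q : Con) (hq : q.1 >>> c = 0) :
    part M c q = part M d q := by
  unfold part
  refine Finset.sum_subset (Finset.range_mono h) ?_
  intro x _ hx
  rw [Finset.mem_range, not_lt] at hx
  rw [if_neg]
  rw [Bool.not_eq_true]
  have h1 : q.1.testBit (c + (x - c)) = (q.1 >>> c).testBit (x - c) := by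
    rw [Nat.testBit_shiftRight]
  rw [Nat.add_sub_cancel' hx] at h1
  rw [h1, hq, Nat.zero_testBit]

theorem enc_sub {f g : Con → ℕ} {L : List Con} (h : ∀ q ∈ L, f q ≤ g q) :
    enc g L - enc f L = enc (fun q => g q - f q) L := by
  have h1 : enc f L + enc (fun q => g q - f q) L = enc g L := by
    rw [enc_add]
    apply enc_congr
    intro q hq
    have := h q hq
    omega
  omega

theorem loop_succ (HG G : ℕ) (rec : ℕ → List ℕ → Bool) (w gl F n s : ℕ) (acc : List ℕ) :
    loop HG G rec w gl (F + 1) n s acc = cond (Nat.beq (Nat.land (Nat.sub HG s) G) G)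
      (and (cond (Nat.beq (Nat.land (Nat.add s gl) G) G) (rec s (n :: acc)) true)
        (loop HG G rec w gl F (n + 1) (s + w) acc)) true := by
  have : loop HG G rec w gl (F + 1) n s acc = cond (Nat.beq (Nat.land (Nat.sub HG s) G) G)
      (and (cond (Nat.beq (Nat.land (Nat.add s gl) G) G) (rec s (n :: acc)) true)
        (frc (Nat.add s w) fun s' => frc (Nat.succ n) fun n' =>
          loop HG G rec w gl F n' s' acc)) true := rfl
  rw [this, frc_eq, frc_eq]
  rfl

theorem loop_sound {L : List Con} {M : ℕ → ℕ} {K c : ℕ} (hcK : c < K)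
    (hT : ∀ q ∈ L, q.2.1 ≤ part M K q ∧ part M K q ≤ q.2.2)
    (hL : ∀ q ∈ L, q.2.1 ≤ 32 ∧ q.2.2 < 32)
    (rec : ℕ → List ℕ → Bool) :
    ∀ (k i F : ℕ) (s : ℕ) (acc : List ℕ), i + k = M c → k < F →
      s = enc (fun q => part M c q + i * bitW c q) L →
      loop (enc (fun q => q.2.2 + 32) L) (enc (fun _ => 32) L) rec (enc (bitW c) L)
        (enc (low c) L) F i s acc = true →
      rec (enc (part M (c + 1)) L) (M c :: acc) = true := by
  have hle : ∀ i ≤ M c, ∀ q ∈ L, part M c q + i * bitW c q ≤ part M K q := by
    intro i hi q _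
    refine le_trans ?_ (part_mono M (show c + 1 ≤ K from hcK) q)
    rw [part_succ]
    exact Nat.add_le_add_left (Nat.mul_le_mul_right _ hi) _
  have hup : ∀ i ≤ M c, Nat.beq (Nat.land (Nat.sub (enc (fun q => q.2.2 + 32) L)
      (enc (fun q => part M c q + i * bitW c q) L)) (enc (fun _ => 32) L))
      (enc (fun _ => 32) L) = true := by
    intro i hi
    have e : Nat.sub (enc (fun q => q.2.2 + 32) L)
      (enc (fun q => part M c q + i * bitW c q) L) =
      enc (fun q => q.2.2 + 32 - (part M c q + i * bitW c q)) L := by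
      apply enc_sub
      intro q hq
      have h1 := hle i hi q hq
      have h2 := hT q hq
      omega
    rw [e]
    apply guard_ok
    intro q hq
    have h1 := hle i hi q hq
    have h2 := hT q hq
    have h3 := hL q hq
    omega
  intro k
  induction k with
  | zero =>
    intro i F s acc hik hF hs h
    have hi : i = M c := by omega
    obtain ⟨F', rfl⟩ : ∃ F', F = F' + 1 := ⟨F - 1, by omega⟩
    rw [loop_succ, hs, hup i (by omega), cond_true, Bool.and_eq_true] at h
    have e2 : Nat.add (enc (fun q => part M c q + i * bitW c q) L) (enc (low c) L) =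
        enc (fun q => part M c q + i * bitW c q + low c q) L := enc_add _ _ _
    have hlo : Nat.beq (Nat.land (enc (fun q => part M c q + i * bitW c q + low c q) L)
        (enc (fun _ => 32) L)) (enc (fun _ => 32) L) = true := by
      apply guard_ok
      intro q hq
      have h1 := hle i (by omega) q hq
      have h2 := hT q hq
      have h3 := hL q hq
      unfold low
      by_cases hq0 : q.1 >>> (c + 1) = 0
      · rw [if_pos hq0]
        have h4 := part_eq_of_shift M (show c + 1 ≤ K from hcK) q hq0
        rw [part_succ, ← hi] at h4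
        omega
      · rw [if_neg hq0]
        omega
    rw [e2, hlo, cond_true] at h
    have h1 := h.1
    have e : enc (part M (c + 1)) L = enc (fun q => part M c q + i * bitW c q) L := by
      apply enc_congr
      intro q _
      rw [part_succ, hi]
    rw [e, ← hi]
    exact h1
  | succ k ih =>
    intro i F s acc hik hF hs h
    obtain ⟨F', rfl⟩ : ∃ F', F = F' + 1 := ⟨F - 1, by omega⟩
    rw [loop_succ, hs, hup i (by omega), cond_true, Bool.and_eq_true] at h
    have h1 := h.2
    rw [enc_add] at h1
    refine ih (i + 1) F' _ acc (by omega) (by omega) ?_ h1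
    apply enc_congr
    intro q _
    ring

/-- the list produced by the true counts -/
def fin (M : ℕ → ℕ) : ℕ → ℕ → List ℕ → List ℕ
  | 0, _, acc => acc
  | n + 1, c, acc => fin M n (c + 1) (M c :: acc)

theorem dfs_sound {L : List Con} {M : ℕ → ℕ} {K : ℕ} (hM : ∀ c, M c ≤ 17)
    (hT : ∀ q ∈ L, q.2.1 ≤ part M K q ∧ part M K q ≤ q.2.2)
    (hL : ∀ q ∈ L, q.2.1 ≤ 32 ∧ q.2.2 < 32) (lf : List ℕ → Bool) :
    ∀ (n c : ℕ) (acc : List ℕ), c + n = K →
      dfs (enc (fun q => q.2.2 + 32) L) (enc (fun _ => 32) L) lf (mkDs L c n)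
        (enc (part M c) L) acc = true → lf (fin M n c acc) = true := by
  intro n
  induction n with
  | zero =>
    intro c acc _ h
    exact h
  | succ n ih =>
    intro c acc hcn h
    have h1 := loop_sound (c := c) (by omega) hT hL _ (M c) 0 18 (enc (part M c) L) acc
      (by omega) (by have := hM c; omega) (by
        apply enc_congr
        intro q _
        simp) h
    exact ih (c + 1) _ (by omega) h1

theorem dot_eq (N : List ℕ) : ∀ (P : List ℕ) (s : ℕ) (K : ℕ → Bool),
    dot N P s K = K (s + (List.zipWith (· * ·) N P).sum) := by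
  induction N with
  | nil => intro P s K; simp [dot]
  | cons a t ih =>
    intro P s K
    cases P with
    | nil => simp [dot]
    | cons b P =>
      have : dot (a :: t) (b :: P) s K = frc (Nat.add s (Nat.mul a b)) fun s' => dot t P s' K := rfl
      rw [this, frc_eq, ih]
      rw [List.zipWith_cons_cons, List.sum_cons]
      congr 1
      change s + a * b + _ = _
      omega

theorem fin_eq (M : ℕ → ℕ) : ∀ (n c : ℕ) (acc : List ℕ),
    fin M n c acc = ((List.range' c n).map M).reverse ++ acc := by
  intro n
  induction n with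
  | zero => intro c acc; rfl
  | succ n ih =>
    intro c acc
    unfold fin
    rw [ih, List.range'_succ, List.map_cons, List.reverse_cons, List.append_assoc]
    rfl

theorem digits_unique : ∀ (n : ℕ) (f g : ℕ → ℕ), (∀ i, f i < 32) → (∀ i, g i < 32) →
    ∑ i ∈ Finset.range n, f i * 32 ^ i = ∑ i ∈ Finset.range n, g i * 32 ^ i →
    ∀ i < n, f i = g i := by
  intro n
  induction n with
  | zero => intro f g _ _ _ i hi; omega
  | succ n ih =>
    intro f g hf hg h i hi
    rw [Finset.sum_range_succ', Finset.sum_range_succ'] at h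
    simp only [pow_zero, mul_one] at h
    have e : ∀ f : ℕ → ℕ, ∑ k ∈ Finset.range n, f (k + 1) * 32 ^ (k + 1) =
        32 * ∑ k ∈ Finset.range n, f (k + 1) * 32 ^ k := by
      intro f
      rw [Finset.mul_sum]
      apply Finset.sum_congr rfl
      intro k _
      ring
    rw [e f, e g] at h
    have h0 := hf 0
    have h1 := hg 0
    cases i with
    | zero => omega
    | succ i =>
      exact ih (fun k => f (k + 1)) (fun k => g (k + 1)) (fun k => hf _) (fun k => hg _)
        (by omega) i (by omega)

theorem sum_pow_eq (A : Multiset ℕ) (n : ℕ) (h : ∀ x ∈ A, x < n) :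
    (A.map fun x => 32 ^ x).sum = ∑ i ∈ Finset.range n, A.count i * 32 ^ i := by
  induction A using Multiset.induction_on with
  | empty => simp
  | cons a A ih =>
    rw [Multiset.map_cons, Multiset.sum_cons, ih (fun x hx => h x (Multiset.mem_cons_of_mem hx))]
    have e : ∀ i, (a ::ₘ A).count i * 32 ^ i = A.count i * 32 ^ i + (if i = a then 32 ^ i else 0) := by
      intro i
      by_cases hi : i = a
      · subst hi
        rw [Multiset.count_cons_self, if_pos rfl]
        ring
      · rw [Multiset.count_cons_of_ne hi, if_neg hi, Nat.add_zero]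
    rw [Finset.sum_congr rfl (fun i _ => e i), Finset.sum_add_distrib, Finset.sum_ite_eq',
      if_pos (Finset.mem_range.2 (h a (Multiset.mem_cons_self a A)))]
    ring

theorem eq_of_pack {A B : Multiset ℕ} (hA : A.card < 32) (hB : B.card < 32)
    (h : (A.map fun x => 32 ^ x).sum = (B.map fun x => 32 ^ x).sum) : A = B := by
  obtain ⟨n, hn⟩ : ∃ n, (∀ x ∈ A, x < n) ∧ ∀ x ∈ B, x < n := by
    refine ⟨A.sum + B.sum + 1, fun x hx => ?_, fun x hx => ?_⟩
    · have := Multiset.single_le_sum (fun y _ => Nat.zero_le y) x hx
      omega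
    · have := Multiset.single_le_sum (fun y _ => Nat.zero_le y) x hx
      omega
  rw [sum_pow_eq A n hn.1, sum_pow_eq B n hn.2] at h
  ext i
  by_cases hi : i < n
  · exact digits_unique n (fun i => A.count i) (fun i => B.count i)
      (fun i => lt_of_le_of_lt (Multiset.count_le_card _ _) hA)
      (fun i => lt_of_le_of_lt (Multiset.count_le_card _ _) hB) h i hi
  · rw [Multiset.count_eq_zero.2 (fun hx => hi (hn.1 _ hx)),
      Multiset.count_eq_zero.2 (fun hx => hi (hn.2 _ hx))]

/-- **Placement theorem.** -/
theorem Spec.sound (S : Spec) (h : S.check = true) {V : Type*} [Fintype V]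
    (hV : Fintype.card V = 17) (code : V → ℕ) (hK : ∀ u, code u < S.K)
    (hc : ∀ q ∈ S.cons, q.2.1 ≤ (Finset.univ.filter fun u => q.1.testBit (code u) = true).card ∧
      (Finset.univ.filter fun u => q.1.testBit (code u) = true).card ≤ q.2.2) :
    ∃ τ ∈ S.maps, ∃ p ∈ S.places,
      Multiset.map (fun u => app τ (code u)) Finset.univ.val = (p : Multiset ℕ) := by
  classical
  unfold Spec.check at h
  simp only [Bool.and_eq_true, decide_eq_true_iff] at h
  obtain ⟨⟨⟨⟨⟨⟨⟨⟨hd, hHG⟩, hG⟩, hL⟩, hτl⟩, hpl⟩, hmP⟩, hpP⟩, hdfs⟩ := h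
  set M : ℕ → ℕ := fun c => (Finset.univ.filter fun u => code u = c).card with hMdef
  have hM : ∀ c, M c ≤ 17 := by
    intro c
    rw [← hV]
    exact Finset.card_le_univ _
  have hpart : ∀ q : Con, part M S.K q =
      (Finset.univ.filter fun u => q.1.testBit (code u) = true).card := by
    intro q
    unfold part
    rw [Finset.card_eq_sum_card_fiberwise (f := code) (t := Finset.range S.K)
      (s := Finset.univ.filter fun u => q.1.testBit (code u) = true)
      (fun u _ => by simpa using hK u)]
    apply Finset.sum_congr rfl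
    intro d _
    rw [Finset.filter_filter]
    by_cases hb : q.1.testBit d = true
    · rw [if_pos hb]
      change (Finset.univ.filter fun u => code u = d).card = _
      congr 1
      apply Finset.filter_congr
      intro u _
      constructor
      · intro hu; exact ⟨by rw [hu]; exact hb, hu⟩
      · intro hu; exact hu.2
    · rw [if_neg hb]
      symm
      rw [Finset.card_eq_zero, Finset.filter_eq_empty_iff]
      rintro u _ ⟨h1, h2⟩
      rw [h2] at h1
      exact hb h1
  have hT : ∀ q ∈ S.cons, q.2.1 ≤ part M S.K q ∧ part M S.K q ≤ q.2.2 := by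
    intro q hq
    rw [hpart]
    exact hc q hq
  rw [hd, hHG, hG] at hdfs
  have h0 : enc (part M 0) S.cons = 0 := by
    have : ∀ L : List Con, enc (part M 0) L = 0 := by
      intro L
      induction L with
      | nil => rfl
      | cons q t ih => simp only [enc]; rw [ih]; simp [part]
    exact this _
  have h1 := dfs_sound hM hT hL _ S.K 0 [] (by omega) (by rw [h0]; exact hdfs)
  unfold leaf at h1
  rw [anyL_iff] at h1
  obtain ⟨P, hP, h1⟩ := h1
  rw [dot_eq, anyL_iff] at h1
  obtain ⟨pp, hpp, h1⟩ := h1
  rw [Nat.beq_eq, fin_eq, List.append_nil, Nat.zero_add] at h1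
  rw [hmP, List.mem_map] at hP
  obtain ⟨τ, hτ, rfl⟩ := hP
  rw [hpP, List.mem_map] at hpp
  obtain ⟨p, hp, rfl⟩ := hpp
  refine ⟨τ, hτ, p, hp, ?_⟩
  have hlen := hτl τ hτ
  apply eq_of_pack
  · rw [Multiset.card_map, Finset.card_val, Finset.card_univ, hV]; norm_num
  · rw [Multiset.coe_card]
    exact hpl p hp
  rw [Multiset.map_map]
  have e1 : ((p : Multiset ℕ).map fun x => 32 ^ x).sum = pack p := by
    rw [Multiset.map_coe, Multiset.sum_coe]
    rfl
  rw [e1, ← h1]
  have e2 : (List.zipWith (· * ·) ((List.range' 0 S.K).map M).reverse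
      (τ.map fun x => 32 ^ x).reverse).sum = ∑ c ∈ Finset.range S.K, M c * 32 ^ app τ c := by
    rw [← List.reverse_zipWith (by simp [hlen]), List.sum_reverse]
    have e3 : List.zipWith (· * ·) ((List.range' 0 S.K).map M) (τ.map fun x => 32 ^ x) =
        (List.range S.K).map fun c => M c * 32 ^ app τ c := by
      apply List.ext_getElem
      · simp [hlen]
      · intro i h2 h3
        simp only [List.length_zipWith, List.length_map, List.length_range', hlen, min_self] at h2
        simp only [List.getElem_zipWith, List.getElem_map, List.getElem_range', List.getElem_range,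
          Nat.one_mul, Nat.zero_add]
        unfold app
        rw [List.getD_eq_getElem _ _ (by omega)]
    rw [e3]
    rw [← List.sum_toFinset _ (List.nodup_range), List.toFinset_range]
  rw [e2]
  change ∑ u : V, 32 ^ app τ (code u) = _
  rw [← Finset.sum_fiberwise_of_maps_to (s := (Finset.univ : Finset V)) (t := Finset.range S.K)
    (g := code) (fun u _ => Finset.mem_range.2 (hK u))]
  apply Finset.sum_congr rfl
  intro c _
  rw [Finset.sum_congr rfl (g := fun _ => 32 ^ app τ c) (fun u hu => by
    rw [(Finset.mem_filter.1 hu).2])]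
  rw [Finset.sum_const, smul_eq_mul]

/-- two monotone enumerations of the same multiset agree -/
theorem mono_eq {f g : Fin 17 → ℕ} (hf : Monotone f) (hg : Monotone g)
    (h : Multiset.map f Finset.univ.val = Multiset.map g Finset.univ.val) : f = g := by
  have h1 : (List.ofFn f).Perm (List.ofFn g) := by
    rw [← Multiset.coe_eq_coe, List.ofFn_eq_map, List.ofFn_eq_map]
    rw [Fin.univ_val_map, Fin.univ_val_map, List.ofFn_eq_map, List.ofFn_eq_map] at h
    exact h
  have h2 : List.ofFn f = List.ofFn g := by
    refine List.Perm.eq_of_pairwise (le := (· ≤ ·)) ?_ ?_ ?_ h1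
    · intro a b _ _ hab hba
      exact le_antisymm hab hba
    · rw [List.pairwise_ofFn]
      intro i j hij
      exact hf hij.le
    · rw [List.pairwise_ofFn]
      intro i j hij
      exact hg hij.le
  exact List.ofFn_injective h2

/-- points can be ordered by a key -/
theorem exists_sorted {V : Type*} [Fintype V] (hV : Fintype.card V = 17) (key : V → ℕ) :
    ∃ σ : Fin 17 ≃ V, Monotone fun j => key (σ j) := by
  classical
  let e : Fin 17 ≃ V := (Fintype.equivFinOfCardEq hV).symm
  refine ⟨(Tuple.sort (fun j => key (e j))).trans e, ?_⟩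
  exact Tuple.monotone_sort (fun j => key (e j))

/-- the points can be ordered such that the codes are the given list and, inside a code class, a
secondary key is non-decreasing -/
theorem exists_order {V : Type*} [Fintype V] (hV : Fintype.card V = 17) {f g : V → ℕ} {N : ℕ}
    (hg : ∀ u, g u < N) {p : List ℕ} (hlen : p.length = 17)
    (hf : Multiset.map f Finset.univ.val = (p : Multiset ℕ)) :
    ∃ σ : Fin 17 ≃ V, (∀ j : Fin 17, f (σ j) = p.getD j 0) ∧
      ∀ i j : Fin 17, i ≤ j → p.getD i 0 = p.getD j 0 → g (σ i) ≤ g (σ j) := by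
  classical
  obtain ⟨σ, hσ⟩ := exists_sorted hV (fun u => f u * N + g u)
  obtain ⟨ρ, hρ⟩ := exists_sorted (V := Fin 17) (by simp) (fun j => p.getD j 0 * 17 + j)
  have hσf : Monotone fun j => f (σ j) := by
    intro i j hij
    have h1 := hσ hij
    simp only at h1 ⊢
    by_contra hcon
    push Not at hcon
    have h2 := hg (σ j)
    have h3 : f (σ j) * N + N ≤ f (σ i) * N := by
      calc f (σ j) * N + N = (f (σ j) + 1) * N := by ring
        _ ≤ f (σ i) * N := Nat.mul_le_mul_right _ hcon
    omega
  have hρf : Monotone fun j => p.getD (ρ j : Fin 17) 0 := by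
    intro i j hij
    have h1 := hρ hij
    simp only at h1 ⊢
    have h2 := (ρ i).isLt
    have h3 := (ρ j).isLt
    omega
  have huniv : ∀ (τ : Fin 17 ≃ V) (f : V → ℕ), Multiset.map (fun j => f (τ j)) Finset.univ.val =
      Multiset.map f Finset.univ.val := by
    intro τ f
    have : (Finset.univ : Finset V).val = Multiset.map τ (Finset.univ : Finset (Fin 17)).val := by
      rw [← Finset.map_univ_equiv τ, Finset.map_val]
      rfl
    rw [this, Multiset.map_map]
    rfl
  have hpm : Multiset.map (fun j : Fin 17 => p.getD j 0) Finset.univ.val = (p : Multiset ℕ) := by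
    rw [Fin.univ_val_map]
    congr 1
    apply List.ext_getElem
    · simp [hlen]
    · intro i h1 h2
      rw [List.getElem_ofFn, List.getD_eq_getElem _ _ h2]
  have hfg : (fun j => f (σ j)) = fun j => p.getD (ρ j : Fin 17) 0 := by
    apply mono_eq hσf hρf
    rw [huniv, hf, ← hpm]
    symm
    have : (Finset.univ : Finset (Fin 17)).val =
        Multiset.map ρ (Finset.univ : Finset (Fin 17)).val := by
      conv_lhs => rw [← Finset.map_univ_equiv ρ, Finset.map_val]
      rfl
    conv_rhs => rw [this, Multiset.map_map]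
    rfl
  have hfg' : ∀ j, f (σ j) = p.getD (ρ j : Fin 17) 0 := fun j => congrFun hfg j
  refine ⟨ρ.symm.trans σ, ?_, ?_⟩
  · intro j
    change f (σ (ρ.symm j)) = _
    rw [hfg', Equiv.apply_symm_apply]
  · intro i j hij hp
    change g (σ (ρ.symm i)) ≤ g (σ (ρ.symm j))
    have h1 : ρ.symm i ≤ ρ.symm j := by
      by_contra hcon
      push Not at hcon
      have h2 := hρ hcon.le
      simp only [Equiv.apply_symm_apply] at h2
      rw [hp] at h2
      have h3 : i = j := le_antisymm hij (by
        rw [Fin.le_def]
        omega)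
      rw [h3] at hcon
      exact lt_irrefl _ hcon
    have h2 := hσ h1
    simp only at h2
    have h3 : f (σ (ρ.symm i)) = f (σ (ρ.symm j)) := by
      rw [hfg', hfg', Equiv.apply_symm_apply, Equiv.apply_symm_apply, hp]
    rw [h3] at h2
    omega

end Pool.Agent.Work.MP_92a29d_co.Place
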