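import Pool.Agent.Work.MP_92a29d_co_h36.BNb
import Pool.Agent.Work.MP_92a29d_co_h36.Place

/-!
The normal form: the ball of an edge.
-/

namespace Pool.Agent.Work.MP_92a29d_co.Ball

open SimpleGraph Finset

section order

variable {V : Type*}

/-- the relation in positions -/
def gOf (A : V → V → Prop) (σ : Fin 17 ≃ V) (i j : ℕ) : Prop :=
  ∃ (hi : i < 17) (hj : j < 17), A (σ ⟨i, hi⟩) (σ ⟨j, hj⟩)

theorem key_congr {g g' : ℕ → ℕ → Prop} {u u' : ℕ} : ∀ {rs : List ℕ},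
    (∀ r ∈ rs, g u r ↔ g' u' r) → key g u rs = key g' u' rs
  | [], _ => rfl
  | r :: rs, h => by
    classical
    rw [key, key, key_congr fun x hx => h x (List.mem_cons_of_mem _ hx)]
    congr 1
    have := h r (List.mem_cons_self ..)
    by_cases h1 : g u r
    · rw [if_pos h1, if_pos (this.1 h1)]
    · rw [if_neg h1, if_neg (fun h2 => h1 (this.2 h2))]

theorem refs_gt {lab : List ℕ} {u r : ℕ} (h : r ∈ refs lab u) : lb lab u < lb lab r := by
  unfold refs at h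
  have h1 := List.mem_of_mem_take h
  rw [List.mem_filter, List.mem_range] at h1
  have h2 := h1.2
  split at h2
  all_goals simp_all

theorem refs_congr {lab : List ℕ} {u w : ℕ} (h : lb lab u = lb lab w) :
    refs lab u = refs lab w := by
  unfold refs
  rw [h]

/-- among all enumerations with the given labels there is one which is sorted by the keys -/
theorem exists_ordered (lab : V → ℕ) (L : List ℕ) (A : V → V → Prop)
    (hmono : ∀ i j, i ≤ j → j < 17 → lb L i ≤ lb L j)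
    (hex : ∃ σ : Fin 17 ≃ V, ∀ j : Fin 17, lab (σ j) = lb L j) :
    ∃ σ : Fin 17 ≃ V, (∀ j : Fin 17, lab (σ j) = lb L j) ∧ ∀ u, u + 1 < 17 →
      lb L u = lb L (u + 1) →
      key (gOf A σ) (u + 1) (refs L u) ≤ key (gOf A σ) u (refs L u) := by
  classical
  let S := {σ : Fin 17 ≃ V // ∀ j : Fin 17, lab (σ j) = lb L j}
  have hne : Nonempty S := by
    obtain ⟨σ, hσ⟩ := hex
    exact ⟨⟨σ, hσ⟩⟩
  let W : S → Lex (Fin 17 → ℕ) := fun σ =>
    toLex fun i => key (gOf A σ.1) (16 - i.val) (refs L (16 - i.val))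
  obtain ⟨σ, hσ⟩ := Finite.exists_min W
  refine ⟨σ.1, σ.2, ?_⟩
  intro u hu hl
  by_contra hcon
  push Not at hcon
  set p : Fin 17 := ⟨u, by omega⟩ with hp
  set q : Fin 17 := ⟨u + 1, hu⟩ with hq
  have hτ : ∀ j : Fin 17, lab (((Equiv.swap p q).trans σ.1) j) = lb L j := by
    intro j
    rw [Equiv.trans_apply, σ.2]
    by_cases h1 : j = p
    · rw [h1, Equiv.swap_apply_left]
      exact hl.symm
    · by_cases h2 : j = q
      · rw [h2, Equiv.swap_apply_right]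
        exact hl
      · rw [Equiv.swap_apply_of_ne_of_ne h1 h2]
  let τ : S := ⟨(Equiv.swap p q).trans σ.1, hτ⟩
  have hle := hσ τ
  have hlt : W τ < W σ := by
    refine ⟨⟨16 - (u + 1), by omega⟩, ?_, ?_⟩
    · intro j hj
      have hj' : j.val < 16 - (u + 1) := hj
      change key (gOf A τ.1) (16 - j.val) (refs L (16 - j.val)) =
        key (gOf A σ.1) (16 - j.val) (refs L (16 - j.val))
      refine key_congr fun r hr => ?_
      have h1 := refs_gt hr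
      have h2 := (refs_spec hr).1
      have h3 := hmono (u + 1) (16 - j.val) (by omega) (by omega)
      have hr1 : r ≠ u := by
        rintro rfl
        omega
      have hr2 : r ≠ u + 1 := by
        rintro rfl
        omega
      unfold gOf
      constructor
      · rintro ⟨h4, h5, h6⟩
        refine ⟨h4, h5, ?_⟩
        change A (σ.1 (Equiv.swap p q ⟨16 - j.val, h4⟩)) (σ.1 (Equiv.swap p q ⟨r, h5⟩)) at h6
        rw [Equiv.swap_apply_of_ne_of_ne, Equiv.swap_apply_of_ne_of_ne] at h6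
        · exact h6
        · rw [hp, Ne, Fin.mk.injEq]; exact hr1
        · rw [hq, Ne, Fin.mk.injEq]; exact hr2
        · rw [hp, Ne, Fin.mk.injEq]; omega
        · rw [hq, Ne, Fin.mk.injEq]; omega
      · rintro ⟨h4, h5, h6⟩
        refine ⟨h4, h5, ?_⟩
        change A (σ.1 (Equiv.swap p q ⟨16 - j.val, h4⟩)) (σ.1 (Equiv.swap p q ⟨r, h5⟩))
        rw [Equiv.swap_apply_of_ne_of_ne, Equiv.swap_apply_of_ne_of_ne]
        · exact h6
        · rw [hp, Ne, Fin.mk.injEq]; exact hr1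
        · rw [hq, Ne, Fin.mk.injEq]; exact hr2
        · rw [hp, Ne, Fin.mk.injEq]; omega
        · rw [hq, Ne, Fin.mk.injEq]; omega
    · change key (gOf A τ.1) (16 - (16 - (u + 1))) (refs L (16 - (16 - (u + 1)))) <
        key (gOf A σ.1) (16 - (16 - (u + 1))) (refs L (16 - (16 - (u + 1))))
      have e : 16 - (16 - (u + 1)) = u + 1 := by omega
      rw [e, ← refs_congr hl]
      refine lt_of_le_of_lt (le_of_eq ?_) hcon
      refine key_congr fun r hr => ?_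
      have h1 := refs_gt hr
      have hr1 : r ≠ u := by
        rintro rfl
        omega
      have hr2 : r ≠ u + 1 := by
        rintro rfl
        omega
      unfold gOf
      constructor
      · rintro ⟨h4, h5, h6⟩
        refine ⟨by omega, h5, ?_⟩
        change A (σ.1 (Equiv.swap p q q)) (σ.1 (Equiv.swap p q ⟨r, h5⟩)) at h6
        rw [Equiv.swap_apply_right, Equiv.swap_apply_of_ne_of_ne] at h6
        · exact h6
        · rw [hp, Ne, Fin.mk.injEq]; exact hr1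
        · rw [hq, Ne, Fin.mk.injEq]; exact hr2
      · rintro ⟨h4, h5, h6⟩
        refine ⟨hu, h5, ?_⟩
        change A (σ.1 (Equiv.swap p q q)) (σ.1 (Equiv.swap p q ⟨r, h5⟩))
        rw [Equiv.swap_apply_right, Equiv.swap_apply_of_ne_of_ne]
        · exact h6
        · rw [hp, Ne, Fin.mk.injEq]; exact hr1
        · rw [hq, Ne, Fin.mk.injEq]; exact hr2
  exact absurd hle (not_le.2 hlt)

end order

section ball

variable {V : Type*} {G : SimpleGraph V}

open Classical in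
/-- the labels -/
noncomputable def lbl (G : SimpleGraph V) (x y v : V) : ℕ :=
  if v = x then 0 else if v = y then 1 else if G.Adj x v then 2 else if G.Adj y v then 3 else
    if ∃ w, w ≠ y ∧ G.Adj x w ∧ G.Adj w v then 4 else
      if ∃ w, w ≠ x ∧ G.Adj y w ∧ G.Adj w v then 5 else 6

variable {x y : V}

theorem lbl_x : lbl G x y x = 0 := by
  unfold lbl
  rw [if_pos rfl]

theorem lbl_y (h : x ≠ y) : lbl G x y y = 1 := by
  unfold lbl
  rw [if_neg h.symm, if_pos rfl]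

theorem lbl_lt (v : V) : lbl G x y v < 7 := by
  unfold lbl
  split_ifs <;> norm_num

/-- what the labels mean -/
theorem lbl_spec (v : V) :
    (lbl G x y v = 0 → v = x) ∧ (lbl G x y v = 1 → v = y) ∧
    (lbl G x y v = 2 → v ≠ x ∧ v ≠ y ∧ G.Adj x v) ∧
    (lbl G x y v = 3 → v ≠ x ∧ v ≠ y ∧ ¬ G.Adj x v ∧ G.Adj y v) ∧
    (lbl G x y v = 4 → v ≠ x ∧ v ≠ y ∧ ¬ G.Adj x v ∧ ¬ G.Adj y v ∧
      ∃ w, w ≠ y ∧ G.Adj x w ∧ G.Adj w v) ∧
    (lbl G x y v = 5 → v ≠ x ∧ v ≠ y ∧ ¬ G.Adj x v ∧ ¬ G.Adj y v ∧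
      (¬ ∃ w, w ≠ y ∧ G.Adj x w ∧ G.Adj w v) ∧ ∃ w, w ≠ x ∧ G.Adj y w ∧ G.Adj w v) ∧
    (lbl G x y v = 6 → v ≠ x ∧ v ≠ y ∧ ¬ G.Adj x v ∧ ¬ G.Adj y v ∧
      (¬ ∃ w, w ≠ y ∧ G.Adj x w ∧ G.Adj w v) ∧ ¬ ∃ w, w ≠ x ∧ G.Adj y w ∧ G.Adj w v) := by
  unfold lbl
  by_cases h1 : v = x
  · rw [if_pos h1]
    refine ⟨fun _ => h1, ?_, ?_, ?_, ?_, ?_, ?_⟩ <;> intro h <;> exact absurd h (by norm_num)
  rw [if_neg h1]
  by_cases h2 : v = y
  · rw [if_pos h2]
    refine ⟨?_, fun _ => h2, ?_, ?_, ?_, ?_, ?_⟩ <;> intro h <;> exact absurd h (by norm_num)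
  rw [if_neg h2]
  by_cases h3 : G.Adj x v
  · rw [if_pos h3]
    refine ⟨?_, ?_, fun _ => ⟨h1, h2, h3⟩, ?_, ?_, ?_, ?_⟩ <;> intro h <;>
      exact absurd h (by norm_num)
  rw [if_neg h3]
  by_cases h4 : G.Adj y v
  · rw [if_pos h4]
    refine ⟨?_, ?_, ?_, fun _ => ⟨h1, h2, h3, h4⟩, ?_, ?_, ?_⟩ <;> intro h <;>
      exact absurd h (by norm_num)
  rw [if_neg h4]
  by_cases h5 : ∃ w, w ≠ y ∧ G.Adj x w ∧ G.Adj w v
  · rw [if_pos h5]
    refine ⟨?_, ?_, ?_, ?_, fun _ => ⟨h1, h2, h3, h4, h5⟩, ?_, ?_⟩ <;> intro h <;>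
      exact absurd h (by norm_num)
  rw [if_neg h5]
  by_cases h6 : ∃ w, w ≠ x ∧ G.Adj y w ∧ G.Adj w v
  · rw [if_pos h6]
    refine ⟨?_, ?_, ?_, ?_, ?_, fun _ => ⟨h1, h2, h3, h4, h5, h6⟩, ?_⟩ <;> intro h <;>
      exact absurd h (by norm_num)
  rw [if_neg h6]
  refine ⟨?_, ?_, ?_, ?_, ?_, ?_, fun _ => ⟨h1, h2, h3, h4, h5, h6⟩⟩ <;> intro h <;>
    exact absurd h (by norm_num)

theorem lbl_two (v : V) (h1 : v ≠ x) (h2 : v ≠ y) (h3 : G.Adj x v) : lbl G x y v = 2 := by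
  unfold lbl
  rw [if_neg h1, if_neg h2, if_pos h3]

theorem lbl_three (v : V) (h1 : v ≠ x) (h2 : v ≠ y) (h3 : ¬ G.Adj x v) (h4 : G.Adj y v) :
    lbl G x y v = 3 := by
  unfold lbl
  rw [if_neg h1, if_neg h2, if_neg h3, if_pos h4]

/-- edges respect the labels -/
theorem lbl_adj (hG : Odd7 G) (hxy : G.Adj x y) {u v : V} (h : G.Adj u v) :
    lA (lbl G x y u) (lbl G x y v) = true := by
  have hu := lbl_lt (G := G) (x := x) (y := y) u
  have hv := lbl_lt (G := G) (x := x) (y := y) v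
  obtain ⟨u0, u1, u2, u3, u4, u5, u6⟩ := lbl_spec (G := G) (x := x) (y := y) u
  obtain ⟨v0, v1, v2, v3, v4, v5, v6⟩ := lbl_spec (G := G) (x := x) (y := y) v
  have hs := h.symm
  have hyx := hxy.symm
  generalize lbl G x y u = a at *
  generalize lbl G x y v = b at *
  rw [← Bool.not_eq_false]
  intro hf
  have k0 : ∀ b < 7, lA 0 b = false → b = 0 ∨ b = 3 ∨ b = 4 ∨ b = 5 ∨ b = 6 := by decide
  have k1 : ∀ b < 7, lA 1 b = false → b = 1 ∨ b = 2 ∨ b = 4 ∨ b = 5 ∨ b = 6 := by decide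
  have k2 : ∀ b < 7, lA 2 b = false → b = 1 ∨ b = 2 ∨ b = 5 ∨ b = 6 := by decide
  have k3 : ∀ b < 7, lA 3 b = false → b = 0 ∨ b = 3 ∨ b = 4 ∨ b = 6 := by decide
  have k4 : ∀ b < 7, lA 4 b = false → b = 0 ∨ b = 1 ∨ b = 3 ∨ b = 4 := by decide
  have k5 : ∀ b < 7, lA 5 b = false → b = 0 ∨ b = 1 ∨ b = 2 ∨ b = 5 := by decide
  have k6 : ∀ b < 7, lA 6 b = false → b = 0 ∨ b = 1 ∨ b = 2 ∨ b = 3 := by decide
  interval_cases a
  · have e := u0 rfl
    rw [e] at h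
    rcases k0 b hv hf with h1 | h1 | h1 | h1 | h1
    · rw [v0 h1] at h
      exact G.irrefl h
    · exact (v3 h1).2.2.1 h
    · exact (v4 h1).2.2.1 h
    · exact (v5 h1).2.2.1 h
    · exact (v6 h1).2.2.1 h
  · have e := u1 rfl
    rw [e] at h
    rcases k1 b hv hf with h1 | h1 | h1 | h1 | h1
    · rw [v1 h1] at h
      exact G.irrefl h
    · exact hG.three x y v hxy h (v2 h1).2.2.symm
    · exact (v4 h1).2.2.2.1 h
    · exact (v5 h1).2.2.2.1 h
    · exact (v6 h1).2.2.2.1 h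
  · obtain ⟨e1, e2, e3⟩ := u2 rfl
    rcases k2 b hv hf with h1 | h1 | h1 | h1
    · rw [v1 h1] at hs
      exact hG.three x y u hxy hs e3.symm
    · exact hG.three x u v e3 h (v2 h1).2.2.symm
    · exact (v5 h1).2.2.2.2.1 ⟨u, e2, e3, h⟩
    · exact (v6 h1).2.2.2.2.1 ⟨u, e2, e3, h⟩
  · obtain ⟨e1, e2, e3, e4⟩ := u3 rfl
    rcases k3 b hv hf with h1 | h1 | h1 | h1
    · rw [v0 h1] at hs
      exact e3 hs
    · exact hG.three y u v e4 h (v3 h1).2.2.2.symm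
    · obtain ⟨w, _, hw1, hw2⟩ := (v4 h1).2.2.2.2
      exact hG.five x w v u y hw1 hw2 hs e4.symm hyx
    · exact (v6 h1).2.2.2.2.2 ⟨u, e1, e4, h⟩
  · obtain ⟨e1, e2, e3, e4, w, hw0, hw1, hw2⟩ := u4 rfl
    rcases k4 b hv hf with h1 | h1 | h1 | h1
    · rw [v0 h1] at hs
      exact e3 hs
    · rw [v1 h1] at hs
      exact e4 hs
    · exact hG.five x w u v y hw1 hw2 h (v3 h1).2.2.2.symm hyx
    · obtain ⟨w', _, hw3, hw4⟩ := (v4 h1).2.2.2.2
      exact hG.five x w u v w' hw1 hw2 h hw4.symm hw3.symm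
  · obtain ⟨e1, e2, e3, e4, e5, w, hw0, hw1, hw2⟩ := u5 rfl
    rcases k5 b hv hf with h1 | h1 | h1 | h1
    · rw [v0 h1] at hs
      exact e3 hs
    · rw [v1 h1] at hs
      exact e4 hs
    · exact e5 ⟨v, (v2 h1).2.1, (v2 h1).2.2, hs⟩
    · obtain ⟨w', _, hw3, hw4⟩ := (v5 h1).2.2.2.2.2
      exact hG.five y w u v w' hw1 hw2 h hw4.symm hw3.symm
  · obtain ⟨e1, e2, e3, e4, e5, e6⟩ := u6 rfl
    rcases k6 b hv hf with h1 | h1 | h1 | h1
    · rw [v0 h1] at hs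
      exact e3 hs
    · rw [v1 h1] at hs
      exact e4 hs
    · exact e5 ⟨v, (v2 h1).2.1, (v2 h1).2.2, hs⟩
    · exact e6 ⟨v, (v3 h1).1, (v3 h1).2.2.2, hs⟩

/-- exchanging `x` and `y` exchanges the labels 4 and 5 -/
theorem lbl_swap (hG : Odd7 G) (hxy : G.Adj x y) (v : V) :
    lbl G x y v = 4 ↔ lbl G y x v = 5 := by
  have h1 := (lbl_spec (G := G) (x := x) (y := y) v).2.2.2.2.1
  have h2 := (lbl_spec (G := G) (x := y) (y := x) v).2.2.2.2.2.1
  constructor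
  · intro h
    obtain ⟨h3, h4, h5, h6, w, h7, h8, h9⟩ := h1 h
    unfold lbl
    rw [if_neg h4, if_neg h3, if_neg h6, if_neg h5, if_neg, if_pos ⟨w, h7, h8, h9⟩]
    rintro ⟨w', _, h10, h11⟩
    exact hG.five x w v w' y h8 h9 h11.symm h10.symm hxy.symm
  · intro h
    obtain ⟨h3, h4, h5, h6, h7, h8⟩ := h2 h
    unfold lbl
    rw [if_neg h4, if_neg h3, if_neg h6, if_neg h5, if_pos h8]

end ball

end Pool.Agent.Work.MP_92a29d_co.Ball
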