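import Pool.Agent.Work.MP_92a29d_co_h36.BRup

/-!
The model of the ball of an edge and its clauses.
-/

namespace Pool.Agent.Work.MP_92a29d_co.Ball

/-- the labels are `0 = x`, `1 = y`, `2` = the other neighbours of `x`, `3` = the other
neighbours of `y`, `4` = next to label `2`, `5` = next to label `3`, `6` = the rest.  This is the
list of the pairs of labels that can be adjacent. -/
def lA (a b : ℕ) : Bool :=
  Nat.beq (Nat.land (Nat.shiftRight 31622384550742278 (8 * a + b)) 1) 1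

/-- pairs of labels that are always adjacent -/
def lF (a b : ℕ) : Bool :=
  Nat.beq (Nat.land (Nat.shiftRight 33622278 (8 * a + b)) 1) 1

/-- adjacency in the targets: cycle of length `7`, otherwise the Moebius ladder with 12 vertices -/
def tA (t a b : ℕ) : Bool :=
  cond (Nat.beq t 7) (Nat.beq ((a + 1) % 7) (b % 7) || Nat.beq ((b + 1) % 7) (a % 7))
    (Nat.beq ((a + 1) % 12) (b % 12) || Nat.beq ((b + 1) % 12) (a % 12) ||
      Nat.beq ((a + 6) % 12) (b % 12))

/-- all pairs -/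
def pairs : List (ℕ × ℕ) := (List.range 17).flatMap fun v => (List.range v).map fun u => (u, v)

theorem mem_pairs {p : ℕ × ℕ} : p ∈ pairs ↔ p.1 < p.2 ∧ p.2 < 17 := by
  obtain ⟨u, v⟩ := p
  unfold pairs
  simp only [List.mem_flatMap, List.mem_range, List.mem_map, Prod.mk.injEq]
  constructor
  · rintro ⟨a, ha, b, hb, rfl, rfl⟩
    exact ⟨hb, ha⟩
  · rintro ⟨h1, h2⟩
    exact ⟨v, h2, u, h1, rfl, rfl⟩

/-- label of a vertex -/
def lb (lab : List ℕ) (u : ℕ) : ℕ := lab.getD u 0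

/-- the possible pairs -/
def plOf (lab : List ℕ) : List (ℕ × ℕ) := pairs.filter fun p => lA (lb lab p.1) (lb lab p.2)

/-- code of `uv` is an edge -/
def eC (u v : ℕ) : ℕ := cond (Nat.blt u v) (17 * v + u) (17 * u + v)

/-- code of `uv` are joined by a walk of length two -/
def wC (u v : ℕ) : ℕ := 289 + eC u v

/-- the negation of the code `c` is `KK - c` -/
def KK : ℕ := 2072

/-- reference vertices for the order -/
def refs (lab : List ℕ) (u : ℕ) : List ℕ :=
  ((List.range 17).filter fun v => match lb lab u with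
    | 2 => lb lab v == 4
    | 3 => lb lab v == 5
    | 4 => lb lab v == 6
    | 5 => lb lab v == 6
    | _ => false).take (cond (Nat.ble (lb lab u) 3) 3 2)

/-- code of `the block of level l that contains the index o has more than o % 2 ^ l edges` -/
def cC (pl : List (ℕ × ℕ)) (l o : ℕ) : ℕ :=
  match l with
  | 0 => match pl[o]? with
    | none => KK
    | some q => 17 * q.2 + q.1
  | l + 1 => 578 + 64 * (l + 1) + o

/-- the clauses -/
inductive Rule where
  | tri (u w v : ℕ)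
  | ew (u v : ℕ)
  | wwe (u x y : ℕ)
  | nb (v c : ℕ)
  | hom (t f : ℕ)
  | al (s : ℕ)
  | cnt (l lo i j : ℕ)
  | root
  | ord (u ku kw : ℕ)
  | nbr (u : ℕ)

/-- disjunction of edges -/
def orM (P : ℕ → ℕ → Bool) : List (ℕ × ℕ) → ℕ
  | [] => 0
  | q :: l => cond (P q.1 q.2) (Nat.lor (Nat.pow 2 (17 * q.2 + q.1)) (orM P l)) (orM P l)

/-- the key of `u` is not `k` -/
def dif (u : ℕ) : List ℕ → ℕ → ℕ
  | [], _ => 0
  | r :: rs, k => cond (Nat.ble (Nat.pow 2 rs.length) k)
      (Nat.lor (Nat.pow 2 (KK - eC u r)) (dif u rs (k - Nat.pow 2 rs.length)))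
      (Nat.lor (Nat.pow 2 (eC u r)) (dif u rs k))

/-- value of a packed map -/
def fv (f u : ℕ) : ℕ := Nat.land (Nat.shiftRight f (4 * u)) 15

/-- masks of the clauses -/
def mTri (u w v : ℕ) : ℕ :=
  cond (Nat.blt u 17 && Nat.blt w 17 && Nat.blt v 17 && !(Nat.beq u v) &&
        !(Nat.beq u w) && !(Nat.beq w v))
      (Nat.lor (Nat.pow 2 (KK - eC u w)) (Nat.lor (Nat.pow 2 (KK - eC w v)) (Nat.pow 2 (wC u v)))) 4096

def mEw (u v : ℕ) : ℕ :=
  cond (Nat.blt u 17 && Nat.blt v 17 && !(Nat.beq u v))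
      (Nat.lor (Nat.pow 2 (KK - eC u v)) (Nat.pow 2 (KK - wC u v))) 4096

def mWwe (u x y : ℕ) : ℕ :=
  cond (Nat.blt u 17 && Nat.blt x 17 && Nat.blt y 17 && !(Nat.beq x y))
      (Nat.lor (Nat.pow 2 (KK - wC u x)) (Nat.lor (Nat.pow 2 (KK - wC u y))
        (Nat.pow 2 (KK - eC x y)))) 4096

def mNb (pl : List (ℕ × ℕ)) (v c : ℕ) : ℕ :=
  orM (fun a b => !(Nat.beq a v) && !(Nat.beq b v) && (Nat.testBit c a == Nat.testBit c b)) pl

def mHom (pl : List (ℕ × ℕ)) (t f : ℕ) : ℕ :=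
  cond (Nat.beq t 7 || Nat.beq t 12) (orM (fun a b => !(tA t (fv f a) (fv f b))) pl) 4096

def mAl (pl : List (ℕ × ℕ)) (s : ℕ) : ℕ :=
  cond (Nat.ble 9 ((List.range 17).countP fun u => Nat.testBit s u))
      (orM (fun a b => Nat.testBit s a && Nat.testBit s b) pl) 4096

def mCnt (pl : List (ℕ × ℕ)) (l lo i j : ℕ) : ℕ :=
  cond (Nat.ble l 5 && Nat.beq (lo % 2 ^ (l + 1)) 0 && Nat.ble (lo + 2 ^ (l + 1)) 64 &&
          Nat.ble i (2 ^ l) && Nat.ble j (2 ^ l) && Nat.ble (i + j + 1) (2 ^ (l + 1)))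
        (Nat.lor (cond (Nat.blt i (2 ^ l)) (Nat.pow 2 (cC pl l (lo + i))) 0)
          (Nat.lor (cond (Nat.blt j (2 ^ l)) (Nat.pow 2 (cC pl l (lo + 2 ^ l + j))) 0)
            (Nat.pow 2 (KK - (578 + 64 * (l + 1) + (lo + (i + j))))))) 4096

def mOrd (lab : List ℕ) (u ku kw : ℕ) : ℕ :=
  cond (Nat.blt (u + 1) 17 && Nat.beq (lb lab u) (lb lab (u + 1)) &&
        Nat.ble 2 (lb lab u) && Nat.ble (lb lab u) 5 && Nat.blt ku kw &&
        Nat.blt kw (2 ^ (refs lab u).length))
      (Nat.lor (dif u (refs lab u) ku) (dif (u + 1) (refs lab u) kw)) 4096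

def mNbr (lab : List ℕ) (pl : List (ℕ × ℕ)) (u : ℕ) : ℕ :=
  cond (Nat.blt u 17 && (Nat.beq (lb lab u) 4 || Nat.beq (lb lab u) 5))
      (orM (fun a b => (Nat.beq b u && Nat.beq (lb lab a + 2) (lb lab u)) ||
        (Nat.beq a u && Nat.beq (lb lab b + 2) (lb lab u))) pl) 4096

/-- mask of a clause -/
def mask (lab : List ℕ) (pl : List (ℕ × ℕ)) : Rule → ℕ
  | .tri u w v => mTri u w v
  | .ew u v => mEw u v
  | .wwe u x y => mWwe u x y
  | .nb v c => mNb pl v c
  | .hom t f => mHom pl t f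
  | .al s => mAl pl s
  | .cnt l lo i j => mCnt pl l lo i j
  | .root => Nat.pow 2 (cC pl 6 38)
  | .ord u ku kw => mOrd lab u ku kw
  | .nbr u => mNbr lab pl u

/-- disjunction of codes -/
def orG (f : ℕ → ℕ) (P : ℕ → ℕ → Bool) : List (ℕ × ℕ) → ℕ
  | [] => 0
  | q :: l => cond (P q.1 q.2) (Nat.lor (Nat.pow 2 (f (17 * q.2 + q.1))) (orG f P l)) (orG f P l)

/-- the codes of counters beyond the number of possible pairs -/
def blk (n : ℕ) : ℕ → ℕ
  | 0 => 0
  | k + 1 => Nat.lor (Nat.shiftLeft (Nat.pow 2 (64 - n) - 1) (642 + 64 * k + n)) (blk n k)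

/-- force the evaluation of a number -/
def frn (n : ℕ) (f : ℕ → ℕ) : ℕ :=
  Nat.rec (motive := fun _ => ℕ) (f 0) (fun m _ => f (Nat.succ m)) n

theorem frn_eq (n : ℕ) (f : ℕ → ℕ) : frn n f = f n := by
  cases n <;> rfl

/-- codes that are false in every model -/
def badM (lab : List ℕ) (n : ℕ) : ℕ :=
  Nat.lor (orG (fun c => c) (fun a b => !(lA (lb lab a) (lb lab b))) pairs)
    (Nat.lor (orG (fun c => KK - c) (fun a b => lF (lb lab a) (lb lab b)) pairs)
      (Nat.lor (orG (fun c => KK - (289 + c)) (fun a b => (lF 0 (lb lab a) && lF 0 (lb lab b)) ||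
        (lF 1 (lb lab a) && lF 1 (lb lab b))) pairs)
        (blk n 6)))

/-- the literals that are not known to be false -/
def baseM (lab : List ℕ) (n : ℕ) : ℕ :=
  frn (badM lab n) fun b => Nat.xor (Nat.pow 2 KK - 1) (Nat.land (Nat.pow 2 KK - 1) b)

/-- the order key -/
noncomputable def key (g : ℕ → ℕ → Prop) (u : ℕ) : List ℕ → ℕ
  | [] => 0
  | r :: rs => (open Classical in if g u r then 2 ^ rs.length else 0) + key g u rs

/-- the model of a ball -/
structure Mod (lab : List ℕ) (g : ℕ → ℕ → Prop) : Prop where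
  symm : ∀ u v, g u v → g v u
  irr : ∀ u, ¬ g u u
  tri : ∀ a b c, g a b → g b c → g c a → False
  penta : ∀ a b c d e, g a b → g b c → g c d → g d e → g e a → False
  adj : ∀ u v, u < 17 → v < 17 → g u v → lA (lb lab u) (lb lab v) = true
  forced : ∀ u v, u < 17 → v < 17 → u ≠ v → lF (lb lab u) (lb lab v) = true → g u v
  zero : lb lab 0 = 0
  one : lb lab 1 = 1
  nbr : ∀ u, u < 17 → lb lab u = 4 ∨ lb lab u = 5 → ∃ v < 17, lb lab v + 2 = lb lab u ∧ g v u
  edges : 39 ≤ (pairs.countP fun p => open Classical in decide (g p.1 p.2))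
  nb : ∀ v (c : ℕ → Bool), ∃ a b, a < b ∧ b < 17 ∧ a ≠ v ∧ b ≠ v ∧ g a b ∧ c a = c b
  hom : ∀ t, t = 7 ∨ t = 12 → ∀ f : ℕ → ℕ, ∃ a b, a < b ∧ b < 17 ∧ g a b ∧ tA t (f a) (f b) = false
  al : ∀ p : ℕ → Bool, 9 ≤ (List.range 17).countP p →
    ∃ a b, a < b ∧ b < 17 ∧ g a b ∧ p a = true ∧ p b = true
  ord : ∀ u, u + 1 < 17 → lb lab u = lb lab (u + 1) → 2 ≤ lb lab u → lb lab u ≤ 5 →
    key g (u + 1) (refs lab u) ≤ key g u (refs lab u)


section sound

variable {lab : List ℕ} {g : ℕ → ℕ → Prop}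

/-- number of edges in a block of possible pairs -/
noncomputable def Cn (lab : List ℕ) (g : ℕ → ℕ → Prop) (lo len : ℕ) : ℕ :=
  (((plOf lab).drop lo).take len).countP fun p => open Classical in decide (g p.1 p.2)

/-- value of a variable -/
def Val (lab : List ℕ) (g : ℕ → ℕ → Prop) (c : ℕ) : Prop :=
  c = 12 ∨ (∃ u v, u < v ∧ v < 17 ∧ c = 17 * v + u ∧ g u v) ∨
    (∃ u v, u < v ∧ v < 17 ∧ c = 289 + (17 * v + u) ∧ ∃ w < 17, g u w ∧ g w v) ∨
    ∃ l o, 1 ≤ l ∧ l ≤ 6 ∧ o < 64 ∧ c = 578 + 64 * l + o ∧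
      o % 2 ^ l + 1 ≤ Cn lab g (o - o % 2 ^ l) (2 ^ l)

/-- value of a literal -/
def LT (lab : List ℕ) (g : ℕ → ℕ → Prop) (c : ℕ) : Prop :=
  (c < 1036 ∧ Val lab g c) ∨ (1036 < c ∧ c ≤ 2060 ∧ ¬ Val lab g (KK - c))

theorem val_low {c : ℕ} (h : Val lab g c) : 12 ≤ c := by
  rcases h with (h | ⟨p, q, h1, h2, h3, h4⟩ | ⟨p, q, h1, h2, h3, h4⟩ | ⟨l, o, h1, h2, h3, h4, h5⟩)
  all_goals omega

theorem lt_low {c : ℕ} (h : LT lab g c) : 12 ≤ c := by
  rcases h with h | h
  · exact val_low h.2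
  · omega

theorem lt_le {c : ℕ} (h : LT lab g c) : c ≤ 2060 := by
  rcases h with h | h
  · omega
  · exact h.2.1

theorem lt_neg {c : ℕ} (h : LT lab g c) : ¬ LT lab g (KK - c) := by
  intro h2
  have hc := lt_le h
  rcases h with ⟨h1, h3⟩ | ⟨h1, h3, h4⟩
  · rcases h2 with ⟨h5, h6⟩ | ⟨h5, h6, h7⟩
    · unfold KK at *
      omega
    · apply h7
      have : KK - (KK - c) = c := by unfold KK; omega
      rw [this]
      exact h3
  · rcases h2 with ⟨h5, h6⟩ | ⟨h5, h6, h7⟩
    · exact h4 h6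
    · unfold KK at *
      omega

theorem lt_true : LT lab g 12 := Or.inl ⟨by norm_num, Or.inl rfl⟩

theorem eC_spec {u v : ℕ} : ∃ a b, ((a = u ∧ b = v) ∨ (a = v ∧ b = u)) ∧ a ≤ b ∧
    eC u v = 17 * b + a := by
  unfold eC
  rcases h : Nat.blt u v with _ | _
  · refine ⟨v, u, Or.inr ⟨rfl, rfl⟩, ?_, rfl⟩
    by_contra hcon
    rw [blt_iff.2 (by omega)] at h
    exact Bool.noConfusion h
  · exact ⟨u, v, Or.inl ⟨rfl, rfl⟩, (blt_iff.1 h).le, rfl⟩

theorem val_e (hM : Mod lab g) {u v : ℕ} (hu : u < 17) (hv : v < 17) (hne : u ≠ v) :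
    Val lab g (eC u v) ↔ g u v := by
  obtain ⟨a, b, hab, hle, he⟩ := eC_spec (u := u) (v := v)
  have ha : a < 17 := by omega
  have hb : b < 17 := by omega
  have hg : g a b ↔ g u v := by
    rcases hab with ⟨rfl, rfl⟩ | ⟨rfl, rfl⟩
    · exact Iff.rfl
    · exact ⟨hM.symm _ _, hM.symm _ _⟩
  have hlt : a < b := by omega
  rw [← hg, he]
  constructor
  · rintro (h | ⟨p, q, h1, h2, h3, h4⟩ | ⟨p, q, h1, h2, h3, h4⟩ | ⟨l, o, h1, h2, h3, h4, h5⟩)
    · omega
    · have : p = a ∧ q = b := by omega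
      obtain ⟨rfl, rfl⟩ := this
      exact h4
    · omega
    · omega
  · intro h
    exact Or.inr (Or.inl ⟨a, b, hlt, hb, rfl, h⟩)

theorem val_w (hM : Mod lab g) {u v : ℕ} (hu : u < 17) (hv : v < 17) :
    Val lab g (wC u v) ↔ u ≠ v ∧ ∃ w < 17, g u w ∧ g w v := by
  obtain ⟨a, b, hab, hle, he⟩ := eC_spec (u := u) (v := v)
  have ha : a < 17 := by omega
  have hb : b < 17 := by omega
  unfold wC
  rw [he]
  constructor
  · rintro (h | ⟨p, q, h1, h2, h3, h4⟩ | ⟨p, q, h1, h2, h3, w, hw, h4, h5⟩ |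
      ⟨l, o, h1, h2, h3, h4, h5⟩)
    · omega
    · omega
    · have : p = a ∧ q = b := by omega
      obtain ⟨rfl, rfl⟩ := this
      rcases hab with ⟨rfl, rfl⟩ | ⟨rfl, rfl⟩
      · exact ⟨by omega, w, hw, h4, h5⟩
      · exact ⟨by omega, w, hw, hM.symm _ _ h5, hM.symm _ _ h4⟩
    · omega
  · rintro ⟨hne, w, hw, h1, h2⟩
    refine Or.inr (Or.inr (Or.inl ⟨a, b, by omega, hb, rfl, w, hw, ?_⟩))
    rcases hab with ⟨rfl, rfl⟩ | ⟨rfl, rfl⟩
    · exact ⟨h1, h2⟩
    · exact ⟨hM.symm _ _ h2, hM.symm _ _ h1⟩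

theorem eC_le {u v : ℕ} (hu : u < 17) (hv : v < 17) : eC u v ≤ 288 := by
  obtain ⟨a, b, hab, hle, he⟩ := eC_spec (u := u) (v := v)
  omega

theorem eC_ge {u v : ℕ} (hne : u ≠ v) : 17 ≤ eC u v := by
  obtain ⟨a, b, hab, hle, he⟩ := eC_spec (u := u) (v := v)
  have : a < b := by omega
  omega

/-- positive edge literal -/
theorem lt_e (hM : Mod lab g) {u v : ℕ} (hu : u < 17) (hv : v < 17) (hne : u ≠ v) :
    LT lab g (eC u v) ↔ g u v := by
  have h1 := eC_le hu hv
  rw [← val_e hM hu hv hne]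
  unfold LT
  constructor
  · rintro (⟨_, h⟩ | ⟨h2, _⟩)
    · exact h
    · omega
  · intro h
    exact Or.inl ⟨by omega, h⟩

theorem lt_ne (hM : Mod lab g) {u v : ℕ} (hu : u < 17) (hv : v < 17) (hne : u ≠ v) :
    LT lab g (KK - eC u v) ↔ ¬ g u v := by
  have h1 := eC_le hu hv
  have h2 := eC_ge hne
  rw [← val_e hM hu hv hne]
  unfold LT KK
  constructor
  · rintro (⟨h, _⟩ | ⟨h2, h3, h4⟩)
    · omega
    · rwa [show 2072 - (2072 - eC u v) = eC u v by omega] at h4
  · intro h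
    refine Or.inr ⟨by omega, by omega, ?_⟩
    rwa [show 2072 - (2072 - eC u v) = eC u v by omega]

theorem lt_w (hM : Mod lab g) {u v : ℕ} (hu : u < 17) (hv : v < 17) :
    LT lab g (wC u v) ↔ u ≠ v ∧ ∃ w < 17, g u w ∧ g w v := by
  have h1 := eC_le hu hv
  rw [← val_w hM hu hv]
  have h2 : wC u v = 289 + eC u v := rfl
  unfold LT
  constructor
  · rintro (⟨_, h⟩ | ⟨h2, _⟩)
    · exact h
    · omega
  · intro h
    exact Or.inl ⟨by omega, h⟩

theorem lt_nw (hM : Mod lab g) {u v : ℕ} (hu : u < 17) (hv : v < 17) :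
    LT lab g (KK - wC u v) ↔ ¬ (u ≠ v ∧ ∃ w < 17, g u w ∧ g w v) := by
  have h1 := eC_le hu hv
  rw [← val_w hM hu hv]
  have h2 : wC u v = 289 + eC u v := rfl
  unfold LT KK
  constructor
  · rintro (⟨h, _⟩ | ⟨h3, h4, h5⟩)
    · omega
    · rwa [show 2072 - (2072 - wC u v) = wC u v by omega] at h5
  · intro h
    refine Or.inr ⟨by omega, by omega, ?_⟩
    rwa [show 2072 - (2072 - wC u v) = wC u v by omega]

theorem plOf_mem (hM : Mod lab g) {a b : ℕ} (hab : a < b) (hb : b < 17) (h : g a b) :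
    (a, b) ∈ plOf lab := by
  unfold plOf
  rw [List.mem_filter]
  exact ⟨mem_pairs.2 ⟨hab, hb⟩, hM.adj a b (by omega) hb h⟩

theorem plOf_lt {q : ℕ × ℕ} (h : q ∈ plOf lab) : q.1 < q.2 ∧ q.2 < 17 := by
  unfold plOf at h
  rw [List.mem_filter] at h
  exact mem_pairs.1 h.1

theorem holds_bit {L : ℕ → Prop} {c : ℕ} (h : L c) : Holds L (Nat.pow 2 c) := by
  refine ⟨c, ?_, h⟩
  change (2 ^ c).testBit c = true
  rw [Nat.testBit_two_pow_self]

theorem holds_lor {L : ℕ → Prop} {a b : ℕ} : Holds L (Nat.lor a b) ↔ Holds L a ∨ Holds L b := by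
  unfold Holds
  constructor
  · rintro ⟨c, h1, h2⟩
    change (a ||| b).testBit c = true at h1
    rw [Nat.testBit_lor, Bool.or_eq_true] at h1
    rcases h1 with h1 | h1
    · exact Or.inl ⟨c, h1, h2⟩
    · exact Or.inr ⟨c, h1, h2⟩
  · rintro (⟨c, h1, h2⟩ | ⟨c, h1, h2⟩)
    · refine ⟨c, ?_, h2⟩
      change (a ||| b).testBit c = true
      rw [Nat.testBit_lor, h1, Bool.true_or]
    · refine ⟨c, ?_, h2⟩
      change (a ||| b).testBit c = true
      rw [Nat.testBit_lor, h1, Bool.or_true]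

theorem holds_one {L : ℕ → Prop} (h : L 12) : Holds L 4096 := ⟨12, by decide, h⟩

theorem holds_orM (hM : Mod lab g) {P : ℕ → ℕ → Bool} {a b : ℕ} (hab : a < b) (hb : b < 17)
    (h : g a b) (hP : P a b = true) : Holds (LT lab g) (orM P (plOf lab)) := by
  have hmem := plOf_mem hM hab hb h
  have : ∀ l : List (ℕ × ℕ), (a, b) ∈ l → Holds (LT lab g) (orM P l) := by
    intro l
    induction l with
    | nil => intro h; simp at h
    | cons q l ih =>
      intro hq
      rw [orM]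
      rw [List.mem_cons] at hq
      rcases hq with rfl | hq
      · rw [hP, cond_true, holds_lor]
        refine Or.inl (holds_bit ?_)
        have : 17 * b + a = eC a b := by
          unfold eC
          rw [blt_iff.2 hab, cond_true]
        rw [this, lt_e hM (by omega) hb (by omega)]
        exact h
      · rcases P q.1 q.2 with _ | _
        · exact ih hq
        · rw [cond_true, holds_lor]
          exact Or.inr (ih hq)
  exact this _ hmem

theorem holds_dif (hM : Mod lab g) {u : ℕ} (hu : u < 17) : ∀ {rs : List ℕ} {k : ℕ},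
    (∀ r ∈ rs, r < 17 ∧ u ≠ r) → k < 2 ^ rs.length → key g u rs ≠ k →
    Holds (LT lab g) (dif u rs k)
  | [], k, _, hk, hne => by
    exfalso
    apply hne
    simp only [List.length_nil, pow_zero, Nat.lt_one_iff] at hk
    rw [hk]
    rfl
  | r :: rs, k, hr, hk, hne => by
    obtain ⟨h1, h2⟩ := hr r (List.mem_cons_self ..)
    have hr' : ∀ r ∈ rs, r < 17 ∧ u ≠ r := fun x hx => hr x (List.mem_cons_of_mem _ hx)
    rw [List.length_cons, pow_succ] at hk
    rw [dif]
    have hpow : Nat.pow 2 rs.length = 2 ^ rs.length := rfl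
    rw [hpow]
    rw [key] at hne
    rcases hb : Nat.ble (2 ^ rs.length) k with _ | _
    · have hlt : k < 2 ^ rs.length := by
        by_contra hcon
        rw [Nat.ble_eq_true_of_le (by omega)] at hb
        exact Bool.noConfusion hb
      rw [cond_false, holds_lor]
      by_cases hg : g u r
      · left
        exact holds_bit ((lt_e hM hu h1 h2).2 hg)
      · right
        rw [if_neg hg, zero_add] at hne
        exact holds_dif hM hu hr' hlt hne
    · have hle := Nat.le_of_ble_eq_true hb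
      rw [cond_true, holds_lor]
      by_cases hg : g u r
      · right
        rw [if_pos hg] at hne
        exact holds_dif hM hu hr' (by omega) (by omega)
      · left
        exact holds_bit ((lt_ne hM hu h1 h2).2 hg)

theorem Cn_add (lo a b : ℕ) : Cn lab g lo (a + b) = Cn lab g lo a + Cn lab g (lo + a) b := by
  unfold Cn
  rw [List.take_add, List.countP_append, List.drop_drop]

theorem Cn_le (lo a : ℕ) : Cn lab g lo a ≤ a := by
  unfold Cn
  refine le_trans List.countP_le_length ?_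
  rw [List.length_take]
  exact min_le_left _ _

theorem Cn_one {lo : ℕ} : 1 ≤ Cn lab g lo 1 ↔ ∃ q, (plOf lab)[lo]? = some q ∧ g q.1 q.2 := by
  unfold Cn
  rcases h : (plOf lab).drop lo with _ | ⟨q, l⟩
  · simp only [List.take_nil, List.countP_nil]
    constructor
    · intro h
      omega
    rintro ⟨q, hq, _⟩
    have : (plOf lab).length ≤ lo := List.drop_eq_nil_iff.1 h
    rw [List.getElem?_eq_none this] at hq
    exact absurd hq (by simp)
  · have h1 : (plOf lab)[lo]? = some q := by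
      have := congrArg (fun l => l[0]?) h
      simp only [List.getElem?_drop, add_zero, List.getElem?_cons_zero] at this
      exact this
    rw [List.take_succ_cons, List.take_zero, h1]
    simp only [List.countP_cons, List.countP_nil, zero_add, Option.some.injEq, exists_eq_left']
    by_cases hg : g q.1 q.2
    · simp [hg]
    · simp [hg]

theorem lt_c {l lo k : ℕ} (hl1 : 1 ≤ l) (hl : l ≤ 6) (hlo : lo % 2 ^ l = 0) (hle : lo + 2 ^ l ≤ 64)
    (hk : k < 2 ^ l) :
    LT lab g (578 + 64 * l + (lo + k)) ↔ k + 1 ≤ Cn lab g lo (2 ^ l) := by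
  have hmod : (lo + k) % 2 ^ l = k := by
    rw [Nat.add_mod, hlo, zero_add, Nat.mod_mod, Nat.mod_eq_of_lt hk]
  constructor
  · rintro (⟨h1, h⟩ | ⟨h1, _⟩)
    · rcases h with (h | ⟨p, q, h1, h2, h3, h4⟩ | ⟨p, q, h1, h2, h3, w, hw, h4, h5⟩ |
        ⟨l', o, h1, h2, h3, h4, h5⟩)
      · omega
      · omega
      · omega
      · have : l' = l ∧ o = lo + k := by omega
        obtain ⟨rfl, rfl⟩ := this
        rw [hmod, Nat.add_sub_cancel] at h5
        exact h5
    · omega
  · intro h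
    refine Or.inl ⟨by omega, Or.inr (Or.inr (Or.inr ⟨l, lo + k, hl1, hl, by omega, by omega, ?_⟩))⟩
    rw [hmod, Nat.add_sub_cancel]
    exact h

theorem lt_nc {l lo k : ℕ} (hl1 : 1 ≤ l) (hl : l ≤ 6) (hlo : lo % 2 ^ l = 0)
    (hle : lo + 2 ^ l ≤ 64) (hk : k < 2 ^ l) (h : ¬ k + 1 ≤ Cn lab g lo (2 ^ l)) :
    LT lab g (KK - (578 + 64 * l + (lo + k))) := by
  have h1 := (lt_c (lab := lab) (g := g) hl1 hl hlo hle hk).not.2 h
  unfold LT at h1
  push Not at h1
  refine Or.inr ⟨by unfold KK; omega, by unfold KK; omega, ?_⟩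
  rw [show KK - (KK - (578 + 64 * l + (lo + k))) = 578 + 64 * l + (lo + k) by unfold KK; omega]
  exact h1.1 (by omega)

theorem lt_cC (hM : Mod lab g) {l lo k : ℕ} (hl : l ≤ 6) (hlo : lo % 2 ^ l = 0)
    (hle : lo + 2 ^ l ≤ 64) (hk : k < 2 ^ l) (h : k + 1 ≤ Cn lab g lo (2 ^ l)) :
    LT lab g (cC (plOf lab) l (lo + k)) := by
  rcases l with _ | l
  · have hk0 : k = 0 := by simpa using hk
    subst hk0
    rw [pow_zero] at h
    obtain ⟨q, hq, hg⟩ := Cn_one.1 h
    unfold cC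
    rw [add_zero, hq]
    have hq' := plOf_lt (List.mem_of_getElem? hq)
    have : 17 * q.2 + q.1 = eC q.1 q.2 := by
      unfold eC
      rw [blt_iff.2 hq'.1, cond_true]
    change LT lab g (17 * q.2 + q.1)
    rw [this, lt_e hM (by omega) hq'.2 (by omega)]
    exact hg
  · exact (lt_c (by omega) hl hlo hle hk).2 h

theorem cn_total (hM : Mod lab g) (hlen : (plOf lab).length ≤ 64) : 39 ≤ Cn lab g 0 64 := by
  have h1 := hM.edges
  unfold Cn
  rw [List.drop_zero, List.take_of_length_le hlen]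
  unfold plOf
  rw [List.countP_filter]
  refine le_trans h1 (List.countP_mono_left ?_)
  intro p hp hg
  rw [Bool.and_eq_true]
  refine ⟨hg, ?_⟩
  have hp' := mem_pairs.1 hp
  exact hM.adj p.1 p.2 (by omega) hp'.2 (by simpa using hg)

theorem refs_spec {u r : ℕ} (h : r ∈ refs lab u) : r < 17 ∧ lb lab r ≠ lb lab u := by
  unfold refs at h
  have h1 := List.mem_of_mem_take h
  rw [List.mem_filter, List.mem_range] at h1
  refine ⟨h1.1, ?_⟩
  intro he
  have h2 := h1.2
  split at h2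
  all_goals simp_all

theorem beq_f {a b : ℕ} : Nat.beq a b = false ↔ a ≠ b := by
  rw [← Bool.not_eq_true, Nat.beq_eq]

theorem h_one : Holds (LT lab g) 4096 := holds_one lt_true

theorem h_tri (hM : Mod lab g) (u w v : ℕ) : Holds (LT lab g) (mTri u w v) := by
  unfold mTri
  rcases hb : (Nat.blt u 17 && Nat.blt w 17 && Nat.blt v 17 && !(Nat.beq u v) &&
      !(Nat.beq u w) && !(Nat.beq w v)) with _ | _
  · exact h_one
  · simp only [Bool.and_eq_true, blt_iff, Bool.not_eq_true', beq_f] at hb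
    obtain ⟨⟨⟨⟨⟨hu, hw⟩, hv⟩, huv⟩, huw⟩, hwv⟩ := hb
    rw [cond_true, holds_lor, holds_lor]
    by_cases h2 : g u w
    · by_cases h3 : g w v
      · exact Or.inr (Or.inr (holds_bit ((lt_w hM hu hv).2 ⟨huv, w, hw, h2, h3⟩)))
      · exact Or.inr (Or.inl (holds_bit ((lt_ne hM hw hv hwv).2 h3)))
    · exact Or.inl (holds_bit ((lt_ne hM hu hw huw).2 h2))

theorem h_ew (hM : Mod lab g) (u v : ℕ) : Holds (LT lab g) (mEw u v) := by
  unfold mEw
  rcases hb : (Nat.blt u 17 && Nat.blt v 17 && !(Nat.beq u v)) with _ | _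
  · exact h_one
  · simp only [Bool.and_eq_true, blt_iff, Bool.not_eq_true', beq_f] at hb
    obtain ⟨⟨hu, hv⟩, huv⟩ := hb
    rw [cond_true, holds_lor]
    by_cases h2 : g u v
    · refine Or.inr (holds_bit ((lt_nw hM hu hv).2 ?_))
      rintro ⟨_, w, hw, h3, h4⟩
      exact hM.tri u w v h3 h4 (hM.symm _ _ h2)
    · exact Or.inl (holds_bit ((lt_ne hM hu hv huv).2 h2))

theorem h_wwe (hM : Mod lab g) (u x y : ℕ) : Holds (LT lab g) (mWwe u x y) := by
  unfold mWwe
  rcases hb : (Nat.blt u 17 && Nat.blt x 17 && Nat.blt y 17 && !(Nat.beq x y)) with _ | _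
  · exact h_one
  · simp only [Bool.and_eq_true, blt_iff, Bool.not_eq_true', beq_f] at hb
    obtain ⟨⟨⟨hu, hx⟩, hy⟩, hxy⟩ := hb
    rw [cond_true, holds_lor, holds_lor]
    by_cases h2 : g x y
    · by_cases h3 : u ≠ x ∧ ∃ w < 17, g u w ∧ g w x
      · refine Or.inr (Or.inl (holds_bit ((lt_nw hM hu hy).2 ?_)))
        rintro ⟨_, w', hw', h4, h5⟩
        obtain ⟨_, w, hw, h6, h7⟩ := h3
        exact hM.penta u w x y w' h6 h7 h2 (hM.symm _ _ h5) (hM.symm _ _ h4)
      · exact Or.inl (holds_bit ((lt_nw hM hu hx).2 h3))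
    · exact Or.inr (Or.inr (holds_bit ((lt_ne hM hx hy hxy).2 h2)))

theorem h_nb (hM : Mod lab g) (v c : ℕ) : Holds (LT lab g) (mNb (plOf lab) v c) := by
  obtain ⟨a, b, hab, hb, h2, h3, h4, h5⟩ := hM.nb v (fun a => Nat.testBit c a)
  unfold mNb
  refine holds_orM hM hab hb h4 ?_
  simp only [Bool.and_eq_true, Bool.not_eq_true', beq_f]
  exact ⟨⟨h2, h3⟩, by rw [h5]; simp⟩

theorem h_hom (hM : Mod lab g) (t f : ℕ) : Holds (LT lab g) (mHom (plOf lab) t f) := by
  unfold mHom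
  rcases hb : (Nat.beq t 7 || Nat.beq t 12) with _ | _
  · exact h_one
  · rw [Bool.or_eq_true] at hb
    obtain ⟨a, b, hab, hb, h2, h3⟩ := hM.hom t
      (hb.imp Nat.eq_of_beq_eq_true Nat.eq_of_beq_eq_true) (fun u => fv f u)
    rw [cond_true]
    refine holds_orM hM hab hb h2 ?_
    rw [h3]
    rfl

theorem h_al (hM : Mod lab g) (s : ℕ) : Holds (LT lab g) (mAl (plOf lab) s) := by
  unfold mAl
  rcases hb : Nat.ble 9 ((List.range 17).countP fun u => Nat.testBit s u) with _ | _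
  · exact h_one
  · obtain ⟨a, b, hab, hb, h2, h3, h4⟩ := hM.al (fun u => Nat.testBit s u)
      (Nat.le_of_ble_eq_true hb)
    rw [cond_true]
    refine holds_orM hM hab hb h2 ?_
    rw [Bool.and_eq_true]
    exact ⟨h3, h4⟩

theorem h_cnt (hM : Mod lab g) (l lo i j : ℕ) :
    Holds (LT lab g) (mCnt (plOf lab) l lo i j) := by
  unfold mCnt
  rcases hb : (Nat.ble l 5 && Nat.beq (lo % 2 ^ (l + 1)) 0 && Nat.ble (lo + 2 ^ (l + 1)) 64 &&
      Nat.ble i (2 ^ l) && Nat.ble j (2 ^ l) && Nat.ble (i + j + 1) (2 ^ (l + 1))) with _ | _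
  · exact h_one
  · rw [cond_true, holds_lor, holds_lor]
    simp only [Bool.and_eq_true] at hb
    obtain ⟨⟨⟨⟨⟨hb1, hb2⟩, hb3⟩, hb4⟩, hb5⟩, hb6⟩ := hb
    have hb1 := Nat.le_of_ble_eq_true hb1
    have hb2 := Nat.eq_of_beq_eq_true hb2
    have hb3 := Nat.le_of_ble_eq_true hb3
    have hb4 := Nat.le_of_ble_eq_true hb4
    have hb5 := Nat.le_of_ble_eq_true hb5
    have hb6 := Nat.le_of_ble_eq_true hb6
    have hpow : 2 ^ (l + 1) = 2 ^ l + 2 ^ l := by rw [pow_succ]; omega
    by_cases h2 : i + j + 1 ≤ Cn lab g lo (2 ^ (l + 1))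
    · rw [hpow, Cn_add] at h2
      have h3 := Cn_le (lab := lab) (g := g) lo (2 ^ l)
      have h4 := Cn_le (lab := lab) (g := g) (lo + 2 ^ l) (2 ^ l)
      have hmod : lo % 2 ^ l = 0 := by
        rw [hpow, ← two_mul] at hb2
        exact Nat.mod_eq_zero_of_dvd (dvd_trans (Dvd.intro_left 2 rfl)
          (Nat.dvd_of_mod_eq_zero hb2))
      have hmod2 : (lo + 2 ^ l) % 2 ^ l = 0 := by
        rw [Nat.add_mod_right, hmod]
      by_cases h5 : i + 1 ≤ Cn lab g lo (2 ^ l)
      · left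
        have hi : i < 2 ^ l := by omega
        rw [blt_iff.2 hi, cond_true]
        exact holds_bit (lt_cC hM (by omega) hmod (by omega) hi h5)
      · right
        left
        have hj : j < 2 ^ l := by omega
        rw [blt_iff.2 hj, cond_true]
        exact holds_bit (lt_cC hM (by omega) hmod2 (by omega) hj (by omega))
    · right
      right
      exact holds_bit (lt_nc (lab := lab) (g := g) (l := l + 1) (lo := lo) (k := i + j) (by omega)
        (by omega) hb2 hb3 (by omega) h2)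

theorem h_ord (hM : Mod lab g) (u ku kw : ℕ) : Holds (LT lab g) (mOrd lab u ku kw) := by
  unfold mOrd
  rcases hb : (Nat.blt (u + 1) 17 && Nat.beq (lb lab u) (lb lab (u + 1)) &&
      Nat.ble 2 (lb lab u) && Nat.ble (lb lab u) 5 && Nat.blt ku kw &&
      Nat.blt kw (2 ^ (refs lab u).length)) with _ | _
  · exact h_one
  · simp only [Bool.and_eq_true, blt_iff] at hb
    obtain ⟨⟨⟨⟨⟨hb1, hb2⟩, hb3⟩, hb4⟩, hb5⟩, hb6⟩ := hb
    have hb2 := Nat.eq_of_beq_eq_true hb2
    have hb3 := Nat.le_of_ble_eq_true hb3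
    have hb4 := Nat.le_of_ble_eq_true hb4
    have h2 := hM.ord u hb1 hb2 hb3 hb4
    rw [cond_true, holds_lor]
    have hr : ∀ r ∈ refs lab u, r < 17 ∧ u ≠ r := by
      intro r hr
      obtain ⟨h3, h4⟩ := refs_spec hr
      refine ⟨h3, ?_⟩
      rintro rfl
      exact h4 rfl
    have hr' : ∀ r ∈ refs lab u, r < 17 ∧ u + 1 ≠ r := by
      intro r hr
      obtain ⟨h3, h4⟩ := refs_spec hr
      refine ⟨h3, ?_⟩
      rintro rfl
      exact h4 hb2.symm
    by_cases h3 : key g u (refs lab u) = ku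
    · right
      refine holds_dif hM hb1 hr' hb6 ?_
      omega
    · left
      exact holds_dif hM (by omega) hr (by omega) h3

theorem h_nbr (hM : Mod lab g) (u : ℕ) : Holds (LT lab g) (mNbr lab (plOf lab) u) := by
  unfold mNbr
  rcases hb : (Nat.blt u 17 && (Nat.beq (lb lab u) 4 || Nat.beq (lb lab u) 5)) with _ | _
  · exact h_one
  · rw [Bool.and_eq_true, blt_iff, Bool.or_eq_true] at hb
    obtain ⟨v, hv, h2, h3⟩ := hM.nbr u hb.1 (hb.2.imp Nat.eq_of_beq_eq_true
      Nat.eq_of_beq_eq_true)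
    rw [cond_true]
    have hne : v ≠ u := by
      rintro rfl
      exact hM.irr _ h3
    rcases Nat.lt_or_gt_of_ne hne with h4 | h4
    · refine holds_orM hM h4 hb.1 h3 ?_
      simp [h2]
    · refine holds_orM hM h4 hv (hM.symm _ _ h3) ?_
      simp [h2]

theorem mask_holds (hM : Mod lab g) (hlen : (plOf lab).length ≤ 64) :
    ∀ r : Rule, Holds (LT lab g) (mask lab (plOf lab) r)
  | .tri u w v => h_tri hM u w v
  | .ew u v => h_ew hM u v
  | .wwe u x y => h_wwe hM u x y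
  | .nb v c => h_nb hM v c
  | .hom t f => h_hom hM t f
  | .al s => h_al hM s
  | .cnt l lo i j => h_cnt hM l lo i j
  | .root => holds_bit (lt_cC hM (l := 6) (lo := 0) (k := 38) le_rfl (by norm_num) (by norm_num)
      (by norm_num) (cn_total hM hlen))
  | .ord u ku kw => h_ord hM u ku kw
  | .nbr u => h_nbr hM u

theorem orG_testBit {f : ℕ → ℕ} {P : ℕ → ℕ → Bool} {c : ℕ} : ∀ {l : List (ℕ × ℕ)},
    (orG f P l).testBit c = true → ∃ q ∈ l, P q.1 q.2 = true ∧ c = f (17 * q.2 + q.1)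
  | [], h => by simp [orG] at h
  | q :: l, h => by
    rw [orG] at h
    rcases hP : P q.1 q.2 with _ | _
    · rw [hP, cond_false] at h
      obtain ⟨q', h1, h2⟩ := orG_testBit h
      exact ⟨q', List.mem_cons_of_mem _ h1, h2⟩
    · rw [hP, cond_true] at h
      change (2 ^ f (17 * q.2 + q.1) ||| orG f P l).testBit c = true at h
      rw [Nat.testBit_lor, Bool.or_eq_true] at h
      rcases h with h | h
      · rw [Nat.testBit_two_pow] at h
        exact ⟨q, List.mem_cons_self .., hP, (of_decide_eq_true h).symm⟩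
      · obtain ⟨q', h1, h2⟩ := orG_testBit h
        exact ⟨q', List.mem_cons_of_mem _ h1, h2⟩

theorem blk_testBit {n c : ℕ} (hn : n ≤ 64) : ∀ {k : ℕ}, (blk n k).testBit c = true →
    ∃ l < k, ∃ o, n ≤ o ∧ o < 64 ∧ c = 578 + 64 * (l + 1) + o
  | 0, h => by simp [blk] at h
  | k + 1, h => by
    rw [blk] at h
    change ((2 ^ (64 - n) - 1) <<< (642 + 64 * k + n) ||| blk n k).testBit c = true at h
    rw [Nat.testBit_lor, Bool.or_eq_true] at h
    rcases h with h | h
    · rw [Nat.testBit_shiftLeft, Bool.and_eq_true, Nat.testBit_two_pow_sub_one] at h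
      have h1 := of_decide_eq_true h.1
      have h2 := of_decide_eq_true h.2
      exact ⟨k, by omega, c - (642 + 64 * k), by omega, by omega, by omega⟩
    · obtain ⟨l, hl, h1⟩ := blk_testBit hn h
      exact ⟨l, by omega, h1⟩

theorem keep_testBit {K b c : ℕ} (hc : c < K) (hb : b.testBit c = false) :
    (Nat.xor (Nat.pow 2 K - 1) (Nat.land (Nat.pow 2 K - 1) b)).testBit c = true := by
  change ((2 ^ K - 1) ^^^ ((2 ^ K - 1) &&& b)).testBit c = true
  rw [Nat.testBit_xor, Nat.testBit_land, Nat.testBit_two_pow_sub_one, decide_eq_true hc, hb]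
  rfl

theorem base_ok (hM : Mod lab g) (hlen : (plOf lab).length ≤ 64) {c : ℕ} (hc : LT lab g c) :
    (baseM lab (plOf lab).length).testBit c = true := by
  unfold baseM
  rw [frn_eq]
  have hcK : c < KK := by
    have h1 := lt_le hc
    unfold KK
    omega
  refine keep_testBit hcK ?_
  rw [← Bool.not_eq_true]
  intro h
  unfold badM at h
  change (_ ||| (_ ||| (_ ||| blk (plOf lab).length 6))).testBit c = true at h
  rw [Nat.testBit_lor, Nat.testBit_lor, Nat.testBit_lor, Bool.or_eq_true, Bool.or_eq_true,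
    Bool.or_eq_true] at h
  have hl0 : ∀ u, u < 17 → lF 0 (lb lab u) = true → g 0 u := by
    intro u hu h2
    refine hM.forced 0 u (by norm_num) hu ?_ ?_
    · rintro rfl
      rw [hM.zero] at h2
      exact absurd h2 (by decide)
    · rw [hM.zero]
      exact h2
  have hl1 : ∀ u, u < 17 → lF 1 (lb lab u) = true → g 1 u := by
    intro u hu h2
    refine hM.forced 1 u (by norm_num) hu ?_ ?_
    · rintro rfl
      rw [hM.one] at h2
      exact absurd h2 (by decide)
    · rw [hM.one]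
      exact h2
  have he : ∀ a b : ℕ, a < b → 17 * b + a = eC a b := by
    intro a b hab
    unfold eC
    rw [blt_iff.2 hab, cond_true]
  rcases h with h | h | h | h
  · obtain ⟨⟨a, b⟩, hp, hP, rfl⟩ := orG_testBit h
    obtain ⟨hab, hb⟩ := mem_pairs.1 hp
    simp only at hab hb hP hc
    rw [he a b hab, lt_e hM (by omega) hb (by omega)] at hc
    rw [hM.adj a b (by omega) hb hc] at hP
    exact Bool.noConfusion hP
  · obtain ⟨⟨a, b⟩, hp, hP, rfl⟩ := orG_testBit h
    obtain ⟨hab, hb⟩ := mem_pairs.1 hp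
    simp only at hab hb hP hc
    rw [he a b hab, lt_ne hM (by omega) hb (by omega)] at hc
    exact hc (hM.forced a b (by omega) hb (by omega) hP)
  · obtain ⟨⟨a, b⟩, hp, hP, rfl⟩ := orG_testBit h
    obtain ⟨hab, hb⟩ := mem_pairs.1 hp
    simp only at hab hb hP hc
    rw [he a b hab] at hc
    change LT lab g (KK - wC a b) at hc
    rw [lt_nw hM (by omega) hb] at hc
    apply hc
    refine ⟨by omega, ?_⟩
    rw [Bool.or_eq_true, Bool.and_eq_true, Bool.and_eq_true] at hP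
    rcases hP with ⟨h3, h4⟩ | ⟨h3, h4⟩
    · exact ⟨0, by norm_num, hM.symm _ _ (hl0 a (by omega) h3), hl0 b hb h4⟩
    · exact ⟨1, by norm_num, hM.symm _ _ (hl1 a (by omega) h3), hl1 b hb h4⟩
  · obtain ⟨l, hl, o, h1, ho, rfl⟩ := blk_testBit hlen h
    have h2 : 0 < 2 ^ (l + 1) := by positivity
    have h3 : 2 ^ (l + 1) ∣ 64 := by
      have : 64 = 2 ^ 6 := by norm_num
      rw [this]
      exact Nat.pow_dvd_pow 2 (by omega)
    have h4 := Nat.mod_lt o h2
    have h5 := Nat.div_add_mod o (2 ^ (l + 1))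
    have h6 : (o - o % 2 ^ (l + 1)) % 2 ^ (l + 1) = 0 := by
      rw [show o - o % 2 ^ (l + 1) = 2 ^ (l + 1) * (o / 2 ^ (l + 1)) by omega]
      exact Nat.mul_mod_right _ _
    have h7 : o - o % 2 ^ (l + 1) + 2 ^ (l + 1) ≤ 64 := by
      obtain ⟨k, hk⟩ := h3
      have h8 : o / 2 ^ (l + 1) < k := by
        rw [Nat.div_lt_iff_lt_mul h2, mul_comm, ← hk]
        exact ho
      rw [show o - o % 2 ^ (l + 1) = 2 ^ (l + 1) * (o / 2 ^ (l + 1)) by omega, hk]
      calc 2 ^ (l + 1) * (o / 2 ^ (l + 1)) + 2 ^ (l + 1) =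
            2 ^ (l + 1) * (o / 2 ^ (l + 1) + 1) := by ring
        _ ≤ 2 ^ (l + 1) * k := Nat.mul_le_mul_left _ h8
    have h9 := lt_c (lab := lab) (g := g) (l := l + 1) (k := o % 2 ^ (l + 1)) (by omega)
      (by omega) h6 h7 h4
    rw [Nat.sub_add_cancel (Nat.mod_le _ _)] at h9
    have h10 := h9.1 hc
    have h11 : Cn lab g (o - o % 2 ^ (l + 1)) (2 ^ (l + 1)) ≤ o % 2 ^ (l + 1) := by
      unfold Cn
      refine le_trans List.countP_le_length ?_
      rw [List.length_take, List.length_drop]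
      omega
    omega

end sound

/-- the whole check for one pattern -/
noncomputable def check (lab : List ℕ) (t0 : Tr Rule) (n0 : ℕ) (t1 : Tr ℕ) (L : List ℕ)
    (n1 : ℕ) : Bool :=
  and (Nat.ble (plOf lab).length 64)
    (refute KK (baseM lab (plOf lab).length) (mask lab (plOf lab)) t0 n0 t1 L n1)

theorem check_sound {lab : List ℕ} {t0 : Tr Rule} {n0 : ℕ} {t1 : Tr ℕ} {L : List ℕ} {n1 : ℕ}
    (h : check lab t0 n0 t1 L n1 = true) {g : ℕ → ℕ → Prop} (hM : Mod lab g) : False := by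
  unfold check at h
  rw [Bool.and_eq_true] at h
  exact refute_sound (LT := LT lab g) (fun c hc => lt_low hc) (fun c hc => lt_neg hc)
    (fun c hc => base_ok hM (Nat.le_of_ble_eq_true h.1) hc) lt_true
    (fun r => mask_holds hM (Nat.le_of_ble_eq_true h.1) r) h.2

end Pool.Agent.Work.MP_92a29d_co.Ball
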