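import Mathlib

/-!
A small checker for clauses given as masks: each learned clause is checked by unit propagation
from earlier clauses.  Literals are numbers `12 ≤ c ≤ K`, the negation of `c` is `K - c`.  The
twelve low bits of all states carry the numbers of the used clauses: otherwise all states have the
same hash.
-/

namespace Pool.Agent.Work.MP_92a29d_co.Ball

/-- binary tree of clauses -/
inductive Tr (α : Type) where
  | nil : Tr α
  | leaf (m : α) : Tr α
  | node (l r : Tr α) : Tr α

/-- look up, `4096` (the clause `true`) outside the tree -/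
noncomputable def Tr.get {α : Type} (f : α → ℕ) (t : Tr α) : ℕ → ℕ :=
  Tr.rec (motive := fun _ => ℕ → ℕ) (fun _ => 4096) (fun m _ => f m)
    (fun _ _ ihl ihr i => cond (Nat.beq (Nat.land i 1) 0) (ihl (Nat.div i 2)) (ihr (Nat.div i 2))) t

/-- mask of a packed clause -/
noncomputable def lmask (n : ℕ) : ℕ :=
  Nat.rec (motive := fun _ => ℕ → ℕ) (fun _ => 0)
    (fun _ ih n => cond (Nat.beq n 0) 0 (Nat.lor (Nat.pow 2 (Nat.mod n 4096))
      (ih (Nat.div n 4096)))) 40 n

/-- force the evaluation of a number -/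
def frc (n : ℕ) (f : ℕ → Bool) : Bool :=
  Nat.rec (motive := fun _ => Bool) (f 0) (fun m _ => f (Nat.succ m)) n

theorem frc_eq (n : ℕ) (f : ℕ → Bool) : frc n f = f n := by
  cases n <;> rfl

theorem blt_iff {a b : ℕ} : Nat.blt a b = true ↔ a < b := by
  rw [Nat.blt_eq]

/-- unit propagation; `P = 2 ^ K` -/
noncomputable def prop (P : ℕ) (get : ℕ → ℕ) (i F : ℕ) : ℕ → ℕ → Bool :=
  Nat.rec (motive := fun _ => ℕ → ℕ → Bool) (fun _ _ => false)
    (fun _ ih hs X => frc (Nat.mod hs 4096) fun h => cond (Nat.blt h i)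
      ((fun r => cond (Nat.beq r 0) true
        (cond (Nat.beq (Nat.mul r (Nat.div P r)) P)
          (frc (Nat.xor (Nat.xor X (Nat.land X (Nat.div P r))) (Nat.mod h 4096)) fun X' =>
            frc (Nat.div hs 4096) fun hs' => ih hs' X') false)) (Nat.land (get h) X)) false) F

/-- check the learned clauses from number `i` on -/
noncomputable def checkAll (P base : ℕ) (get : ℕ → ℕ) (L : List ℕ) : ℕ → Bool :=
  List.rec (motive := fun _ => ℕ → Bool) (fun _ => true)
    (fun hs _ ih i => and (frc (Nat.xor (Nat.xor base (Nat.land base (get i))) (Nat.mod i 4096))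
      fun X => prop P get i 128 hs X) (frc (Nat.succ i) fun i' => ih i')) L

section sound

variable {K : ℕ} {LT : ℕ → Prop}

/-- a mask holds -/
def Holds (LT : ℕ → Prop) (m : ℕ) : Prop := ∃ c, m.testBit c = true ∧ LT c

theorem salt {c h : ℕ} (hc : 12 ≤ c) : (Nat.mod h 4096).testBit c = false := by
  refine Nat.testBit_lt_two_pow (lt_of_lt_of_le (Nat.mod_lt _ (by norm_num)) ?_)
  calc 4096 = 2 ^ 12 := by norm_num
    _ ≤ 2 ^ c := Nat.pow_le_pow_right (by norm_num) hc

theorem prop_sound (hlow : ∀ c, LT c → 12 ≤ c) (hneg : ∀ c, LT c → ¬ LT (K - c))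
    {get : ℕ → ℕ} {i : ℕ} (hget : ∀ h < i, Holds LT (get h)) : ∀ (F hs X : ℕ),
    (∀ c, LT c → X.testBit c = true) → prop (2 ^ K) get i F hs X = true → False
  | 0, _, _, _, h => by
    exact Bool.noConfusion h
  | F + 1, hs, X, hX, h => by
    change frc (Nat.mod hs 4096) (fun h => cond (Nat.blt h i)
      ((fun r => cond (Nat.beq r 0) true
        (cond (Nat.beq (Nat.mul r (Nat.div (2 ^ K) r)) (2 ^ K))
          (frc (Nat.xor (Nat.xor X (Nat.land X (Nat.div (2 ^ K) r))) (Nat.mod h 4096)) fun X' =>
            frc (Nat.div hs 4096) fun hs' => prop (2 ^ K) get i F hs' X') false))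
        (Nat.land (get h) X)) false) = true at h
    simp only [frc_eq] at h
    rcases hb : Nat.blt (Nat.mod hs 4096) i with _ | _
    · rw [hb] at h
      exact Bool.noConfusion h
    · rw [hb, cond_true] at h
      have hlt : Nat.mod hs 4096 < i := blt_iff.1 hb
      obtain ⟨c, hc1, hc2⟩ := hget _ hlt
      have hr : (Nat.land (get (Nat.mod hs 4096)) X).testBit c = true := by
        change (get (Nat.mod hs 4096) &&& X).testBit c = true
        rw [Nat.testBit_land, hc1, hX c hc2]
        rfl
      rcases hz : Nat.beq (Nat.land (get (Nat.mod hs 4096)) X) 0 with _ | _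
      · rw [hz, cond_false] at h
        set r := Nat.land (get (Nat.mod hs 4096)) X with hrdef
        rcases hp : Nat.beq (Nat.mul r (Nat.div (2 ^ K) r)) (2 ^ K) with _ | _
        · rw [hp] at h
          exact Bool.noConfusion h
        · rw [hp, cond_true] at h
          have hp' : r * (2 ^ K / r) = 2 ^ K := Nat.eq_of_beq_eq_true hp
          obtain ⟨b, hbK, hrb⟩ := (Nat.dvd_prime_pow Nat.prime_two).1 (Dvd.intro _ hp')
          have hcb : c = b := by
            rw [hrb, Nat.testBit_two_pow] at hr
            exact (of_decide_eq_true hr).symm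
          have hr' : 2 ^ K / r = 2 ^ (K - b) := by
            rw [hrb, Nat.pow_div hbK (by norm_num)]
          refine prop_sound hlow hneg hget F _ _ ?_ h
          intro c' hc'
          change ((X ^^^ (X &&& (2 ^ K / r))) ^^^ Nat.mod (Nat.mod hs 4096) 4096).testBit c' = true
          rw [hr', Nat.testBit_xor, Nat.testBit_xor, Nat.testBit_land, hX c' hc',
            Nat.testBit_two_pow, salt (hlow c' hc')]
          have hne : ¬ K - b = c' := by
            intro he
            rw [← he, ← hcb] at hc'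
            exact hneg c hc2 hc'
          rw [decide_eq_false hne]
          rfl
      · have h0 := Nat.eq_of_beq_eq_true hz
        rw [h0] at hr
        simp at hr

theorem checkAll_sound (hlow : ∀ c, LT c → 12 ≤ c) (hneg : ∀ c, LT c → ¬ LT (K - c)) {base : ℕ}
    (hbase : ∀ c, LT c → base.testBit c = true) {get : ℕ → ℕ} : ∀ (L : List ℕ) (i : ℕ),
    (∀ h < i, Holds LT (get h)) → checkAll (2 ^ K) base get L i = true →
    ∀ h < i + L.length, Holds LT (get h)
  | [], i, hi, _, h, hh => hi h (by simpa using hh)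
  | hs :: L, i, hi, hc, h, hh => by
    change and (frc (Nat.xor (Nat.xor base (Nat.land base (get i))) (Nat.mod i 4096)) fun X =>
      prop (2 ^ K) get i 128 hs X) (frc (Nat.succ i) fun i' => checkAll (2 ^ K) base get L i') =
        true at hc
    rw [Bool.and_eq_true, frc_eq, frc_eq] at hc
    obtain ⟨h1, h2⟩ := hc
    have hold : Holds LT (get i) := by
      by_contra hcon
      refine prop_sound hlow hneg hi 128 hs _ ?_ h1
      intro c hc
      change ((base ^^^ (base &&& get i)) ^^^ Nat.mod i 4096).testBit c = true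
      rw [Nat.testBit_xor, Nat.testBit_xor, Nat.testBit_land, hbase c hc, salt (hlow c hc)]
      have h3 : (get i).testBit c = false := by
        rw [← Bool.not_eq_true]
        intro h4
        exact hcon ⟨c, h4, hc⟩
      rw [h3]
      rfl
    refine checkAll_sound hlow hneg hbase L (i + 1) ?_ h2 h ?_
    · intro j hj
      rcases Nat.lt_succ_iff_lt_or_eq.1 hj with h5 | rfl
      · exact hi j h5
      · exact hold
    · rw [List.length_cons] at hh
      omega

theorem Tr.get_cases {α : Type} (f : α → ℕ) : ∀ (t : Tr α) (i : ℕ),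
    t.get f i = 4096 ∨ ∃ m, t.get f i = f m
  | .nil, _ => Or.inl rfl
  | .leaf m, _ => Or.inr ⟨m, rfl⟩
  | .node l r, i => by
    change cond _ (l.get f (Nat.div i 2)) (r.get f (Nat.div i 2)) = 4096 ∨
      ∃ m, cond _ (l.get f (Nat.div i 2)) (r.get f (Nat.div i 2)) = f m
    rcases Nat.beq (Nat.land i 1) 0 with _ | _
    · exact Tr.get_cases f r _
    · exact Tr.get_cases f l _

/-- the clauses: originals at the numbers below `n0`, then the learned ones -/
noncomputable def getC {α : Type} (f : α → ℕ) (t0 : Tr α) (n0 : ℕ) (t1 : Tr ℕ) (i : ℕ) : ℕ :=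
  cond (Nat.blt i n0) (t0.get f i) (t1.get lmask (Nat.sub i n0))

/-- the whole check: the last learned clause is empty -/
noncomputable def refute {α : Type} (K base : ℕ) (f : α → ℕ) (t0 : Tr α) (n0 : ℕ) (t1 : Tr ℕ)
    (L : List ℕ) (n1 : ℕ) : Bool :=
  frc base fun base => frc (Nat.pow 2 K) fun P =>
    and (checkAll P base (getC f t0 n0 t1) L n0)
      (and (Nat.blt n1 (n0 + L.length)) (Nat.beq (getC f t0 n0 t1 n1) 0))

theorem refute_sound (hlow : ∀ c, LT c → 12 ≤ c) (hneg : ∀ c, LT c → ¬ LT (K - c)) {base : ℕ}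
    (hbase : ∀ c, LT c → base.testBit c = true) (h0 : LT 12) {α : Type} {f : α → ℕ}
    (hf : ∀ r, Holds LT (f r)) {t0 : Tr α} {n0 : ℕ} {t1 : Tr ℕ} {L : List ℕ} {n1 : ℕ}
    (h : refute K base f t0 n0 t1 L n1 = true) : False := by
  unfold refute at h
  rw [frc_eq, frc_eq, Bool.and_eq_true, Bool.and_eq_true] at h
  obtain ⟨h1, h2, h3⟩ := h
  have h4 := checkAll_sound hlow hneg hbase L n0 (get := getC f t0 n0 t1) (by
    intro i hi
    unfold getC
    rw [blt_iff.2 hi, cond_true]
    rcases Tr.get_cases f t0 i with h | ⟨m, h⟩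
    · rw [h]
      exact ⟨12, by decide, h0⟩
    · rw [h]
      exact hf m) h1 n1 (blt_iff.1 h2)
  rw [Nat.eq_of_beq_eq_true h3] at h4
  obtain ⟨c, hc, _⟩ := h4
  simp at hc

end sound

end Pool.Agent.Work.MP_92a29d_co.Ball
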