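import Pool.Agent.Work.MP_92a29d_co_h36.Pats
import Pool.Agent.Work.MP_92a29d_co_h16.Profiles

/-!
From homomorphisms to cycles and to fixed graphs to configurations.
-/

namespace Pool.Agent.Work.MP_92a29d_co.Place

open SimpleGraph Finset Pool.Agent.Work.MP_92a29d_co_h45

section

variable {V : Type*} [Fintype V] [DecidableEq V]

/-- the labels `X` of the class `G` satisfy the data `c` -/
structure ClsOK (c : CD) (G : SimpleGraph V) (X : V → ℕ) : Prop where
  adj : ∀ u w, G.Adj u w → kadj c.kind (X u) (X w) = true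
  lt : ∀ u, X u < c.n
  bds : ∀ a < c.n, c.lo a ≤ (univ.filter fun u => X u = a).card ∧
    (univ.filter fun u => X u = a).card ≤ c.hi a

theorem Conf.of_classes {cd : List CD} {m : Fin 4 → ℕ} {rel : List (ℕ × ℕ × ℕ)}
    {G : Fin 4 → SimpleGraph V} {X : ℕ → V → ℕ} (hcov : Cover V m G) (hk : cd.length ≤ 4)
    (hcls : ∀ i : Fin 4, i.val < cd.length → ClsOK (cdAt cd i) (G i) (X i))
    (hrel : ∀ r ∈ rel, ∀ u, (cdAt cd r.1).d (X r.1 u) = 0 → X r.2.1 u = r.2.2) :
    Conf cd m rel G X :=
  ⟨hcov, fun i hi => (hcls i hi).adj, fun i hi => (hcls ⟨i, by omega⟩ hi).lt,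
    fun i hi => (hcls ⟨i, by omega⟩ hi).bds, hrel⟩

/-- a homomorphism to a cycle, levels counted from `j0` -/
theorem clsOK_level {m : ℕ} {G : SimpleGraph V} {f : V → ZMod (2 * m + 3)}
    (hf : CycHom G (2 * m + 3) f) (j0 : ZMod (2 * m + 3)) {c : CD} (hk : c.kind = .lev m)
    (hn : c.n = 2 * m + 3)
    (hb : ∀ a < 2 * m + 3, c.lo a ≤ lsize f (j0 + a) ∧ lsize f (j0 + a) ≤ c.hi a) :
    ClsOK c G (fun u => (f u - j0).val) := by
  refine ⟨?_, ?_, ?_⟩
  · intro u w huw
    rw [hk]
    change ladj m _ _ = true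
    unfold ladj
    simp only [Bool.or_eq_true, Bool.and_eq_true, beq_iff_eq]
    rcases hf u w huw with e | e
    · rcases pos_adj (by omega) (x := f u - j0) (y := f w - j0) (by rw [e]; ring) with h1 | h1
      · omega
      · omega
    · rcases pos_adj (by omega) (x := f w - j0) (y := f u - j0) (by rw [e]; ring) with h1 | h1
      · omega
      · omega
  · intro u
    rw [hn]
    exact ZMod.val_lt _
  · intro a ha
    rw [hn] at ha
    rw [card_level f j0 ha]
    exact hb a ha

omit [DecidableEq V] in
/-- bounds for the level sizes -/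
theorem lsize_bounds {m : ℕ} {G : SimpleGraph V} (hV : Fintype.card V = 17)
    {f : V → ZMod (2 * m + 3)} (hf : CycHom G (2 * m + 3) f) (hα : AlphaEight G)
    (j : ZMod (2 * m + 3)) : 1 ≤ lsize f j ∧ lsize f j + m ≤ 8 := by
  obtain ⟨d, _, h2, h3⟩ := exists_deficit hV hf hα
  have e := h2 (j + 1)
  rw [add_sub_cancel_right] at e
  have hne : j + 1 ≠ j + 1 + 1 := by
    intro h0
    have h1 : (1 : ZMod (2 * m + 3)) = 0 := by
      have := add_left_cancel (a := j + 1) (b := 0) (c := 1) (by rw [add_zero]; exact h0)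
      exact this.symm
    have : Fact (1 < 2 * m + 3) := ⟨by omega⟩
    exact one_ne_zero h1
  have h4 : d (j + 1) + d (j + 1 + 1) ≤ ∑ j, d j := by
    rw [← Finset.sum_pair hne]
    exact Finset.sum_le_sum_of_subset (Finset.subset_univ _)
  omega

/-- the general class data: level 0 has one vertex, no level is empty -/
def genCD (m : ℕ) (mid : Bool) : CD where
  kind := .lev m
  bd := (List.range (2 * m + 3)).map fun a => if a = 0 then (1, 1) else
    if mid && (a == 1 || a == 2 * m + 2) then (1, 1) else (1, 8 - m)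
  dg := (List.range (2 * m + 3)).map fun a => if a = 0 then 0 else if a % 2 = 1 then 1 else 2

theorem genCD_n (m : ℕ) (mid : Bool) : (genCD m mid).n = 2 * m + 3 := by
  simp [CD.n, genCD]

theorem genCD_bd {m a : ℕ} (mid : Bool) (ha : a < 2 * m + 3) :
    ((genCD m mid).lo a, (genCD m mid).hi a) = if a = 0 then (1, 1) else
    if mid && (a == 1 || a == 2 * m + 2) then (1, 1) else (1, 8 - m) := by
  unfold CD.lo CD.hi genCD
  rw [List.getD_eq_getElem _ _ (by simpa using ha), List.getElem_map, List.getElem_range]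

/-- level data in general -/
theorem clsOK_gen {m : ℕ} {G : SimpleGraph V} (hV : Fintype.card V = 17)
    {f : V → ZMod (2 * m + 3)} (hf : CycHom G (2 * m + 3) f) (hα : AlphaEight G)
    {j0 : ZMod (2 * m + 3)} (h0 : lsize f j0 = 1) :
    ClsOK (genCD m false) G (fun u => (f u - j0).val) := by
  refine clsOK_level hf j0 rfl (genCD_n m false) ?_
  intro a ha
  have h1 := genCD_bd false ha
  have h2 := lsize_bounds hV hf hα (j0 + a)
  rw [Prod.ext_iff] at h1
  obtain ⟨e1, e2⟩ := h1
  simp only [Bool.false_and, Bool.false_eq_true, if_false] at e1 e2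
  rw [e1, e2]
  by_cases ha0 : a = 0
  · subst ha0
    rw [Nat.cast_zero, add_zero, h0]
    simp
  · rw [if_neg ha0]
    simp only
    omega

/-- level data with three consecutive single levels -/
theorem clsOK_mid {m : ℕ} {G : SimpleGraph V} (hV : Fintype.card V = 17)
    {f : V → ZMod (2 * m + 3)} (hf : CycHom G (2 * m + 3) f) (hα : AlphaEight G)
    {j0 : ZMod (2 * m + 3)} (h0 : lsize f (j0 - 1) = 1 ∧ lsize f j0 = 1 ∧ lsize f (j0 + 1) = 1) :
    ClsOK (genCD m true) G (fun u => (f u - j0).val) := by
  refine clsOK_level hf j0 rfl (genCD_n m true) ?_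
  intro a ha
  have h1 := genCD_bd true ha
  have h2 := lsize_bounds hV hf hα (j0 + a)
  rw [Prod.ext_iff] at h1
  obtain ⟨e1, e2⟩ := h1
  simp only [Bool.true_and] at e1 e2
  rw [e1, e2]
  by_cases ha0 : a = 0
  · subst ha0
    rw [Nat.cast_zero, add_zero, h0.2.1]
    simp
  · rw [if_neg ha0]
    by_cases ha1 : a = 1
    · subst ha1
      rw [if_pos (by simp)]
      rw [Nat.cast_one, h0.2.2]
      simp
    · by_cases ha2 : a = 2 * m + 2
      · have e : (j0 + (a : ZMod (2 * m + 3))) = j0 - 1 := by
          have := natCast_pred (L := 2 * m + 3) (by omega)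
          rw [show 2 * m + 3 - 1 = a by omega] at this
          linear_combination this
        rw [if_pos (by simp [ha2]), e, h0.1]
        simp
      · rw [if_neg (by simp [ha1, ha2])]
        simp only
        omega

/-- an exceptional class: a bijection to the labels of a fixed graph -/
theorem clsOK_tgt {nb : List ℕ} {G : SimpleGraph V} (hV : Fintype.card V = 17) {π : V → Fin 17}
    (hπ : Function.Injective π) (hadj : ∀ u w, G.Adj u w →
      (nb.getD (π u) 0).testBit (π w) = true) {c : CD} (hk : c.kind = .tgt nb)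
    (hbd : c.bd = List.replicate 17 (1, 1)) :
    ClsOK c G (fun u => (π u : ℕ)) := by
  have hbij : Function.Bijective π := by
    rw [Fintype.bijective_iff_injective_and_card]
    exact ⟨hπ, by rw [hV, Fintype.card_fin]⟩
  have hn : c.n = 17 := by unfold CD.n; rw [hbd, List.length_replicate]
  refine ⟨?_, ?_, ?_⟩
  · intro u w huw
    rw [hk]
    exact hadj u w huw
  · intro u
    rw [hn]
    exact (π u).isLt
  · intro a ha
    rw [hn] at ha
    have e : (univ.filter fun u => (π u : ℕ) = a).card = 1 := by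
      rw [Finset.card_eq_one]
      obtain ⟨v, hv⟩ := hbij.2 ⟨a, ha⟩
      refine ⟨v, ?_⟩
      ext u
      simp only [mem_filter, mem_univ, true_and, mem_singleton]
      constructor
      · intro hu
        apply hπ
        rw [hv]
        exact Fin.ext hu
      · rintro rfl
        rw [hv]
    rw [e]
    unfold CD.lo CD.hi
    rw [hbd, List.getD_eq_getElem _ _ (by simpa using ha), List.getElem_replicate]
    simp

end

end Pool.Agent.Work.MP_92a29d_co.Place
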