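import Pool.Agent.Work.MP_92a29d_co_h45.pp.C4431MP
import Pool.Agent.Work.MP_92a29d_co_h36.G4431E1
import Pool.Agent.Work.MP_92a29d_co_h36.G4431E2
import Pool.Agent.Work.MP_92a29d_co_h36.G4431N1
import Pool.Agent.Work.MP_92a29d_co_h36.G4431N3
import Pool.Agent.Work.MP_92a29d_co_h36.G4431N5
import Pool.Agent.Work.MP_92a29d_co_h36.G4431N7
import Pool.Agent.Work.MP_92a29d_co_h36.G4431N9

/-!
(4,4,3,1): both classes with `m = 4` have three consecutive single levels.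
-/

namespace Pool.Agent.Work.MP_92a29d_co.Place

open SimpleGraph Finset Pool.Agent.Work.MP_92a29d_co_h45

variable {V : Type*} [Fintype V] [DecidableEq V]

/-- class data -/
def cdM : CD := genCD 4 true

theorem cdM_e1 : g4431E1_c0 = cdM ∧ g4431E1_c1 = cdM ∧ g4431E2_c0 = cdM ∧ g4431E2_c1 = cdM := by
  decide +kernel
theorem cdM_n1 : g4431N1_c0 = cdM ∧ g4431N1_c1 = cdM ∧ g4431N3_c0 = cdM ∧ g4431N3_c1 = cdM ∧
    g4431N5_c0 = cdM ∧ g4431N5_c1 = cdM ∧ g4431N7_c0 = cdM ∧ g4431N7_c1 = cdM ∧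
    g4431N9_c0 = cdM ∧ g4431N9_c1 = cdM := by
  decide +kernel
theorem cdM_d : ∀ a < 11, cdM.d a = 0 ↔ a = 0 := by decide +kernel
theorem cdM_odd : ∀ a < 11, cdM.d a = 1 ↔ a % 2 = 1 := by decide +kernel
theorem cdM_lt : ∀ a < 11, cdM.d a < 3 := by decide +kernel
theorem cdM_neg : ∀ x : ZMod 11, cdM.d x.val = 2 → cdM.d (-x).val = 1 := by decide +kernel

/-- the special vertices are equal; the vertex on level 1 of class 0 is on the odd side of class 1 -/
theorem aux_4431E (hV : Fintype.card V = 17) {G : Fin 4 → SimpleGraph V}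
    (hcov : Cover V ![4, 4, 3, 1] G) (hα : ∀ i, AlphaEight (G i))
    {f0 : V → ZMod (2 * 4 + 3)} (h0 : CycHom (G 0) (2 * 4 + 3) f0) {j0 : ZMod (2 * 4 + 3)}
    (hj0 : ProfM f0 j0)
    {f1 : V → ZMod (2 * 4 + 3)} (h1 : CycHom (G 1) (2 * 4 + 3) f1) {j1 : ZMod (2 * 4 + 3)}
    (hj1 : ProfM f1 j1) {v a1 a2 : V} (hv0 : ∀ u, f0 u = j0 ↔ u = v)
    (hv1 : ∀ u, f1 u = j1 ↔ u = v) (ha1 : ∀ u, f0 u = j0 + 1 ↔ u = a1)
    (ha2 : ∀ u, f0 u = j0 - 1 ↔ u = a2) (hd : cdM.d (f1 a1 - j1).val = 1)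
    (hU1 : ∀ M, ¬ IsModelX g4431E1_J0 M) (hU2 : ∀ M, ¬ IsModelX g4431E2_J0 M) : False := by
  have hc0 : ClsOK cdM (G 0) (fun u => (f0 u - j0).val) := clsOK_mid hV h0 (hα 0) hj0
  have hc1 : ClsOK cdM (G 1) (fun u => (f1 u - j1).val) := clsOK_mid hV h1 (hα 1) hj1
  have l0 : ∀ u, (f0 u - j0).val < 11 := fun u => ZMod.val_lt (f0 u - j0)
  have l1 : ∀ u, (f1 u - j1).val < 11 := fun u => ZMod.val_lt (f1 u - j1)
  have z0 : ∀ u, cdM.d (f0 u - j0).val = 0 ↔ u = v := by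
    intro u
    rw [cdM_d _ (l0 u), val_eq_zero_iff']
    exact hv0 u
  have z1 : ∀ u, cdM.d (f1 u - j1).val = 0 ↔ u = v := by
    intro u
    rw [cdM_d _ (l1 u), val_eq_zero_iff']
    exact hv1 u
  have hconf := Conf.of_two (m := ![4, 4, 3, 1]) (rel := [(0, 1, 0), (1, 0, 0)]) hcov hc0 hc1 (by
    intro r hr u hu
    simp only [List.mem_cons, List.not_mem_nil, or_false] at hr
    rcases hr with rfl | rfl
    · have h2 : u = v := (z0 u).1 hu
      change (f1 u - j1).val = 0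
      rw [h2, (hv1 v).2 rfl, sub_self, ZMod.val_zero]
    · have h2 : u = v := (z1 u).1 hu
      change (f0 u - j0).val = 0
      rw [h2, (hv0 v).2 rfl, sub_self, ZMod.val_zero])
  have hcard : (univ.filter fun u => cdM.d (f0 u - j0).val = 0).card = 1 := by
    rw [Finset.card_eq_one]
    refine ⟨v, ?_⟩
    ext u
    rw [mem_filter, mem_singleton]
    exact ⟨fun h => (z0 u).1 h.2, fun h => ⟨mem_univ _, (z0 u).2 h⟩⟩
  have hvz : ∀ u, cdM.d (f1 u - j1).val = 0 ↔ cdM.d (f0 u - j0).val = 0 :=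
    fun u => (z1 u).trans (z0 u).symm
  have hne2 : a2 ≠ v := by
    intro h
    have e1 := (ha2 a2).2 rfl
    rw [h, (hv0 v).2 rfl] at e1
    have : (1 : ZMod (2 * 4 + 3)) = 0 := by linear_combination e1
    exact absurd this (by decide)
  have hx : cdM.d (f1 a2 - j1).val = 1 ∨ cdM.d (f1 a2 - j1).val = 2 := by
    have := cdM_lt _ (l1 a2)
    have h2 : cdM.d (f1 a2 - j1).val ≠ 0 := fun h => hne2 ((z1 a2).1 h)
    omega
  have hanc : Anchors cdM cdM (xs (fun u => (f0 u - j0).val) (fun u => (f1 u - j1).val)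
      (fun u => (f1 u - j1).val)) a1 a2 (cdM.d (f1 a2 - j1).val) 10 := by
    refine ⟨hx, by decide +kernel, by decide +kernel, ?_, ?_, hd, rfl⟩
    · intro u
      rw [← ha1 u]
      change (f0 u - j0).val = 1 ↔ _
      have e : (1 : ZMod (2 * 4 + 3)).val = 1 := by decide
      constructor
      · intro h
        have h2 : f0 u - j0 = 1 := ZMod.val_injective _ (h.trans e.symm)
        linear_combination h2
      · intro h
        rw [h, add_sub_cancel_left, e]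
    · intro u
      rw [← ha2 u]
      change (f0 u - j0).val = 10 ↔ _
      have e : (-1 : ZMod (2 * 4 + 3)).val = 10 := by decide
      constructor
      · intro h
        have h2 : f0 u - j0 = -1 := ZMod.val_injective _ (h.trans e.symm)
        linear_combination h2
      · intro h
        rw [h, show j0 - 1 - j0 = (-1 : ZMod (2 * 4 + 3)) by ring, e]
  rcases hx with hx | hx
  · rw [hx] at hanc
    have hfam := g4431E1_fam
    rw [cdM_e1.1, cdM_e1.2.1] at hfam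
    obtain ⟨Is, hIs, J, hJ, M, hM⟩ := Conf.exists_instTwo hfam hV hconf hα hcard hvz hanc
    rw [List.mem_singleton] at hIs
    subst hIs
    rw [List.mem_singleton] at hJ
    subst hJ
    exact hU1 M hM
  · rw [hx] at hanc
    have hfam := g4431E2_fam
    rw [cdM_e1.2.2.1, cdM_e1.2.2.2] at hfam
    obtain ⟨Is, hIs, J, hJ, M, hM⟩ := Conf.exists_instTwo hfam hV hconf hα hcard hvz hanc
    rw [List.mem_singleton] at hIs
    subst hIs
    rw [List.mem_singleton] at hJ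
    subst hJ
    exact hU2 M hM

/-- different special vertices, normalised -/
theorem aux_4431N (hV : Fintype.card V = 17) {G : Fin 4 → SimpleGraph V}
    (hcov : Cover V ![4, 4, 3, 1] G) (hα : ∀ i, AlphaEight (G i))
    {f0 : V → ZMod (2 * 4 + 3)} (h0 : CycHom (G 0) (2 * 4 + 3) f0) {j0 : ZMod (2 * 4 + 3)}
    (hj0 : ProfM f0 j0)
    {f1 : V → ZMod (2 * 4 + 3)} (h1 : CycHom (G 1) (2 * 4 + 3) f1) {j1 : ZMod (2 * 4 + 3)}
    (hj1 : ProfM f1 j1) {v0 v1 : V} (hv0 : ∀ u, f0 u = j0 ↔ u = v0)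
    (hv1 : ∀ u, f1 u = j1 ↔ u = v1) (hd0 : cdM.d (f0 v1 - j0).val = 1)
    (hd1 : cdM.d (f1 v0 - j1).val = 1) (hle : (f1 v0 - j1).val ≤ (f0 v1 - j0).val)
    (hN1 : ∀ M, ¬ IsModelX g4431N1_J0 M) (hN3 : ∀ M, ¬ IsModelX g4431N3_J0 M)
    (hN5 : ∀ M, ¬ IsModelX g4431N5_J0 M) (hN7 : ∀ M, ¬ IsModelX g4431N7_J0 M)
    (hN9 : ∀ M, ¬ IsModelX g4431N9_J0 M) : False := by
  have hc0 : ClsOK cdM (G 0) (fun u => (f0 u - j0).val) := clsOK_mid hV h0 (hα 0) hj0
  have hc1 : ClsOK cdM (G 1) (fun u => (f1 u - j1).val) := clsOK_mid hV h1 (hα 1) hj1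
  have l0 : ∀ u, (f0 u - j0).val < 11 := fun u => ZMod.val_lt (f0 u - j0)
  have l1 : ∀ u, (f1 u - j1).val < 11 := fun u => ZMod.val_lt (f1 u - j1)
  have z0 : ∀ u, cdM.d (f0 u - j0).val = 0 ↔ u = v0 := by
    intro u
    rw [cdM_d _ (l0 u), val_eq_zero_iff']
    exact hv0 u
  have z1 : ∀ u, cdM.d (f1 u - j1).val = 0 ↔ u = v1 := by
    intro u
    rw [cdM_d _ (l1 u), val_eq_zero_iff']
    exact hv1 u
  have hconf := Conf.of_two (m := ![4, 4, 3, 1]) (rel := []) hcov hc0 hc1 (by simp)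
  have o0 := (cdM_odd _ (l0 v1)).1 hd0
  have o1 := (cdM_odd _ (l1 v0)).1 hd1
  have m0 := l0 v1
  have m1 := l1 v0
  -- the step
  have step : ∀ {T : Spec2} {b : ℕ} {ls : List ℕ} {F : List Fact} {J : InstX},
      famNe T cdM cdM ![4, 4, 3, 1] b ls F [[J]] = true → (f1 v0 - j1).val = b →
      (f0 v1 - j0).val ∈ ls → (∀ M, ¬ IsModelX J M) → False := by
    intro T b ls F J hfam hb hl hU
    obtain ⟨Is, hIs, J', hJ, M, hM⟩ := Conf.exists_instNe hfam hV hconf hα z0 z1 hd0 hd1 hb hl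
    rw [List.mem_singleton] at hIs
    subst hIs
    rw [List.mem_singleton] at hJ
    subst hJ
    exact hU M hM
  obtain ⟨n1, n2, n3, n4, n5, n6, n7, n8, n9, n10⟩ := cdM_n1
  have hm : ∀ x : ℕ, x = (f0 v1 - j0).val → x % 2 = 1 → x < 11 → (f1 v0 - j1).val ≤ x → False := by
    intro x hx hx1 hx2 hx3
    have hb : (f1 v0 - j1).val = 1 ∨ (f1 v0 - j1).val = 3 ∨ (f1 v0 - j1).val = 5 ∨
        (f1 v0 - j1).val = 7 ∨ (f1 v0 - j1).val = 9 := by omega
    rcases hb with hb | hb | hb | hb | hb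
    · have hfam := g4431N1_fam
      rw [n1, n2] at hfam
      refine step hfam hb ?_ hN1
      rw [← hx]
      simp only [List.mem_cons, List.not_mem_nil, or_false]
      omega
    · have hfam := g4431N3_fam
      rw [n3, n4] at hfam
      refine step hfam hb ?_ hN3
      rw [← hx]
      simp only [List.mem_cons, List.not_mem_nil, or_false]
      omega
    · have hfam := g4431N5_fam
      rw [n5, n6] at hfam
      refine step hfam hb ?_ hN5
      rw [← hx]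
      simp only [List.mem_cons, List.not_mem_nil, or_false]
      omega
    · have hfam := g4431N7_fam
      rw [n7, n8] at hfam
      refine step hfam hb ?_ hN7
      rw [← hx]
      simp only [List.mem_cons, List.not_mem_nil, or_false]
      omega
    · have hfam := g4431N9_fam
      rw [n9, n10] at hfam
      refine step hfam hb ?_ hN9
      rw [← hx]
      simp only [List.mem_cons, List.not_mem_nil, or_false]
      omega
  exact hm _ rfl o0 m0 hle

theorem ProfM.sub_eq {f : V → ZMod (2 * 4 + 3)} {x j : ZMod (2 * 4 + 3)} : -x - -j = -(x - j) := by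
  ring

/-- (4,4,3,1), both classes of type M -/
theorem case_4431MM (hV : Fintype.card V = 17) {G : Fin 4 → SimpleGraph V}
    (hcov : Cover V ![4, 4, 3, 1] G)
    {f0 : V → ZMod (2 * 4 + 3)} (h0 : CycHom (G 0) (2 * 4 + 3) f0) {j0 : ZMod (2 * 4 + 3)}
    (hj0 : ProfM f0 j0)
    {f1 : V → ZMod (2 * 4 + 3)} (h1 : CycHom (G 1) (2 * 4 + 3) f1) {j1 : ZMod (2 * 4 + 3)}
    (hj1 : ProfM f1 j1)
    (hE1 : ∀ M, ¬ IsModelX g4431E1_J0 M) (hE2 : ∀ M, ¬ IsModelX g4431E2_J0 M)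
    (hN1 : ∀ M, ¬ IsModelX g4431N1_J0 M) (hN3 : ∀ M, ¬ IsModelX g4431N3_J0 M)
    (hN5 : ∀ M, ¬ IsModelX g4431N5_J0 M) (hN7 : ∀ M, ¬ IsModelX g4431N7_J0 M)
    (hN9 : ∀ M, ¬ IsModelX g4431N9_J0 M) : False := by
  have hα := tuple_4431.alphaEight hcov
  have one : ∀ (f : V → ZMod (2 * 4 + 3)) (j : ZMod (2 * 4 + 3)), lsize f j = 1 →
      ∃ v, ∀ u, f u = j ↔ u = v := by
    intro f j hj
    obtain ⟨v, hv, hvu⟩ := exists_of_single hj
    exact ⟨v, fun u => ⟨hvu u, fun h => by rw [h, hv]⟩⟩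
  have hneg : ∀ x j : ZMod (2 * 4 + 3), -x - -j = -(x - j) := fun x j => by ring
  obtain ⟨v0, hv0⟩ := one f0 j0 hj0.2.1
  obtain ⟨v1, hv1⟩ := one f1 j1 hj1.2.1
  by_cases hv : v0 = v1
  · subst hv
    obtain ⟨a1, ha1⟩ := one f0 (j0 + 1) hj0.2.2
    obtain ⟨a2, ha2⟩ := one f0 (j0 - 1) hj0.1
    have l1 : (f1 a1 - j1).val < 11 := ZMod.val_lt (f1 a1 - j1)
    have hne : a1 ≠ v0 := by
      intro h
      have e1 := (ha1 a1).2 rfl
      rw [h, (hv0 v0).2 rfl] at e1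
      have : (1 : ZMod (2 * 4 + 3)) = 0 := by linear_combination -e1
      exact absurd this (by decide)
    have hx : cdM.d (f1 a1 - j1).val = 1 ∨ cdM.d (f1 a1 - j1).val = 2 := by
      have := cdM_lt _ l1
      have h2 : cdM.d (f1 a1 - j1).val ≠ 0 := by
        intro h
        rw [cdM_d _ l1, val_eq_zero_iff'] at h
        exact hne ((hv1 a1).1 h)
      omega
    rcases hx with hx | hx
    · exact aux_4431E hV hcov hα h0 hj0 h1 hj1 hv0 hv1 ha1 ha2 hx hE1 hE2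
    · refine aux_4431E hV hcov hα h0 hj0 (f1 := fun u => - f1 u) h1.reflect (j1 := -j1) hj1.neg
        hv0 ?_ ha1 ha2 ?_ hE1 hE2
      · intro u
        rw [neg_inj]
        exact hv1 u
      · rw [hneg]
        exact cdM_neg _ hx
  · -- different special vertices
    have main : ∀ {G : Fin 4 → SimpleGraph V}, Cover V ![4, 4, 3, 1] G →
        ∀ {f0 : V → ZMod (2 * 4 + 3)}, CycHom (G 0) (2 * 4 + 3) f0 →
        ∀ {j0 : ZMod (2 * 4 + 3)}, ProfM f0 j0 →
        ∀ {f1 : V → ZMod (2 * 4 + 3)}, CycHom (G 1) (2 * 4 + 3) f1 →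
        ∀ {j1 : ZMod (2 * 4 + 3)}, ProfM f1 j1 → ∀ {v0 v1 : V}, (∀ u, f0 u = j0 ↔ u = v0) →
        (∀ u, f1 u = j1 ↔ u = v1) → cdM.d (f0 v1 - j0).val = 1 →
        cdM.d (f1 v0 - j1).val = 1 → False := by
      intro G hcov f0 h0 j0 hj0 f1 h1 j1 hj1 v0 v1 hv0 hv1 hd0 hd1
      have hα := tuple_4431.alphaEight hcov
      rcases le_total (f1 v0 - j1).val (f0 v1 - j0).val with hle | hle
      · exact aux_4431N hV hcov hα h0 hj0 h1 hj1 hv0 hv1 hd0 hd1 hle hN1 hN3 hN5 hN7 hN9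
      · exact aux_4431N hV (Cover.swap01 hcov) (fun i => hα _) (f0 := f1) h1 hj1 (f1 := f0) h0 hj0
          hv1 hv0 hd1 hd0 hle hN1 hN3 hN5 hN7 hN9
    have hx0 : cdM.d (f0 v1 - j0).val = 1 ∨ cdM.d (f0 v1 - j0).val = 2 := by
      have l0 : (f0 v1 - j0).val < 11 := ZMod.val_lt (f0 v1 - j0)
      have := cdM_lt _ l0
      have h2 : cdM.d (f0 v1 - j0).val ≠ 0 := by
        intro h
        rw [cdM_d _ l0, val_eq_zero_iff'] at h
        exact hv ((hv0 v1).1 h).symm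
      omega
    have hx1 : cdM.d (f1 v0 - j1).val = 1 ∨ cdM.d (f1 v0 - j1).val = 2 := by
      have l1 : (f1 v0 - j1).val < 11 := ZMod.val_lt (f1 v0 - j1)
      have := cdM_lt _ l1
      have h2 : cdM.d (f1 v0 - j1).val ≠ 0 := by
        intro h
        rw [cdM_d _ l1, val_eq_zero_iff'] at h
        exact hv ((hv1 v0).1 h)
      omega
    have hv0' : ∀ u, -f0 u = -j0 ↔ u = v0 := fun u => by rw [neg_inj]; exact hv0 u
    have hv1' : ∀ u, -f1 u = -j1 ↔ u = v1 := fun u => by rw [neg_inj]; exact hv1 u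
    rcases hx0 with hx0 | hx0
    · rcases hx1 with hx1 | hx1
      · exact main hcov h0 hj0 h1 hj1 hv0 hv1 hx0 hx1
      · exact main hcov h0 hj0 (f1 := fun u => - f1 u) h1.reflect (j1 := -j1) hj1.neg hv0 hv1'
          hx0 (by rw [hneg]; exact cdM_neg _ hx1)
    · rcases hx1 with hx1 | hx1
      · exact main hcov (f0 := fun u => - f0 u) h0.reflect (j0 := -j0) hj0.neg h1 hj1 hv0' hv1
          (by rw [hneg]; exact cdM_neg _ hx0) hx1
      · exact main hcov (f0 := fun u => - f0 u) h0.reflect (j0 := -j0) hj0.neg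
          (f1 := fun u => - f1 u) h1.reflect (j1 := -j1) hj1.neg hv0' hv1'
          (by rw [hneg]; exact cdM_neg _ hx0) (by rw [hneg]; exact cdM_neg _ hx1)

/-- **(4,4,3,1)** from the finite computations -/
theorem case_4431_all (hV : Fintype.card V = 17) {G : Fin 4 → SimpleGraph V}
    (hcov : Cover V ![4, 4, 3, 1] G)
    (hJ : ∀ J ∈ [h4431PP0_J0, h4431PP1_J0, h4431PP2_J0, h4431PP3_J0, h4431PP4_J0, h4431PP5_J0,
      h4431MP0_J0, h4431MP1_J0, h4431MP2_J0, h4431MP3_J0, h4431MP4_J0, h4431MP5_J0],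
      ∀ M, ¬ IsModelX J M)
    (hE1 : ∀ M, ¬ IsModelX g4431E1_J0 M) (hE2 : ∀ M, ¬ IsModelX g4431E2_J0 M)
    (hN1 : ∀ M, ¬ IsModelX g4431N1_J0 M) (hN3 : ∀ M, ¬ IsModelX g4431N3_J0 M)
    (hN5 : ∀ M, ¬ IsModelX g4431N5_J0 M) (hN7 : ∀ M, ¬ IsModelX g4431N7_J0 M)
    (hN9 : ∀ M, ¬ IsModelX g4431N9_J0 M) : False :=
  case_4431 hV hcov (fun hcov _ h0 _ hj0 _ h1 _ hj1 =>
    case_4431MM hV hcov h0 hj0 h1 hj1 hE1 hE2 hN1 hN3 hN5 hN7 hN9) hJ

end Pool.Agent.Work.MP_92a29d_co.Place
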