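import Pool.Agent.Work.MP_92a29d_co_h36.CPairs
import Pool.Agent.Work.MP_92a29d_co_h36.G7331x1
import Pool.Agent.Work.MP_92a29d_co_h36.G7331x2
import Pool.Agent.Work.MP_92a29d_co_h16.Dense

/-!
(7,3,3,1): reduction to two instances.
-/

namespace Pool.Agent.Work.MP_92a29d_co.Place

open SimpleGraph Finset Pool.Agent.Work.MP_92a29d_co_h45

variable {V : Type*} [Fintype V] [DecidableEq V]

theorem tuple_7331 : Tuple4 7 3 3 1 :=
  ⟨by norm_num, by norm_num, by norm_num, by norm_num, by unfold Good3; omega⟩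

/-- data of the first class -/
def cd7 : CD := genCD 7 false
/-- data of the second class -/
def cd3 : CD := genCD 3 false

theorem cd7_eq1 : g7331x1_c0 = cd7 := by decide +kernel
theorem cd7_eq2 : g7331x2_c0 = cd7 := by decide +kernel
theorem cd3_eq1 : g7331x1_c1 = cd3 := by decide +kernel
theorem cd3_eq2 : g7331x2_c1 = cd3 := by decide +kernel
theorem cd7_d : ∀ a < 17, cd7.d a = 0 ↔ a = 0 := by decide +kernel
theorem cd3_d : ∀ a < 9, cd3.d a = 0 ↔ a = 0 := by decide +kernel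
theorem cd3_lt : ∀ a < 9, cd3.d a < 3 := by decide +kernel

theorem aux_7331 (hV : Fintype.card V = 17) {G : Fin 4 → SimpleGraph V}
    (hcov : Cover V ![7, 3, 3, 1] G) (hα : ∀ i, AlphaEight (G i))
    {f0 : V → ZMod (2 * 7 + 3)} (h0 : CycHom (G 0) (2 * 7 + 3) f0)
    {f1 : V → ZMod (2 * 3 + 3)} (h1 : CycHom (G 1) (2 * 3 + 3) f1)
    {v a1 a2 : V} (hv : ∀ u, f1 u = f1 v → u = v)
    (ha1 : f0 a1 = f0 v + 1) (ha2 : f0 a2 = f0 v + (16 : ℕ))
    (hd : cd3.d (f1 a1 - f1 v).val = 1)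
    (hU1 : ∀ M, ¬ IsModelX g7331x1_J0 M) (hU2 : ∀ M, ¬ IsModelX g7331x2_J0 M) : False := by
  have hs0 := lsize_seven hV h0 (hα 0)
  have hinj : ∀ u w, f0 u = f0 w → u = w := by
    intro u w huw
    obtain ⟨z, hz, hzu⟩ := exists_of_single (hs0 (f0 w))
    rw [hzu u huw, hzu w rfl]
  have hj1 : lsize f1 (f1 v) = 1 := by
    rw [lsize_eq, Finset.card_eq_one]
    refine ⟨v, ?_⟩
    ext u
    rw [mem_filter, mem_singleton]
    exact ⟨fun h => hv u h.2, fun h => ⟨mem_univ _, by rw [h]⟩⟩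
  have hc0 : ClsOK cd7 (G 0) (fun u => (f0 u - f0 v).val) := clsOK_gen hV h0 (hα 0) (hs0 _)
  have hc1 : ClsOK cd3 (G 1) (fun u => (f1 u - f1 v).val) := clsOK_gen hV h1 (hα 1) hj1
  have l0 : ∀ u, (f0 u - f0 v).val < 17 := fun u => ZMod.val_lt _
  have l1 : ∀ u, (f1 u - f1 v).val < 9 := fun u => ZMod.val_lt _
  have z0 : ∀ u, cd7.d (f0 u - f0 v).val = 0 ↔ u = v := by
    intro u
    rw [cd7_d _ (l0 u), val_eq_zero_iff']
    exact ⟨hinj u v, fun h => by rw [h]⟩
  have z1 : ∀ u, cd3.d (f1 u - f1 v).val = 0 ↔ u = v := by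
    intro u
    rw [cd3_d _ (l1 u), val_eq_zero_iff']
    exact ⟨hv u, fun h => by rw [h]⟩
  have hconf := Conf.of_two (m := ![7, 3, 3, 1]) (rel := [(0, 1, 0), (1, 0, 0)]) hcov hc0 hc1 (by
    intro r hr u hu
    simp only [List.mem_cons, List.not_mem_nil, or_false] at hr
    rcases hr with rfl | rfl
    · have h2 : u = v := (z0 u).1 hu
      change (f1 u - f1 v).val = 0
      rw [h2, sub_self, ZMod.val_zero]
    · have h2 : u = v := (z1 u).1 hu
      change (f0 u - f0 v).val = 0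
      rw [h2, sub_self, ZMod.val_zero])
  have hcard : (univ.filter fun u => cd7.d (f0 u - f0 v).val = 0).card = 1 := by
    rw [Finset.card_eq_one]
    refine ⟨v, ?_⟩
    ext u
    rw [mem_filter, mem_singleton]
    exact ⟨fun h => (z0 u).1 h.2, fun h => ⟨mem_univ _, (z0 u).2 h⟩⟩
  have hvz : ∀ u, cd3.d (f1 u - f1 v).val = 0 ↔ cd7.d (f0 u - f0 v).val = 0 :=
    fun u => (z1 u).trans (z0 u).symm
  have hne2 : a2 ≠ v := by
    rintro rfl
    have : ((16 : ℕ) : ZMod (2 * 7 + 3)) = 0 := by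
      have := ha2
      rw [eq_comm, add_eq_left] at this
      exact this
    exact absurd this (by decide)
  have e1 : (f0 a1 - f0 v).val = 1 := by
    rw [ha1, add_sub_cancel_left]
    rfl
  have e2 : (f0 a2 - f0 v).val = 16 := by
    rw [ha2, add_sub_cancel_left]
    rfl
  have hx : cd3.d (f1 a2 - f1 v).val = 1 ∨ cd3.d (f1 a2 - f1 v).val = 2 := by
    have := cd3_lt _ (l1 a2)
    have h2 : cd3.d (f1 a2 - f1 v).val ≠ 0 := fun h => hne2 ((z1 a2).1 h)
    omega
  have hanc : Anchors cd7 cd3 (xs (fun u => (f0 u - f0 v).val) (fun u => (f1 u - f1 v).val)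
      (fun u => (f1 u - f1 v).val)) a1 a2 (cd3.d (f1 a2 - f1 v).val) 16 := by
    refine ⟨hx, by decide +kernel, by decide +kernel, ?_, ?_, hd, rfl⟩
    · intro u
      change (f0 u - f0 v).val = 1 ↔ u = a1
      constructor
      · intro h
        rw [← e1] at h
        have := ZMod.val_injective _ h
        exact hinj u a1 (by linear_combination this)
      · intro h
        rw [h, e1]
    · intro u
      change (f0 u - f0 v).val = 16 ↔ u = a2
      constructor
      · intro h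
        rw [← e2] at h
        have := ZMod.val_injective _ h
        exact hinj u a2 (by linear_combination this)
      · intro h
        rw [h, e2]
  rcases hx with hx | hx
  · rw [hx] at hanc
    have hfam := g7331x1_fam
    rw [cd7_eq1, cd3_eq1] at hfam
    obtain ⟨Is, hIs, J, hJ, M, hM⟩ := Conf.exists_instTwo hfam hV hconf hα hcard hvz hanc
    rw [List.mem_singleton] at hIs
    subst hIs
    rw [List.mem_singleton] at hJ
    subst hJ
    exact hU1 M hM
  · rw [hx] at hanc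
    have hfam := g7331x2_fam
    rw [cd7_eq2, cd3_eq2] at hfam
    obtain ⟨Is, hIs, J, hJ, M, hM⟩ := Conf.exists_instTwo hfam hV hconf hα hcard hvz hanc
    rw [List.mem_singleton] at hIs
    subst hIs
    rw [List.mem_singleton] at hJ
    subst hJ
    exact hU2 M hM

theorem cd3_neg : ∀ x : ZMod 9, cd3.d x.val = 2 → cd3.d (-x).val = 1 := by decide +kernel

theorem aux_7331' (hV : Fintype.card V = 17) {G : Fin 4 → SimpleGraph V}
    (hcov : Cover V ![7, 3, 3, 1] G) (hα : ∀ i, AlphaEight (G i))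
    {f1 : V → ZMod (2 * 3 + 3)} (h1 : CycHom (G 1) (2 * 3 + 3) f1)
    (hU1 : ∀ M, ¬ IsModelX g7331x1_J0 M) (hU2 : ∀ M, ¬ IsModelX g7331x2_J0 M) : False := by
  obtain ⟨f0, h0⟩ := cycHom_of_four_le hV (m := 7) (by norm_num) (hα 0)
    (fun v p hp => hcov.girth 0 v p hp)
  obtain ⟨j, hj, _⟩ := profile_three hV h1 (hα 1)
  obtain ⟨v, hv, hvu⟩ := exists_of_single hj
  have hs0 := lsize_seven hV h0 (hα 0)
  obtain ⟨a1, ha1, _⟩ := exists_of_single (hs0 (f0 v + 1))
  obtain ⟨a2, ha2, _⟩ := exists_of_single (hs0 (f0 v + (16 : ℕ)))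
  have hvu' : ∀ u, f1 u = f1 v → u = v := fun u hu => hvu u (hu.trans hv)
  have hne1 : a1 ≠ v := by
    rintro rfl
    have := ha1
    rw [eq_comm, add_eq_left] at this
    exact absurd this (by decide)
  have hlt : (f1 a1 - f1 v).val < 9 := ZMod.val_lt _
  have hx : cd3.d (f1 a1 - f1 v).val = 1 ∨ cd3.d (f1 a1 - f1 v).val = 2 := by
    have := cd3_lt _ hlt
    have h2 : cd3.d (f1 a1 - f1 v).val ≠ 0 := by
      intro h
      rw [cd3_d _ hlt, val_eq_zero_iff'] at h
      exact hne1 (hvu' a1 h)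
    omega
  rcases hx with hx | hx
  · exact aux_7331 hV hcov hα h0 h1 hvu' ha1 ha2 hx hU1 hU2
  · refine aux_7331 hV hcov hα h0 (f1 := fun u => - f1 u) h1.reflect ?_ ha1 ha2 ?_ hU1 hU2
    · intro u hu
      exact hvu' u (neg_injective hu)
    · have := cd3_neg _ hx
      have e : (-f1 a1 - -f1 v : ZMod (2 * 3 + 3)) = -(f1 a1 - f1 v) := by ring
      rw [e]
      exact this

/-- exchange of the classes 1 and 2 -/
theorem Cover.swap12 {G : Fin 4 → SimpleGraph V} (hcov : Cover V ![7, 3, 3, 1] G) :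
    Cover V ![7, 3, 3, 1] (fun i => G (Equiv.swap 1 2 i)) := by
  refine ⟨?_, ?_⟩
  · intro u v huv
    obtain ⟨i, hi⟩ := hcov.cov u v huv
    refine ⟨Equiv.swap 1 2 i, ?_⟩
    rw [Equiv.swap_apply_self]
    exact hi
  · intro i v p hp
    have h : ∀ i : Fin 4, (![7, 3, 3, 1] : Fin 4 → ℕ) (Equiv.swap 1 2 i) =
        (![7, 3, 3, 1] : Fin 4 → ℕ) i := by decide
    have := hcov.girth (Equiv.swap 1 2 i) v p hp
    rw [h] at this
    exact this

/-- **(7,3,3,1)**, from the two finite computations -/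
theorem case_7331 (hV : Fintype.card V = 17) {G : Fin 4 → SimpleGraph V}
    (hcov : Cover V ![7, 3, 3, 1] G)
    (hU1 : ∀ M, ¬ IsModelX g7331x1_J0 M) (hU2 : ∀ M, ¬ IsModelX g7331x2_J0 M) : False := by
  have hα := tuple_7331.alphaEight hcov
  rcases cycHom_or_exc hV (hα 1) (fun v p hp => hcov.girth 1 v p hp) with ⟨f1, h1⟩ | hE1
  · exact aux_7331' hV hcov hα h1 hU1 hU2
  · rcases cycHom_or_exc hV (hα 2) (fun v p hp => hcov.girth 2 v p hp) with ⟨f2, h2⟩ | hE2
    · refine aux_7331' hV (Cover.swap12 hcov) (fun i => hα _) (f1 := f2) ?_ hU1 hU2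
      have e : (Equiv.swap 1 2 (1 : Fin 4)) = 2 := by decide
      rw [e]
      exact h2
    · exact not_two_exc hV hcov hα hE1 hE2

end Pool.Agent.Work.MP_92a29d_co.Place
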