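import Pool.Agent.Work.MP_92a29d_co_h36.CG4322M
import Pool.Agent.Work.MP_92a29d_co_h36.G4322P

/-!
(4,3,2,2), the class with `m = 4` has the profile (1,1,2,2,1,1,2,2,1,2,2); this is the only coded class.
-/

namespace Pool.Agent.Work.MP_92a29d_co.Place

open SimpleGraph Finset Pool.Agent.Work.MP_92a29d_co_h45

variable {V : Type*} [Fintype V] [DecidableEq V]

theorem g4322P_zero : ∀ a < 11, g4322P_c0.d a = 0 → a = 0 := by decide

omit [DecidableEq V] in
theorem card_zero_g4322P {X : V → ℕ} {G : SimpleGraph V} (h : ClsOK g4322P_c0 G X) :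
    (univ.filter fun u => g4322P_c0.d (X u) = 0).card = 1 := by
  have e1 : (univ.filter fun u => g4322P_c0.d (X u) = 0) = univ.filter fun u => X u = 0 := by
    apply Finset.filter_congr
    intro u _
    constructor
    · intro h1
      exact g4322P_zero _ (h.lt u) h1
    · intro h1
      rw [h1]
      rfl
  rw [e1]
  have h2 := h.bds 0 (by decide)
  have h3 : g4322P_c0.lo 0 = 1 := by decide
  have h4 : g4322P_c0.hi 0 = 1 := by decide
  rw [h3, h4] at h2
  omega

/-- the profile -/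
def ProfP (f : V → ZMod (2 * 4 + 3)) (j : ZMod (2 * 4 + 3)) : Prop :=
  lsize f j = 1 ∧ lsize f (j + 1) = 1 ∧ lsize f (j + 2) = 2 ∧ lsize f (j + 3) = 2 ∧
      lsize f (j + 4) = 1 ∧ lsize f (j + 5) = 1 ∧ lsize f (j + 6) = 2 ∧ lsize f (j + 7) = 2 ∧
      lsize f (j + 8) = 1 ∧ lsize f (j + 9) = 2 ∧ lsize f (j + 10) = 2

theorem clsOK_P {G : SimpleGraph V} {f : V → ZMod (2 * 4 + 3)} (hf : CycHom G (2 * 4 + 3) f)
    {j : ZMod (2 * 4 + 3)} (hj : ProfP f j) :
    ClsOK g4322P_c0 G (fun u => (f u - j).val) := by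
  refine clsOK_level hf j rfl (by decide) ?_
  intro a ha
  obtain ⟨h0, h1, h2, h3, h4, h5, h6, h7, h8, h9, h10⟩ := hj
  have e : ∀ (b k : ℕ), lsize f (j + (b : ZMod (2 * 4 + 3))) = k → g4322P_c0.lo b = k →
      g4322P_c0.hi b = k → g4322P_c0.lo b ≤ lsize f (j + (b : ZMod (2 * 4 + 3))) ∧
        lsize f (j + (b : ZMod (2 * 4 + 3))) ≤ g4322P_c0.hi b := by
    intro b k e1 e2 e3
    rw [e1, e2, e3]
    exact ⟨le_rfl, le_rfl⟩
  have ha' : a < 11 := ha
  interval_cases a
  · exact e 0 1 (by rw [Nat.cast_zero, add_zero]; exact h0) (by decide) (by decide)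
  · exact e 1 1 (by rw [Nat.cast_one]; exact h1) (by decide) (by decide)
  · exact e 2 2 h2 (by decide) (by decide)
  · exact e 3 2 h3 (by decide) (by decide)
  · exact e 4 1 h4 (by decide) (by decide)
  · exact e 5 1 h5 (by decide) (by decide)
  · exact e 6 2 h6 (by decide) (by decide)
  · exact e 7 2 h7 (by decide) (by decide)
  · exact e 8 1 h8 (by decide) (by decide)
  · exact e 9 2 h9 (by decide) (by decide)
  · exact e 10 2 h10 (by decide) (by decide)

theorem case_4322P (hV : Fintype.card V = 17)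
    {G : Fin 4 → SimpleGraph V} (hcov : Cover V ![4, 3, 2, 2] G)
    {f0 : V → ZMod (2 * 4 + 3)} (h0 : CycHom (G 0) (2 * 4 + 3) f0) {j0 : ZMod (2 * 4 + 3)}
    (hj0 : ProfP f0 j0) (hU : ∀ M, ¬ IsModelX g4322P_J0 M) : False := by
  have hα := tuple_4322.alphaEight hcov
  have hc0 := clsOK_P h0 hj0
  have hconf := Conf.of_one (m := ![4, 3, 2, 2]) hcov hc0
  obtain ⟨Is, hIs, J, hJ, M, hM⟩ := Conf.exists_instOne g4322P_fam hV hconf hα
    (card_zero_g4322P hc0)
  rw [List.mem_singleton] at hIs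
  subst hIs
  rw [List.mem_singleton] at hJ
  subst hJ
  exact hU M hM

/-- **(4,3,2,2)**, from the two finite computations -/
theorem case_4322 (hV : Fintype.card V = 17)
    {G : Fin 4 → SimpleGraph V} (hcov : Cover V ![4, 3, 2, 2] G)
    (hM : ∀ M, ¬ IsModelX g4322M_J0 M) (hP : ∀ M, ¬ IsModelX g4322P_J0 M) : False := by
  have hα := tuple_4322.alphaEight hcov
  obtain ⟨f0, h0⟩ := cycHom_of_four_le hV (m := 4) (by norm_num) (hα 0)
    (fun v p hp => hcov.girth 0 v p hp)
  rcases profile_four hV h0 (hα 0) with ⟨j, hj⟩ | ⟨j, hj⟩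
  · exact case_4322M' hV hcov h0 hj hM
  · exact case_4322P hV hcov h0 hj hP

end Pool.Agent.Work.MP_92a29d_co.Place
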