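import Pool.Agent.Work.MP_92a29d_co_h36.PlaceCodes
import Pool.Agent.Work.MP_92a29d_co_h45.Sem
import Pool.Agent.Work.MP_92a29d_co_h16.Alpha

/-!
Configurations: a covering of the complete graph on 17 vertices by four graphs, some of them with
labels, and the passage to the instances of the finite search.
-/

namespace Pool.Agent.Work.MP_92a29d_co.Place

open SimpleGraph Finset Pool.Agent.Work.MP_92a29d_co_h45

/-- data of a coded class: kind, bounds for the number of vertices with each label, digits of the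
labels -/
structure CD where
  kind : Kind
  bd : List (ℕ × ℕ)
  dg : List ℕ
deriving DecidableEq

def cdAt (cd : List CD) (i : ℕ) : CD := cd.getD i ⟨.expl 0, [], []⟩

/-- number of labels -/
def CD.n (c : CD) : ℕ := c.bd.length
/-- digit of a label -/
def CD.d (c : CD) (a : ℕ) : ℕ := c.dg.getD a 0
def CD.lo (c : CD) (a : ℕ) : ℕ := (c.bd.getD a (0, 0)).1
def CD.hi (c : CD) (a : ℕ) : ℕ := (c.bd.getD a (0, 0)).2

/-- a configuration; `rel` lists triples `(i, j, a)`: a vertex with digit 0 in class `i` has label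
`a` in class `j` -/
structure Conf {V : Type*} [Fintype V] [DecidableEq V] (cd : List CD) (m : Fin 4 → ℕ)
    (rel : List (ℕ × ℕ × ℕ)) (G : Fin 4 → SimpleGraph V) (X : ℕ → V → ℕ) : Prop where
  cover : Cover V m G
  adj : ∀ i : Fin 4, i.val < cd.length → ∀ u w, (G i).Adj u w →
    kadj (cdAt cd i).kind (X i u) (X i w) = true
  lt : ∀ i < cd.length, ∀ u, X i u < (cdAt cd i).n
  bds : ∀ i < cd.length, ∀ a < (cdAt cd i).n, (cdAt cd i).lo a ≤ (univ.filter fun u => X i u = a).card ∧
    (univ.filter fun u => X i u = a).card ≤ (cdAt cd i).hi a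
  rel : ∀ r ∈ rel, ∀ u, (cdAt cd r.1).d (X r.1 u) = 0 → X r.2.1 u = r.2.2

/-- reversal of the levels -/
def flipX (c : CD) (e a : ℕ) : ℕ := if e = 0 then a else (c.n - a) % c.n

def flipOK (c : CD) : Prop :=
  c.kind = .lev ((c.n - 3) / 2) ∧ c.n = 2 * ((c.n - 3) / 2) + 3 ∧
    ∀ a < c.n, c.bd.getD ((c.n - a) % c.n) (0, 0) = c.bd.getD a (0, 0) ∧
      c.d ((c.n - a) % c.n) = fl 1 (c.d a)

instance (c : CD) : Decidable (flipOK c) := by unfold flipOK; infer_instance

/-- a permutation of the coded classes as a permutation of all classes -/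
def ext (π : List ℕ) (k : ℕ) (i : Fin 4) : Fin 4 :=
  if i.val < k then ⟨π.getD i 0 % 4, Nat.mod_lt _ (by norm_num)⟩ else i

/-- admissible symmetries -/
def symOK (cd : List CD) (m : Fin 4 → ℕ) (rel : List (ℕ × ℕ × ℕ)) (s : List ℕ × List ℕ) : Prop :=
  (∀ i < cd.length, s.1.getD i 0 < cd.length) ∧
  (∀ j < cd.length, ∃ i < cd.length, s.1.getD i 0 = j) ∧
  (∀ i < cd.length, cdAt cd (s.1.getD i 0) = cdAt cd i) ∧
  (∀ i : Fin 4, m (ext s.1 cd.length i) = m i) ∧
  (∀ i < cd.length, s.2.getD i 0 = 0 ∨ flipOK (cdAt cd i)) ∧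
  (∀ r ∈ rel, s.1.getD r.1 0 = r.1 ∧ s.1.getD r.2.1 0 = r.2.1 ∧
    (s.2.getD r.2.1 0 = 0 ∨ r.2.2 = 0))

instance (cd : List CD) (m : Fin 4 → ℕ) (rel : List (ℕ × ℕ × ℕ)) (s : List ℕ × List ℕ) :
    Decidable (symOK cd m rel s) := by unfold symOK; infer_instance

theorem flip_invol {n a b : ℕ} (ha : a < n) (hb : b < n) : (n - a) % n = b ↔ a = (n - b) % n := by
  rcases Nat.eq_zero_or_pos a with rfl | ha0
  · rcases Nat.eq_zero_or_pos b with rfl | hb0
    · simp
    · rw [Nat.sub_zero, Nat.mod_self, Nat.mod_eq_of_lt (by omega)]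
      omega
  · rcases Nat.eq_zero_or_pos b with rfl | hb0
    · rw [Nat.sub_zero, Nat.mod_self, Nat.mod_eq_of_lt (by omega)]
      omega
    · rw [Nat.mod_eq_of_lt (by omega), Nat.mod_eq_of_lt (by omega)]
      omega

theorem ladj_flip {m a b : ℕ} (ha : a < 2 * m + 3) (hb : b < 2 * m + 3)
    (h : ladj m a b = true) :
    ladj m ((2 * m + 3 - a) % (2 * m + 3)) ((2 * m + 3 - b) % (2 * m + 3)) = true := by
  unfold ladj at h ⊢
  simp only [Bool.or_eq_true, Bool.and_eq_true, beq_iff_eq] at h ⊢
  rcases Nat.eq_zero_or_pos a with rfl | ha0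
  · rcases Nat.eq_zero_or_pos b with rfl | hb0
    · omega
    · rw [Nat.sub_zero, Nat.mod_self, Nat.mod_eq_of_lt (a := 2 * m + 3 - b) (by omega)]
      omega
  · rcases Nat.eq_zero_or_pos b with rfl | hb0
    · rw [Nat.sub_zero, Nat.mod_self, Nat.mod_eq_of_lt (a := 2 * m + 3 - a) (by omega)]
      omega
    · rw [Nat.mod_eq_of_lt (a := 2 * m + 3 - a) (by omega),
        Nat.mod_eq_of_lt (a := 2 * m + 3 - b) (by omega)]
      omega

theorem fl_eq_zero {e x : ℕ} (h : fl e x = 0) : x = 0 := by
  unfold fl at h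
  split_ifs at h <;> omega

section transform

variable {V W : Type*} [Fintype V] [DecidableEq V] [Fintype W] [DecidableEq W]
  {cd : List CD} {m : Fin 4 → ℕ} {rel : List (ℕ × ℕ × ℕ)} {G : Fin 4 → SimpleGraph V}
  {X : ℕ → V → ℕ}

theorem Conf.transform (h : Conf cd m rel G X) (hk : cd.length ≤ 4) {s : List ℕ × List ℕ}
    (hs : symOK cd m rel s) (σ : W ≃ V) :
    Conf cd m rel (fun i => (G (ext s.1 cd.length i)).comap σ)
      (fun i w => flipX (cdAt cd i) (s.2.getD i 0) (X (s.1.getD i 0) (σ w))) := by
  classical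
  obtain ⟨h1, h2, h3, h4, h5, h6⟩ := hs
  have hext : ∀ i : Fin 4, i.val < cd.length → (ext s.1 cd.length i).val = s.1.getD i 0 := by
    intro i hi
    unfold ext
    rw [if_pos hi]
    exact Nat.mod_eq_of_lt (by have := h1 i hi; omega)
  refine ⟨⟨?_, ?_⟩, ?_, ?_, ?_, ?_⟩
  · intro u v huv
    obtain ⟨i, hi⟩ := h.cover.cov (σ u) (σ v) (fun e => huv (σ.injective e))
    by_cases hik : i.val < cd.length
    · obtain ⟨j, hj, hji⟩ := h2 i.val hik
      refine ⟨⟨j, by omega⟩, ?_⟩
      have e : ext s.1 cd.length ⟨j, by omega⟩ = i := by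
        apply Fin.ext
        rw [hext _ hj]
        exact hji
      change (G (ext s.1 cd.length ⟨j, _⟩)).Adj (σ u) (σ v)
      rw [e]; exact hi
    · refine ⟨i, ?_⟩
      have e : ext s.1 cd.length i = i := by unfold ext; rw [if_neg hik]
      change (G (ext s.1 cd.length i)).Adj (σ u) (σ v)
      rw [e]; exact hi
  · intro i v p hp
    have := h.cover.girth (ext s.1 cd.length i) _ (p.map (SimpleGraph.Hom.comap σ _))
      (by rw [Walk.length_map]; exact hp)
    rw [Walk.length_map, h4] at this
    exact this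
  · intro i hi u w huw
    have hj := h1 i hi
    have h7 := h.adj (ext s.1 cd.length i) (by rw [hext i hi]; exact hj) (σ u) (σ w) huw
    rw [hext i hi] at h7
    rw [h3 i hi] at h7
    rcases Nat.eq_zero_or_pos (s.2.getD i 0) with he | he
    · simp only [flipX, he, if_true]
      exact h7
    · have he' : ¬ s.2.getD i 0 = 0 := by omega
      simp only [flipX, he', if_false]
      rcases h5 i hi with h8 | ⟨hkd, hn, _⟩
      · omega
      · rw [hkd] at h7 ⊢
        have hu := h.lt _ hj (σ u)
        have hw := h.lt _ hj (σ w)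
        rw [h3 i hi] at hu hw
        rw [hn] at hu hw
        have h9 := ladj_flip hu hw h7
        rw [← hn] at h9
        exact h9
  · intro i hi u
    have hj := h1 i hi
    have hu := h.lt _ hj (σ u)
    rw [h3 i hi] at hu
    unfold flipX
    split
    · exact hu
    · exact Nat.mod_lt _ (by omega)
  · intro i hi a ha
    have hj := h1 i hi
    have hcard : ∀ b, (univ.filter fun w => X (s.1.getD i 0) (σ w) = b).card =
        (univ.filter fun u => X (s.1.getD i 0) u = b).card := by
      intro b
      apply Finset.card_bij (fun w _ => σ w)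
      · intro w hw
        simpa using hw
      · intro w _ w' _ e
        exact σ.injective e
      · intro u hu
        exact ⟨σ.symm u, by simpa using hu, by simp⟩
    rcases Nat.eq_zero_or_pos (s.2.getD i 0) with he | he
    · simp only [flipX, he, if_true]
      rw [hcard]
      have h7 := h.bds _ hj a (by rw [h3 i hi]; exact ha)
      rw [h3 i hi] at h7
      exact h7
    · have he' : ¬ s.2.getD i 0 = 0 := by omega
      simp only [flipX, he', if_false]
      rcases h5 i hi with h8 | ⟨hkd, hn, hsym⟩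
      · omega
      · have e : (univ.filter fun w => ((cdAt cd i).n - X (s.1.getD i 0) (σ w)) % (cdAt cd i).n = a) =
            univ.filter fun w => X (s.1.getD i 0) (σ w) = ((cdAt cd i).n - a) % (cdAt cd i).n := by
          apply Finset.filter_congr
          intro w _
          have hw := h.lt _ hj (σ w)
          rw [h3 i hi] at hw
          exact flip_invol hw ha
        rw [e, hcard]
        have h7 := h.bds _ hj (((cdAt cd i).n - a) % (cdAt cd i).n) (by
          rw [h3 i hi]; exact Nat.mod_lt _ (by omega))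
        rw [h3 i hi] at h7
        unfold CD.lo CD.hi at h7 ⊢
        rw [(hsym a ha).1] at h7
        exact h7
  · intro r hr w hw
    obtain ⟨e1, e2, e3⟩ := h6 r hr
    suffices hx : X r.2.1 (σ w) = r.2.2 by
      rw [e2]
      rcases e3 with e3 | e3
      · simp only [flipX, e3, if_true]
        exact hx
      · rw [hx, e3]
        unfold flipX
        split
        · rfl
        · rw [Nat.sub_zero, Nat.mod_self]
    apply h.rel r hr
    by_cases hi : r.1 < cd.length
    · simp only [e1] at hw
      rcases Nat.eq_zero_or_pos (s.2.getD r.1 0) with he | he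
      · simp only [flipX, he, if_true] at hw
        exact hw
      · have he' : ¬ s.2.getD r.1 0 = 0 := by omega
        simp only [flipX, he', if_false] at hw
        rcases h5 r.1 hi with h8 | ⟨hkd, hn, hsym⟩
        · omega
        · have h9 := h.lt r.1 hi (σ w)
          rw [(hsym _ h9).2] at hw
          exact fl_eq_zero hw
    · have : cdAt cd r.1 = ⟨.expl 0, [], []⟩ := by
        unfold cdAt
        rw [List.getD_eq_default _ _ (by omega)]
      rw [this]
      rfl

end transform

end Pool.Agent.Work.MP_92a29d_co.Place
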