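import Pool.Agent.Work.MP_92a29d_co_h36.Excl
import Pool.Agent.Work.MP_92a29d_co_h45.SemX

/-!
Local codes: configurations with extra digits and rules.
-/

namespace Pool.Agent.Work.MP_92a29d_co.Place

open SimpleGraph Finset Pool.Agent.Work.MP_92a29d_co_h45

/-- facts on vertices that are given by their codes -/
inductive Fact where
  /-- labels in class `i`: the one of code `c` is at most the one of code `c'` -/
  | ord (i c c' : ℕ)
  /-- vertices with codes `c` and `c'` are adjacent in class `j` -/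
  | edge (j c c' : ℕ)
  /-- the label in class `i` of vertices with code `c` is in the list -/
  | lim (i c : ℕ) (ls : List ℕ)
deriving DecidableEq

/-- the meaning of a fact -/
def Fact.Holds {V : Type*} (G : Fin 4 → SimpleGraph V) (X : ℕ → V → ℕ) (code : V → ℕ) :
    Fact → Prop
  | .ord i c c' => ∀ u w, code u = c → code w = c' → X i u ≤ X i w
  | .edge j c c' => ∃ hj : j < 4, ∀ u w, u ≠ w → code u = c → code w = c' → (G ⟨j, hj⟩).Adj u w
  | .lim i c ls => ∀ u, code u = c → X i u ∈ ls

/-- a configuration with `n` digits in base `B`; `R` is a list of rules: different vertices with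
equal nonzero digits at all the places of the rule are not adjacent in its class -/
structure DConf {V : Type*} [Fintype V] [DecidableEq V] (cd : List CD) (m : Fin 4 → ℕ)
    (rel : List (ℕ × ℕ × ℕ)) (B n : ℕ) (R : List (Fin 4 × List ℕ)) (F : List Fact)
    (G : Fin 4 → SimpleGraph V) (X : ℕ → V → ℕ) (e : ℕ → V → ℕ) : Prop where
  conf : Conf cd m rel G X
  digs : ∀ i < cd.length, ∀ u, e i u = (cdAt cd i).d (X i u)
  lt : ∀ i < n, ∀ u, e i u < B
  rule : ∀ r ∈ R, ∀ u w, u ≠ w → (∀ q ∈ r.2, e q u = e q w ∧ e q u ≠ 0) → ¬ (G r.1).Adj u w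
  fact : ∀ f ∈ F, f.Holds G X (fun u => codeOf B n fun i => e i u)

/-- restriction of the labels by the facts -/
def Fact.limOK (i c a : ℕ) : Fact → Bool
  | .lim i' c' ls => !(Nat.beq i i') || (!(Nat.beq c c') || ls.any fun b => Nat.beq a b)
  | _ => true

/-- possible labels -/
def possD (cd : List CD) (rel : List (ℕ × ℕ × ℕ)) (B n : ℕ) (F : List Fact) (c i a : ℕ) : Bool :=
  Nat.beq ((cdAt cd i).d a) (dig B n c i) &&
    ((rel.all fun r => !(Nat.beq r.2.1 i) || (!(Nat.blt r.1 cd.length) ||
      (!(Nat.beq (dig B n c r.1) 0) || Nat.beq a r.2.2))) && F.all fun f => f.limOK i c a)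

/-- vertices with the codes `c`, `c'` are not adjacent in class `j` -/
def naB (cd : List CD) (B n : ℕ) (R : List (Fin 4 × List ℕ)) (j c c' : ℕ) : Bool :=
  (R.any fun r => Nat.beq r.1.val j && r.2.all fun q => Nat.blt q n &&
    (Nat.beq (dig B n c q) (dig B n c' q) && !(Nat.beq (dig B n c q) 0))) ||
  (Nat.blt j cd.length && (Nat.beq (dig B n c j) (dig B n c' j) &&
    indepD (cdAt cd j) (dig B n c j)))

/-- check of a literal -/
def unB (cd : List CD) (B n : ℕ) (R : List (Fin 4 × List ℕ)) (F : List Fact) (w : List ℕ) :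
    Bool × Var → Bool
  | (false, .E j u v) => Nat.blt j 4 && (Nat.blt u v && (Nat.blt v 17 &&
      naB cd B n R j (w.getD u 0) (w.getD v 0)))
  | (true, .E j u v) => Nat.blt j 4 && (Nat.blt u v && (Nat.blt v 17 &&
      ((allLt 4 fun i => Nat.beq i j || naB cd B n R i (w.getD u 0) (w.getD v 0)) ||
        F.any fun f => decide (f = .edge j (w.getD u 0) (w.getD v 0)))))
  | _ => false

/-- check of a clause -/
def exBc (F : List Fact) (w : List ℕ) : List (Bool × Var) → Bool
  | [(false, .X i u a), (true, .X j v b)] => Nat.beq i j && (Nat.ble b a &&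
      (Nat.blt u 17 && (Nat.blt v 17 &&
        F.any fun f => decide (f = .ord i (w.getD u 0) (w.getD v 0)))))
  | _ => false

/-- check of an instance -/
def fitsD (J : InstX) (cd : List CD) (m : Fin 4 → ℕ) (rel : List (ℕ × ℕ × ℕ)) (B n : ℕ)
    (R : List (Fin 4 × List ℕ)) (F : List Fact) (w : List ℕ) : Bool :=
  decide (J.inst.k = cd.length) &&
  (allLt cd.length (fun i => decide (J.inst.kind i = (cdAt cd i).kind)) &&
  (allLt cd.length (fun i => notExpl (cdAt cd i).kind) &&
  (decide (∀ i : Fin 4, cd.length ≤ i.val → explLe (m i) (J.inst.kind i) = true) &&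
  (allLt cd.length (fun i => allLt 17 fun u => allLt (cdAt cd i).n fun a =>
    !(possD cd rel B n F (w.getD u 0) i a) || decide (a ∈ J.inst.levs i u)) &&
  (J.inst.ne.all (fun x => decide (x.1 < cd.length ∧ x.2 < (cdAt cd x.1).n ∧
    1 ≤ (cdAt cd x.1).lo x.2)) &&
  (J.inst.size.all (fun x => decide (x.1 < cd.length ∧ x.2.1 < (cdAt cd x.1).n ∧
      (cdAt cd x.1).hi x.2.1 ≤ x.2.2)) &&
  (J.inst.lex.all (fun x => decide (x.1 ≤ x.2 ∧ x.2 < 17 ∧ w.getD x.1 0 = w.getD x.2 0)) &&
  (J.inst.five.all (fun x => decide (∃ i j i' j' : Fin 4, x.1 = i ∧ x.2 = j ∧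
      (∀ y : Fin 4, y = i ∨ y = j ∨ y = i' ∨ y = j') ∧ 2 ≤ m i' ∧ 1 ≤ m j')) &&
  (J.inst.forbid.all (fun x => Nat.blt x.1 cd.length && (Nat.blt x.2.1 17 &&
      !(possD cd rel B n F (w.getD x.2.1 0) x.1 x.2.2))) &&
  (J.low && (J.un.all (unB cd B n R F w) && J.ex.all (exBc F w))))))))))))

section

variable {V : Type*} [Fintype V] [DecidableEq V] {cd : List CD} {m : Fin 4 → ℕ}
  {rel : List (ℕ × ℕ × ℕ)} {B n : ℕ} {R : List (Fin 4 × List ℕ)} {F : List Fact}

theorem nbeq_false {a b : ℕ} : Nat.beq a b = false ↔ a ≠ b := by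
  rw [← Bool.not_eq_true, Nat.beq_eq]

theorem fitsP_of_fitsD {J : InstX} {w : List ℕ} (h : fitsD J cd m rel B n R F w = true) :
    FitsP J.inst cd m (fun i u a => possD cd rel B n F (w.getD u 0) i a = true) w := by
  unfold fitsD at h
  simp only [Bool.and_eq_true, decide_eq_true_iff, allLt_iff, List.all_eq_true] at h
  obtain ⟨h1, h2, h3, h4, h5, h6, h7, h8, h9, h10, _⟩ := h
  refine ⟨h1, h2, h3, h4, ?_, h6, h7, h8, h9, ?_⟩
  · intro i hi u hu a ha hp
    have := h5 i hi u hu a ha
    rw [Bool.or_eq_true, Bool.not_eq_true', decide_eq_true_iff] at this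
    rcases this with h | h
    · rw [hp] at h
      exact Bool.noConfusion h
    · exact h
  · intro x hx
    obtain ⟨a1, a2, a3⟩ := h10 x hx
    rw [Nat.blt_eq] at a1 a2
    refine ⟨a1, a2, ?_⟩
    rw [Bool.not_eq_true'] at a3
    rw [a3]
    exact Bool.false_ne_true

variable {G : Fin 4 → SimpleGraph V} {X : ℕ → V → ℕ} {e : ℕ → V → ℕ}

/-- renaming the vertices -/
theorem DConf.comap {W : Type*} [Fintype W] [DecidableEq W]
    (h : DConf cd m rel B n R F G X e) (σ : W ≃ V) :
    DConf cd m rel B n R F (fun i => (G i).comap σ) (fun i w => X i (σ w))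
      (fun i w => e i (σ w)) := by
  refine ⟨h.conf.comap σ, fun i hi u => h.digs i hi _, fun i hi u => h.lt i hi _, ?_, ?_⟩
  · intro r hr u w huw hq ha
    exact h.rule r hr (σ u) (σ w) (fun e => huw (σ.injective e)) hq ha
  · intro f hf
    have h1 := h.fact f hf
    cases f with
    | ord i c c' => exact fun u w hu hw => h1 (σ u) (σ w) hu hw
    | edge j c c' =>
      obtain ⟨hj, h2⟩ := h1
      exact ⟨hj, fun u w huw hu hw => h2 (σ u) (σ w) (fun e => huw (σ.injective e)) hu hw⟩
    | lim i c ls => exact fun u hu => h1 (σ u) hu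

theorem DConf.dig_code (h : DConf cd m rel B n R F G X e) (u : V) {i : ℕ} (hi : i < n) :
    dig B n (codeOf B n fun i => e i u) i = e i u :=
  dig_codeOf n (fun i hi => h.lt i hi u) i hi

theorem DConf.poss (h : DConf cd m rel B n R F G X e) (hn : cd.length ≤ n) (u : V) {i : ℕ}
    (hi : i < cd.length) :
    possD cd rel B n F (codeOf B n fun i => e i u) i (X i u) = true := by
  unfold possD
  rw [Bool.and_eq_true, Bool.and_eq_true, Nat.beq_eq, List.all_eq_true, List.all_eq_true]
  refine ⟨?_, ?_, ?_⟩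
  · rw [h.dig_code u (by omega), h.digs i hi]
  · intro r hr
    simp only [Bool.or_eq_true, Bool.not_eq_true', nbeq_false, Nat.beq_eq]
    by_cases h1 : r.2.1 = i
    · right
      by_cases h2 : r.1 < cd.length
      · right
        by_cases h3 : Place.dig B n (codeOf B n fun i => e i u) r.1 = 0
        · right
          rw [← h1]
          refine h.conf.rel r hr u ?_
          rw [h.dig_code u (by omega), h.digs r.1 h2] at h3
          exact h3
        · exact Or.inl h3
      · left
        rw [← Bool.not_eq_true, Nat.blt_eq]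
        exact h2
    · exact Or.inl h1
  · intro f hf
    have h1 := h.fact f hf
    cases f with
    | ord i c c' => rfl
    | edge j c c' => rfl
    | lim i' c ls =>
      change (!(Nat.beq i i') || (!(Nat.beq (codeOf B n fun i => e i u) c) ||
        ls.any fun b => Nat.beq (X i u) b)) = true
      simp only [Bool.or_eq_true, Bool.not_eq_true', nbeq_false, List.any_eq_true, Nat.beq_eq]
      by_cases h2 : i = i'
      · right
        by_cases h3 : (codeOf B n fun i => e i u) = c
        · right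
          subst h2
          exact ⟨_, h1 u h3, rfl⟩
        · exact Or.inl h3
      · exact Or.inl h2

theorem DConf.na (h : DConf cd m rel B n R F G X e) (hn : cd.length ≤ n) {j : Fin 4} {u w : V}
    (huw : u ≠ w)
    (hb : naB cd B n R j (codeOf B n fun i => e i u) (codeOf B n fun i => e i w) = true) :
    ¬ (G j).Adj u w := by
  unfold naB at hb
  rw [Bool.or_eq_true, List.any_eq_true, Bool.and_eq_true, Bool.and_eq_true] at hb
  rcases hb with ⟨r, hr, hb⟩ | ⟨h1, h2, h3⟩
  · rw [Bool.and_eq_true, Nat.beq_eq, List.all_eq_true] at hb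
    obtain ⟨h1, h2⟩ := hb
    have e1 : r.1 = j := Fin.ext h1
    rw [← e1]
    refine h.rule r hr u w huw ?_
    intro q hq
    have h3 := h2 q hq
    rw [Bool.and_eq_true, Bool.and_eq_true, Nat.blt_eq, Nat.beq_eq, Bool.not_eq_true',
      ← Bool.not_eq_true, Nat.beq_eq] at h3
    obtain ⟨h4, h5, h6⟩ := h3
    rw [h.dig_code u h4, h.dig_code w h4] at h5
    rw [h.dig_code u h4] at h6
    exact ⟨h5, h6⟩
  · rw [Nat.blt_eq] at h1
    rw [Nat.beq_eq] at h2
    have h4 : j.val < n := by omega
    rw [h.dig_code u h4] at h2 h3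
    rw [h.dig_code w h4, h.digs _ h1] at h2
    rw [h.digs _ h1] at h3
    rw [h.digs _ h1] at h2
    exact h.conf.indep h1 h3 rfl h2.symm

/-- **From a configuration with digits to a model of an instance.** -/
theorem DConf.exists_model (T : Spec2) (hT : T.check = true) (hTk : T.k = n) (hTB : T.B = B)
    (hn : cd.length ≤ n) (hid : ∀ s ∈ T.syms, s = (List.range n, List.replicate n 0))
    (hN : ∀ i < cd.length, (cdAt cd i).n ≤ 32) (hlen : ∀ p ∈ T.S.places, p.length = 17)
    (hV : Fintype.card V = 17) (h : DConf cd m rel B n R F G X e)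
    (hp : ∀ x ∈ T.pats, x.2.1 ≤ (univ.filter fun u => ∀ y ∈ x.1, e y.1 u = y.2).card ∧
      (univ.filter fun u => ∀ y ∈ x.1, e y.1 u = y.2).card ≤ x.2.2) :
    ∃ w ∈ T.S.places, ∀ J : InstX, fitsD J cd m rel B n R F w = true → ∃ M, IsModelX J M := by
  classical
  subst hTk
  subst hTB
  obtain ⟨s, hs, w, hw, hmul⟩ := T.sound hT hV e (fun i hi u => h.lt i hi u) hp
  have hse := hid s hs
  have hf : ∀ u : V, (codeOf T.B T.k fun i => fl (s.2.getD i 0) (e (s.1.getD i 0) u)) =
      codeOf T.B T.k fun i => e i u := by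
    intro u
    apply codeOf_congr
    intro i hi
    have h1 : (List.range T.k).getD i 0 = i := by
      rw [List.getD_eq_getElem _ _ (by simpa using hi), List.getElem_range]
    have h2 : (List.replicate T.k 0).getD i 0 = 0 := by
      rw [List.getD_eq_getElem _ _ (by simpa using hi), List.getElem_replicate]
    rw [hse]
    change fl ((List.replicate T.k 0).getD i 0) (e ((List.range T.k).getD i 0) u) = e i u
    rw [h1, h2]
    rfl
  simp only [hf] at hmul
  obtain ⟨σ, hσ1, hσ2⟩ := exists_order hV (g := fun u => codeOf 32 cd.length fun i => X i u)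
    (N := 32 ^ cd.length)
    (fun u => codeOf_lt _ (fun i hi => lt_of_lt_of_le (h.conf.lt i hi u) (hN i hi)))
    (hlen w hw) hmul
  refine ⟨w, hw, ?_⟩
  intro J hJ
  have hc := h.comap σ
  have hfit := fitsP_of_fitsD hJ
  have hM := hc.conf.isModelP hN hσ2 (P := fun i u a =>
    possD cd rel T.B T.k F (w.getD u 0) i a = true) (fun u i hi => by
      have := hc.poss hn u hi
      rw [← hσ1 u]
      exact this) hfit
  unfold fitsD at hJ
  simp only [Bool.and_eq_true] at hJ
  obtain ⟨hk, _, _, hexpl, _, _, _, _, _, _, hlow, hun, hex⟩ := hJ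
  rw [List.all_eq_true] at hun hex
  refine ⟨_, isModelX_ext hlow hM ?_ ?_ ?_⟩
  · rintro i m' hkd hm' a b c d e f g ha hb hcc hd he hf hg ⟨hi, _, _, h1⟩ ⟨_, _, _, h2⟩
      ⟨_, _, _, h3⟩ ⟨_, _, _, h4⟩ ⟨_, _, _, h5⟩ ⟨_, _, _, h6⟩ ⟨_, _, _, h7⟩
    have hik : cd.length ≤ i := by
      by_contra hcon
      push Not at hcon
      have h8 := hfit.coded i hcon
      have h9 := hfit.kind i hcon
      rw [← h9, hkd] at h8
      exact Bool.noConfusion h8
    have h8 := hfit.expl ⟨i, hi⟩ hik
    have hkd' : J.inst.kind ((⟨i, hi⟩ : Fin 4) : ℕ) = Kind.expl m' := hkd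
    rw [hkd'] at h8
    have h9 : m' ≤ m ⟨i, hi⟩ := Nat.le_of_ble_eq_true h8
    have h10 := hc.conf.cover.girth ⟨i, hi⟩ _ (Walk.cons h1 (Walk.cons h2 (Walk.cons h3
      (Walk.cons h4 (Walk.cons h5 (Walk.cons h6 (Walk.cons h7 Walk.nil)))))))
      (by simp only [Walk.length_cons, Walk.length_nil]; decide)
    simp only [Walk.length_cons, Walk.length_nil] at h10
    omega
  · intro l hl
    have h1 := hun l hl
    obtain ⟨b, v⟩ := l
    cases v with
    | E j u v =>
      cases b with
      | false =>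
        unfold unB at h1
        simp only [Bool.and_eq_true, Nat.blt_eq] at h1
        obtain ⟨hj, huv, hv, hna⟩ := h1
        rintro ⟨hi, hu, hv', ha⟩
        have hu' : u < 17 := by omega
        rw [← hσ1 ⟨u, hu'⟩, ← hσ1 ⟨v, hv⟩] at hna
        exact hc.na hn (j := ⟨j, hj⟩) (by rw [Ne, Fin.mk.injEq]; omega) hna ha
      | true =>
        unfold unB at h1
        simp only [Bool.and_eq_true, Nat.blt_eq, Bool.or_eq_true, allLt_iff, List.any_eq_true,
          decide_eq_true_iff] at h1
        obtain ⟨hj, huv, hv, h2⟩ := h1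
        have hu' : u < 17 := by omega
        refine ⟨hj, hu', hv, ?_⟩
        rcases h2 with h2 | ⟨f, hf, rfl⟩
        · obtain ⟨i, hi⟩ := hc.conf.cover.cov (⟨u, hu'⟩ : Fin 17) ⟨v, hv⟩
            (by rw [Ne, Fin.mk.injEq]; omega)
          have h3 := h2 i i.isLt
          rw [Nat.beq_eq] at h3
          rcases h3 with h3 | h3
          · have : i = ⟨j, hj⟩ := Fin.ext h3
            rw [this] at hi
            exact hi
          · rw [← hσ1 ⟨u, hu'⟩, ← hσ1 ⟨v, hv⟩] at h3
            exact absurd hi (hc.na hn (j := i) (by rw [Ne, Fin.mk.injEq]; omega) h3)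
        · obtain ⟨hj', h3⟩ := hc.fact _ hf
          exact h3 ⟨u, hu'⟩ ⟨v, hv⟩ (by rw [Ne, Fin.mk.injEq]; omega) (hσ1 ⟨u, hu'⟩)
            (hσ1 ⟨v, hv⟩)
    | X i u a => cases b <;> exact absurd h1 (by unfold unB; exact Bool.false_ne_true)
    | W i u v => cases b <;> exact absurd h1 (by unfold unB; exact Bool.false_ne_true)
    | A i u a => cases b <;> exact absurd h1 (by unfold unB; exact Bool.false_ne_true)
    | D i u v a => cases b <;> exact absurd h1 (by unfold unB; exact Bool.false_ne_true)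
    | Q i u v => cases b <;> exact absurd h1 (by unfold unB; exact Bool.false_ne_true)
  · intro c hcl
    have h1 := hex c hcl
    unfold exBc at h1
    split at h1
    · rename_i i u a j v b
      simp only [Bool.and_eq_true, Nat.blt_eq, Nat.beq_eq, Nat.ble_eq, List.any_eq_true,
        decide_eq_true_iff] at h1
      obtain ⟨rfl, hba, hu, hv, f, hf, rfl⟩ := h1
      have h3 := hc.fact _ hf ⟨u, hu⟩ ⟨v, hv⟩ (hσ1 ⟨u, hu⟩) (hσ1 ⟨v, hv⟩)
      have h4 : (mkModel (fun i => (G i).comap σ) (fun i w => X i (σ w))).lab i u =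
          X i (σ ⟨u, hu⟩) := dif_pos hu
      have h5 : (mkModel (fun i => (G i).comap σ) (fun i w => X i (σ w))).lab i v =
          X i (σ ⟨v, hv⟩) := dif_pos hv
      by_cases h6 : a ≤ X i (σ ⟨u, hu⟩)
      · refine ⟨(true, .X i v b), by simp, ?_⟩
        change b ≤ (mkModel _ _).lab i v
        rw [h5]
        simp only at h3
        omega
      · refine ⟨(false, .X i u a), by simp, ?_⟩
        change ¬ a ≤ (mkModel _ _).lab i u
        rw [h4]
        exact h6
    · exact Bool.noConfusion h1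

end

/-- the checks of a family of instances with digits -/
def famD (T : Spec2) (cd : List CD) (m : Fin 4 → ℕ) (rel : List (ℕ × ℕ × ℕ)) (B n : ℕ)
    (R : List (Fin 4 × List ℕ)) (F : List Fact) (inst : List (List InstX)) : Bool :=
  T.check && (decide (T.k = n ∧ T.B = B ∧ cd.length ≤ n) &&
  (T.syms.all (fun s => decide (s = (List.range n, List.replicate n 0))) &&
  (allLt cd.length (fun i => Nat.ble (cdAt cd i).n 32) &&
  (T.S.places.all (fun p => decide (p.length = 17)) &&
  (decide (inst.length = T.S.places.length) &&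
  (List.zipWith (fun Is w => Is.any fun I => fitsD I cd m rel B n R F w) inst
    T.S.places).all id)))))

/-- **Main theorem**: a configuration with digits gives a model of one of the instances. -/
theorem DConf.exists_inst {T : Spec2} {cd : List CD} {m : Fin 4 → ℕ} {rel : List (ℕ × ℕ × ℕ)}
    {B n : ℕ} {R : List (Fin 4 × List ℕ)} {F : List Fact} {inst : List (List InstX)}
    (hF : famD T cd m rel B n R F inst = true)
    {V : Type*} [Fintype V] [DecidableEq V] (hV : Fintype.card V = 17)
    {G : Fin 4 → SimpleGraph V} {X : ℕ → V → ℕ} {e : ℕ → V → ℕ}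
    (h : DConf cd m rel B n R F G X e)
    (hp : ∀ x ∈ T.pats, x.2.1 ≤ (univ.filter fun u => ∀ y ∈ x.1, e y.1 u = y.2).card ∧
      (univ.filter fun u => ∀ y ∈ x.1, e y.1 u = y.2).card ≤ x.2.2) :
    ∃ Is ∈ inst, ∃ J ∈ Is, ∃ M, IsModelX J M := by
  unfold famD at hF
  simp only [Bool.and_eq_true, decide_eq_true_iff, allLt_iff, List.all_eq_true, Nat.ble_eq] at hF
  obtain ⟨hT, ⟨hTk, hTB, hn⟩, hid, hN, hlen, hil, hinst⟩ := hF
  obtain ⟨w, hw, hM⟩ := DConf.exists_model T hT hTk hTB hn hid hN hlen hV h hp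
  obtain ⟨q, hq, rfl⟩ := List.mem_iff_getElem.1 hw
  have hq' : q < inst.length := by omega
  have h1 := hinst ((inst[q]).any fun I => fitsD I cd m rel B n R F T.S.places[q]) (by
    rw [List.mem_iff_getElem]
    refine ⟨q, by rw [List.length_zipWith]; omega, ?_⟩
    rw [List.getElem_zipWith])
  simp only [id, List.any_eq_true] at h1
  obtain ⟨J, hJ, hfit⟩ := h1
  exact ⟨inst[q], List.getElem_mem _, J, hJ, hM J hfit⟩

end Pool.Agent.Work.MP_92a29d_co.Place
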