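import Pool.Agent.Work.MP_92a29d_co_h36.CG4322M
import Pool.Agent.Work.MP_92a29d_cert.g4322M_J0.Fin

/-!
(4,3,2,2): the class with `m = 4` cannot have three consecutive single levels.
-/

namespace Pool.Agent.Work.MP_92a29d_co.Place

open SimpleGraph Finset Pool.Agent.Work.MP_92a29d_co_h45

/-- (4,3,2,2), case M -/
theorem no_4322M {V : Type*} [Fintype V] [DecidableEq V] (hV : Fintype.card V = 17)
    {G : Fin 4 → SimpleGraph V} (hcov : Cover V ![4, 3, 2, 2] G)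
    {f0 : V → ZMod (2 * 4 + 3)} (h0 : CycHom (G 0) (2 * 4 + 3) f0) {j0 : ZMod (2 * 4 + 3)}
    (hj0 : lsize f0 (j0 - 1) = 1 ∧ lsize f0 j0 = 1 ∧ lsize f0 (j0 + 1) = 1) : False :=
  case_4322M' hV hcov h0 hj0 fun _ => Pool.Agent.Work.MP_92a29d_cert.g4322M_J0.unsat

end Pool.Agent.Work.MP_92a29d_co.Place
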