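import Pool.Agent.Work.MP_92a29d_co_h36.Pats

/-!
Excluded digits: when a placement is stable under the reflection of a class `j`, the side of the
only vertex with a given label in another class can be fixed in the class `j`.
-/

namespace Pool.Agent.Work.MP_92a29d_co.Place

open SimpleGraph Finset Pool.Agent.Work.MP_92a29d_co_h45

/-- `(i, a, j, d)`: no vertex with label `a` in class `i` has digit `d` in class `j` -/
abbrev Ex := ℕ × ℕ × ℕ × ℕ

/-- the excluded combinations do not occur -/
def ExOK {V : Type*} (cd : List CD) (ex : List Ex) (X : ℕ → V → ℕ) : Prop :=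
  ∀ x ∈ ex, ∀ u, X x.1 u = x.2.1 → (cdAt cd x.2.2.1).d (X x.2.2.1 u) ≠ x.2.2.2

/-- the reflection of class `j` -/
def symJ (k j : ℕ) : List ℕ × List ℕ :=
  (List.range k, (List.range k).map fun i => if i = j then 1 else 0)

/-- the reflection of class `j` on codes -/
def flipC (B k j c : ℕ) : ℕ := codeOf B k fun i => fl (if i = j then 1 else 0) (dig B k c i)

/-- one exclusion is allowed -/
def exB1 (cd : List CD) (m : Fin 4 → ℕ) (rel : List (ℕ × ℕ × ℕ)) (B : ℕ) (w : List ℕ)
    (x : Ex) : Bool :=
  decide (x.1 < cd.length ∧ x.2.2.1 < cd.length ∧ x.1 ≠ x.2.2.1 ∧ x.2.1 < (cdAt cd x.1).n ∧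
    (cdAt cd x.1).hi x.2.1 ≤ 1 ∧ (x.2.2.2 = 1 ∨ x.2.2.2 = 2)) &&
  (decide (symOK cd m rel (symJ cd.length x.2.2.1)) && (decide (flipOK (cdAt cd x.2.2.1)) &&
  decide ((w.map (flipC B cd.length x.2.2.1)).Perm w)))

/-- all exclusions are allowed -/
def exB (cd : List CD) (m : Fin 4 → ℕ) (rel : List (ℕ × ℕ × ℕ)) (B : ℕ) (w : List ℕ) :
    List Ex → Bool
  | [] => true
  | x :: ex => exB1 cd m rel B w x && (ex.all (fun y => decide (y.2.2.1 ≠ x.2.2.1 ∧
      (y.1 ≠ x.2.2.1 ∨ y.2.1 = 0))) && exB cd m rel B w ex)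

section

variable {V : Type*} [Fintype V] [DecidableEq V] {cd : List CD} {m : Fin 4 → ℕ}
  {rel : List (ℕ × ℕ × ℕ)} {B : ℕ} {w : List ℕ}

theorem symJ_one {k j i : ℕ} (hi : i < k) : (symJ k j).1.getD i 0 = i := by
  unfold symJ
  rw [List.getD_eq_getElem _ _ (by simpa using hi), List.getElem_range]

theorem symJ_two {k j i : ℕ} (hi : i < k) :
    (symJ k j).2.getD i 0 = if i = j then 1 else 0 := by
  unfold symJ
  rw [List.getD_eq_getElem _ _ (by simpa using hi), List.getElem_map, List.getElem_range]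

omit [DecidableEq V] in
theorem card_le_one_eq {P : V → Prop} [DecidablePred P] (h : (univ.filter P).card ≤ 1) {u v : V}
    (hu : P u) (hv : P v) : u = v := by
  rw [Finset.card_le_one] at h
  exact h u (mem_filter.2 ⟨mem_univ _, hu⟩) v (mem_filter.2 ⟨mem_univ _, hv⟩)

theorem exB_lt : ∀ ex : List Ex, exB cd m rel B w ex = true → ∀ y ∈ ex,
    y.1 < cd.length ∧ y.2.2.1 < cd.length
  | [], _, y, hy => absurd hy (List.not_mem_nil)
  | x :: ex, h, y, hy => by
    rw [exB, Bool.and_eq_true, Bool.and_eq_true] at h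
    rcases List.mem_cons.1 hy with rfl | hy
    · have h1 := h.1
      unfold exB1 at h1
      simp only [Bool.and_eq_true, decide_eq_true_iff] at h1
      exact ⟨h1.1.1, h1.1.2.1⟩
    · exact exB_lt ex h.2.2 y hy

/-- the exclusions can be achieved -/
theorem Conf.exists_excl (hk : cd.length ≤ 4)
    (hB : ∀ i < cd.length, ∀ a < (cdAt cd i).n, (cdAt cd i).d a < B)
    {G : Fin 4 → SimpleGraph V} {X : ℕ → V → ℕ} (h : Conf cd m rel G X)
    (hw : Multiset.map (fun u => codeOf B cd.length fun i => (cdAt cd i).d (X i u)) univ.val =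
      (w : Multiset ℕ)) :
    ∀ ex : List Ex, exB cd m rel B w ex = true →
      ∃ (G' : Fin 4 → SimpleGraph V) (X' : ℕ → V → ℕ), Conf cd m rel G' X' ∧
        Multiset.map (fun u => codeOf B cd.length fun i => (cdAt cd i).d (X' i u)) univ.val =
          (w : Multiset ℕ) ∧ ExOK cd ex X'
  | [], _ => ⟨G, X, h, hw, fun x hx => absurd hx (List.not_mem_nil)⟩
  | x :: ex, hx => by
    classical
    rw [exB, Bool.and_eq_true, Bool.and_eq_true] at hx
    obtain ⟨h1, h2, h3⟩ := hx
    obtain ⟨G', X', hc, hm, hE⟩ := Conf.exists_excl hk hB h hw ex h3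
    by_cases hE1 : ∀ u, X' x.1 u = x.2.1 → (cdAt cd x.2.2.1).d (X' x.2.2.1 u) ≠ x.2.2.2
    · refine ⟨G', X', hc, hm, ?_⟩
      intro y hy
      rcases List.mem_cons.1 hy with rfl | hy
      · exact hE1
      · exact hE y hy
    · push Not at hE1
      obtain ⟨u0, hu0, hd0⟩ := hE1
      unfold exB1 at h1
      simp only [Bool.and_eq_true, decide_eq_true_iff] at h1
      obtain ⟨⟨hi, hj, hij, ha, hhi, hd⟩, hs, hfl, hperm⟩ := h1
      have ht := hc.transform hk hs (Equiv.refl V)
      set j := x.2.2.1 with hjdef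
      have hX : ∀ i < cd.length, ∀ u, flipX (cdAt cd i) ((symJ cd.length j).2.getD i 0)
          (X' ((symJ cd.length j).1.getD i 0) u) =
          flipX (cdAt cd i) (if i = j then 1 else 0) (X' i u) := by
        intro i hi u
        rw [symJ_one hi, symJ_two hi]
      refine ⟨_, _, ht, ?_, ?_⟩
      · -- the codes
        have e : ∀ u : V, (codeOf B cd.length fun i => (cdAt cd i).d
            (flipX (cdAt cd i) ((symJ cd.length j).2.getD i 0)
              (X' ((symJ cd.length j).1.getD i 0) (Equiv.refl V u)))) =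
            flipC B cd.length j (codeOf B cd.length fun i => (cdAt cd i).d (X' i u)) := by
          intro u
          unfold flipC
          apply codeOf_congr
          intro i hi
          rw [Equiv.refl_apply, hX i hi,
            dig_codeOf cd.length (fun i hi => hB i hi _ (hc.lt i hi u)) i hi]
          by_cases hij : i = j
          · subst hij
            rw [if_pos rfl]
            unfold flipX
            rw [if_neg (by norm_num)]
            exact (hfl.2.2 _ (hc.lt _ hj u)).2
          · rw [if_neg hij]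
            unfold flipX fl
            rw [if_pos rfl, if_pos rfl]
        simp only [e]
        have e2 : Multiset.map (fun u => flipC B cd.length j
            (codeOf B cd.length fun i => (cdAt cd i).d (X' i u))) univ.val =
            Multiset.map (flipC B cd.length j) (Multiset.map
              (fun u => codeOf B cd.length fun i => (cdAt cd i).d (X' i u)) univ.val) := by
          rw [Multiset.map_map]
          rfl
        rw [e2, hm, Multiset.map_coe]
        exact Multiset.coe_eq_coe.2 hperm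
      · -- the exclusions
        intro y hy u hu
        simp only [Equiv.refl_apply] at hu ⊢
        rcases List.mem_cons.1 hy with rfl | hy
        · rw [hX _ hi, if_neg hij] at hu
          rw [hX _ hj, if_pos rfl]
          have hu' : X' y.1 u = y.2.1 := by
            unfold flipX at hu
            rw [if_pos rfl] at hu
            exact hu
          have huu : u = u0 :=
            card_le_one_eq (le_trans (hc.bds _ hi _ ha).2 hhi) hu' hu0
          subst huu
          unfold flipX
          rw [if_neg (by norm_num)]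
          rw [(hfl.2.2 _ (hc.lt _ hj u)).2, hd0]
          unfold fl
          rw [if_neg (by norm_num)]
          rcases hd with hd | hd
          · rw [hd, if_pos rfl]
            norm_num
          · rw [hd]
            norm_num
        · rw [List.all_eq_true] at h2
          have h4 := h2 y hy
          rw [decide_eq_true_iff] at h4
          obtain ⟨h4, h5⟩ := h4
          have h6 := exB_lt ex h3 y hy
          rw [hX _ h6.1] at hu
          rw [hX _ h6.2, if_neg h4]
          refine hE y hy u ?_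
          rcases h5 with h5 | h5
          · rw [if_neg h5] at hu
            exact hu
          · by_cases h7 : y.1 = j
            · rw [if_pos h7, h5] at hu
              rw [h5]
              unfold flipX at hu
              rw [if_neg (by norm_num)] at hu
              have h8 := hc.lt _ h6.1 u
              have h9 := (flip_invol h8 (Nat.lt_of_le_of_lt (Nat.zero_le _) h8)).1 hu
              rw [h9, Nat.sub_zero, Nat.mod_self]
            · rw [if_neg h7] at hu
              exact hu

end

/-- possible labels with exclusions -/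
def possE (cd : List CD) (rel : List (ℕ × ℕ × ℕ)) (B : ℕ) (ex : List Ex) (c i a : ℕ) : Prop :=
  possL cd rel B c i a ∧
    ∀ x ∈ ex, ¬ (x.1 = i ∧ a = x.2.1 ∧ dig B cd.length c x.2.2.1 = x.2.2.2)

instance (cd : List CD) (rel : List (ℕ × ℕ × ℕ)) (B : ℕ) (ex : List Ex) (c i a : ℕ) :
    Decidable (possE cd rel B ex c i a) := by unfold possE; infer_instance

/-- boolean form of `FitsP` -/
def fitsE (I : Inst) (cd : List CD) (m : Fin 4 → ℕ) (rel : List (ℕ × ℕ × ℕ)) (B : ℕ)
    (w : List ℕ) (ex : List Ex) : Bool :=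
  decide (I.k = cd.length) && allLt cd.length (fun i => decide (I.kind i = (cdAt cd i).kind)) &&
  allLt cd.length (fun i => notExpl (cdAt cd i).kind) &&
  decide (∀ i : Fin 4, cd.length ≤ i.val → explLe (m i) (I.kind i) = true) &&
  allLt cd.length (fun i => allLt 17 fun u => allLt (cdAt cd i).n fun a =>
    !decide (possE cd rel B ex (w.getD u 0) i a) || decide (a ∈ I.levs i u)) &&
  I.ne.all (fun x => decide (x.1 < cd.length ∧ x.2 < (cdAt cd x.1).n ∧
    1 ≤ (cdAt cd x.1).lo x.2)) &&
  I.size.all (fun x => decide (x.1 < cd.length ∧ x.2.1 < (cdAt cd x.1).n ∧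
      (cdAt cd x.1).hi x.2.1 ≤ x.2.2)) &&
  I.lex.all (fun x => decide (x.1 ≤ x.2 ∧ x.2 < 17 ∧ w.getD x.1 0 = w.getD x.2 0)) &&
  I.five.all (fun x => decide (∃ i j i' j' : Fin 4, x.1 = i ∧ x.2 = j ∧
      (∀ y : Fin 4, y = i ∨ y = j ∨ y = i' ∨ y = j') ∧ 2 ≤ m i' ∧ 1 ≤ m j')) &&
  I.forbid.all (fun x => decide (x.1 < cd.length ∧ x.2.1 < 17 ∧
      ¬ possE cd rel B ex (w.getD x.2.1 0) x.1 x.2.2))

theorem fitsP_of_fitsE {I : Inst} {cd : List CD} {m : Fin 4 → ℕ} {rel : List (ℕ × ℕ × ℕ)}
    {B : ℕ} {w : List ℕ} {ex : List Ex} (h : fitsE I cd m rel B w ex = true) :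
    FitsP I cd m (fun i u a => possE cd rel B ex (w.getD u 0) i a) w := by
  unfold fitsE at h
  simp only [Bool.and_eq_true, decide_eq_true_iff, allLt_iff, List.all_eq_true] at h
  obtain ⟨⟨⟨⟨⟨⟨⟨⟨⟨h1, h2⟩, h3⟩, h4⟩, h5⟩, h6⟩, h7⟩, h8⟩, h9⟩, h10⟩ := h
  refine ⟨h1, h2, h3, h4, ?_, h6, h7, h8, h9, h10⟩
  intro i hi u hu a ha hp
  have := h5 i hi u hu a ha
  rw [Bool.or_eq_true, Bool.not_eq_true', decide_eq_false_iff_not, decide_eq_true_iff] at this
  rcases this with h | h
  · exact absurd hp h
  · exact h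

section

variable {cd : List CD} {m : Fin 4 → ℕ} {rel : List (ℕ × ℕ × ℕ)} {B : ℕ}

/-- renaming the vertices -/
theorem Conf.comap {V W : Type*} [Fintype V] [DecidableEq V] [Fintype W] [DecidableEq W]
    {G : Fin 4 → SimpleGraph V} {X : ℕ → V → ℕ} (h : Conf cd m rel G X) (σ : W ≃ V) :
    Conf cd m rel (fun i => (G i).comap σ) (fun i w => X i (σ w)) := by
  classical
  refine ⟨⟨?_, ?_⟩, ?_, ?_, ?_, ?_⟩
  · intro u v huv
    exact h.cover.cov (σ u) (σ v) (fun e => huv (σ.injective e))
  · intro i v p hp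
    have := h.cover.girth i _ (p.map (SimpleGraph.Hom.comap σ _))
      (by rw [Walk.length_map]; exact hp)
    rw [Walk.length_map] at this
    exact this
  · intro i hi u w huw
    exact h.adj i hi _ _ huw
  · intro i hi u
    exact h.lt i hi _
  · intro i hi a ha
    have hcard : (univ.filter fun w => X i (σ w) = a).card =
        (univ.filter fun u => X i u = a).card := by
      apply Finset.card_bij (fun w _ => σ w)
      · intro w hw
        simpa using hw
      · intro w _ w' _ e
        exact σ.injective e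
      · intro u hu
        exact ⟨σ.symm u, by simpa using hu, by simp⟩
    rw [hcard]
    exact h.bds i hi a ha
  · intro r hr w hw
    exact h.rel r hr (σ w) hw

/-- **From a configuration to a model of an instance, with exclusions.** -/
theorem Conf.exists_modelE (T : Spec2) (hT : T.check = true) (hTk : T.k = cd.length)
    (hk : cd.length ≤ 4)
    (hB : ∀ i < cd.length, ∀ a < (cdAt cd i).n, (cdAt cd i).d a < T.B)
    (hN : ∀ i < cd.length, (cdAt cd i).n ≤ 32)
    (hsyms : ∀ s ∈ T.syms, symOK cd m rel s) (hlen : ∀ p ∈ T.S.places, p.length = 17)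
    {V : Type*} [Fintype V] [DecidableEq V] (hV : Fintype.card V = 17)
    {G : Fin 4 → SimpleGraph V} {X : ℕ → V → ℕ} (h : Conf cd m rel G X)
    (hp : ∀ x ∈ T.pats, x.2.1 ≤ (Finset.univ.filter fun u =>
        ∀ y ∈ x.1, (cdAt cd y.1).d (X y.1 u) = y.2).card ∧
      (Finset.univ.filter fun u => ∀ y ∈ x.1, (cdAt cd y.1).d (X y.1 u) = y.2).card ≤ x.2.2) :
    ∃ w ∈ T.S.places, ∀ (I : Inst) (ex : List Ex), exB cd m rel T.B w ex = true →
      fitsE I cd m rel T.B w ex = true → ∃ M, IsModel I M := by
  classical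
  obtain ⟨s, hs, w, hw, hmul⟩ := T.sound hT hV (fun i u => (cdAt cd i).d (X i u))
    (fun i hi u => by
      rw [hTk] at hi
      exact hB i hi _ (h.lt i hi u)) hp
  have hso := hsyms s hs
  have hf : ∀ u : V, (codeOf T.B T.k fun i => fl (s.2.getD i 0)
      ((cdAt cd (s.1.getD i 0)).d (X (s.1.getD i 0) u))) =
      codeOf T.B cd.length fun i => (cdAt cd i).d
        (flipX (cdAt cd i) (s.2.getD i 0) (X (s.1.getD i 0) u)) := by
    intro u
    rw [hTk]
    apply codeOf_congr
    intro i hi
    rw [hso.2.2.1 i hi]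
    have hlt := h.lt _ (hso.1 i hi) u
    rw [hso.2.2.1 i hi] at hlt
    rcases Nat.eq_zero_or_pos (s.2.getD i 0) with he | he
    · simp only [he, flipX, if_true, fl]
    · have he' : ¬ s.2.getD i 0 = 0 := by omega
      rcases hso.2.2.2.2.1 i hi with h8 | ⟨_, _, hsym⟩
      · omega
      · simp only [flipX, he', if_false]
        rw [(hsym _ hlt).2]
        unfold fl
        simp only [he', if_false, one_ne_zero]
  simp only [hf] at hmul
  have ht := h.transform hk hso (Equiv.refl V)
  refine ⟨w, hw, ?_⟩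
  intro I ex hex hI
  obtain ⟨G', X', hc, hm, hE⟩ := ht.exists_excl hk hB hmul ex hex
  obtain ⟨σ, hσ1, hσ2⟩ := exists_order hV (g := fun u => codeOf 32 cd.length fun i => X' i u)
    (N := 32 ^ cd.length)
    (fun u => codeOf_lt _ (fun i hi => lt_of_lt_of_le (hc.lt i hi u) (hN i hi)))
    (hlen w hw) hm
  have hc2 := hc.comap σ
  exact ⟨_, hc2.isModelP hN hσ2 (fun u i hi => ⟨hc2.poss hB hσ1 u i hi, by
    rintro x hx ⟨h1, h2, h3⟩
    subst h1
    have h4 := hE x hx (σ u) h2
    apply h4
    rw [← h3]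
    rw [← hσ1 u, dig_codeOf cd.length (fun i hi => hB i hi _ (hc.lt i hi _)) _
      (exB_lt ex hex x hx).2]⟩) (fitsP_of_fitsE hI)⟩

end

/-- the checks of a family of instances, each with its exclusions -/
def famE (T : Spec2) (cd : List CD) (m : Fin 4 → ℕ) (rel : List (ℕ × ℕ × ℕ))
    (ext : List (List (ℕ × ℕ) × ℕ × ℕ)) (inst : List (List (Inst × List Ex))) : Bool :=
  T.check && (decide (T.k = cd.length ∧ cd.length ≤ 4) &&
  (allLt cd.length (fun i => Nat.ble (cdAt cd i).n 32 && allLt (cdAt cd i).n fun a =>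
    Nat.blt ((cdAt cd i).d a) T.B) &&
  (T.syms.all (fun s => decide (symOK cd m rel s)) &&
  (T.S.places.all (fun p => decide (p.length = 17)) &&
  (T.pats.all (fun x => x.1.all (fun y => Nat.blt y.2 T.B) && (patB cd m rel T.B x ||
    decide (x ∈ ext))) &&
  (decide (inst.length = T.S.places.length) &&
  (List.zipWith (fun Is w => Is.any fun I => exB cd m rel T.B w I.2 &&
    fitsE I.1 cd m rel T.B w I.2) inst T.S.places).all id))))))

/-- **Main theorem**: a configuration gives a model of one of the instances. -/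
theorem Conf.exists_instE {T : Spec2} {cd : List CD} {m : Fin 4 → ℕ} {rel : List (ℕ × ℕ × ℕ)}
    {ext : List (List (ℕ × ℕ) × ℕ × ℕ)} {inst : List (List (Inst × List Ex))}
    (hF : famE T cd m rel ext inst = true)
    {V : Type*} [Fintype V] [DecidableEq V] (hV : Fintype.card V = 17)
    {G : Fin 4 → SimpleGraph V} {X : ℕ → V → ℕ} (h : Conf cd m rel G X)
    (hα : ∀ i, AlphaEight (G i))
    (hext : ∀ x ∈ ext, x.2.1 ≤ (Finset.univ.filter fun u =>
        ∀ y ∈ x.1, (cdAt cd y.1).d (X y.1 u) = y.2).card ∧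
      (Finset.univ.filter fun u => ∀ y ∈ x.1, (cdAt cd y.1).d (X y.1 u) = y.2).card ≤ x.2.2) :
    ∃ Is ∈ inst, ∃ I ∈ Is, ∃ M, IsModel I.1 M := by
  unfold famE at hF
  simp only [Bool.and_eq_true, decide_eq_true_iff, allLt_iff, List.all_eq_true, Nat.ble_eq,
    Nat.blt_eq, Bool.or_eq_true] at hF
  obtain ⟨hT, ⟨hTk, hk⟩, hcd, hsyms, hlen, hpats, hil, hinst⟩ := hF
  obtain ⟨w, hw, hM⟩ := Conf.exists_modelE T hT hTk hk (fun i hi a ha => (hcd i hi).2 a ha)
    (fun i hi => (hcd i hi).1) hsyms hlen hV h (by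
      intro x hx
      obtain ⟨h1, h2⟩ := hpats x hx
      rcases h2 with h2 | h2
      · exact h.pat_sound hV hα hk (fun i hi a ha => (hcd i hi).2 a ha) h1 h2
      · exact hext x h2)
  obtain ⟨n, hn, rfl⟩ := List.mem_iff_getElem.1 hw
  have hn' : n < inst.length := by omega
  have h1 := hinst ((inst[n]).any fun I => exB cd m rel T.B T.S.places[n] I.2 &&
      fitsE I.1 cd m rel T.B T.S.places[n] I.2) (by
    rw [List.mem_iff_getElem]
    refine ⟨n, by rw [List.length_zipWith]; omega, ?_⟩
    rw [List.getElem_zipWith])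
  simp only [id, List.any_eq_true, Bool.and_eq_true] at h1
  obtain ⟨I, hI, hex, hfit⟩ := h1
  exact ⟨inst[n], List.getElem_mem _, I, hI, hM I.1 I.2 hex hfit⟩

end Pool.Agent.Work.MP_92a29d_co.Place
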