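import Pool.Agent.Work.MP_92a29d_co_h36.Conf

/-!
From configurations to models of instances.
-/

namespace Pool.Agent.Work.MP_92a29d_co.Place

open SimpleGraph Finset Pool.Agent.Work.MP_92a29d_co_h45

/-- the model of a labelled configuration on `Fin 17` -/
def mkModel (G : Fin 4 → SimpleGraph (Fin 17)) (X : ℕ → Fin 17 → ℕ) : Model where
  adj i u v := ∃ (hi : i < 4) (hu : u < 17) (hv : v < 17), (G ⟨i, hi⟩).Adj ⟨u, hu⟩ ⟨v, hv⟩
  lab i u := if h : u < 17 then X i ⟨u, h⟩ else 0

/-- the label `a` is possible for a vertex with code `c` in class `i` -/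
def possL (cd : List CD) (rel : List (ℕ × ℕ × ℕ)) (B c i a : ℕ) : Prop :=
  (cdAt cd i).d a = dig B cd.length c i ∧
    ∀ r ∈ rel, r.2.1 = i → r.1 < cd.length → dig B cd.length c r.1 = 0 → a = r.2.2

instance (cd : List CD) (rel : List (ℕ × ℕ × ℕ)) (B c i a : ℕ) :
    Decidable (possL cd rel B c i a) := by unfold possL; infer_instance

def notExpl : Kind → Bool
  | .expl _ => false
  | _ => true

def explLe (m : ℕ) : Kind → Bool
  | .expl m' => Nat.ble m' m
  | _ => false

/-- the instance `I` describes configurations with the codes `w`; `P i u a` says that `a` is a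
possible label for the vertex `u` in the class `i` -/
structure FitsP (I : Inst) (cd : List CD) (m : Fin 4 → ℕ) (P : ℕ → ℕ → ℕ → Prop)
    (w : List ℕ) : Prop where
  k : I.k = cd.length
  kind : ∀ i < cd.length, I.kind i = (cdAt cd i).kind
  coded : ∀ i < cd.length, notExpl (cdAt cd i).kind = true
  expl : ∀ i : Fin 4, cd.length ≤ i.val → explLe (m i) (I.kind i) = true
  levs : ∀ i < cd.length, ∀ u < 17, ∀ a < (cdAt cd i).n, P i u a → a ∈ I.levs i u
  ne : ∀ x ∈ I.ne, x.1 < cd.length ∧ x.2 < (cdAt cd x.1).n ∧ 1 ≤ (cdAt cd x.1).lo x.2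
  size : ∀ x ∈ I.size, x.1 < cd.length ∧ x.2.1 < (cdAt cd x.1).n ∧
    (cdAt cd x.1).hi x.2.1 ≤ x.2.2
  lex : ∀ x ∈ I.lex, x.1 ≤ x.2 ∧ x.2 < 17 ∧ w.getD x.1 0 = w.getD x.2 0
  five : ∀ x ∈ I.five, ∃ i j i' j' : Fin 4, x.1 = i ∧ x.2 = j ∧
    (∀ y : Fin 4, y = i ∨ y = j ∨ y = i' ∨ y = j') ∧ 2 ≤ m i' ∧ 1 ≤ m j'
  forbid : ∀ x ∈ I.forbid, x.1 < cd.length ∧ x.2.1 < 17 ∧ ¬ P x.1 x.2.1 x.2.2

/-- the instance `I` describes configurations with the codes `w` -/
abbrev Fits (I : Inst) (cd : List CD) (m : Fin 4 → ℕ) (rel : List (ℕ × ℕ × ℕ)) (B : ℕ)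
    (w : List ℕ) : Prop :=
  FitsP I cd m (fun i u a => possL cd rel B (w.getD u 0) i a) w

/-- all numbers below `n` -/
def allLt (n : ℕ) (f : ℕ → Bool) : Bool :=
  Nat.rec (motive := fun _ => Bool) true (fun m r => and (f m) r) n

theorem allLt_iff (f : ℕ → Bool) (n : ℕ) : allLt n f = true ↔ ∀ k < n, f k = true := by
  induction n with
  | zero => simp [allLt]
  | succ n ih =>
    change and (f n) (allLt n f) = true ↔ _
    rw [Bool.and_eq_true, ih]
    constructor
    · rintro ⟨h1, h2⟩ k hk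
      rcases Nat.lt_succ_iff_lt_or_eq.1 hk with h | rfl
      · exact h2 k h
      · exact h1
    · intro h
      exact ⟨h n (by omega), fun k hk => h k (by omega)⟩

/-- boolean form of `Fits` -/
def fitsB (I : Inst) (cd : List CD) (m : Fin 4 → ℕ) (rel : List (ℕ × ℕ × ℕ)) (B : ℕ)
    (w : List ℕ) : Bool :=
  decide (I.k = cd.length) && allLt cd.length (fun i => decide (I.kind i = (cdAt cd i).kind)) &&
  allLt cd.length (fun i => notExpl (cdAt cd i).kind) &&
  decide (∀ i : Fin 4, cd.length ≤ i.val → explLe (m i) (I.kind i) = true) &&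
  allLt cd.length (fun i => allLt 17 fun u => allLt (cdAt cd i).n fun a =>
    !decide (possL cd rel B (w.getD u 0) i a) || decide (a ∈ I.levs i u)) &&
  I.ne.all (fun x => decide (x.1 < cd.length ∧ x.2 < (cdAt cd x.1).n ∧
    1 ≤ (cdAt cd x.1).lo x.2)) &&
  I.size.all (fun x => decide (x.1 < cd.length ∧ x.2.1 < (cdAt cd x.1).n ∧
      (cdAt cd x.1).hi x.2.1 ≤ x.2.2)) &&
  I.lex.all (fun x => decide (x.1 ≤ x.2 ∧ x.2 < 17 ∧ w.getD x.1 0 = w.getD x.2 0)) &&
  I.five.all (fun x => decide (∃ i j i' j' : Fin 4, x.1 = i ∧ x.2 = j ∧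
      (∀ y : Fin 4, y = i ∨ y = j ∨ y = i' ∨ y = j') ∧ 2 ≤ m i' ∧ 1 ≤ m j')) &&
  I.forbid.all (fun x => decide (x.1 < cd.length ∧ x.2.1 < 17 ∧
      ¬ possL cd rel B (w.getD x.2.1 0) x.1 x.2.2))

theorem fits_of_fitsB {I : Inst} {cd : List CD} {m : Fin 4 → ℕ} {rel : List (ℕ × ℕ × ℕ)} {B : ℕ}
    {w : List ℕ} (h : fitsB I cd m rel B w = true) : Fits I cd m rel B w := by
  unfold fitsB at h
  simp only [Bool.and_eq_true, decide_eq_true_iff, allLt_iff, List.all_eq_true] at h
  obtain ⟨⟨⟨⟨⟨⟨⟨⟨⟨h1, h2⟩, h3⟩, h4⟩, h5⟩, h6⟩, h7⟩, h8⟩, h9⟩, h10⟩ := h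
  refine ⟨h1, h2, h3, h4, ?_, h6, h7, h8, h9, h10⟩
  intro i hi u hu a ha hp
  have := h5 i hi u hu a ha
  rw [Bool.or_eq_true, Bool.not_eq_true', decide_eq_false_iff_not, decide_eq_true_iff] at this
  rcases this with h | h
  · exact absurd hp h
  · exact h

/-- comparison of numbers by their digits -/
theorem codeOf_lex {B : ℕ} (k : ℕ) {x y : ℕ → ℕ} (hx : ∀ i < k, x i < B) (hy : ∀ i < k, y i < B)
    (h : codeOf B k x ≤ codeOf B k y) : ∀ i < k, (∀ j < i, x j = y j) → x i ≤ y i := by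
  induction k with
  | zero => intro i hi; omega
  | succ k ih =>
    have hxk := hx k (by omega)
    have hyk := hy k (by omega)
    have hle : codeOf B k x ≤ codeOf B k y := by
      unfold codeOf at h
      by_contra hcon
      push Not at hcon
      have h3 : codeOf B k y * B + B ≤ codeOf B k x * B := by
        calc codeOf B k y * B + B = (codeOf B k y + 1) * B := by ring
          _ ≤ codeOf B k x * B := Nat.mul_le_mul_right _ hcon
      omega
    intro i hi heq
    rcases Nat.lt_or_ge i k with h1 | h1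
    · exact ih (fun i hi => hx i (by omega)) (fun i hi => hy i (by omega)) hle i h1 heq
    · have e : i = k := by omega
      subst e
      unfold codeOf at h
      rw [codeOf_congr i heq] at h
      omega

section model

variable {cd : List CD} {m : Fin 4 → ℕ} {rel : List (ℕ × ℕ × ℕ)}
  {G : Fin 4 → SimpleGraph (Fin 17)} {X : ℕ → Fin 17 → ℕ} {B : ℕ} {w : List ℕ} {I : Inst}

theorem Conf.poss (h : Conf cd m rel G X)
    (hB : ∀ i < cd.length, ∀ a < (cdAt cd i).n, (cdAt cd i).d a < B)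
    (hcode : ∀ j : Fin 17, codeOf B cd.length (fun i => (cdAt cd i).d (X i j)) = w.getD j 0) :
    ∀ u : Fin 17, ∀ i < cd.length, possL cd rel B (w.getD u 0) i (X i u) := by
  have hdig : ∀ u : Fin 17, ∀ i < cd.length, dig B cd.length (w.getD u 0) i =
      (cdAt cd i).d (X i u) := by
    intro u i hi
    rw [← hcode u]
    exact dig_codeOf cd.length (fun i hi => hB i hi _ (h.lt i hi u)) i hi
  intro u i hi
  refine ⟨(hdig u i hi).symm, ?_⟩
  intro r hr hri hrk h0
  rw [hdig u r.1 hrk] at h0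
  have := h.rel r hr u h0
  rw [hri] at this
  exact this

theorem Conf.isModelP (h : Conf cd m rel G X)
    (hN : ∀ i < cd.length, (cdAt cd i).n ≤ 32)
    (hlex : ∀ u v : Fin 17, u ≤ v → w.getD u 0 = w.getD v 0 →
      codeOf 32 cd.length (fun i => X i u) ≤ codeOf 32 cd.length (fun i => X i v))
    {P : ℕ → ℕ → ℕ → Prop} (hposs : ∀ u : Fin 17, ∀ i < cd.length, P i u (X i u))
    (hf : FitsP I cd m P w) : IsModel I (mkModel G X) := by
  classical
  have hlab : ∀ i (u : ℕ) (hu : u < 17), (mkModel G X).lab i u = X i ⟨u, hu⟩ :=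
    fun i u hu => dif_pos hu
  refine ⟨?_, ?_, ?_, ?_, ?_, ?_, ?_, ?_, ?_, ?_, ?_, ?_⟩
  · rintro i u v ⟨hi, hu, hv, ha⟩
    exact ⟨hi, hv, hu, ha.symm⟩
  · intro u v huv hv
    obtain ⟨i, hi⟩ := h.cover.cov (⟨u, by omega⟩ : Fin 17) ⟨v, hv⟩ (by
      intro e
      have := congrArg Fin.val e
      simp only at this
      omega)
    exact ⟨i.val, i.isLt, i.isLt, by omega, hv, hi⟩
  · intro i u hi hu
    rw [hf.k] at hi
    rw [hlab i u hu]
    exact hf.levs i hi u hu _ (h.lt i hi _) (hposs ⟨u, hu⟩ i hi)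
  · intro i u v hi hu hv ha
    rw [hf.k] at hi
    obtain ⟨hi4, _, _, ha⟩ := ha
    rw [hlab i u hu, hlab i v hv, hf.kind i hi]
    exact h.adj ⟨i, hi4⟩ hi _ _ ha
  · rintro i m' hkd hm' a b c ha hb hc ⟨hi, _, _, h1⟩ ⟨_, _, _, h2⟩ ⟨_, _, _, h3⟩
    have hik : cd.length ≤ i := by
      by_contra hcon
      push Not at hcon
      have := hf.coded i hcon
      rw [← hf.kind i hcon, hkd] at this
      exact Bool.noConfusion this
    have h4 := hf.expl ⟨i, hi⟩ hik
    have hkd' : I.kind ((⟨i, hi⟩ : Fin 4) : ℕ) = Kind.expl m' := hkd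
    rw [hkd'] at h4
    have h5 : m' ≤ m ⟨i, hi⟩ := Nat.le_of_ble_eq_true h4
    have h6 := h.cover.girth ⟨i, hi⟩ _ (Walk.cons h1 (Walk.cons h2 (Walk.cons h3 Walk.nil)))
      (by simp only [Walk.length_cons, Walk.length_nil]; decide)
    simp only [Walk.length_cons, Walk.length_nil] at h6
    omega
  · rintro i m' hkd hm' a b c d e ha hb hc hd he ⟨hi, _, _, h1⟩ ⟨_, _, _, h2⟩ ⟨_, _, _, h3⟩
      ⟨_, _, _, h4⟩ ⟨_, _, _, h5⟩
    have hik : cd.length ≤ i := by
      by_contra hcon
      push Not at hcon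
      have := hf.coded i hcon
      rw [← hf.kind i hcon, hkd] at this
      exact Bool.noConfusion this
    have h6 := hf.expl ⟨i, hi⟩ hik
    have hkd' : I.kind ((⟨i, hi⟩ : Fin 4) : ℕ) = Kind.expl m' := hkd
    rw [hkd'] at h6
    have h7 : m' ≤ m ⟨i, hi⟩ := Nat.le_of_ble_eq_true h6
    have h8 := h.cover.girth ⟨i, hi⟩ _ (Walk.cons h1 (Walk.cons h2 (Walk.cons h3 (Walk.cons h4
      (Walk.cons h5 Walk.nil)))))
      (by simp only [Walk.length_cons, Walk.length_nil]; decide)
    simp only [Walk.length_cons, Walk.length_nil] at h8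
    omega
  · intro i a hia
    obtain ⟨h1, h2, h3⟩ := hf.ne _ hia
    have h4 := (h.bds i h1 a h2).1
    have h5 : 0 < (univ.filter fun u => X i u = a).card := by
      have : 1 ≤ (cdAt cd i).lo a := h3
      omega
    obtain ⟨u, hu⟩ := Finset.card_pos.1 h5
    refine ⟨u.val, u.isLt, ?_⟩
    rw [hlab i u.val u.isLt]
    exact (mem_filter.1 hu).2
  · intro i a s hia t hnd hlen ht
    obtain ⟨h1, h2, h3⟩ := hf.size _ hia
    by_contra hcon
    push Not at hcon
    have h4 := (h.bds i h1 a h2).2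
    have h5 : (cdAt cd i).hi a ≤ s := h3
    let t' : Finset (Fin 17) := univ.filter fun u => u.val ∈ t
    have hsub : t' ⊆ univ.filter fun u => X i u = a := by
      intro u hu
      have hu' : u.val ∈ t := (mem_filter.1 hu).2
      refine mem_filter.2 ⟨mem_univ _, ?_⟩
      have := hcon u.val hu'
      rw [hlab i u.val u.isLt] at this
      exact this
    have hcard : s + 1 ≤ t'.card := by
      have e : t.toFinset ⊆ t'.image Fin.val := by
        intro x hx
        rw [List.mem_toFinset] at hx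
        rw [Finset.mem_image]
        exact ⟨⟨x, ht x hx⟩, mem_filter.2 ⟨mem_univ _, hx⟩, rfl⟩
      have e2 := Finset.card_le_card e
      rw [List.toFinset_card_of_nodup hnd, hlen] at e2
      exact e2.trans Finset.card_image_le
    have := Finset.card_le_card hsub
    omega
  · intro u v huv i hi heq
    obtain ⟨h1, h2, h3⟩ := hf.lex _ huv
    simp only at h1 h2 h3
    rw [hf.k] at hi
    rw [hlab i u (by omega), hlab i v h2]
    refine codeOf_lex cd.length (B := 32) (x := fun i => X i ⟨u, by omega⟩)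
      (y := fun i => X i ⟨v, h2⟩) ?_ ?_ (hlex ⟨u, by omega⟩ ⟨v, h2⟩ h1 h3) i hi ?_
    · intro j hj
      exact lt_of_lt_of_le (h.lt j hj _) (hN j hj)
    · intro j hj
      exact lt_of_lt_of_le (h.lt j hj _) (hN j hj)
    · intro j hj
      have := heq j hj
      rw [hlab j u (by omega), hlab j v h2] at this
      exact this
  · intro u v huv
    obtain ⟨h1, h2, h3⟩ := hf.lex _ huv
    simp only at h1 h2 h3
    omega
  · intro i j hij t hnd hlen ht
    obtain ⟨i0, j0, i1, j1, h1, h2, h3, h4, h5⟩ := hf.five _ hij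
    simp only at h1 h2
    by_contra hcon
    push Not at hcon
    let t' : Finset (Fin 17) := univ.filter fun u => u.val ∈ t
    have hcard : 5 ≤ t'.card := by
      have e : t.toFinset ⊆ t'.image Fin.val := by
        intro x hx
        rw [List.mem_toFinset] at hx
        rw [Finset.mem_image]
        exact ⟨⟨x, ht x hx⟩, mem_filter.2 ⟨mem_univ _, hx⟩, rfl⟩
      have e2 := Finset.card_le_card e
      rw [List.toFinset_card_of_nodup hnd, hlen] at e2
      exact e2.trans Finset.card_image_le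
    have hno : ∀ x : Fin 4, (x = i0 ∨ x = j0) → ∀ u ∈ t', ∀ v ∈ t', ¬ (G x).Adj u v := by
      intro x hx u hu v hv ha
      have hu' : u.val ∈ t := (mem_filter.1 hu).2
      have hv' : v.val ∈ t := (mem_filter.1 hv).2
      have hne : u ≠ v := ha.ne
      have key : ∀ a b : Fin 17, a.val ∈ t → b.val ∈ t → (G x).Adj a b → a.val < b.val →
          False := by
        intro a b ha' hb' hab hlt
        have := hcon a.val ha' b.val hb' hlt
        rcases hx with rfl | rfl
        · apply this.1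
          rw [h1]
          exact ⟨x.isLt, a.isLt, b.isLt, hab⟩
        · apply this.2
          rw [h2]
          exact ⟨x.isLt, a.isLt, b.isLt, hab⟩
      rcases lt_or_gt_of_ne (fun e => hne (Fin.ext e) : u.val ≠ v.val) with hlt | hlt
      · exact key u v hu' hv' ha hlt
      · exact key v u hv' hu' ha.symm hlt
    have := pair_bound h.cover i0 j0 i1 j1 h3 h4 h5 t' (hno i0 (Or.inl rfl)) (hno j0 (Or.inr rfl))
    omega
  · intro i u a hia he
    obtain ⟨h1, h2, h3⟩ := hf.forbid _ hia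
    simp only at h1 h2 h3
    rw [hlab i u h2] at he
    apply h3
    rw [← he]
    exact hposs ⟨u, h2⟩ i h1

theorem Conf.isModel (h : Conf cd m rel G X)
    (hB : ∀ i < cd.length, ∀ a < (cdAt cd i).n, (cdAt cd i).d a < B)
    (hN : ∀ i < cd.length, (cdAt cd i).n ≤ 32)
    (hcode : ∀ j : Fin 17, codeOf B cd.length (fun i => (cdAt cd i).d (X i j)) = w.getD j 0)
    (hlex : ∀ u v : Fin 17, u ≤ v → w.getD u 0 = w.getD v 0 →
      codeOf 32 cd.length (fun i => X i u) ≤ codeOf 32 cd.length (fun i => X i v))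
    (hf : Fits I cd m rel B w) : IsModel I (mkModel G X) :=
  h.isModelP hN hlex (h.poss hB hcode) hf

/-- **From a configuration to a model of an instance.** -/
theorem Conf.exists_model (T : Spec2) (hT : T.check = true) (hTk : T.k = cd.length)
    (hk : cd.length ≤ 4)
    (hB : ∀ i < cd.length, ∀ a < (cdAt cd i).n, (cdAt cd i).d a < T.B)
    (hN : ∀ i < cd.length, (cdAt cd i).n ≤ 32)
    (hsyms : ∀ s ∈ T.syms, symOK cd m rel s) (hlen : ∀ p ∈ T.S.places, p.length = 17)
    {V : Type*} [Fintype V] [DecidableEq V] (hV : Fintype.card V = 17)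
    {G : Fin 4 → SimpleGraph V} {X : ℕ → V → ℕ} (h : Conf cd m rel G X)
    (hp : ∀ x ∈ T.pats, x.2.1 ≤ (Finset.univ.filter fun u =>
        ∀ y ∈ x.1, (cdAt cd y.1).d (X y.1 u) = y.2).card ∧
      (Finset.univ.filter fun u => ∀ y ∈ x.1, (cdAt cd y.1).d (X y.1 u) = y.2).card ≤ x.2.2) :
    ∃ w ∈ T.S.places, ∀ I : Inst, Fits I cd m rel T.B w → ∃ M, IsModel I M := by
  classical
  obtain ⟨s, hs, w, hw, hmul⟩ := T.sound hT hV (fun i u => (cdAt cd i).d (X i u))
    (fun i hi u => by
      rw [hTk] at hi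
      exact hB i hi _ (h.lt i hi u)) hp
  have hso := hsyms s hs
  have hf : ∀ u : V, (codeOf T.B T.k fun i => fl (s.2.getD i 0)
      ((cdAt cd (s.1.getD i 0)).d (X (s.1.getD i 0) u))) =
      codeOf T.B cd.length fun i => (cdAt cd i).d
        (flipX (cdAt cd i) (s.2.getD i 0) (X (s.1.getD i 0) u)) := by
    intro u
    rw [hTk]
    apply codeOf_congr
    intro i hi
    rw [hso.2.2.1 i hi]
    have hlt := h.lt _ (hso.1 i hi) u
    rw [hso.2.2.1 i hi] at hlt
    rcases Nat.eq_zero_or_pos (s.2.getD i 0) with he | he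
    · simp only [he, flipX, if_true, fl]
    · have he' : ¬ s.2.getD i 0 = 0 := by omega
      rcases hso.2.2.2.2.1 i hi with h8 | ⟨_, _, hsym⟩
      · omega
      · simp only [flipX, he', if_false]
        rw [(hsym _ hlt).2]
        unfold fl
        simp only [he', if_false, one_ne_zero]
  simp only [hf] at hmul
  obtain ⟨σ, hσ1, hσ2⟩ := exists_order hV (g := fun u => codeOf 32 cd.length fun i =>
      flipX (cdAt cd i) (s.2.getD i 0) (X (s.1.getD i 0) u)) (N := 32 ^ cd.length)
    (fun u => codeOf_lt _ (fun i hi => by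
      have hlt := h.lt _ (hso.1 i hi) u
      rw [hso.2.2.1 i hi] at hlt
      have h2 := hN i hi
      unfold flipX
      split
      · omega
      · exact lt_of_lt_of_le (Nat.mod_lt _ (by omega)) h2))
    (hlen w hw) hmul
  have hc := h.transform hk hso σ
  exact ⟨w, hw, fun I hI => ⟨_, hc.isModel hB hN hσ1 hσ2 hI⟩⟩

end model

end Pool.Agent.Work.MP_92a29d_co.Place
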