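import Pool.Agent.Work.MP_92a29d_co_h36.CG4322M
import Pool.Agent.Work.MP_92a29d_co_h36.G3332A
import Pool.Agent.Work.MP_92a29d_co_h36.G3332B
import Pool.Agent.Work.MP_92a29d_co_h36.G3332C
import Pool.Agent.Work.MP_92a29d_co_h36.G3332D

/-!
Families with one coded class and one instance; the four families for (3,3,3,2).

* `g3332A`: `m = 3`, three consecutive single levels (at `-1, 0, 1`);
* `g3332B`: `m = 3`, level sizes at most `(1,1,2,3,2,3,3,4,3)`;
* `g3332C`: `m = 2`, three consecutive single levels;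
* `g3332D`: `m = 2`, level sizes at most `(1,1,2,4,4,5,4)`.
-/

namespace Pool.Agent.Work.MP_92a29d_co.Place

open SimpleGraph Finset Pool.Agent.Work.MP_92a29d_co_h45

variable {V : Type*} [Fintype V] [DecidableEq V]

/-- checks for the label 0 -/
def zeroOK (c0 : CD) : Bool :=
  Nat.blt 0 c0.n && (Nat.beq (c0.lo 0) 1 && (Nat.beq (c0.hi 0) 1 && (Nat.beq (c0.d 0) 0 &&
    allLt c0.n fun a => !(Nat.beq (c0.d a) 0) || Nat.beq a 0)))

omit [DecidableEq V] in
theorem ClsOK.card_zero {c0 : CD} (hz : zeroOK c0 = true) {X : V → ℕ} {G : SimpleGraph V}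
    (h : ClsOK c0 G X) : (univ.filter fun u => c0.d (X u) = 0).card = 1 := by
  unfold zeroOK at hz
  simp only [Bool.and_eq_true, Nat.blt_eq, Nat.beq_eq, allLt_iff, Bool.or_eq_true,
    Bool.not_eq_true', nbeq_false] at hz
  obtain ⟨h1, h2, h3, h4, h5⟩ := hz
  have e1 : (univ.filter fun u => c0.d (X u) = 0) = univ.filter fun u => X u = 0 := by
    apply Finset.filter_congr
    intro u _
    constructor
    · intro h6
      rcases h5 _ (h.lt u) with h7 | h7
      · exact absurd h6 h7
      · exact h7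
    · intro h6
      rw [h6]
      exact h4
  rw [e1]
  have h6 := h.bds 0 h1
  rw [h2, h3] at h6
  omega

/-- **One instance, one coded class.** -/
theorem one_false {T : Spec2} {c0 : CD} {m : Fin 4 → ℕ} {dir swap : Bool} {F : List Fact}
    {J : InstX} (hF : famOne T c0 m dir swap F [[J]] = true) (hz : zeroOK c0 = true)
    (hV : Fintype.card V = 17) {G : Fin 4 → SimpleGraph V} (hcov : Cover V m G)
    (hα : ∀ i, AlphaEight (G i)) {X : V → ℕ} (hc : ClsOK c0 (G 0) X)
    (hU : ∀ M, ¬ IsModelX J M) : False := by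
  obtain ⟨Is, hIs, J', hJ, M, hM⟩ := Conf.exists_instOne hF hV (Conf.of_one hcov hc) hα
    (hc.card_zero hz)
  rw [List.mem_singleton] at hIs
  subst hIs
  rw [List.mem_singleton] at hJ
  subst hJ
  exact hU M hM

theorem g3332A_gen : genCD 3 true = g3332A_c0 := by decide +kernel
theorem g3332C_gen : genCD 2 true = g3332C_c0 := by decide +kernel
theorem g3332A_zero : zeroOK g3332A_c0 = true := by decide +kernel
theorem g3332B_zero : zeroOK g3332B_c0 = true := by decide +kernel
theorem g3332C_zero : zeroOK g3332C_c0 = true := by decide +kernel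
theorem g3332D_zero : zeroOK g3332D_c0 = true := by decide +kernel

/-- class data from bounds of the level sizes -/
theorem clsOK_bounds {m : ℕ} {G : SimpleGraph V} {f : V → ZMod (2 * m + 3)}
    (hf : CycHom G (2 * m + 3) f) (j0 : ZMod (2 * m + 3)) {c : CD} (hk : c.kind = .lev m)
    (hn : c.n = 2 * m + 3) {hi : List ℕ}
    (hb : ∀ a < 2 * m + 3, 1 ≤ lsize f (j0 + a) ∧ lsize f (j0 + a) ≤ hi.getD a 0)
    (hc : (allLt c.n fun a => Nat.ble (c.lo a) 1 && Nat.ble (hi.getD a 0) (c.hi a)) = true) :
    ClsOK c G (fun u => (f u - j0).val) := by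
  refine clsOK_level hf j0 hk hn ?_
  intro a ha
  simp only [allLt_iff, Bool.and_eq_true, Nat.ble_eq] at hc
  have h1 := hc a (by rw [hn]; exact ha)
  have h2 := hb a ha
  omega

end Pool.Agent.Work.MP_92a29d_co.Place
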