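import Pool.Agent.Work.MP_92a29d_co_h36.OneLevel

/-!
One coded class and three explicit classes: the configuration with digits.
-/

namespace Pool.Agent.Work.MP_92a29d_co.Place

open SimpleGraph Finset Pool.Agent.Work.MP_92a29d_co_h45

variable {V : Type*} [Fintype V] [DecidableEq V]

/-- exchange of the classes 2 and 3 -/
def swG (G : Fin 4 → SimpleGraph V) : Fin 4 → SimpleGraph V := fun i => G (Equiv.swap 2 3 i)

/-- exchange of the digits 2 and 3 -/
def swE (e : ℕ → V → ℕ) : ℕ → V → ℕ := fun i => e (if i = 2 then 3 else if i = 3 then 2 else i)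

omit [Fintype V] [DecidableEq V] in
theorem swG_vals (G : Fin 4 → SimpleGraph V) :
    swG G 0 = G 0 ∧ swG G 1 = G 1 ∧ swG G 2 = G 3 ∧ swG G 3 = G 2 := by
  refine ⟨?_, ?_, ?_, ?_⟩ <;> rfl

omit [DecidableEq V] in
theorem LocOne.swap {c0 : CD} {G : Fin 4 → SimpleGraph V} {X : ℕ → V → ℕ} {wt : ℕ → ℕ}
    {e : ℕ → V → ℕ} (h : LocOne c0 G X wt e) : LocOne c0 (swG G) X wt (swE e) := by
  obtain ⟨g0, g1, g2, g3⟩ := swG_vals G
  refine ⟨h.zero, ?_, ?_, ?_, ?_, ?_, ?_, ?_, h.c0, h.c1, h.c2, ?_, ?_⟩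
  · intro i hi u
    interval_cases i
    · exact h.lt 0 (by norm_num) u
    · exact h.lt 1 (by norm_num) u
    · exact h.lt 3 (by norm_num) u
    · exact h.lt 2 (by norm_num) u
  · intro i hi1 hi4 u
    interval_cases i
    · exact h.iff 1 (by norm_num) (by norm_num) u
    · exact h.iff 3 (by norm_num) (by norm_num) u
    · exact h.iff 2 (by norm_num) (by norm_num) u
  · intro u w a b
    rw [g0]
    exact h.r0 u w a b
  · intro u w a b c
    rw [g1]
    exact h.r1 u w a b c
  · intro u w a b c d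
    rw [g2]
    exact h.r3 u w a b c d
  · intro u w a b c d
    rw [g3]
    exact h.r2 u w a b c d
  · intro u w a b c d f
    exact h.inj u w a b c f d
  · intro u w a b c d f
    exact h.o1 u w a b c f d
  · intro u w a b c d f
    exact h.o2 u w a b c f d

theorem Conf.swap {c0 : CD} {m : Fin 4 → ℕ} {rel : List (ℕ × ℕ × ℕ)}
    {G : Fin 4 → SimpleGraph V} {X : ℕ → V → ℕ} (h : Conf [c0] m rel G X) (hm : m 2 = m 3) :
    Conf [c0] m rel (swG G) X := by
  obtain ⟨g0, g1, g2, g3⟩ := swG_vals G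
  refine ⟨⟨?_, ?_⟩, ?_, h.lt, h.bds, h.rel⟩
  · intro u v huv
    obtain ⟨i, hi⟩ := h.cover.cov u v huv
    refine ⟨Equiv.swap 2 3 i, ?_⟩
    unfold swG
    rw [Equiv.swap_apply_self]
    exact hi
  · intro i v p hp
    fin_cases i
    · exact h.cover.girth 0 v p hp
    · exact h.cover.girth 1 v p hp
    · have := h.cover.girth 3 v p hp
      rw [← hm] at this
      exact this
    · have := h.cover.girth 2 v p hp
      rw [hm] at this
      exact this
  · intro i hi u w huw
    have hi' : i.val < 1 := hi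
    have : i = 0 := Fin.ext (by simpa using hi')
    subst this
    rw [g0] at huw
    exact h.adj 0 hi u w huw

/-- the local codes, with an edge fixed by the exchange of the last two classes -/
structure LocOneE (c0 : CD) (G : Fin 4 → SimpleGraph V) (X : ℕ → V → ℕ) (wt : ℕ → ℕ)
    (e : ℕ → V → ℕ) : Prop where
  loc : LocOne c0 G X wt e
  edge : ∀ u w, u ≠ w → e 0 u = 1 → e 0 w = 1 → e 1 u = 1 → e 1 w = 1 → e 2 u = 1 →
    e 3 u = 1 → e 2 w = 2 → e 3 w = 2 → (G 2).Adj u w

theorem LocOne.exists_edge {c0 : CD} {m : Fin 4 → ℕ} {rel : List (ℕ × ℕ × ℕ)}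
    {G : Fin 4 → SimpleGraph V} {X : ℕ → V → ℕ} {wt : ℕ → ℕ} {e : ℕ → V → ℕ}
    (h : LocOne c0 G X wt e) (hc : Conf [c0] m rel G X) (hm : m 2 = m 3) :
    ∃ G' e', Conf [c0] m rel G' X ∧ LocOneE c0 G' X wt e' := by
  classical
  by_cases hE : ∀ u w, u ≠ w → e 0 u = 1 → e 0 w = 1 → e 1 u = 1 → e 1 w = 1 → e 2 u = 1 →
      e 3 u = 1 → e 2 w = 2 → e 3 w = 2 → (G 2).Adj u w
  · exact ⟨G, e, hc, h, hE⟩
  · refine ⟨swG G, swE e, hc.swap hm, h.swap, ?_⟩
    push Not at hE
    obtain ⟨u0, w0, hne, a1, a2, a3, a4, a5, a6, a7, a8, hn⟩ := hE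
    intro u w huw b1 b2 b3 b4 b5 b6 b7 b8
    have b5' : e 3 u = 1 := b5
    have b6' : e 2 u = 1 := b6
    have b7' : e 3 w = 2 := b7
    have b8' : e 2 w = 2 := b8
    have b1' : e 0 u = 1 := b1
    have b2' : e 0 w = 1 := b2
    have b3' : e 1 u = 1 := b3
    have b4' : e 1 w = 1 := b4
    have e1 : u = u0 := h.inj u u0 (by rw [b1']; norm_num) (by rw [b1', a1]) (by rw [b3', a3])
      (by rw [b6', a5]) (by rw [b5', a6])
    have e2 : w = w0 := h.inj w w0 (by rw [b2']; norm_num) (by rw [b2', a2]) (by rw [b4', a4])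
      (by rw [b8', a7]) (by rw [b7', a8])
    rw [(swG_vals G).2.2.1, e1, e2]
    obtain ⟨i, hi⟩ := hc.cover.cov u0 w0 hne
    have h0 := h.r0 u0 w0 (by rw [a1]; norm_num) (by rw [a1, a2])
    have h1 := h.r1 u0 w0 (by rw [a1]; norm_num) (by rw [a1, a2]) (by rw [a3, a4])
    fin_cases i
    · exact absurd hi h0
    · exact absurd hi h1
    · exact absurd hi hn
    · exact hi

/-- the rules -/
def oneR : List (Fin 4 × List ℕ) := [(1, [0, 1]), (2, [0, 1, 2]), (3, [0, 1, 3])]

/-- weight: the small odd labels come first; among the even labels the small ones (`dir = false`)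
or the large ones come first -/
def wtD (N : ℕ) (dir : Bool) (a : ℕ) : ℕ :=
  if a % 2 = 1 then a else if dir = true then N - a else a

theorem wtD_odd {N a : ℕ} (dir : Bool) (h : a % 2 = 1) : wtD N dir a = a := if_pos h

theorem wtD_false {N a : ℕ} {dir : Bool} (h : a % 2 = 0) (hd : dir = false) :
    wtD N dir a = a := by
  unfold wtD
  rw [if_neg (by omega), if_neg (by rw [hd]; exact Bool.false_ne_true)]

theorem wtD_true {N a : ℕ} {dir : Bool} (h : a % 2 = 0) (hd : dir = true) :
    wtD N dir a = N - a := by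
  unfold wtD
  rw [if_neg (by omega), if_pos hd]

/-- check of the facts -/
def oneF (dir swap : Bool) : Fact → Bool
  | .ord i c c' => Nat.beq i 0 && (Nat.beq (Place.dig 3 4 c 0) (Place.dig 3 4 c' 0) &&
      ((Nat.beq (Place.dig 3 4 c 2) 1 && (Nat.beq (Place.dig 3 4 c 3) 1 &&
        ((Nat.beq (Place.dig 3 4 c 1) (Place.dig 3 4 c' 1) || Nat.beq (Place.dig 3 4 c 1) 1) &&
        (Nat.beq (Place.dig 3 4 c 0) 1 || (Nat.beq (Place.dig 3 4 c 0) 2 && !dir))))) ||
      (Nat.beq (Place.dig 3 4 c' 2) 1 && (Nat.beq (Place.dig 3 4 c' 3) 1 &&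
        ((Nat.beq (Place.dig 3 4 c 1) (Place.dig 3 4 c' 1) || Nat.beq (Place.dig 3 4 c' 1) 1) &&
        (Nat.beq (Place.dig 3 4 c 0) 2 && dir))))))
  | .edge j c c' => swap && (Nat.beq j 2 && (Nat.beq c 40 && Nat.beq c' 44))
  | _ => false

/-- the labels with digit 1 are odd, the ones with digit 2 are even -/
def oddB (c0 : CD) : Bool :=
  allLt c0.n fun a => (!(Nat.beq (c0.d a) 1) || Nat.beq (a % 2) 1) &&
    (!(Nat.beq (c0.d a) 2) || Nat.beq (a % 2) 0)

theorem LocOneE.dconf {c0 : CD} {m : Fin 4 → ℕ} {rel : List (ℕ × ℕ × ℕ)}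
    {G : Fin 4 → SimpleGraph V} {X : ℕ → V → ℕ} {dir : Bool} {e : ℕ → V → ℕ}
    (h : LocOne c0 G X (wtD c0.n dir) e) (hc : Conf [c0] m rel G X) (hodd : oddB c0 = true)
    {swap : Bool} (hE : swap = true → LocOneE c0 G X (wtD c0.n dir) e)
    {F : List Fact} (hF : F.all (oneF dir swap) = true) :
    DConf [c0] m rel 3 4 oneR F G X e := by
  have hcode : ∀ u c, (codeOf 3 4 fun i => e i u) = c → ∀ i < 4, Place.dig 3 4 c i = e i u := by
    rintro u c rfl i hi
    exact dig_codeOf 4 (fun i hi => h.lt i hi u) i hi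
  have hpar : ∀ u, (e 0 u = 1 → X 0 u % 2 = 1) ∧ (e 0 u = 2 → X 0 u % 2 = 0) := by
    intro u
    have h1 := hc.lt 0 (by simp) u
    unfold oddB at hodd
    rw [allLt_iff] at hodd
    have h2 := hodd (X 0 u) h1
    rw [← h.zero u] at h2
    simp only [Bool.and_eq_true, Bool.or_eq_true, Bool.not_eq_true', nbeq_false, Nat.beq_eq] at h2
    omega
  refine ⟨hc, ?_, h.lt, ?_, ?_⟩
  · intro i hi u
    have hi' : i < 1 := hi
    interval_cases i
    exact h.zero u
  · intro r hr u w huw hq
    unfold oneR at hr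
    simp only [List.mem_cons, List.not_mem_nil, or_false] at hr
    rcases hr with rfl | rfl | rfl
    · have q0 := hq 0 (by simp)
      have q1 := hq 1 (by simp)
      exact h.r1 u w q0.2 q0.1 q1.1
    · have q0 := hq 0 (by simp)
      have q1 := hq 1 (by simp)
      have q2 := hq 2 (by simp)
      exact h.r2 u w q0.2 q0.1 q1.1 q2.1
    · have q0 := hq 0 (by simp)
      have q1 := hq 1 (by simp)
      have q2 := hq 3 (by simp)
      exact h.r3 u w q0.2 q0.1 q1.1 q2.1
  · intro f hf
    rw [List.all_eq_true] at hF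
    have h1 := hF f hf
    cases f with
    | ord i c c' =>
      intro u w hu hw
      have du := hcode u c hu
      have dw := hcode w c' hw
      unfold oneF at h1
      simp only [Bool.and_eq_true, Bool.or_eq_true, Nat.beq_eq, Bool.not_eq_true'] at h1
      rw [du 0 (by norm_num), du 1 (by norm_num), du 2 (by norm_num), du 3 (by norm_num),
        dw 0 (by norm_num), dw 1 (by norm_num), dw 2 (by norm_num), dw 3 (by norm_num)] at h1
      obtain ⟨rfl, h2, h3⟩ := h1
      rcases h3 with ⟨h3, h4, h5, h6⟩ | ⟨h3, h4, h5, h6, h7⟩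
      · have hu0 : e 0 u ≠ 0 := by
          rcases h6 with h6 | h6
          · rw [h6]; norm_num
          · rw [h6.1]; norm_num
        have h8 : wtD c0.n dir (X 0 u) ≤ wtD c0.n dir (X 0 w) := by
          rcases h5 with h5 | h5
          · exact h.o1 u w hu0 h2 h5 h3 h4
          · exact h.o2 u w hu0 h2 h5 h3 h4
        have p1 := hpar u
        have p2 := hpar w
        rcases h6 with h6 | ⟨h6, h7⟩
        · rw [wtD_odd _ (p1.1 h6), wtD_odd _ (p2.1 (by rw [← h2, h6]))] at h8
          exact h8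
        · rw [wtD_false (p1.2 h6) h7, wtD_false (p2.2 (by rw [← h2, h6])) h7] at h8
          exact h8
      · have hw0 : e 0 w ≠ 0 := by rw [← h2, h6]; norm_num
        have h8 : wtD c0.n dir (X 0 w) ≤ wtD c0.n dir (X 0 u) := by
          rcases h5 with h5 | h5
          · exact h.o1 w u hw0 h2.symm h5.symm h3 h4
          · exact h.o2 w u hw0 h2.symm h5 h3 h4
        have p1 := hpar u
        have p2 := hpar w
        rw [wtD_true (p1.2 h6) h7, wtD_true (p2.2 (by rw [← h2, h6])) h7] at h8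
        have := hc.lt 0 (by simp) u
        have := hc.lt 0 (by simp) w
        have e1 : (cdAt [c0] 0).n = c0.n := rfl
        omega
    | edge j c c' =>
      unfold oneF at h1
      simp only [Bool.and_eq_true, Nat.beq_eq] at h1
      obtain ⟨h2, rfl, rfl, rfl⟩ := h1
      refine ⟨by norm_num, ?_⟩
      intro u w huw hu hw
      have du := hcode u 40 hu
      have dw := hcode w 44 hw
      exact (hE h2).edge u w huw (du 0 (by norm_num)).symm (dw 0 (by norm_num)).symm
        (du 1 (by norm_num)).symm (dw 1 (by norm_num)).symm (du 2 (by norm_num)).symm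
        (du 3 (by norm_num)).symm (dw 2 (by norm_num)).symm (dw 3 (by norm_num)).symm
    | lim i c ls => exact absurd h1 (by unfold oneF; exact Bool.false_ne_true)

/-- the constraints for the numbers of vertices -/
def onePats : List (List (ℕ × ℕ) × ℕ × ℕ) :=
  ([], 17, 17) :: ([(0, 0)], 1, 1) :: (([1, 2].map fun p => ([(0, p)], 8, 8)) ++
    (([1, 2].flatMap fun p => [1, 2].map fun s => ([(0, p), (1, s)], 4, 4)) ++
    (([1, 2].flatMap fun p => [1, 2].flatMap fun s => [1, 2].flatMap fun b => [1, 2].map fun t =>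
      ([(0, p), (1, s), (2, b), (3, t)], 0, 1)) ++
    (([1, 2, 3].flatMap fun i => [1, 2].map fun d => ([(0, 0), (i, d)], 0, 0)) ++
    ([1, 2, 3].flatMap fun i => [1, 2].map fun p => ([(0, p), (i, 0)], 0, 0))))))

theorem LocOne.pats (hV : Fintype.card V = 17) {c0 : CD} {G : Fin 4 → SimpleGraph V}
    {X : ℕ → V → ℕ} {wt : ℕ → ℕ} {e : ℕ → V → ℕ} (h : LocOne c0 G X wt e) :
    ∀ x ∈ onePats, x.2.1 ≤ (univ.filter fun u => ∀ y ∈ x.1, e y.1 u = y.2).card ∧
      (univ.filter fun u => ∀ y ∈ x.1, e y.1 u = y.2).card ≤ x.2.2 := by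
  intro x hx
  unfold onePats at hx
  simp only [List.mem_cons, List.mem_append, List.mem_flatMap, List.mem_map, List.not_mem_nil,
    or_false] at hx
  rcases hx with rfl | rfl | ⟨p, hp, rfl⟩ | ⟨p, hp, s, hs, rfl⟩ |
    ⟨p, hp, s, hs, b, hb, t, ht, rfl⟩ | ⟨i, hi, d, hd, rfl⟩ | ⟨i, hi, p, hp, rfl⟩
  · have e1 : (univ.filter fun u : V => ∀ y ∈ ([] : List (ℕ × ℕ)), e y.1 u = y.2) = univ := by
      apply Finset.filter_true_of_mem
      intro u _ y hy
      exact absurd hy (List.not_mem_nil)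
    rw [e1, Finset.card_univ, hV]
    exact ⟨le_rfl, le_rfl⟩
  · simp only [List.mem_singleton, forall_eq, h.c0]
    exact ⟨le_rfl, le_rfl⟩
  · simp only [List.mem_singleton, forall_eq, h.c1 p hp]
    exact ⟨le_rfl, le_rfl⟩
  · have e1 : (univ.filter fun u : V => ∀ y ∈ ([(0, p), (1, s)] : List (ℕ × ℕ)),
        e y.1 u = y.2) = univ.filter fun u => e 0 u = p ∧ e 1 u = s := by
      apply Finset.filter_congr
      intro u _
      simp only [List.mem_cons, List.not_mem_nil, or_false, forall_eq_or_imp, forall_eq]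
    rw [e1, h.c2 p hp s hs]
    exact ⟨le_rfl, le_rfl⟩
  · refine ⟨Nat.zero_le _, ?_⟩
    rw [Finset.card_le_one]
    intro u hu w hw
    rw [mem_filter] at hu hw
    simp only [List.mem_cons, List.not_mem_nil, or_false, forall_eq_or_imp, forall_eq] at hu hw
    obtain ⟨_, a0, a1, a2, a3⟩ := hu
    obtain ⟨_, b0, b1, b2, b3⟩ := hw
    exact h.inj u w (by rw [a0]; omega) (a0.trans b0.symm) (a1.trans b1.symm) (a2.trans b2.symm)
      (a3.trans b3.symm)
  · refine ⟨Nat.zero_le _, ?_⟩
    rw [Nat.le_zero, Finset.card_eq_zero, Finset.filter_eq_empty_iff]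
    intro u _ hu
    simp only [List.mem_cons, List.not_mem_nil, or_false, forall_eq_or_imp, forall_eq] at hu
    have h1 := (h.iff i (by omega) (by omega) u).2 hu.1
    omega
  · refine ⟨Nat.zero_le _, ?_⟩
    rw [Nat.le_zero, Finset.card_eq_zero, Finset.filter_eq_empty_iff]
    intro u _ hu
    simp only [List.mem_cons, List.not_mem_nil, or_false, forall_eq_or_imp, forall_eq] at hu
    have h1 := (h.iff i (by omega) (by omega) u).1 hu.2
    omega

/-- all checks for a family with one coded class -/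
def famOne (T : Spec2) (c0 : CD) (m : Fin 4 → ℕ) (dir swap : Bool) (F : List Fact)
    (inst : List (List InstX)) : Bool :=
  famD T [c0] m [] 3 4 oneR F inst && (T.pats.all (fun x => decide (x ∈ onePats)) &&
  (F.all (oneF dir swap) && (oddB c0 && (Nat.ble 3 (m 1) && (Nat.ble 1 (m 2) &&
  (Nat.ble 1 (m 3) && ((Nat.ble 2 (m 2) || Nat.ble 2 (m 3)) && ((!swap || Nat.beq (m 2) (m 3)) &&
  (allLt c0.n (fun a => Nat.blt (c0.d a) 3) && (indepD c0 1 && indepD c0 2))))))))))

/-- **One coded class**: a configuration gives a model of one of the instances. -/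
theorem Conf.exists_instOne {T : Spec2} {c0 : CD} {m : Fin 4 → ℕ} {dir swap : Bool}
    {F : List Fact} {inst : List (List InstX)} (hF : famOne T c0 m dir swap F inst = true)
    (hV : Fintype.card V = 17) {G : Fin 4 → SimpleGraph V} {X : ℕ → V → ℕ}
    (h : Conf [c0] m [] G X) (hα : ∀ i, AlphaEight (G i))
    (hc0 : (univ.filter fun u => c0.d (X 0 u) = 0).card = 1) :
    ∃ Is ∈ inst, ∃ J ∈ Is, ∃ M, IsModelX J M := by
  unfold famOne at hF
  simp only [Bool.and_eq_true, Bool.or_eq_true, Nat.ble_eq, allLt_iff, Nat.blt_eq,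
    Bool.not_eq_true', Nat.beq_eq] at hF
  obtain ⟨hF, hpats, hfact, hodd, hm1, hm2, hm3, hm23, hsw, hdig, hi1, hi2⟩ := hF
  obtain ⟨e, he⟩ := exists_locOne hV h hα hm1 hm2 hm3 hm23 hdig hi1 hi2 hc0 (wtD c0.n dir)
  rw [List.all_eq_true] at hpats
  cases swap with
  | false =>
    refine DConf.exists_inst hF hV (LocOneE.dconf he h hodd (swap := false)
      (fun h => absurd h Bool.false_ne_true) hfact) ?_
    intro x hx
    exact he.pats hV x (of_decide_eq_true (hpats x hx))
  | true =>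
    have hm : m 2 = m 3 := by
      rcases hsw with h | h
      · exact absurd h.symm Bool.false_ne_true
      · exact h
    obtain ⟨G', e', hc', hE⟩ := he.exists_edge h hm
    refine DConf.exists_inst hF hV (LocOneE.dconf hE.loc hc' hodd (swap := true)
      (fun _ => hE) hfact) ?_
    intro x hx
    exact hE.loc.pats hV x (of_decide_eq_true (hpats x hx))

end Pool.Agent.Work.MP_92a29d_co.Place
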