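import Pool.Agent.Work.MP_92a29d_co_h36.Split

/-!
One coded class and three explicit classes: the local codes.
-/

namespace Pool.Agent.Work.MP_92a29d_co.Place

open SimpleGraph Finset Pool.Agent.Work.MP_92a29d_co_h45

variable {V : Type*} [Fintype V] [DecidableEq V]

/-- the local codes with one coded class; `wt` says which vertices come first -/
structure LocOne (c0 : CD) (G : Fin 4 → SimpleGraph V) (X : ℕ → V → ℕ) (wt : ℕ → ℕ)
    (e : ℕ → V → ℕ) : Prop where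
  zero : ∀ u, e 0 u = c0.d (X 0 u)
  lt : ∀ i < 4, ∀ u, e i u < 3
  iff : ∀ i, 1 ≤ i → i < 4 → ∀ u, (e i u = 0 ↔ e 0 u = 0)
  r0 : ∀ u w, e 0 u ≠ 0 → e 0 u = e 0 w → ¬ (G 0).Adj u w
  r1 : ∀ u w, e 0 u ≠ 0 → e 0 u = e 0 w → e 1 u = e 1 w → ¬ (G 1).Adj u w
  r2 : ∀ u w, e 0 u ≠ 0 → e 0 u = e 0 w → e 1 u = e 1 w → e 2 u = e 2 w → ¬ (G 2).Adj u w
  r3 : ∀ u w, e 0 u ≠ 0 → e 0 u = e 0 w → e 1 u = e 1 w → e 3 u = e 3 w → ¬ (G 3).Adj u w
  inj : ∀ u w, e 0 u ≠ 0 → e 0 u = e 0 w → e 1 u = e 1 w → e 2 u = e 2 w → e 3 u = e 3 w →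
    u = w
  c0 : (univ.filter fun u => e 0 u = 0).card = 1
  c1 : ∀ p, p = 1 ∨ p = 2 → (univ.filter fun u => e 0 u = p).card = 8
  c2 : ∀ p, p = 1 ∨ p = 2 → ∀ s, s = 1 ∨ s = 2 →
    (univ.filter fun u => e 0 u = p ∧ e 1 u = s).card = 4
  o1 : ∀ u w, e 0 u ≠ 0 → e 0 u = e 0 w → e 1 u = e 1 w → e 2 u = 1 → e 3 u = 1 →
    wt (X 0 u) ≤ wt (X 0 w)
  o2 : ∀ u w, e 0 u ≠ 0 → e 0 u = e 0 w → e 1 u = 1 → e 2 u = 1 → e 3 u = 1 →
    wt (X 0 u) ≤ wt (X 0 w)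

theorem exists_locOne (hV : Fintype.card V = 17) {c0 : CD} {m : Fin 4 → ℕ}
    {rel : List (ℕ × ℕ × ℕ)} {G : Fin 4 → SimpleGraph V} {X : ℕ → V → ℕ}
    (h : Conf [c0] m rel G X) (hα : ∀ i, AlphaEight (G i)) (hm1 : 3 ≤ m 1) (hm2 : 1 ≤ m 2)
    (hm3 : 1 ≤ m 3) (hm23 : 2 ≤ m 2 ∨ 2 ≤ m 3) (hdig : ∀ a < c0.n, c0.d a < 3)
    (hi1 : indepD c0 1 = true) (hi2 : indepD c0 2 = true)
    (hc0 : (univ.filter fun u => c0.d (X 0 u) = 0).card = 1) (wt : ℕ → ℕ) :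
    ∃ e, LocOne c0 G X wt e := by
  classical
  have hl0 : (0 : Fin 4).val < [c0].length := by simp
  have hcd : cdAt [c0] 0 = c0 := rfl
  have hlt : ∀ u, X 0 u < c0.n := fun u => h.lt 0 (by simp) u
  have hind : ∀ p, p = 1 ∨ p = 2 → ∀ u w, c0.d (X 0 u) = p → c0.d (X 0 w) = p →
      ¬ (G 0).Adj u w := by
    intro p hp u w hu hw
    refine h.indep (i := 0) hl0 (d := p) ?_ hu hw
    rcases hp with rfl | rfl
    · exact hi1
    · exact hi2
  set S : ℕ → Finset V := fun p => univ.filter fun u => c0.d (X 0 u) = p with hS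
  have hS8 : ∀ p, p = 1 ∨ p = 2 → (S p).card = 8 := by
    have h1 : (S 1).card ≤ 8 := hα 0 _ (fun u hu w hw =>
      hind 1 (Or.inl rfl) u w (mem_filter.1 hu).2 (mem_filter.1 hw).2)
    have h2 : (S 2).card ≤ 8 := hα 0 _ (fun u hu w hw =>
      hind 2 (Or.inr rfl) u w (mem_filter.1 hu).2 (mem_filter.1 hw).2)
    have h3 := Finset.card_eq_sum_card_fiberwise (s := (univ : Finset V))
      (t := range 3) (f := fun u => c0.d (X 0 u))
      (fun u _ => by simpa using hdig _ (hlt u))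
    rw [Finset.card_univ, hV, Finset.sum_range_succ, Finset.sum_range_succ,
      Finset.sum_range_succ, Finset.sum_range_zero, hc0] at h3
    change 17 = 0 + 1 + (S 1).card + (S 2).card at h3
    rintro p (rfl | rfl) <;> omega
  -- the pair bound
  have hpair : ∀ T : Finset V, (∀ u ∈ T, ∀ w ∈ T, ¬ (G 0).Adj u w) →
      (∀ u ∈ T, ∀ w ∈ T, ¬ (G 1).Adj u w) → T.card ≤ 4 := by
    intro T h0 h1
    rcases hm23 with h2 | h2
    · exact pair_bound h.cover 0 1 2 3 (by decide) h2 hm3 T h0 h1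
    · exact pair_bound h.cover 0 1 3 2 (by decide) h2 hm2 T h0 h1
  -- splitting the sides
  have hsplit : ∀ p, p = 1 ∨ p = 2 → ∃ s : V → ℕ, (∀ u, s u = 1 ∨ s u = 2) ∧
      (∀ u ∈ S p, ∀ w ∈ S p, s u = s w → ¬ (G 1).Adj u w) ∧
      ((S p).filter fun v => s v = 1).card = 4 ∧ ((S p).filter fun v => s v = 2).card = 4 ∧
      ∃ v0 ∈ S p, s v0 = 1 ∧ ∀ w ∈ S p, wt (X 0 v0) ≤ wt (X 0 w) := by
    intro p hp
    have hne : (S p).Nonempty := by
      rw [← Finset.card_pos, hS8 p hp]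
      norm_num
    obtain ⟨v0, hv0, hmin⟩ := Finset.exists_min_image (S p) (fun u => wt (X 0 u)) hne
    obtain ⟨s, s1, s2, s3, s4, s5⟩ := exists_split_digit (G 1) 3 4 (S p) (hS8 p hp)
      (by norm_num) (fun v q hq => by
        have := h.cover.girth 1 v q hq
        omega) (fun T hT hTi => hpair T (fun u hu w hw =>
          hind p hp u w (mem_filter.1 (hT hu)).2 (mem_filter.1 (hT hw)).2) hTi) v0
    exact ⟨s, s1, s2, s3, s4, v0, hv0, s5, hmin⟩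
  choose! sd d1 d2 d3 d4 d5 using hsplit
  -- the groups
  have hC4 : ∀ p, p = 1 ∨ p = 2 → ∀ s, s = 1 ∨ s = 2 →
      ((S p).filter fun v => sd p v = s).card = 4 := by
    rintro p hp s (rfl | rfl)
    · exact d3 p hp
    · exact d4 p hp
  have hbits : ∀ p s, (p = 1 ∨ p = 2) ∧ (s = 1 ∨ s = 2) → ∃ b t : V → ℕ,
      (∀ u, b u = 1 ∨ b u = 2) ∧ (∀ u, t u = 1 ∨ t u = 2) ∧
      (∀ u ∈ (S p).filter fun v => sd p v = s, ∀ w ∈ (S p).filter fun v => sd p v = s,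
        b u = b w → ¬ (G 2).Adj u w) ∧
      (∀ u ∈ (S p).filter fun v => sd p v = s, ∀ w ∈ (S p).filter fun v => sd p v = s,
        t u = t w → ¬ (G 3).Adj u w) ∧
      (∀ u ∈ (S p).filter fun v => sd p v = s, ∀ w ∈ (S p).filter fun v => sd p v = s,
        b u = b w → t u = t w → u = w) ∧
      ∃ v0 ∈ (S p).filter fun v => sd p v = s, b v0 = 1 ∧ t v0 = 1 ∧
        ∀ w ∈ (S p).filter fun v => sd p v = s, wt (X 0 v0) ≤ wt (X 0 w) := by
    rintro p s ⟨hp, hs⟩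
    have hne : ((S p).filter fun v => sd p v = s).Nonempty := by
      rw [← Finset.card_pos, hC4 p hp s hs]
      norm_num
    obtain ⟨v0, hv0, hmin⟩ := Finset.exists_min_image _ (fun u => wt (X 0 u)) hne
    obtain ⟨b, t, b1, b2, b3, b4, b5, b6, b7⟩ := exists_bits4 (G 2) (G 3)
      ((S p).filter fun v => sd p v = s) (hC4 p hp s hs)
      (fun v q hq => by
        have := h.cover.girth 2 v q hq
        omega)
      (fun v q hq => by
        have := h.cover.girth 3 v q hq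
        omega)
      (fun u hu w hw huw => by
        rw [mem_filter] at hu hw
        obtain ⟨i, hi⟩ := h.cover.cov u w huw
        have h0 := hind p hp u w (mem_filter.1 hu.1).2 (mem_filter.1 hw.1).2
        have h1 := d2 p hp u hu.1 w hw.1 (hu.2.trans hw.2.symm)
        fin_cases i
        · exact absurd hi h0
        · exact absurd hi h1
        · exact Or.inl hi
        · exact Or.inr hi) v0
    exact ⟨b, t, b1, b2, b3, b4, b5, v0, hv0, b6, b7, hmin⟩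
  choose! bb tt b1 b2 b3 b4 b5 b6 using hbits
  have hor : ∀ u, c0.d (X 0 u) ≠ 0 → c0.d (X 0 u) = 1 ∨ c0.d (X 0 u) = 2 := by
    intro u hu
    have := hdig _ (hlt u)
    omega
  let e : ℕ → V → ℕ := fun i u =>
    match i with
    | 0 => c0.d (X 0 u)
    | 1 => if c0.d (X 0 u) = 0 then 0 else sd (c0.d (X 0 u)) u
    | 2 => if c0.d (X 0 u) = 0 then 0 else bb (c0.d (X 0 u)) (sd (c0.d (X 0 u)) u) u
    | 3 => if c0.d (X 0 u) = 0 then 0 else tt (c0.d (X 0 u)) (sd (c0.d (X 0 u)) u) u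
    | _ => 0
  have e0 : ∀ u, e 0 u = c0.d (X 0 u) := fun u => rfl
  have e1 : ∀ u, e 0 u ≠ 0 → e 1 u = sd (e 0 u) u := fun u hu => if_neg hu
  have e2 : ∀ u, e 0 u ≠ 0 → e 2 u = bb (e 0 u) (e 1 u) u := by
    intro u hu
    rw [e1 u hu]
    exact if_neg hu
  have e3 : ∀ u, e 0 u ≠ 0 → e 3 u = tt (e 0 u) (e 1 u) u := by
    intro u hu
    rw [e1 u hu]
    exact if_neg hu
  have z1 : ∀ u, e 0 u = 0 → e 1 u = 0 := fun u hu => if_pos hu
  have z2 : ∀ u, e 0 u = 0 → e 2 u = 0 := fun u hu => if_pos hu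
  have z3 : ∀ u, e 0 u = 0 → e 3 u = 0 := fun u hu => if_pos hu
  have hor1 : ∀ u, e 0 u ≠ 0 → e 1 u = 1 ∨ e 1 u = 2 := by
    intro u hu
    rw [e1 u hu]
    exact d1 _ (hor u hu) u
  have hor2 : ∀ u, e 0 u ≠ 0 → e 2 u = 1 ∨ e 2 u = 2 := by
    intro u hu
    rw [e2 u hu]
    exact b1 _ _ ⟨hor u hu, hor1 u hu⟩ u
  have hor3 : ∀ u, e 0 u ≠ 0 → e 3 u = 1 ∨ e 3 u = 2 := by
    intro u hu
    rw [e3 u hu]
    exact b2 _ _ ⟨hor u hu, hor1 u hu⟩ u
  have hmem : ∀ u, u ∈ S (e 0 u) := fun u => mem_filter.2 ⟨mem_univ _, rfl⟩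
  have hmem2 : ∀ u w, e 0 u ≠ 0 → e 0 u = e 0 w → e 1 u = e 1 w →
      w ∈ (S (e 0 u)).filter fun v => sd (e 0 u) v = e 1 u := by
    intro u w hu h1 h2
    rw [mem_filter]
    refine ⟨by rw [h1]; exact hmem w, ?_⟩
    rw [h2, e1 w (by rw [← h1]; exact hu), h1]
  refine ⟨e, ⟨e0, ?_, ?_, ?_, ?_, ?_, ?_, ?_, hc0, ?_, ?_, ?_, ?_⟩⟩
  · intro i hi u
    by_cases hu : e 0 u = 0
    · interval_cases i
      · rw [hu]; norm_num
      · rw [z1 u hu]; norm_num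
      · rw [z2 u hu]; norm_num
      · rw [z3 u hu]; norm_num
    · have h0 := hor u hu
      have h1 := hor1 u hu
      have h2 := hor2 u hu
      have h3 := hor3 u hu
      rw [← e0 u] at h0
      interval_cases i <;> omega
  · intro i hi1 hi4 u
    by_cases hu : e 0 u = 0
    · refine ⟨fun _ => hu, fun _ => ?_⟩
      interval_cases i
      · exact z1 u hu
      · exact z2 u hu
      · exact z3 u hu
    · have h1 := hor1 u hu
      have h2 := hor2 u hu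
      have h3 := hor3 u hu
      interval_cases i <;> omega
  · intro u w hu h1
    exact hind _ (hor u hu) u w rfl h1.symm
  · intro u w hu h1 h2
    refine d2 _ (hor u hu) u (hmem u) w (by rw [← e0 u, h1]; exact hmem w) ?_
    rw [← e0 u, ← e1 u hu, h2, e1 w (by rw [← h1]; exact hu), h1]
  · intro u w hu h1 h2 h3
    have hw : e 0 w ≠ 0 := by rw [← h1]; exact hu
    refine b3 _ _ ⟨hor u hu, hor1 u hu⟩ u (hmem2 u u hu rfl rfl) w (hmem2 u w hu h1 h2) ?_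
    rw [← e0 u, ← e2 u hu, h3, e2 w hw, h1, h2]
  · intro u w hu h1 h2 h3
    have hw : e 0 w ≠ 0 := by rw [← h1]; exact hu
    refine b4 _ _ ⟨hor u hu, hor1 u hu⟩ u (hmem2 u u hu rfl rfl) w (hmem2 u w hu h1 h2) ?_
    rw [← e0 u, ← e3 u hu, h3, e3 w hw, h1, h2]
  · intro u w hu h1 h2 h3 h4
    have hw : e 0 w ≠ 0 := by rw [← h1]; exact hu
    refine b5 _ _ ⟨hor u hu, hor1 u hu⟩ u (hmem2 u u hu rfl rfl) w (hmem2 u w hu h1 h2) ?_ ?_
    · rw [← e0 u, ← e2 u hu, h3, e2 w hw, h1, h2]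
    · rw [← e0 u, ← e3 u hu, h4, e3 w hw, h1, h2]
  · intro p hp
    exact hS8 p hp
  · intro p hp s hs
    rw [← hC4 p hp s hs]
    congr 1
    ext u
    rw [mem_filter, mem_filter, mem_filter]
    constructor
    · rintro ⟨_, h1, h2⟩
      have hu : e 0 u ≠ 0 := by rw [h1]; omega
      refine ⟨⟨mem_univ _, h1⟩, ?_⟩
      rw [← h2, e1 u hu, h1]
    · rintro ⟨⟨_, h1⟩, h2⟩
      have hu : e 0 u ≠ 0 := by
        rw [e0, h1]; omega
      refine ⟨mem_univ _, h1, ?_⟩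
      rw [e1 u hu, e0, h1, h2]
  · intro u w hu h1 h2 h3 h4
    obtain ⟨v0, hv0, a1, a2, a3⟩ := b6 _ _ ⟨hor u hu, hor1 u hu⟩
    have huv : u = v0 := by
      refine b5 _ _ ⟨hor u hu, hor1 u hu⟩ u (hmem2 u u hu rfl rfl) v0 hv0 ?_ ?_
      · rw [a1, ← e0 u, ← e2 u hu, h3]
      · rw [a2, ← e0 u, ← e3 u hu, h4]
    rw [huv]
    exact a3 w (hmem2 u w hu h1 h2)
  · intro u w hu h1 h2 h3 h4
    obtain ⟨v0, hv0, a1, a2, a3⟩ := b6 _ _ ⟨hor u hu, hor1 u hu⟩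
    have huv : u = v0 := by
      refine b5 _ _ ⟨hor u hu, hor1 u hu⟩ u (hmem2 u u hu rfl rfl) v0 hv0 ?_ ?_
      · rw [a1, ← e0 u, ← e2 u hu, h3]
      · rw [a2, ← e0 u, ← e3 u hu, h4]
    obtain ⟨v1, hv1, c1, c2⟩ := d5 _ (hor u hu)
    have h5 : wt (X 0 u) ≤ wt (X 0 v1) := by
      rw [huv]
      refine a3 v1 ?_
      rw [mem_filter]
      exact ⟨hv1, by rw [c1, h2]⟩
    exact h5.trans (c2 w (by rw [← e0 u, h1]; exact hmem w))

end Pool.Agent.Work.MP_92a29d_co.Place
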