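import Pool.Agent.Work.MP_92a29d_co_h36.Model

/-!
The bounds for the sizes of code classes.
-/

namespace Pool.Agent.Work.MP_92a29d_co.Place

open SimpleGraph Finset Pool.Agent.Work.MP_92a29d_co_h45

/-- labels with the digit `d` are pairwise not adjacent -/
def indepD (c : CD) (d : ℕ) : Bool :=
  allLt c.n fun a => !(Nat.beq (c.d a) d) || allLt c.n fun b =>
    !(Nat.beq (c.d b) d) || !(kadj c.kind a b)

def sumIf (n : ℕ) (f : ℕ → Bool) (g : ℕ → ℕ) : ℕ :=
  Nat.rec (motive := fun _ => ℕ) 0 (fun a r => cond (f a) (g a + r) r) n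

theorem sumIf_eq (n : ℕ) (f : ℕ → Bool) (g : ℕ → ℕ) :
    sumIf n f g = ∑ a ∈ range n, if f a = true then g a else 0 := by
  induction n with
  | zero => rfl
  | succ n ih =>
    rw [Finset.sum_range_succ, ← ih]
    change cond (f n) (g n + sumIf n f g) (sumIf n f g) = _
    cases f n <;> simp [Nat.add_comm]

/-- upper bound for the number of vertices with digit `d` -/
def upD (c : CD) (d : ℕ) : ℕ :=
  min (sumIf c.n (fun a => Nat.beq (c.d a) d) c.hi) (cond (indepD c d) 8 17)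

/-- lower bound -/
def loD (c : CD) (B d : ℕ) : ℕ :=
  max (sumIf c.n (fun a => Nat.beq (c.d a) d) c.lo)
    (17 - sumIf B (fun e => !(Nat.beq e d)) (upD c))

/-- the class occurs in the pattern with an independent digit -/
def inP (cd : List CD) (pat : List (ℕ × ℕ)) (i : ℕ) : Bool :=
  pat.any fun y => Nat.beq y.1 i && (Nat.blt y.1 cd.length && indepD (cdAt cd y.1) y.2)

def pairs4 : List (Fin 4 × Fin 4 × Fin 4 × Fin 4) :=
  [(0, 1, 2, 3), (0, 1, 3, 2), (0, 2, 1, 3), (0, 2, 3, 1), (0, 3, 1, 2), (0, 3, 2, 1),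
    (1, 2, 0, 3), (1, 2, 3, 0), (1, 3, 0, 2), (1, 3, 2, 0), (2, 3, 0, 1), (2, 3, 1, 0)]

def triples4 : List (Fin 4 × Fin 4 × Fin 4 × Fin 4) :=
  [(0, 1, 2, 3), (0, 1, 3, 2), (0, 2, 3, 1), (1, 2, 3, 0)]

/-- boolean test of an upper bound -/
def upB (cd : List CD) (m : Fin 4 → ℕ) (rel : List (ℕ × ℕ × ℕ)) (pat : List (ℕ × ℕ))
    (hi : ℕ) : Bool :=
  Nat.ble 17 hi ||
  (pat.any (fun y => Nat.blt y.1 cd.length && Nat.ble (upD (cdAt cd y.1) y.2) hi) ||
  ((Nat.ble 4 hi && pairs4.any fun t => Nat.ble 2 (m t.2.2.1) && Nat.ble 1 (m t.2.2.2) &&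
    (inP cd pat t.1 && inP cd pat t.2.1)) ||
  ((Nat.ble 2 hi && triples4.any fun t => Nat.ble 1 (m t.2.2.2) &&
    (inP cd pat t.1 && inP cd pat t.2.1 && inP cd pat t.2.2.1)) ||
  rel.any fun r => (pat.any fun y => Nat.beq y.1 r.1 && Nat.beq y.2 0) &&
    pat.any fun z => Nat.beq z.1 r.2.1 && !(Nat.beq z.2 ((cdAt cd r.2.1).d r.2.2)))))

/-- boolean test of a lower bound -/
def loB (cd : List CD) (B : ℕ) (rel : List (ℕ × ℕ × ℕ)) (pat : List (ℕ × ℕ))
    (lo : ℕ) : Bool :=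
  Nat.beq lo 0 ||
  match pat with
  | [] => Nat.ble lo 17
  | [y] => Nat.blt y.1 cd.length && Nat.ble lo (loD (cdAt cd y.1) B y.2)
  | [y, z] => Nat.blt y.1 cd.length && Nat.beq y.2 0 && Nat.ble lo (loD (cdAt cd y.1) B 0) &&
      rel.any fun r => Nat.beq y.1 r.1 && Nat.beq z.1 r.2.1 &&
        Nat.beq z.2 ((cdAt cd r.2.1).d r.2.2)
  | _ => false

def patB (cd : List CD) (m : Fin 4 → ℕ) (rel : List (ℕ × ℕ × ℕ)) (B : ℕ)
    (x : List (ℕ × ℕ) × ℕ × ℕ) : Bool :=
  loB cd B rel x.1 x.2.1 && upB cd m rel x.1 x.2.2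

section

variable {V : Type*} [Fintype V] [DecidableEq V] {cd : List CD} {m : Fin 4 → ℕ}
  {rel : List (ℕ × ℕ × ℕ)} {G : Fin 4 → SimpleGraph V} {X : ℕ → V → ℕ} {B : ℕ}

theorem Conf.indep (h : Conf cd m rel G X) {i : Fin 4} (hi : i.val < cd.length) {d : ℕ}
    (hd : indepD (cdAt cd i) d = true) {u w : V} (hu : (cdAt cd i).d (X i u) = d)
    (hw : (cdAt cd i).d (X i w) = d) : ¬ (G i).Adj u w := by
  intro ha
  have h1 := h.adj i hi u w ha
  unfold indepD at hd
  rw [allLt_iff] at hd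
  have h2 := hd _ (h.lt i hi u)
  rw [Bool.or_eq_true, Bool.not_eq_true', allLt_iff] at h2
  rcases h2 with h2 | h2
  · rw [← Bool.not_eq_true, Nat.beq_eq] at h2
    exact h2 hu
  · have h3 := h2 _ (h.lt i hi w)
    rw [Bool.or_eq_true, Bool.not_eq_true', Bool.not_eq_true'] at h3
    rcases h3 with h3 | h3
    · rw [← Bool.not_eq_true, Nat.beq_eq] at h3
      exact h3 hw
    · rw [h1] at h3
      exact Bool.noConfusion h3

theorem Conf.card_digit (h : Conf cd m rel G X) {i : ℕ} (hi : i < cd.length) (d : ℕ) :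
    (univ.filter fun u => (cdAt cd i).d (X i u) = d).card =
      ∑ a ∈ range (cdAt cd i).n, if Nat.beq ((cdAt cd i).d a) d = true then
        (univ.filter fun u => X i u = a).card else 0 := by
  classical
  rw [Finset.card_eq_sum_card_fiberwise (f := X i) (t := range (cdAt cd i).n)
    (s := univ.filter fun u => (cdAt cd i).d (X i u) = d)
    (fun u _ => by simpa using h.lt i hi u)]
  apply Finset.sum_congr rfl
  intro a _
  rw [Finset.filter_filter]
  by_cases hb : (cdAt cd i).d a = d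
  · rw [if_pos (by rw [Nat.beq_eq]; exact hb)]
    congr 1
    apply Finset.filter_congr
    intro u _
    constructor
    · intro hu; exact hu.2
    · intro hu; exact ⟨by rw [hu]; exact hb, hu⟩
  · rw [if_neg (by rw [Nat.beq_eq]; exact hb), Finset.card_eq_zero, Finset.filter_eq_empty_iff]
    rintro u _ ⟨h1, h2⟩
    rw [h2] at h1
    exact hb h1

theorem Conf.card_le_upD (h : Conf cd m rel G X) (hV : Fintype.card V = 17)
    (hα : ∀ i, AlphaEight (G i)) (hk : cd.length ≤ 4) {i : ℕ} (hi : i < cd.length) (d : ℕ) :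
    (univ.filter fun u => (cdAt cd i).d (X i u) = d).card ≤ upD (cdAt cd i) d := by
  unfold upD
  refine le_min ?_ ?_
  · rw [h.card_digit hi, sumIf_eq]
    apply Finset.sum_le_sum
    intro a ha
    split
    · exact (h.bds i hi a (mem_range.1 ha)).2
    · exact le_rfl
  · cases hd : indepD (cdAt cd i) d with
    | false =>
      rw [cond_false, ← hV]
      exact Finset.card_le_univ _
    | true =>
      rw [cond_true]
      apply hα ⟨i, by omega⟩
      intro u hu w hw
      exact h.indep (i := ⟨i, by omega⟩) hi hd (mem_filter.1 hu).2 (mem_filter.1 hw).2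

theorem Conf.loD_le (h : Conf cd m rel G X) (hV : Fintype.card V = 17)
    (hα : ∀ i, AlphaEight (G i)) (hk : cd.length ≤ 4) {i : ℕ} (hi : i < cd.length)
    (hB : ∀ a < (cdAt cd i).n, (cdAt cd i).d a < B) (d : ℕ) (hdB : d < B) :
    loD (cdAt cd i) B d ≤ (univ.filter fun u => (cdAt cd i).d (X i u) = d).card := by
  classical
  unfold loD
  refine max_le ?_ ?_
  · rw [h.card_digit hi, sumIf_eq]
    apply Finset.sum_le_sum
    intro a ha
    split
    · exact (h.bds i hi a (mem_range.1 ha)).1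
    · exact le_rfl
  · have h1 : Fintype.card V = ∑ e ∈ range B,
        (univ.filter fun u => (cdAt cd i).d (X i u) = e).card := by
      rw [← Finset.card_univ]
      exact Finset.card_eq_sum_card_fiberwise (s := (univ : Finset V))
        (f := fun u => (cdAt cd i).d (X i u))
        (t := range B) (fun u _ => by simpa using hB _ (h.lt i hi u))
    rw [hV, ← Finset.add_sum_erase _ _ (mem_range.2 hdB)] at h1
    have h2 : ∑ e ∈ (range B).erase d, (univ.filter fun u => (cdAt cd i).d (X i u) = e).card ≤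
        sumIf B (fun e => !(Nat.beq e d)) (upD (cdAt cd i)) := by
      rw [sumIf_eq]
      rw [← Finset.sum_filter]
      have e : (range B).filter (fun e => (!(Nat.beq e d)) = true) = (range B).erase d := by
        ext e
        rw [mem_filter, mem_erase, Bool.not_eq_true', ← Bool.not_eq_true, Nat.beq_eq]
        tauto
      rw [e]
      exact Finset.sum_le_sum (fun e _ => h.card_le_upD hV hα hk hi e)
    omega

theorem inP_spec {pat : List (ℕ × ℕ)} {i : ℕ} (h : inP cd pat i = true) :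
    i < cd.length ∧ ∃ d, (i, d) ∈ pat ∧ indepD (cdAt cd i) d = true := by
  unfold inP at h
  rw [List.any_eq_true] at h
  obtain ⟨y, hy, h⟩ := h
  rw [Bool.and_eq_true, Bool.and_eq_true, Nat.beq_eq, Nat.blt_eq] at h
  obtain ⟨rfl, h1, h2⟩ := h
  exact ⟨h1, y.2, hy, h2⟩

theorem Conf.up_sound (h : Conf cd m rel G X) (hV : Fintype.card V = 17)
    (hα : ∀ i, AlphaEight (G i)) (hk : cd.length ≤ 4) {pat : List (ℕ × ℕ)} {hi : ℕ}
    (hb : upB cd m rel pat hi = true) :
    (univ.filter fun u => ∀ y ∈ pat, (cdAt cd y.1).d (X y.1 u) = y.2).card ≤ hi := by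
  classical
  unfold upB at hb
  rw [Bool.or_eq_true, Bool.or_eq_true, Bool.or_eq_true, Bool.or_eq_true, Nat.ble_eq,
    Bool.and_eq_true, Bool.and_eq_true, Nat.ble_eq, Nat.ble_eq, List.any_eq_true, List.any_eq_true,
    List.any_eq_true, List.any_eq_true] at hb
  have hind : ∀ i : Fin 4, inP cd pat i = true →
      ∀ u ∈ univ.filter (fun u => ∀ y ∈ pat, (cdAt cd y.1).d (X y.1 u) = y.2),
      ∀ w ∈ univ.filter (fun u => ∀ y ∈ pat, (cdAt cd y.1).d (X y.1 u) = y.2),
      ¬ (G i).Adj u w := by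
    intro i hi u hu w hw
    obtain ⟨h1, d, h2, h3⟩ := inP_spec hi
    exact h.indep h1 h3 ((mem_filter.1 hu).2 _ h2) ((mem_filter.1 hw).2 _ h2)
  rcases hb with hb | ⟨y, hy, hb⟩ | ⟨hb, t, ht, hb2⟩ | ⟨hb, t, ht, hb2⟩ | ⟨r, hr, hb⟩
  · refine le_trans (Finset.card_le_univ _) ?_
    rw [hV]; exact hb
  · rw [Bool.and_eq_true, Nat.blt_eq, Nat.ble_eq] at hb
    refine le_trans (le_trans (Finset.card_le_card ?_) (h.card_le_upD hV hα hk hb.1 y.2)) hb.2
    intro u hu
    exact mem_filter.2 ⟨mem_univ _, (mem_filter.1 hu).2 y hy⟩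
  · rw [Bool.and_eq_true, Bool.and_eq_true, Bool.and_eq_true, Nat.ble_eq, Nat.ble_eq] at hb2
    obtain ⟨⟨h1, h2⟩, h3, h4⟩ := hb2
    refine le_trans (pair_bound h.cover t.1 t.2.1 t.2.2.1 t.2.2.2 ?_ h1 h2 _
      (hind _ h3) (hind _ h4)) hb
    have : ∀ t ∈ pairs4, ∀ x : Fin 4, x = t.1 ∨ x = t.2.1 ∨ x = t.2.2.1 ∨ x = t.2.2.2 := by
      decide +kernel
    exact this t ht
  · rw [Bool.and_eq_true, Bool.and_eq_true, Bool.and_eq_true, Nat.ble_eq] at hb2
    obtain ⟨h1, ⟨h2, h3⟩, h4⟩ := hb2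
    refine le_trans (triple_bound h.cover t.1 t.2.1 t.2.2.1 t.2.2.2 ?_ h1 _
      (hind _ h2) (hind _ h3) (hind _ h4)) hb
    have : ∀ t ∈ triples4, ∀ x : Fin 4, x = t.1 ∨ x = t.2.1 ∨ x = t.2.2.1 ∨ x = t.2.2.2 := by
      decide +kernel
    exact this t ht
  · rw [Bool.and_eq_true, List.any_eq_true, List.any_eq_true] at hb
    obtain ⟨⟨y, hy, hy2⟩, z, hz, hz2⟩ := hb
    rw [Bool.and_eq_true, Nat.beq_eq, Nat.beq_eq] at hy2
    rw [Bool.and_eq_true, Nat.beq_eq, Bool.not_eq_true', ← Bool.not_eq_true, Nat.beq_eq] at hz2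
    have : (univ.filter fun u => ∀ y ∈ pat, (cdAt cd y.1).d (X y.1 u) = y.2) = ∅ := by
      rw [Finset.filter_eq_empty_iff]
      intro u _ hu
      have h1 := hu y hy
      have h2 := hu z hz
      rw [hy2.1, hy2.2] at h1
      have h3 := h.rel r hr u h1
      rw [hz2.1, h3] at h2
      exact hz2.2 h2.symm
    rw [this]
    exact Nat.zero_le _

theorem Conf.lo_sound (h : Conf cd m rel G X) (hV : Fintype.card V = 17)
    (hα : ∀ i, AlphaEight (G i)) (hk : cd.length ≤ 4)
    (hB : ∀ i < cd.length, ∀ a < (cdAt cd i).n, (cdAt cd i).d a < B)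
    {pat : List (ℕ × ℕ)} (hpB : ∀ y ∈ pat, y.2 < B) {lo : ℕ}
    (hb : loB cd B rel pat lo = true) :
    lo ≤ (univ.filter fun u => ∀ y ∈ pat, (cdAt cd y.1).d (X y.1 u) = y.2).card := by
  classical
  unfold loB at hb
  rw [Bool.or_eq_true, Nat.beq_eq] at hb
  rcases hb with hb | hb
  · omega
  match pat, hpB, hb with
  | [], _, hb =>
    have : (univ.filter fun u : V => ∀ y ∈ ([] : List (ℕ × ℕ)),
        (cdAt cd y.1).d (X y.1 u) = y.2) = univ := by
      apply Finset.filter_true_of_mem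
      intro u _ y hy
      simp at hy
    rw [this, Finset.card_univ, hV]
    exact Nat.le_of_ble_eq_true hb
  | [y], hpB, hb =>
    rw [Bool.and_eq_true, Nat.blt_eq, Nat.ble_eq] at hb
    refine le_trans hb.2 (le_trans (h.loD_le hV hα hk hb.1 (hB _ hb.1) y.2 (hpB y (by simp))) ?_)
    apply Finset.card_le_card
    intro u hu
    refine mem_filter.2 ⟨mem_univ _, ?_⟩
    intro z hz
    rw [List.mem_singleton] at hz
    subst hz
    exact (mem_filter.1 hu).2
  | [y, z], hpB, hb =>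
    rw [Bool.and_eq_true, Bool.and_eq_true, Bool.and_eq_true, Nat.blt_eq, Nat.ble_eq, Nat.beq_eq,
      List.any_eq_true] at hb
    obtain ⟨⟨⟨h1, h2⟩, h3⟩, r, hr, h4⟩ := hb
    rw [Bool.and_eq_true, Bool.and_eq_true, Nat.beq_eq, Nat.beq_eq, Nat.beq_eq] at h4
    obtain ⟨⟨h4, h5⟩, h6⟩ := h4
    have h0 := hpB y (by simp)
    rw [h2] at h0
    refine le_trans h3 (le_trans (h.loD_le hV hα hk h1 (hB _ h1) 0 h0) ?_)
    apply Finset.card_le_card
    intro u hu
    refine mem_filter.2 ⟨mem_univ _, ?_⟩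
    have h7 := (mem_filter.1 hu).2
    rw [h4] at h7
    have h8 := h.rel r hr u h7
    intro x hx
    rw [List.mem_cons, List.mem_singleton] at hx
    rcases hx with rfl | rfl
    · rw [h4, h2]; exact h7
    · rw [h5, h6, h8]

/-- **The bounds hold.** -/
theorem Conf.pat_sound (h : Conf cd m rel G X) (hV : Fintype.card V = 17)
    (hα : ∀ i, AlphaEight (G i)) (hk : cd.length ≤ 4)
    (hB : ∀ i < cd.length, ∀ a < (cdAt cd i).n, (cdAt cd i).d a < B)
    {x : List (ℕ × ℕ) × ℕ × ℕ} (hpB : ∀ y ∈ x.1, y.2 < B) (hb : patB cd m rel B x = true) :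
    x.2.1 ≤ (univ.filter fun u => ∀ y ∈ x.1, (cdAt cd y.1).d (X y.1 u) = y.2).card ∧
      (univ.filter fun u => ∀ y ∈ x.1, (cdAt cd y.1).d (X y.1 u) = y.2).card ≤ x.2.2 := by
  unfold patB at hb
  rw [Bool.and_eq_true] at hb
  exact ⟨h.lo_sound hV hα hk hB hpB hb.1, h.up_sound hV hα hk hb.2⟩

end

/-- the checks of a family of instances -/
def famB (T : Spec2) (cd : List CD) (m : Fin 4 → ℕ) (rel : List (ℕ × ℕ × ℕ))
    (ext : List (List (ℕ × ℕ) × ℕ × ℕ)) (inst : List (List Inst)) : Bool :=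
  T.check && (decide (T.k = cd.length ∧ cd.length ≤ 4) &&
  (allLt cd.length (fun i => Nat.ble (cdAt cd i).n 32 && allLt (cdAt cd i).n fun a =>
    Nat.blt ((cdAt cd i).d a) T.B) &&
  (T.syms.all (fun s => decide (symOK cd m rel s)) &&
  (T.S.places.all (fun p => decide (p.length = 17)) &&
  (T.pats.all (fun x => x.1.all (fun y => Nat.blt y.2 T.B) && (patB cd m rel T.B x ||
    decide (x ∈ ext))) &&
  (decide (inst.length = T.S.places.length) &&
  (List.zipWith (fun Is w => Is.any fun I => fitsB I cd m rel T.B w) inst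
    T.S.places).all id))))))

/-- **Main theorem**: a configuration gives a model of one of the instances. -/
theorem Conf.exists_inst {T : Spec2} {cd : List CD} {m : Fin 4 → ℕ} {rel : List (ℕ × ℕ × ℕ)}
    {ext : List (List (ℕ × ℕ) × ℕ × ℕ)} {inst : List (List Inst)}
    (hF : famB T cd m rel ext inst = true)
    {V : Type*} [Fintype V] [DecidableEq V] (hV : Fintype.card V = 17)
    {G : Fin 4 → SimpleGraph V} {X : ℕ → V → ℕ} (h : Conf cd m rel G X)
    (hα : ∀ i, AlphaEight (G i))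
    (hext : ∀ x ∈ ext, x.2.1 ≤ (Finset.univ.filter fun u =>
        ∀ y ∈ x.1, (cdAt cd y.1).d (X y.1 u) = y.2).card ∧
      (Finset.univ.filter fun u => ∀ y ∈ x.1, (cdAt cd y.1).d (X y.1 u) = y.2).card ≤ x.2.2) :
    ∃ Is ∈ inst, ∃ I ∈ Is, ∃ M, IsModel I M := by
  unfold famB at hF
  simp only [Bool.and_eq_true, decide_eq_true_iff, allLt_iff, List.all_eq_true, Nat.ble_eq,
    Nat.blt_eq, Bool.or_eq_true] at hF
  obtain ⟨hT, ⟨hTk, hk⟩, hcd, hsyms, hlen, hpats, hil, hinst⟩ := hF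
  obtain ⟨w, hw, hM⟩ := Conf.exists_model T hT hTk hk (fun i hi a ha => (hcd i hi).2 a ha)
    (fun i hi => (hcd i hi).1) hsyms hlen hV h (by
      intro x hx
      obtain ⟨h1, h2⟩ := hpats x hx
      rcases h2 with h2 | h2
      · exact h.pat_sound hV hα hk (fun i hi a ha => (hcd i hi).2 a ha) h1 h2
      · exact hext x h2)
  obtain ⟨n, hn, rfl⟩ := List.mem_iff_getElem.1 hw
  have hn' : n < inst.length := by omega
  have h1 := hinst ((inst[n]).any fun I => fitsB I cd m rel T.B T.S.places[n]) (by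
    rw [List.mem_iff_getElem]
    refine ⟨n, by rw [List.length_zipWith]; omega, ?_⟩
    rw [List.getElem_zipWith])
  simp only [id, List.any_eq_true] at h1
  obtain ⟨I, hI, hfit⟩ := h1
  exact ⟨inst[n], List.getElem_mem _, I, hI, hM I (fits_of_fitsB hfit)⟩

end Pool.Agent.Work.MP_92a29d_co.Place
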