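import Pool.Agent.Work.MP_92a29d_co_h36.Place

/-!
Placements for codes made of digits.
-/

namespace Pool.Agent.Work.MP_92a29d_co.Place

/-- the number with the digits `d 0, …, d (k - 1)`, the first one most significant -/
def codeOf (B : ℕ) : ℕ → (ℕ → ℕ) → ℕ
  | 0, _ => 0
  | k + 1, d => codeOf B k d * B + d k

/-- digit `i` of a number with `k` digits -/
def dig (B k c i : ℕ) : ℕ := c / B ^ (k - 1 - i) % B

theorem codeOf_lt {B : ℕ} (k : ℕ) {d : ℕ → ℕ} (hd : ∀ i < k, d i < B) : codeOf B k d < B ^ k := by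
  induction k with
  | zero => simp [codeOf]
  | succ k ih =>
    have h1 := ih (fun i hi => hd i (by omega))
    have h2 := hd k (by omega)
    unfold codeOf
    rw [pow_succ]
    calc codeOf B k d * B + d k < codeOf B k d * B + B := by omega
      _ = (codeOf B k d + 1) * B := by ring
      _ ≤ B ^ k * B := Nat.mul_le_mul_right _ h1

theorem codeOf_congr {B : ℕ} (k : ℕ) {d e : ℕ → ℕ} (h : ∀ i < k, d i = e i) :
    codeOf B k d = codeOf B k e := by
  induction k with
  | zero => rfl
  | succ k ih =>
    unfold codeOf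
    rw [ih (fun i hi => h i (by omega)), h k (by omega)]

theorem dig_codeOf {B : ℕ} (k : ℕ) {d : ℕ → ℕ} (hd : ∀ i < k, d i < B) :
    ∀ i < k, dig B k (codeOf B k d) i = d i := by
  induction k with
  | zero => intro i hi; omega
  | succ k ih =>
    intro i hi
    have hB : 0 < B := lt_of_le_of_lt (Nat.zero_le _) (hd i hi)
    unfold codeOf dig
    rcases Nat.lt_or_ge i k with h | h
    · have e : k + 1 - 1 - i = (k - 1 - i) + 1 := by omega
      have h3 : d k / B = 0 := Nat.div_eq_of_lt (hd k (by omega))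
      rw [e, pow_succ', ← Nat.div_div_eq_div_mul, Nat.add_comm (codeOf B k d * B),
        Nat.add_mul_div_right _ _ hB, h3, Nat.zero_add]
      exact ih (fun i hi => hd i (by omega)) i h
    · have e : i = k := by omega
      subst e
      rw [show i + 1 - 1 - i = 0 by omega, pow_zero, Nat.div_one, Nat.mul_add_mod_self_right,
        Nat.mod_eq_of_lt (hd i hi)]

/-- flip of a digit -/
def fl (e x : ℕ) : ℕ := if e = 0 then x else if x = 1 then 2 else if x = 2 then 1 else x

theorem fl_lt {B e x : ℕ} (hB : 3 ≤ B) (hx : x < B) : fl e x < B := by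
  unfold fl
  split_ifs <;> omega

/-- action of a symmetry (permutation, flips) on codes -/
def act (B k : ℕ) (s : List ℕ × List ℕ) (c : ℕ) : ℕ :=
  codeOf B k fun i => fl (s.2.getD i 0) (dig B k c (s.1.getD i 0))

/-- does the code match the pattern, a list of pairs (class, digit)? -/
def mt (B k : ℕ) (pat : List (ℕ × ℕ)) (c : ℕ) : Bool :=
  pat.all fun x => Nat.beq (dig B k c x.1) x.2

/-- the mask of the codes with a property -/
def maskOf (f : ℕ → Bool) : ℕ → ℕ
  | 0 => 0
  | n + 1 => maskOf f n + (if f n then 2 ^ n else 0)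

theorem maskOf_lt (f : ℕ → Bool) (n : ℕ) : maskOf f n < 2 ^ n := by
  induction n with
  | zero => simp [maskOf]
  | succ n ih =>
    unfold maskOf
    rw [pow_succ]
    split <;> omega

theorem testBit_maskOf (f : ℕ → Bool) (n c : ℕ) (hc : c < n) : (maskOf f n).testBit c = f c := by
  induction n with
  | zero => omega
  | succ n ih =>
    unfold maskOf
    have hlt := maskOf_lt f n
    rcases Nat.lt_or_ge c n with h | h
    · split
      · rw [Nat.add_comm, Nat.testBit_two_pow_add_gt h]
        exact ih h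
      · rw [Nat.add_zero]; exact ih h
    · have e : c = n := by omega
      subst e
      split
      · rename_i hf
        rw [Nat.add_comm, Nat.testBit_two_pow_add_eq, Nat.testBit_lt_two_pow hlt, hf]
        rfl
      · rename_i hf
        rw [Nat.add_zero, Nat.testBit_lt_two_pow hlt]
        exact (Bool.eq_false_of_not_eq_true hf).symm

structure Spec2 where
  S : Spec
  B : ℕ
  k : ℕ
  pats : List (List (ℕ × ℕ) × ℕ × ℕ)
  syms : List (List ℕ × List ℕ)

def Spec2.check (T : Spec2) : Bool :=
  decide (3 ≤ T.B) && decide (T.S.K = T.B ^ T.k) &&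
    decide (T.S.cons = T.pats.map fun x => (maskOf (mt T.B T.k x.1) (T.B ^ T.k), x.2)) &&
    decide (T.S.maps = T.syms.map fun s => (List.range (T.B ^ T.k)).map (act T.B T.k s)) &&
    decide (∀ x ∈ T.pats, ∀ y ∈ x.1, y.1 < T.k) &&
    decide (∀ s ∈ T.syms, ∀ i < T.k, s.1.getD i 0 < T.k) && T.S.check

/-- **Placement theorem for digits.** -/
theorem Spec2.sound (T : Spec2) (h : T.check = true) {V : Type*} [Fintype V]
    (hV : Fintype.card V = 17) (d : ℕ → V → ℕ) (hd : ∀ i < T.k, ∀ u, d i u < T.B)
    (hp : ∀ x ∈ T.pats, x.2.1 ≤ (Finset.univ.filter fun u => ∀ y ∈ x.1, d y.1 u = y.2).card ∧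
      (Finset.univ.filter fun u => ∀ y ∈ x.1, d y.1 u = y.2).card ≤ x.2.2) :
    ∃ s ∈ T.syms, ∃ p ∈ T.S.places,
      Multiset.map (fun u => codeOf T.B T.k fun i => fl (s.2.getD i 0) (d (s.1.getD i 0) u))
        Finset.univ.val = (p : Multiset ℕ) := by
  classical
  unfold Spec2.check at h
  simp only [Bool.and_eq_true, decide_eq_true_iff] at h
  obtain ⟨⟨⟨⟨⟨⟨hB, hK⟩, hcons⟩, hmaps⟩, hpk⟩, hsk⟩, hS⟩ := h
  set code : V → ℕ := fun u => codeOf T.B T.k fun i => d i u with hcode
  have hlt : ∀ u, code u < T.B ^ T.k := fun u => codeOf_lt T.k (fun i hi => hd i hi u)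
  have hdig : ∀ u, ∀ i < T.k, dig T.B T.k (code u) i = d i u :=
    fun u => dig_codeOf T.k (fun i hi => hd i hi u)
  obtain ⟨τ, hτ, p, hpm, hpe⟩ := T.S.sound hS hV code (fun u => by rw [hK]; exact hlt u) (by
    intro q hq
    rw [hcons, List.mem_map] at hq
    obtain ⟨x, hx, rfl⟩ := hq
    have e : (Finset.univ.filter fun u =>
        (maskOf (mt T.B T.k x.1) (T.B ^ T.k)).testBit (code u) = true) =
        Finset.univ.filter fun u => ∀ y ∈ x.1, d y.1 u = y.2 := by
      apply Finset.filter_congr
      intro u _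
      rw [testBit_maskOf _ _ _ (hlt u)]
      unfold mt
      rw [List.all_eq_true]
      constructor
      · intro h1 y hy
        have := h1 y hy
        rw [Nat.beq_eq, hdig u y.1 (hpk x hx y hy)] at this
        exact this
      · intro h1 y hy
        rw [Nat.beq_eq, hdig u y.1 (hpk x hx y hy)]
        exact h1 y hy
    simp only [e]
    exact hp x hx)
  rw [hmaps, List.mem_map] at hτ
  obtain ⟨s, hs, rfl⟩ := hτ
  refine ⟨s, hs, p, hpm, ?_⟩
  rw [← hpe]
  apply Multiset.map_congr rfl
  intro u _
  unfold app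
  rw [List.getD_eq_getElem _ _ (by rw [List.length_map, List.length_range]; exact hlt u),
    List.getElem_map, List.getElem_range]
  unfold act
  apply codeOf_congr
  intro i hi
  rw [hdig u _ (hsk s hs i hi)]

end Pool.Agent.Work.MP_92a29d_co.Place
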