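import Pool.Agent.Work.MP_92a29d_co_h36.Digits

/-!
Splitting small independent sets by bipartite classes.
-/

namespace Pool.Agent.Work.MP_92a29d_co.Place

open SimpleGraph Finset Pool.Agent.Work.MP_92a29d_co_h45

variable {V : Type*} [DecidableEq V]

/-- a set with `2 n` vertices on which there is no odd cycle and no independent set with more than
`n` vertices has a 2-colouring with `n + n` vertices -/
theorem exists_split (G : SimpleGraph V) (m n : ℕ) (C : Finset V) (hC : C.card = 2 * n)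
    (hnm : n ≤ m + 1) (hg : ∀ v (p : G.Walk v v), Odd p.length → 2 * m + 1 < p.length)
    (hα : ∀ S ⊆ C, (∀ u ∈ S, ∀ w ∈ S, ¬ G.Adj u w) → S.card ≤ n) :
    ∃ b : V → Bool, (∀ u ∈ C, ∀ w ∈ C, G.Adj u w → b u ≠ b w) ∧
      ∀ x, (C.filter fun v => b v = x).card = n := by
  classical
  let H : SimpleGraph {v : V // v ∈ C} := G.comap Subtype.val
  have hcard : Fintype.card {v : V // v ∈ C} = 2 * n := by
    rw [Fintype.card_coe, hC]
  have hev : ∀ v (p : H.Walk v v), Even p.length := by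
    intro v p
    rw [← Nat.not_odd_iff_even]
    intro ho
    obtain ⟨u, q, hq1, hq2, hq3⟩ := exists_odd_cycle p.length v p rfl ho
    have h1 := hg _ (q.map (SimpleGraph.Hom.comap Subtype.val G)) (by
      rw [Walk.length_map]; exact hq2)
    rw [Walk.length_map] at h1
    have h2 := hq1.support_nodup.length_le_card
    rw [List.length_tail, Walk.length_support, Nat.add_sub_cancel, hcard] at h2
    obtain ⟨k, hk⟩ := hq2
    omega
  have hcol : H.Colorable 2 := by
    rw [two_colorable_iff_forall_loop_even]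
    exact hev
  obtain ⟨col⟩ := hcol
  let b : V → Bool := fun v => if h : v ∈ C then decide (col ⟨v, h⟩ = 0) else false
  have hb : ∀ u ∈ C, ∀ w ∈ C, G.Adj u w → b u ≠ b w := by
    intro u hu w hw huw
    have h1 : col ⟨u, hu⟩ ≠ col ⟨w, hw⟩ := col.valid (v := ⟨u, hu⟩) (w := ⟨w, hw⟩) huw
    simp only [b]
    rw [dif_pos hu, dif_pos hw]
    intro h2
    rw [decide_eq_decide] at h2
    have h3 : ∀ x y : Fin 2, (x = 0 ↔ y = 0) → x = y := by decide
    exact h1 (h3 _ _ h2)
  refine ⟨b, hb, ?_⟩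
  have hle : ∀ x, (C.filter fun v => b v = x).card ≤ n := by
    intro x
    refine hα _ (Finset.filter_subset _ _) ?_
    intro u hu w hw huw
    rw [mem_filter] at hu hw
    exact hb u hu.1 w hw.1 huw (hu.2.trans hw.2.symm)
  have hsum : (C.filter fun v => b v = true).card + (C.filter fun v => b v = false).card =
      2 * n := by
    rw [← hC, ← Finset.card_filter_add_card_filter_not (s := C) (fun v => b v = true)]
    congr 2
    ext v
    rw [mem_filter, mem_filter]
    constructor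
    · rintro ⟨h1, h2⟩
      exact ⟨h1, by rw [h2]; exact Bool.false_ne_true⟩
    · rintro ⟨h1, h2⟩
      exact ⟨h1, Bool.eq_false_of_not_eq_true h2⟩
  have h1 := hle true
  have h2 := hle false
  intro x
  cases x <;> omega

/-- a splitting digit (values 1, 2), with value 1 at a vertex where `X` is minimal -/
theorem exists_split_digit (G : SimpleGraph V) (m n : ℕ) (C : Finset V) (hC : C.card = 2 * n)
    (hnm : n ≤ m + 1) (hg : ∀ v (p : G.Walk v v), Odd p.length → 2 * m + 1 < p.length)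
    (hα : ∀ S ⊆ C, (∀ u ∈ S, ∀ w ∈ S, ¬ G.Adj u w) → S.card ≤ n) (v0 : V) :
    ∃ s : V → ℕ, (∀ u, s u = 1 ∨ s u = 2) ∧
      (∀ u ∈ C, ∀ w ∈ C, s u = s w → ¬ G.Adj u w) ∧
      (C.filter fun v => s v = 1).card = n ∧ (C.filter fun v => s v = 2).card = n ∧
      s v0 = 1 := by
  classical
  obtain ⟨b, hb1, hb2⟩ := exists_split G m n C hC hnm hg hα
  have h1 : ∀ u, (if b u = b v0 then 1 else 2 : ℕ) = 1 ↔ b u = b v0 := by
    intro u
    split <;> simp_all
  have h2 : ∀ u, (if b u = b v0 then 1 else 2 : ℕ) = 2 ↔ b u = !(b v0) := by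
    intro u
    split
    · rename_i h
      rw [h]
      cases b v0 <;> simp
    · rename_i h
      have h3 : ∀ x y : Bool, ¬ x = y → (2 = 2 ↔ x = !y) := by decide
      exact h3 _ _ h
  refine ⟨fun u => if b u = b v0 then 1 else 2, ?_, ?_, ?_, ?_, ?_⟩
  · intro u
    simp only
    split
    · exact Or.inl rfl
    · exact Or.inr rfl
  · intro u hu w hw huw ha
    apply hb1 u hu w hw ha
    simp only at huw
    by_cases h3 : b u = b v0
    · rw [if_pos h3] at huw
      rw [h3, (h1 w).1 huw.symm]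
    · rw [if_neg h3] at huw
      rw [(h2 w).1 huw.symm]
      have h4 : ∀ x y : Bool, ¬ x = y → x = !y := by decide
      exact h4 _ _ h3
  · simp only [h1]
    exact hb2 _
  · simp only [h2]
    exact hb2 _
  · exact (h1 v0).2 rfl

/-- the codes inside a set with four vertices which is covered by two triangle-free classes -/
theorem exists_bits4 (G2 G3 : SimpleGraph V) (C : Finset V) (hC : C.card = 4)
    (h2 : ∀ v (p : G2.Walk v v), Odd p.length → 2 * 1 + 1 < p.length)
    (h3 : ∀ v (p : G3.Walk v v), Odd p.length → 2 * 1 + 1 < p.length)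
    (hcov : ∀ u ∈ C, ∀ w ∈ C, u ≠ w → G2.Adj u w ∨ G3.Adj u w) (v0 : V) :
    ∃ s t : V → ℕ, (∀ u, s u = 1 ∨ s u = 2) ∧ (∀ u, t u = 1 ∨ t u = 2) ∧
      (∀ u ∈ C, ∀ w ∈ C, s u = s w → ¬ G2.Adj u w) ∧
      (∀ u ∈ C, ∀ w ∈ C, t u = t w → ¬ G3.Adj u w) ∧
      (∀ u ∈ C, ∀ w ∈ C, s u = s w → t u = t w → u = w) ∧ s v0 = 1 ∧ t v0 = 1 := by
  have key : ∀ (A B : SimpleGraph V),
      (∀ u ∈ C, ∀ w ∈ C, u ≠ w → A.Adj u w ∨ B.Adj u w) →
      (∀ v (p : B.Walk v v), Odd p.length → 2 * 1 + 1 < p.length) →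
      ∀ S ⊆ C, (∀ u ∈ S, ∀ w ∈ S, ¬ A.Adj u w) → S.card ≤ 2 := by
    intro A B hAB hB S hS hi
    by_contra hcon
    push Not at hcon
    obtain ⟨a, ha, b, hb, c, hc, hab, hac, hbc⟩ := Finset.two_lt_card.1 hcon
    have e1 : B.Adj a b := (hAB a (hS ha) b (hS hb) hab).resolve_left (hi a ha b hb)
    have e2 : B.Adj b c := (hAB b (hS hb) c (hS hc) hbc).resolve_left (hi b hb c hc)
    have e3 : B.Adj c a := ((hAB a (hS ha) c (hS hc) hac).resolve_left (hi a ha c hc)).symm
    have h4 := hB a (Walk.cons e1 (Walk.cons e2 (Walk.cons e3 Walk.nil)))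
      (by simp only [Walk.length_cons, Walk.length_nil]; decide)
    simp only [Walk.length_cons, Walk.length_nil] at h4
    omega
  obtain ⟨s, s1, s2, _, _, s3⟩ := exists_split_digit G2 1 2 C hC (by norm_num) h2
    (key G2 G3 hcov h3) v0
  obtain ⟨t, t1, t2, _, _, t3⟩ := exists_split_digit G3 1 2 C hC (by norm_num) h3
    (key G3 G2 (fun u hu w hw h => (hcov u hu w hw h).symm) h2) v0
  refine ⟨s, t, s1, t1, s2, t2, ?_, s3, t3⟩
  intro u hu w hw e1 e2
  by_contra hne
  rcases hcov u hu w hw hne with h | h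
  · exact s2 u hu w hw e1 h
  · exact t2 u hu w hw e2 h

end Pool.Agent.Work.MP_92a29d_co.Place
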