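import Pool.Agent.Work.MP_92a29d_co_h36.TwoLevel

/-!
Two coded classes with the same special vertex: the configuration with digits. The vertices with the
labels `1` and `l` (the last label) of class 0 are anchors.
-/

namespace Pool.Agent.Work.MP_92a29d_co.Place

open SimpleGraph Finset Pool.Agent.Work.MP_92a29d_co_h45

variable {V : Type*} [Fintype V] [DecidableEq V]

/-- the rules -/
def twoR : List (Fin 4 × List ℕ) := [(2, [0, 2]), (3, [0, 1, 3])]

/-- the code of the second anchor -/
def twoA (x : ℕ) : ℕ := if x = 1 then 67 else 76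
/-- the first code of the other cell of side 2 -/
def twoB (x : ℕ) : ℕ := if x = 1 then 76 else 67

/-- check of the facts: the anchors have the codes `(1,1,1,1)` and `(2,x,1,1)` -/
def twoF (c0 : CD) (x l : ℕ) : Fact → Bool
  | .ord i c c' => Nat.beq i 1 && ((Nat.beq c 49 && Nat.beq c' 50) ||
      (Nat.beq c (twoB x + 1) && Nat.beq c' (twoB x)))
  | .lim i c ls => Nat.beq i 0 && ((Nat.beq c 40 && ls.any fun b => Nat.beq b 1) ||
      ((Nat.beq c (twoA x) && ls.any fun b => Nat.beq b l) ||
      (Nat.blt c 81 && (!(Nat.beq c 40) && (!(Nat.beq c (twoA x)) &&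
        allLt c0.n fun a => !(Nat.beq (c0.d a) (Place.dig 3 4 c 0)) ||
          (Nat.beq a 1 || (Nat.beq a l || ls.any fun b => Nat.beq b a)))))))
  | _ => false

/-- which vertex of the cell comes first -/
def twoW (N : ℕ) (X : ℕ → V → ℕ) (a1 a2 : V) (x p q : ℕ) (u : V) : ℕ :=
  if p = 1 then (if q = 1 then (if u = a1 then 0 else 1) else X 1 u)
  else (if q = x then (if u = a2 then 0 else 1) else N - X 1 u)

/-- the vertices `a1`, `a2` are the ones with the labels `1`, `l` in class 0 -/
structure Anchors (c0 c1 : CD) (X : ℕ → V → ℕ) (a1 a2 : V) (x l : ℕ) : Prop where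
  x12 : x = 1 ∨ x = 2
  d1 : c0.d 1 = 1
  dl : c0.d l = 2
  u1 : ∀ u, X 0 u = 1 ↔ u = a1
  ul : ∀ u, X 0 u = l ↔ u = a2
  e1 : c1.d (X 1 a1) = 1
  el : c1.d (X 1 a2) = x

theorem Anchors.dconf {c0 c1 : CD} {m : Fin 4 → ℕ} {rel : List (ℕ × ℕ × ℕ)}
    {G : Fin 4 → SimpleGraph V} {X : ℕ → V → ℕ} {a1 a2 : V} {x l : ℕ} {e : ℕ → V → ℕ}
    (ha : Anchors c0 c1 X a1 a2 x l)
    (h : LocTwo c0 c1 G X (fun p => if p = 1 then a1 else a2) (twoW c1.n X a1 a2 x) e)
    (hc : Conf [c0, c1] m rel G X) {F : List Fact} (hF : F.all (twoF c0 x l) = true) :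
    DConf [c0, c1] m rel 3 4 twoR F G X e := by
  have hcode : ∀ u c, (codeOf 3 4 fun i => e i u) = c → ∀ i < 4, Place.dig 3 4 c i = e i u := by
    rintro u c rfl i hi
    exact dig_codeOf 4 (fun i hi => h.lt i hi u) i hi
  have hcode' : ∀ u p q b t, e 0 u = p → e 1 u = q → e 2 u = b → e 3 u = t →
      (codeOf 3 4 fun i => e i u) = ((p * 3 + q) * 3 + b) * 3 + t := by
    rintro u p q b t rfl rfl rfl rfl
    simp only [codeOf]
    ring
  have hx0 : X 0 a1 = 1 := (ha.u1 a1).2 rfl
  have hxl : X 0 a2 = l := (ha.ul a2).2 rfl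
  -- the code of the first anchor
  have A0 : e 0 a1 = 1 := by rw [h.zero, hx0, ha.d1]
  have A1 : e 1 a1 = 1 := by rw [h.one, ha.e1]
  have A2 : e 2 a1 = 1 := h.og a1 (by rw [A0]; norm_num) (by rw [A0]; rfl)
  have A3 : e 3 a1 = 1 := by
    refine h.om a1 (by rw [A0]; norm_num) A2 ?_
    intro w _ _ _ hw
    rw [A0, A1]
    simp only [twoW, if_true, if_neg hw]
    norm_num
  have B0 : e 0 a2 = 2 := by rw [h.zero, hxl, ha.dl]
  have B1 : e 1 a2 = x := by rw [h.one, ha.el]
  have B2 : e 2 a2 = 1 := h.og a2 (by rw [B0]; norm_num) (by rw [B0]; rfl)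
  have B3 : e 3 a2 = 1 := by
    refine h.om a2 (by rw [B0]; norm_num) B2 ?_
    intro w _ _ _ hw
    rw [B0, B1]
    simp [twoW, if_neg hw]
  have key1 : ∀ u, (codeOf 3 4 fun i => e i u) = 40 → u = a1 := by
    intro u hu
    have d := hcode u 40 hu
    refine h.inj u a1 ?_ ?_ ?_ ?_ ?_
    · rw [← d 0 (by norm_num)]; decide
    · rw [← d 0 (by norm_num), A0]; decide
    · rw [← d 1 (by norm_num), A1]; decide
    · rw [← d 2 (by norm_num), A2]; decide
    · rw [← d 3 (by norm_num), A3]; decide
  have key2 : ∀ u, (codeOf 3 4 fun i => e i u) = twoA x → u = a2 := by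
    intro u hu
    have d := hcode u _ hu
    have hxx := ha.x12
    have d0 := d 0 (by norm_num)
    have d1 := d 1 (by norm_num)
    have d2 := d 2 (by norm_num)
    have d3 := d 3 (by norm_num)
    refine h.inj u a2 ?_ ?_ ?_ ?_ ?_
    · rw [← d0]
      rcases hxx with rfl | rfl <;> decide
    · rw [← d0, B0]
      rcases hxx with rfl | rfl <;> decide
    · rw [← d1, B1]
      rcases hxx with rfl | rfl <;> decide
    · rw [← d2, B2]
      rcases hxx with rfl | rfl <;> decide
    · rw [← d3, B3]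
      rcases hxx with rfl | rfl <;> decide
  refine ⟨hc, ?_, h.lt, ?_, ?_⟩
  · intro i hi u
    have hi' : i < 2 := hi
    interval_cases i
    · exact h.zero u
    · exact h.one u
  · intro r hr u w huw hq
    unfold twoR at hr
    simp only [List.mem_cons, List.not_mem_nil, or_false] at hr
    rcases hr with rfl | rfl
    · have q0 := hq 0 (by simp)
      have q1 := hq 2 (by simp)
      exact h.r2 u w q0.2 q0.1 q1.1
    · have q0 := hq 0 (by simp)
      have q1 := hq 1 (by simp)
      have q2 := hq 3 (by simp)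
      exact h.r3 u w q0.2 q0.1 q1.1 q2.1
  · intro f hf
    rw [List.all_eq_true] at hF
    have h1 := hF f hf
    cases f with
    | ord i c c' =>
      intro u w hu hw
      unfold twoF at h1
      simp only [Bool.and_eq_true, Bool.or_eq_true, Nat.beq_eq] at h1
      obtain ⟨rfl, h2⟩ := h1
      rcases h2 with ⟨rfl, rfl⟩ | ⟨rfl, rfl⟩
      · have du := hcode u 49 hu
        have dw := hcode w 50 hw
        have u0 : e 0 u = 1 := by rw [← du 0 (by norm_num)]; decide
        have u1 : e 1 u = 2 := by rw [← du 1 (by norm_num)]; decide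
        have u2 : e 2 u = 1 := by rw [← du 2 (by norm_num)]; decide
        have u3 : e 3 u = 1 := by rw [← du 3 (by norm_num)]; decide
        have w0 : e 0 w = 1 := by rw [← dw 0 (by norm_num)]; decide
        have w1 : e 1 w = 2 := by rw [← dw 1 (by norm_num)]; decide
        have w2 : e 2 w = 1 := by rw [← dw 2 (by norm_num)]; decide
        have h3 := h.ow u w (by rw [u0]; norm_num) (u0.trans w0.symm) (u1.trans w1.symm) u2 w2 u3
        rw [u0, u1] at h3
        exact h3
      · have du := hcode u _ hu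
        have dw := hcode w _ hw
        have hxx := ha.x12
        have u0 : e 0 u = 2 := by
          rw [← du 0 (by norm_num)]; rcases hxx with rfl | rfl <;> decide
        have u1 : e 1 u = 3 - x := by
          rw [← du 1 (by norm_num)]; rcases hxx with rfl | rfl <;> decide
        have u2 : e 2 u = 1 := by
          rw [← du 2 (by norm_num)]; rcases hxx with rfl | rfl <;> decide
        have w0 : e 0 w = 2 := by
          rw [← dw 0 (by norm_num)]; rcases hxx with rfl | rfl <;> decide
        have w1 : e 1 w = 3 - x := by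
          rw [← dw 1 (by norm_num)]; rcases hxx with rfl | rfl <;> decide
        have w2 : e 2 w = 1 := by
          rw [← dw 2 (by norm_num)]; rcases hxx with rfl | rfl <;> decide
        have w3 : e 3 w = 1 := by
          rw [← dw 3 (by norm_num)]; rcases hxx with rfl | rfl <;> decide
        have h3 := h.ow w u (by rw [w0]; norm_num) (w0.trans u0.symm) (w1.trans u1.symm) w2 u2 w3
        rw [w0, w1] at h3
        have h4 : ∀ v : V, twoW c1.n X a1 a2 x 2 (3 - x) v = c1.n - X 1 v := by
          intro v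
          unfold twoW
          rw [if_neg (by norm_num), if_neg (by omega)]
        rw [h4, h4] at h3
        have h5 := hc.lt 1 (by simp) u
        have h6 := hc.lt 1 (by simp) w
        have h7 : (cdAt [c0, c1] 1).n = c1.n := rfl
        omega
    | edge j c c' => exact absurd h1 (by unfold twoF; exact Bool.false_ne_true)
    | lim i c ls =>
      intro u hu
      unfold twoF at h1
      simp only [Bool.and_eq_true, Bool.or_eq_true, Nat.beq_eq, List.any_eq_true, Nat.blt_eq,
        Bool.not_eq_true', nbeq_false, allLt_iff] at h1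
      obtain ⟨rfl, h2⟩ := h1
      rcases h2 with ⟨rfl, b, hb, rfl⟩ | ⟨rfl, b, hb, rfl⟩ | ⟨h2, h3, h4, h5⟩
      · rw [key1 u hu, hx0]
        exact hb
      · rw [key2 u hu, hxl]
        exact hb
      · have h6 := hc.lt 0 (by simp) u
        have h7 := h5 (X 0 u) h6
        have du := hcode u c hu 0 (by norm_num)
        rcases h7 with h7 | h7 | h7 | ⟨b, hb, h7⟩
        · rw [du, h.zero u] at h7
          exact absurd rfl h7
        · have : u = a1 := (ha.u1 u).1 h7
          exfalso
          apply h3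
          rw [← hu, this]
          exact hcode' a1 1 1 1 1 A0 A1 A2 A3
        · have : u = a2 := (ha.ul u).1 h7
          exfalso
          apply h4
          rw [← hu, this]
          refine (hcode' a2 2 x 1 1 B0 B1 B2 B3).trans ?_
          rcases ha.x12 with rfl | rfl <;> decide
        · rw [← h7]
          exact hb

/-- the constraints for the numbers of vertices -/
def twoPats : List (List (ℕ × ℕ) × ℕ × ℕ) :=
  ([], 17, 17) :: ([(0, 0)], 1, 1) :: (([1, 2].map fun p => ([(0, p)], 8, 8)) ++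
    (([1, 2].flatMap fun p => [1, 2].map fun s => ([(0, p), (1, s)], 4, 4)) ++
    (([1, 2].flatMap fun p => [1, 2].flatMap fun s => [1, 2].flatMap fun b => [1, 2].map fun t =>
      ([(0, p), (1, s), (2, b), (3, t)], 0, 1)) ++
    (([1, 2, 3].flatMap fun i => [1, 2].map fun d => ([(0, 0), (i, d)], 0, 0)) ++
    ([1, 2, 3].flatMap fun i => [1, 2].map fun p => ([(0, p), (i, 0)], 0, 0))))))

omit [DecidableEq V] in
theorem LocTwo.pats (hV : Fintype.card V = 17) {c0 c1 : CD} {G : Fin 4 → SimpleGraph V}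
    {X : ℕ → V → ℕ} {g : ℕ → V} {wt : ℕ → ℕ → V → ℕ} {e : ℕ → V → ℕ}
    (h : LocTwo c0 c1 G X g wt e) :
    ∀ x ∈ twoPats, x.2.1 ≤ (univ.filter fun u => ∀ y ∈ x.1, e y.1 u = y.2).card ∧
      (univ.filter fun u => ∀ y ∈ x.1, e y.1 u = y.2).card ≤ x.2.2 := by
  intro x hx
  unfold twoPats at hx
  simp only [List.mem_cons, List.mem_append, List.mem_flatMap, List.mem_map, List.not_mem_nil,
    or_false] at hx
  rcases hx with rfl | rfl | ⟨p, hp, rfl⟩ | ⟨p, hp, s, hs, rfl⟩ |
    ⟨p, hp, s, hs, b, hb, t, ht, rfl⟩ | ⟨i, hi, d, hd, rfl⟩ | ⟨i, hi, p, hp, rfl⟩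
  · have e1 : (univ.filter fun u : V => ∀ y ∈ ([] : List (ℕ × ℕ)), e y.1 u = y.2) = univ := by
      apply Finset.filter_true_of_mem
      intro u _ y hy
      exact absurd hy (List.not_mem_nil)
    rw [e1, Finset.card_univ, hV]
    exact ⟨le_rfl, le_rfl⟩
  · simp only [List.mem_singleton, forall_eq, h.n0]
    exact ⟨le_rfl, le_rfl⟩
  · simp only [List.mem_singleton, forall_eq, h.n1 p hp]
    exact ⟨le_rfl, le_rfl⟩
  · have e1 : (univ.filter fun u => ∀ y ∈ ([(0, p), (1, s)] : List (ℕ × ℕ)),
        e y.1 u = y.2) = univ.filter fun u => e 0 u = p ∧ e 1 u = s := by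
      apply Finset.filter_congr
      intro u _
      simp only [List.mem_cons, List.not_mem_nil, or_false, forall_eq_or_imp, forall_eq]
    rw [e1, h.n2 p hp s hs]
    exact ⟨le_rfl, le_rfl⟩
  · refine ⟨Nat.zero_le _, ?_⟩
    rw [Finset.card_le_one]
    intro u hu w hw
    rw [mem_filter] at hu hw
    simp only [List.mem_cons, List.not_mem_nil, or_false, forall_eq_or_imp, forall_eq] at hu hw
    obtain ⟨_, a0, a1, a2, a3⟩ := hu
    obtain ⟨_, b0, b1, b2, b3⟩ := hw
    exact h.inj u w (by rw [a0]; omega) (a0.trans b0.symm) (a1.trans b1.symm) (a2.trans b2.symm)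
      (a3.trans b3.symm)
  · refine ⟨Nat.zero_le _, ?_⟩
    rw [Nat.le_zero, Finset.card_eq_zero, Finset.filter_eq_empty_iff]
    intro u _ hu
    simp only [List.mem_cons, List.not_mem_nil, or_false, forall_eq_or_imp, forall_eq] at hu
    have h1 := (h.iff i (by omega) (by omega) u).2 hu.1
    omega
  · refine ⟨Nat.zero_le _, ?_⟩
    rw [Nat.le_zero, Finset.card_eq_zero, Finset.filter_eq_empty_iff]
    intro u _ hu
    simp only [List.mem_cons, List.not_mem_nil, or_false, forall_eq_or_imp, forall_eq] at hu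
    have h1 := (h.iff i (by omega) (by omega) u).1 hu.2
    omega

/-- all checks for a family with two coded classes and one instance -/
def famTwo (T : Spec2) (c0 c1 : CD) (m : Fin 4 → ℕ) (rel : List (ℕ × ℕ × ℕ)) (x l : ℕ)
    (F : List Fact) (inst : List (List InstX)) : Bool :=
  famD T [c0, c1] m rel 3 4 twoR F inst && (T.pats.all (fun x => decide (x ∈ twoPats)) &&
  (F.all (twoF c0 x l) && (Nat.ble 2 (m 1) && (Nat.ble 3 (m 2) && (Nat.ble 1 (m 3) &&
  (allLt c0.n (fun a => Nat.blt (c0.d a) 3) && (allLt c1.n (fun a => Nat.blt (c1.d a) 3) &&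
  (indepD c0 1 && (indepD c0 2 && (indepD c1 1 && indepD c1 2))))))))))

/-- **Two coded classes**: a configuration gives a model of one of the instances. -/
theorem Conf.exists_instTwo {T : Spec2} {c0 c1 : CD} {m : Fin 4 → ℕ}
    {rel : List (ℕ × ℕ × ℕ)} {x l : ℕ} {F : List Fact} {inst : List (List InstX)}
    (hF : famTwo T c0 c1 m rel x l F inst = true)
    (hV : Fintype.card V = 17) {G : Fin 4 → SimpleGraph V} {X : ℕ → V → ℕ}
    (h : Conf [c0, c1] m rel G X) (hα : ∀ i, AlphaEight (G i))
    (hc0 : (univ.filter fun u => c0.d (X 0 u) = 0).card = 1)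
    (hv : ∀ u, c1.d (X 1 u) = 0 ↔ c0.d (X 0 u) = 0) {a1 a2 : V}
    (ha : Anchors c0 c1 X a1 a2 x l) :
    ∃ Is ∈ inst, ∃ J ∈ Is, ∃ M, IsModelX J M := by
  unfold famTwo at hF
  simp only [Bool.and_eq_true, Nat.ble_eq, allLt_iff, Nat.blt_eq] at hF
  obtain ⟨hF, hpats, hfact, hm1, hm2, hm3, hd0, hd1, hi1, hi2, hi3, hi4⟩ := hF
  obtain ⟨e, he⟩ := exists_locTwo hV h hα hm1 hm2 hm3 hd0 hd1 hi1 hi2 hi3 hi4 hc0 hv
    (fun p => if p = 1 then a1 else a2) (twoW c1.n X a1 a2 x)
  rw [List.all_eq_true] at hpats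
  refine DConf.exists_inst hF hV (ha.dconf he h hfact) ?_
  intro y hy
  exact he.pats hV y (of_decide_eq_true (hpats y hy))

end Pool.Agent.Work.MP_92a29d_co.Place
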