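import Pool.Agent.Work.MP_92a29d_co_h36.Split

/-!
Two coded classes with the same special vertex; the third class has no odd cycle with at most 8
vertices, the fourth class is triangle-free: the local codes.
-/

namespace Pool.Agent.Work.MP_92a29d_co.Place

open SimpleGraph Finset Pool.Agent.Work.MP_92a29d_co_h45

variable {V : Type*} [Fintype V] [DecidableEq V]

/-- the local codes with two coded classes; `g p` is a vertex of side `p` with digit 1 in class 2,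
`wt p q` says which vertex of the cell comes first -/
structure LocTwo (c0 c1 : CD) (G : Fin 4 → SimpleGraph V) (X : ℕ → V → ℕ) (g : ℕ → V)
    (wt : ℕ → ℕ → V → ℕ) (e : ℕ → V → ℕ) : Prop where
  zero : ∀ u, e 0 u = c0.d (X 0 u)
  one : ∀ u, e 1 u = c1.d (X 1 u)
  lt : ∀ i < 4, ∀ u, e i u < 3
  iff : ∀ i, 1 ≤ i → i < 4 → ∀ u, (e i u = 0 ↔ e 0 u = 0)
  r2 : ∀ u w, e 0 u ≠ 0 → e 0 u = e 0 w → e 2 u = e 2 w → ¬ (G 2).Adj u w
  r3 : ∀ u w, e 0 u ≠ 0 → e 0 u = e 0 w → e 1 u = e 1 w → e 3 u = e 3 w → ¬ (G 3).Adj u w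
  inj : ∀ u w, e 0 u ≠ 0 → e 0 u = e 0 w → e 1 u = e 1 w → e 2 u = e 2 w → e 3 u = e 3 w →
    u = w
  n0 : (univ.filter fun u => e 0 u = 0).card = 1
  n1 : ∀ p, p = 1 ∨ p = 2 → (univ.filter fun u => e 0 u = p).card = 8
  n2 : ∀ p, p = 1 ∨ p = 2 → ∀ q, q = 1 ∨ q = 2 →
    (univ.filter fun u => e 0 u = p ∧ e 1 u = q).card = 4
  og : ∀ u, e 0 u ≠ 0 → g (e 0 u) = u → e 2 u = 1
  ow : ∀ u w, e 0 u ≠ 0 → e 0 u = e 0 w → e 1 u = e 1 w → e 2 u = 1 → e 2 w = 1 →
    e 3 u = 1 → wt (e 0 u) (e 1 u) u ≤ wt (e 0 u) (e 1 u) w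
  om : ∀ u, e 0 u ≠ 0 → e 2 u = 1 → (∀ w, e 0 u = e 0 w → e 1 u = e 1 w → e 2 w = 1 → w ≠ u →
    wt (e 0 u) (e 1 u) u < wt (e 0 u) (e 1 u) w) → e 3 u = 1

theorem exists_locTwo (hV : Fintype.card V = 17) {c0 c1 : CD} {m : Fin 4 → ℕ}
    {rel : List (ℕ × ℕ × ℕ)} {G : Fin 4 → SimpleGraph V} {X : ℕ → V → ℕ}
    (h : Conf [c0, c1] m rel G X) (hα : ∀ i, AlphaEight (G i)) (hm1 : 2 ≤ m 1) (hm2 : 3 ≤ m 2)
    (hm3 : 1 ≤ m 3) (hdig0 : ∀ a < c0.n, c0.d a < 3) (hdig1 : ∀ a < c1.n, c1.d a < 3)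
    (hi01 : indepD c0 1 = true) (hi02 : indepD c0 2 = true)
    (hi11 : indepD c1 1 = true) (hi12 : indepD c1 2 = true)
    (hc0 : (univ.filter fun u => c0.d (X 0 u) = 0).card = 1)
    (hv : ∀ u, c1.d (X 1 u) = 0 ↔ c0.d (X 0 u) = 0) (g : ℕ → V) (wt : ℕ → ℕ → V → ℕ) :
    ∃ e, LocTwo c0 c1 G X g wt e := by
  classical
  have hl0 : (0 : Fin 4).val < [c0, c1].length := by simp
  have hl1 : (1 : Fin 4).val < [c0, c1].length := by simp
  have hlt0 : ∀ u, X 0 u < c0.n := fun u => h.lt 0 (by simp) u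
  have hlt1 : ∀ u, X 1 u < c1.n := fun u => h.lt 1 (by simp) u
  have hind : ∀ p, p = 1 ∨ p = 2 → ∀ u w, c0.d (X 0 u) = p → c0.d (X 0 w) = p →
      ¬ (G 0).Adj u w := by
    intro p hp u w hu hw
    refine h.indep (i := 0) hl0 (d := p) ?_ hu hw
    rcases hp with rfl | rfl
    · exact hi01
    · exact hi02
  have hind1 : ∀ p, p = 1 ∨ p = 2 → ∀ u w, c1.d (X 1 u) = p → c1.d (X 1 w) = p →
      ¬ (G 1).Adj u w := by
    intro p hp u w hu hw
    refine h.indep (i := 1) hl1 (d := p) ?_ hu hw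
    rcases hp with rfl | rfl
    · exact hi11
    · exact hi12
  set S : ℕ → Finset V := fun p => univ.filter fun u => c0.d (X 0 u) = p with hS
  have hS8 : ∀ p, p = 1 ∨ p = 2 → (S p).card = 8 := by
    have h1 : (S 1).card ≤ 8 := hα 0 _ (fun u hu w hw =>
      hind 1 (Or.inl rfl) u w (mem_filter.1 hu).2 (mem_filter.1 hw).2)
    have h2 : (S 2).card ≤ 8 := hα 0 _ (fun u hu w hw =>
      hind 2 (Or.inr rfl) u w (mem_filter.1 hu).2 (mem_filter.1 hw).2)
    have h3 := Finset.card_eq_sum_card_fiberwise (s := (univ : Finset V))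
      (t := range 3) (f := fun u => c0.d (X 0 u))
      (fun u _ => by simpa using hdig0 _ (hlt0 u))
    rw [Finset.card_univ, hV, Finset.sum_range_succ, Finset.sum_range_succ,
      Finset.sum_range_succ, Finset.sum_range_zero, hc0] at h3
    change 17 = 0 + 1 + (S 1).card + (S 2).card at h3
    rintro p (rfl | rfl) <;> omega
  have hor : ∀ u, c0.d (X 0 u) ≠ 0 → c0.d (X 0 u) = 1 ∨ c0.d (X 0 u) = 2 := by
    intro u hu
    have := hdig0 _ (hlt0 u)
    omega
  have hor1 : ∀ u, c0.d (X 0 u) ≠ 0 → c1.d (X 1 u) = 1 ∨ c1.d (X 1 u) = 2 := by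
    intro u hu
    have := hdig1 _ (hlt1 u)
    have h2 : c1.d (X 1 u) ≠ 0 := fun h3 => hu ((hv u).1 h3)
    omega
  -- the cells
  set C : ℕ → ℕ → Finset V := fun p q => univ.filter fun u => c0.d (X 0 u) = p ∧
    c1.d (X 1 u) = q with hC
  have hCle : ∀ p, p = 1 ∨ p = 2 → ∀ q, q = 1 ∨ q = 2 → (C p q).card ≤ 4 := by
    intro p hp q hq
    refine pair_bound h.cover 0 1 2 3 (by decide) (by omega) hm3 _ ?_ ?_
    · intro u hu w hw
      exact hind p hp u w (mem_filter.1 hu).2.1 (mem_filter.1 hw).2.1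
    · intro u hu w hw
      exact hind1 q hq u w (mem_filter.1 hu).2.2 (mem_filter.1 hw).2.2
  have hCS : ∀ p, p = 1 ∨ p = 2 → (S p).card = (C p 1).card + (C p 2).card := by
    intro p hp
    have e1 : S p = C p 1 ∪ C p 2 := by
      ext u
      simp only [hS, hC, mem_filter, mem_univ, true_and, mem_union]
      constructor
      · intro hu
        rcases hor1 u (by omega) with h1 | h1
        · exact Or.inl ⟨hu, h1⟩
        · exact Or.inr ⟨hu, h1⟩
      · rintro (h1 | h1) <;> exact h1.1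
    rw [e1, Finset.card_union_of_disjoint]
    rw [Finset.disjoint_left]
    intro u hu hw
    have h1 := (mem_filter.1 hu).2.2
    have h2 := (mem_filter.1 hw).2.2
    omega
  have hC4 : ∀ p, p = 1 ∨ p = 2 → ∀ q, q = 1 ∨ q = 2 → (C p q).card = 4 := by
    intro p hp q hq
    have h1 := hCS p hp
    rw [hS8 p hp] at h1
    have h2 := hCle p hp 1 (Or.inl rfl)
    have h3 := hCle p hp 2 (Or.inr rfl)
    rcases hq with rfl | rfl <;> omega
  -- class 2 on the sides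
  have hsplit : ∀ p, p = 1 ∨ p = 2 → ∃ s : V → ℕ, (∀ u, s u = 1 ∨ s u = 2) ∧
      (∀ u ∈ S p, ∀ w ∈ S p, s u = s w → ¬ (G 2).Adj u w) ∧ s (g p) = 1 := by
    intro p hp
    obtain ⟨s, s1, s2, _, _, s5⟩ := exists_split_digit (G 2) 3 4 (S p) (hS8 p hp)
      (by norm_num) (fun v q hq => by
        have := h.cover.girth 2 v q hq
        omega) (fun T hT hTi => pair_bound h.cover 0 2 1 3 (by decide) hm1 hm3 T
          (fun u hu w hw => hind p hp u w (mem_filter.1 (hT hu)).2 (mem_filter.1 (hT hw)).2)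
          hTi) (g p)
    exact ⟨s, s1, s2, s5⟩
  choose! sd d1 d2 d3 using hsplit
  -- class 3 in the cells
  have hbits : ∀ p q, (p = 1 ∨ p = 2) ∧ (q = 1 ∨ q = 2) → ∃ t : V → ℕ,
      (∀ u, t u = 1 ∨ t u = 2) ∧
      (∀ u ∈ C p q, ∀ w ∈ C p q, t u = t w → ¬ (G 3).Adj u w) ∧
      (∀ u ∈ C p q, ∀ w ∈ C p q, sd p u = sd p w → t u = t w → u = w) ∧
      (∀ u ∈ C p q, ∀ w ∈ C p q, sd p u = 1 → sd p w = 1 → t u = 1 → wt p q u ≤ wt p q w) ∧
      ∀ u ∈ C p q, sd p u = 1 → (∀ w ∈ C p q, sd p w = 1 → w ≠ u → wt p q u < wt p q w) →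
        t u = 1 := by
    rintro p q ⟨hp, hq⟩
    -- the first vertex with digit 1
    have hv0 : ∃ v0 : V, ∀ u ∈ C p q, ∀ w ∈ C p q, sd p u = 1 → sd p w = 1 → 
        (v0 ∈ C p q ∧ sd p v0 = 1 ∧ wt p q v0 ≤ wt p q w) := by
      by_cases hne : ((C p q).filter fun v => sd p v = 1).Nonempty
      · obtain ⟨v0, hv0, hmin⟩ := Finset.exists_min_image _ (fun u => wt p q u) hne
        refine ⟨v0, ?_⟩
        intro u hu w hw h1 h2
        rw [mem_filter] at hv0
        exact ⟨hv0.1, hv0.2, hmin w (mem_filter.2 ⟨hw, h2⟩)⟩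
      · refine ⟨g p, ?_⟩
        intro u hu w hw h1 h2
        exact absurd ⟨u, mem_filter.2 ⟨hu, h1⟩⟩ hne
    obtain ⟨v0, hv0⟩ := hv0
    have hpc : ∀ u ∈ C p q, ∀ w ∈ C p q, u ≠ w → (G 2).Adj u w ∨ (G 3).Adj u w := by
      intro u hu w hw huw
      rw [mem_filter] at hu hw
      obtain ⟨i, hi⟩ := h.cover.cov u w huw
      have h0 := hind p hp u w hu.2.1 hw.2.1
      have h1 := hind1 q hq u w hu.2.2 hw.2.2
      fin_cases i
      · exact absurd hi h0
      · exact absurd hi h1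
      · exact Or.inl hi
      · exact Or.inr hi
    obtain ⟨t, t1, t2, _, _, t3⟩ := exists_split_digit (G 3) 1 2 (C p q) (hC4 p hp q hq)
      (by norm_num) (fun v r hr => by
        have := h.cover.girth 3 v r hr
        omega) (fun T hT hTi => by
          by_contra hcon
          push Not at hcon
          obtain ⟨a, ha, b, hb, c, hc, hab, hac, hbc⟩ := Finset.two_lt_card.1 hcon
          have e1 : (G 2).Adj a b := (hpc a (hT ha) b (hT hb) hab).resolve_right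
            (hTi a ha b hb)
          have e2 : (G 2).Adj b c := (hpc b (hT hb) c (hT hc) hbc).resolve_right
            (hTi b hb c hc)
          have e3 : (G 2).Adj c a := ((hpc a (hT ha) c (hT hc) hac).resolve_right
            (hTi a ha c hc)).symm
          have h4 := h.cover.girth 2 a (Walk.cons e1 (Walk.cons e2 (Walk.cons e3 Walk.nil)))
            (by simp only [Walk.length_cons, Walk.length_nil]; decide)
          simp only [Walk.length_cons, Walk.length_nil] at h4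
          omega) v0
    have hinj : ∀ u ∈ C p q, ∀ w ∈ C p q, sd p u = sd p w → t u = t w → u = w := by
      intro u hu w hw h1 h2
      by_contra hne
      have hu' := mem_filter.1 hu
      have hw' := mem_filter.1 hw
      rcases hpc u hu w hw hne with h3 | h3
      · exact d2 p hp u (mem_filter.2 ⟨mem_univ _, hu'.2.1⟩) w
          (mem_filter.2 ⟨mem_univ _, hw'.2.1⟩) h1 h3
      · exact t2 u hu w hw h2 h3
    refine ⟨t, t1, t2, hinj, ?_, ?_⟩
    · intro u hu w hw h1 h2 h3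
      obtain ⟨a1, a2, a3⟩ := hv0 u hu w hw h1 h2
      have : u = v0 := hinj u hu v0 a1 (h1.trans a2.symm) (h3.trans t3.symm)
      rw [this]
      exact a3
    · intro u hu h1 h2
      obtain ⟨a1, a2, a3⟩ := hv0 u hu u hu h1 h1
      by_cases h3 : v0 = u
      · rw [← h3]
        exact t3
      · have := h2 v0 a1 a2 h3
        omega
  choose! tt b1 b2 b3 b4 b5 using hbits
  let e : ℕ → V → ℕ := fun i u =>
    match i with
    | 0 => c0.d (X 0 u)
    | 1 => c1.d (X 1 u)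
    | 2 => if c0.d (X 0 u) = 0 then 0 else sd (c0.d (X 0 u)) u
    | 3 => if c0.d (X 0 u) = 0 then 0 else tt (c0.d (X 0 u)) (c1.d (X 1 u)) u
    | _ => 0
  have e0 : ∀ u, e 0 u = c0.d (X 0 u) := fun u => rfl
  have e1 : ∀ u, e 1 u = c1.d (X 1 u) := fun u => rfl
  have e2 : ∀ u, e 0 u ≠ 0 → e 2 u = sd (e 0 u) u := fun u hu => if_neg hu
  have e3 : ∀ u, e 0 u ≠ 0 → e 3 u = tt (e 0 u) (e 1 u) u := fun u hu => if_neg hu
  have z2 : ∀ u, e 0 u = 0 → e 2 u = 0 := fun u hu => if_pos hu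
  have z3 : ∀ u, e 0 u = 0 → e 3 u = 0 := fun u hu => if_pos hu
  have hor2 : ∀ u, e 0 u ≠ 0 → e 2 u = 1 ∨ e 2 u = 2 := by
    intro u hu
    rw [e2 u hu]
    exact d1 _ (hor u hu) u
  have hor3 : ∀ u, e 0 u ≠ 0 → e 3 u = 1 ∨ e 3 u = 2 := by
    intro u hu
    rw [e3 u hu]
    exact b1 _ _ ⟨hor u hu, hor1 u hu⟩ u
  have hmem : ∀ u, u ∈ S (e 0 u) := fun u => mem_filter.2 ⟨mem_univ _, rfl⟩
  have hmemC : ∀ u w, e 0 u = e 0 w → e 1 u = e 1 w → w ∈ C (e 0 u) (e 1 u) := by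
    intro u w h1 h2
    rw [mem_filter]
    exact ⟨mem_univ _, h1.symm, h2.symm⟩
  refine ⟨e, ⟨e0, e1, ?_, ?_, ?_, ?_, ?_, hc0, ?_, ?_, ?_, ?_, ?_⟩⟩
  · intro i hi u
    have h1 := hdig1 _ (hlt1 u)
    rw [← e1 u] at h1
    by_cases hu : e 0 u = 0
    · interval_cases i
      · rw [hu]; norm_num
      · exact h1
      · rw [z2 u hu]; norm_num
      · rw [z3 u hu]; norm_num
    · have h0 := hor u hu
      have h2 := hor2 u hu
      have h3 := hor3 u hu
      rw [← e0 u] at h0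
      interval_cases i <;> omega
  · intro i hi1 hi4 u
    interval_cases i
    · exact hv u
    · by_cases hu : e 0 u = 0
      · exact ⟨fun _ => hu, fun _ => z2 u hu⟩
      · have h2 := hor2 u hu
        omega
    · by_cases hu : e 0 u = 0
      · exact ⟨fun _ => hu, fun _ => z3 u hu⟩
      · have h3 := hor3 u hu
        omega
  · intro u w hu h1 h2
    have hw : e 0 w ≠ 0 := by rw [← h1]; exact hu
    refine d2 _ (hor u hu) u (hmem u) w (by rw [← e0 u, h1]; exact hmem w) ?_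
    rw [← e0 u, ← e2 u hu, h2, e2 w hw, h1]
  · intro u w hu h1 h2 h3
    have hw : e 0 w ≠ 0 := by rw [← h1]; exact hu
    refine b2 _ _ ⟨hor u hu, hor1 u hu⟩ u (hmemC u u rfl rfl) w (hmemC u w h1 h2) ?_
    rw [← e0 u, ← e1 u, ← e3 u hu, h3, e3 w hw, h1, h2]
  · intro u w hu h1 h2 h3 h4
    have hw : e 0 w ≠ 0 := by rw [← h1]; exact hu
    refine b3 _ _ ⟨hor u hu, hor1 u hu⟩ u (hmemC u u rfl rfl) w (hmemC u w h1 h2) ?_ ?_
    · rw [← e0 u, ← e2 u hu, h3, e2 w hw, h1]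
    · rw [← e0 u, ← e1 u, ← e3 u hu, h4, e3 w hw, h1, h2]
  · intro p hp
    exact hS8 p hp
  · intro p hp q hq
    exact hC4 p hp q hq
  · intro u hu h1
    rw [e2 u hu]
    have := d3 _ (hor u hu)
    rw [← e0 u, h1] at this
    exact this
  · intro u w hu h1 h2 h3 h4 h5
    have hw : e 0 w ≠ 0 := by rw [← h1]; exact hu
    refine b4 _ _ ⟨hor u hu, hor1 u hu⟩ u (hmemC u u rfl rfl) w (hmemC u w h1 h2) ?_ ?_ ?_
    · rw [← e0 u, ← e2 u hu, h3]
    · rw [← e0 u, h1, ← e2 w hw, h4]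
    · rw [← e0 u, ← e1 u, ← e3 u hu, h5]
  · intro u hu h1 h2
    rw [e3 u hu]
    refine b5 _ _ ⟨hor u hu, hor1 u hu⟩ u (hmemC u u rfl rfl) ?_ ?_
    · rw [← e0 u, ← e2 u hu, h1]
    · intro w hw h3 h4
      have hw' := mem_filter.1 hw
      have h5 : e 0 u = e 0 w := hw'.2.1.symm
      refine h2 w h5 hw'.2.2.symm ?_ h4
      rw [e2 w (by rw [← h5]; exact hu), ← h5]
      exact h3

end Pool.Agent.Work.MP_92a29d_co.Place
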