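import Pool.Agent.Work.MP_92a29d_co_h36.Split

/-!
Two coded classes with different special vertices; the third class has no odd cycle with at most 8
vertices, the fourth class is triangle-free: the local codes.
-/

namespace Pool.Agent.Work.MP_92a29d_co.Place

open SimpleGraph Finset Pool.Agent.Work.MP_92a29d_co_h45

section

variable {V : Type*} [DecidableEq V]

/-- a 2-colouring of a small set, with value 1 at a given vertex -/
theorem exists_col_digit (G : SimpleGraph V) (m : ℕ) (C : Finset V) (hC : C.card ≤ 2 * m + 2)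
    (hg : ∀ v (p : G.Walk v v), Odd p.length → 2 * m + 1 < p.length) (v0 : V) :
    ∃ s : V → ℕ, (∀ u, s u = 1 ∨ s u = 2) ∧
      (∀ u ∈ C, ∀ w ∈ C, s u = s w → ¬ G.Adj u w) ∧ s v0 = 1 := by
  classical
  let H : SimpleGraph {v : V // v ∈ C} := G.comap Subtype.val
  have hcard : Fintype.card {v : V // v ∈ C} = C.card := by
    rw [Fintype.card_coe]
  have hev : ∀ v (p : H.Walk v v), Even p.length := by
    intro v p
    rw [← Nat.not_odd_iff_even]
    intro ho
    obtain ⟨u, q, hq1, hq2, hq3⟩ := exists_odd_cycle p.length v p rfl ho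
    have h1 := hg _ (q.map (SimpleGraph.Hom.comap Subtype.val G)) (by
      rw [Walk.length_map]; exact hq2)
    rw [Walk.length_map] at h1
    have h2 := hq1.support_nodup.length_le_card
    rw [List.length_tail, Walk.length_support, Nat.add_sub_cancel, hcard] at h2
    obtain ⟨k, hk⟩ := hq2
    omega
  have hcol : H.Colorable 2 := by
    rw [two_colorable_iff_forall_loop_even]
    exact hev
  obtain ⟨col⟩ := hcol
  let b : V → Bool := fun v => if h : v ∈ C then decide (col ⟨v, h⟩ = 0) else false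
  have hb : ∀ u ∈ C, ∀ w ∈ C, G.Adj u w → b u ≠ b w := by
    intro u hu w hw huw
    have h1 : col ⟨u, hu⟩ ≠ col ⟨w, hw⟩ := col.valid (v := ⟨u, hu⟩) (w := ⟨w, hw⟩) huw
    simp only [b]
    rw [dif_pos hu, dif_pos hw]
    intro h2
    rw [decide_eq_decide] at h2
    have h3 : ∀ x y : Fin 2, (x = 0 ↔ y = 0) → x = y := by decide
    exact h1 (h3 _ _ h2)
  refine ⟨fun u => if b u = b v0 then 1 else 2, ?_, ?_, if_pos rfl⟩
  · intro u
    simp only
    split
    · exact Or.inl rfl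
    · exact Or.inr rfl
  · intro u hu w hw huw ha
    apply hb u hu w hw ha
    simp only at huw
    by_cases h3 : b u = b v0
    · rw [if_pos h3] at huw
      by_cases h4 : b w = b v0
      · rw [h3, h4]
      · rw [if_neg h4] at huw
        omega
    · rw [if_neg h3] at huw
      by_cases h4 : b w = b v0
      · rw [if_pos h4] at huw
        omega
      · have h5 : ∀ x y z : Bool, ¬ x = z → ¬ y = z → x = y := by decide
        exact h5 _ _ _ h3 h4

end

variable {V : Type*} [Fintype V] [DecidableEq V]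

/-- the local codes with two coded classes and different special vertices `v0`, `v1` -/
structure LocNe (c0 c1 : CD) (G : Fin 4 → SimpleGraph V) (X : ℕ → V → ℕ) (v0 v1 : V)
    (wt : ℕ → ℕ → V → ℕ) (e : ℕ → V → ℕ) : Prop where
  zero : ∀ u, e 0 u = c0.d (X 0 u)
  one : ∀ u, e 1 u = c1.d (X 1 u)
  lt : ∀ i < 4, ∀ u, e i u < 3
  z0 : ∀ u, e 0 u = 0 ↔ u = v0
  z1 : ∀ u, e 1 u = 0 ↔ u = v1
  c0 : e 1 v0 = 1 ∧ e 2 v0 = 0 ∧ e 3 v0 = 0
  c1 : e 0 v1 = 1 ∧ e 2 v1 = 1 ∧ e 3 v1 = 0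
  nz : ∀ u, u ≠ v0 → u ≠ v1 → (e 2 u = 1 ∨ e 2 u = 2) ∧ (e 3 u = 1 ∨ e 3 u = 2)
  r2 : ∀ u w, e 0 u ≠ 0 → e 0 u = e 0 w → e 2 u = e 2 w → ¬ (G 2).Adj u w
  r3 : ∀ u w, e 0 u ≠ 0 → e 1 u ≠ 0 → e 0 u = e 0 w → e 1 u = e 1 w → e 3 u = e 3 w →
    ¬ (G 3).Adj u w
  inj : ∀ u w, e 0 u ≠ 0 → e 1 u ≠ 0 → e 0 u = e 0 w → e 1 u = e 1 w → e 2 u = e 2 w →
    e 3 u = e 3 w → u = w
  no : ∀ u, e 0 u = 1 → e 1 u = 1 → e 2 u = 1 → e 3 u = 1
  ow : ∀ u w, e 0 u ≠ 0 → e 1 u ≠ 0 → e 0 u = e 0 w → e 1 u = e 1 w → e 2 u = 1 → e 2 w = 1 →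
    e 3 u = 1 → wt (e 0 u) (e 1 u) u ≤ wt (e 0 u) (e 1 u) w
  of : ∀ u w, e 0 u = 2 → e 1 u = 1 → e 2 u = 1 → e 3 u = 1 → e 0 w = 2 → e 1 w = 1 →
    wt 2 1 u ≤ wt 2 1 w

theorem exists_locNe (hV : Fintype.card V = 17) {c0 c1 : CD} {m : Fin 4 → ℕ}
    {rel : List (ℕ × ℕ × ℕ)} {G : Fin 4 → SimpleGraph V} {X : ℕ → V → ℕ}
    (h : Conf [c0, c1] m rel G X) (hα : ∀ i, AlphaEight (G i)) (hm1 : 2 ≤ m 1) (hm2 : 3 ≤ m 2)
    (hm3 : 1 ≤ m 3) (hdig0 : ∀ a < c0.n, c0.d a < 3) (hdig1 : ∀ a < c1.n, c1.d a < 3)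
    (hi01 : indepD c0 1 = true) (hi02 : indepD c0 2 = true)
    (hi11 : indepD c1 1 = true) (hi12 : indepD c1 2 = true) {v0 v1 : V}
    (hv0 : ∀ u, c0.d (X 0 u) = 0 ↔ u = v0) (hv1 : ∀ u, c1.d (X 1 u) = 0 ↔ u = v1)
    (h01 : c0.d (X 0 v1) = 1) (h10 : c1.d (X 1 v0) = 1) (wt : ℕ → ℕ → V → ℕ) :
    ∃ e, LocNe c0 c1 G X v0 v1 wt e := by
  classical
  have hl0 : (0 : Fin 4).val < [c0, c1].length := by simp
  have hl1 : (1 : Fin 4).val < [c0, c1].length := by simp
  have hlt0 : ∀ u, X 0 u < c0.n := fun u => h.lt 0 (by simp) u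
  have hlt1 : ∀ u, X 1 u < c1.n := fun u => h.lt 1 (by simp) u
  have hne : v0 ≠ v1 := by
    rintro rfl
    rw [(hv0 v0).2 rfl] at h01
    omega
  have hind : ∀ p, p = 1 ∨ p = 2 → ∀ u w, c0.d (X 0 u) = p → c0.d (X 0 w) = p →
      ¬ (G 0).Adj u w := by
    intro p hp u w hu hw
    refine h.indep (i := 0) hl0 (d := p) ?_ hu hw
    rcases hp with rfl | rfl
    · exact hi01
    · exact hi02
  have hind1 : ∀ p, p = 1 ∨ p = 2 → ∀ u w, c1.d (X 1 u) = p → c1.d (X 1 w) = p →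
      ¬ (G 1).Adj u w := by
    intro p hp u w hu hw
    refine h.indep (i := 1) hl1 (d := p) ?_ hu hw
    rcases hp with rfl | rfl
    · exact hi11
    · exact hi12
  -- the sides
  have side : ∀ (c : CD) (Y : V → ℕ) (H : SimpleGraph V) (z : V), (∀ u, c.d (Y u) < 3) →
      (∀ u, c.d (Y u) = 0 ↔ u = z) → AlphaEight H →
      (∀ p, p = 1 ∨ p = 2 → ∀ u w, c.d (Y u) = p → c.d (Y w) = p → ¬ H.Adj u w) →
      ∀ p, p = 1 ∨ p = 2 → (univ.filter fun u => c.d (Y u) = p).card = 8 := by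
    intro c Y H z hlt hz hH hi
    have h1 : (univ.filter fun u => c.d (Y u) = 1).card ≤ 8 := hH _ (fun u hu w hw =>
      hi 1 (Or.inl rfl) u w (mem_filter.1 hu).2 (mem_filter.1 hw).2)
    have h2 : (univ.filter fun u => c.d (Y u) = 2).card ≤ 8 := hH _ (fun u hu w hw =>
      hi 2 (Or.inr rfl) u w (mem_filter.1 hu).2 (mem_filter.1 hw).2)
    have h3 := Finset.card_eq_sum_card_fiberwise (s := (univ : Finset V))
      (t := range 3) (f := fun u => c.d (Y u))
      (fun u _ => by simpa using hlt u)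
    have h0 : (univ.filter fun u => c.d (Y u) = 0).card = 1 := by
      rw [Finset.card_eq_one]
      refine ⟨z, ?_⟩
      ext u
      rw [mem_filter, mem_singleton, hz u]
      exact ⟨fun h => h.2, fun h => ⟨mem_univ _, h⟩⟩
    rw [Finset.card_univ, hV, Finset.sum_range_succ, Finset.sum_range_succ,
      Finset.sum_range_succ, Finset.sum_range_zero, h0] at h3
    rintro p (rfl | rfl) <;> omega
  set S : ℕ → Finset V := fun p => univ.filter fun u => c0.d (X 0 u) = p with hS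
  set T : ℕ → Finset V := fun p => univ.filter fun u => c1.d (X 1 u) = p with hT
  have hS8 : ∀ p, p = 1 ∨ p = 2 → (S p).card = 8 :=
    side c0 (X 0) (G 0) v0 (fun u => hdig0 _ (hlt0 u)) hv0 (hα 0) hind
  have hT8 : ∀ p, p = 1 ∨ p = 2 → (T p).card = 8 :=
    side c1 (X 1) (G 1) v1 (fun u => hdig1 _ (hlt1 u)) hv1 (hα 1) hind1
  have hor : ∀ u, c0.d (X 0 u) ≠ 0 → c0.d (X 0 u) = 1 ∨ c0.d (X 0 u) = 2 := by
    intro u hu
    have := hdig0 _ (hlt0 u)
    omega
  have hor1 : ∀ u, c1.d (X 1 u) ≠ 0 → c1.d (X 1 u) = 1 ∨ c1.d (X 1 u) = 2 := by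
    intro u hu
    have := hdig1 _ (hlt1 u)
    omega
  -- the cells
  set C : ℕ → ℕ → Finset V := fun p q => univ.filter fun u => c0.d (X 0 u) = p ∧
    c1.d (X 1 u) = q with hC
  have hCle : ∀ p, p = 1 ∨ p = 2 → ∀ q, q = 1 ∨ q = 2 → (C p q).card ≤ 4 := by
    intro p hp q hq
    refine pair_bound h.cover 0 1 2 3 (by decide) (by omega) hm3 _ ?_ ?_
    · intro u hu w hw
      exact hind p hp u w (mem_filter.1 hu).2.1 (mem_filter.1 hw).2.1
    · intro u hu w hw
      exact hind1 q hq u w (mem_filter.1 hu).2.2 (mem_filter.1 hw).2.2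
  have disj : ∀ p q p' q', (p ≠ p' ∨ q ≠ q') → Disjoint (C p q) (C p' q') := by
    intro p q p' q' hpq
    rw [Finset.disjoint_left]
    intro u hu hw
    have h1 := (mem_filter.1 hu).2
    have h2 := (mem_filter.1 hw).2
    rcases hpq with h3 | h3
    · exact h3 (h1.1.symm.trans h2.1)
    · exact h3 (h1.2.symm.trans h2.2)
  have hS2 : (S 2).card = (C 2 1).card + (C 2 2).card := by
    have e1 : S 2 = C 2 1 ∪ C 2 2 := by
      ext u
      simp only [hS, hC, mem_filter, mem_univ, true_and, mem_union]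
      constructor
      · intro hu
        have h1 : c1.d (X 1 u) ≠ 0 := by
          intro h2
          rw [(hv1 u).1 h2, h01] at hu
          omega
        rcases hor1 u h1 with h1 | h1
        · exact Or.inl ⟨hu, h1⟩
        · exact Or.inr ⟨hu, h1⟩
      · rintro (h1 | h1) <;> exact h1.1
    rw [e1, Finset.card_union_of_disjoint (disj _ _ _ _ (Or.inr (by norm_num)))]
  have hT2 : (T 2).card = (C 1 2).card + (C 2 2).card := by
    have e1 : T 2 = C 1 2 ∪ C 2 2 := by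
      ext u
      simp only [hT, hC, mem_filter, mem_univ, true_and, mem_union]
      constructor
      · intro hu
        have h1 : c0.d (X 0 u) ≠ 0 := by
          intro h2
          rw [(hv0 u).1 h2, h10] at hu
          omega
        rcases hor u h1 with h1 | h1
        · exact Or.inl ⟨h1, hu⟩
        · exact Or.inr ⟨h1, hu⟩
      · rintro (h1 | h1) <;> exact h1.2
    rw [e1, Finset.card_union_of_disjoint (disj _ _ _ _ (Or.inl (by norm_num)))]
  have hC12 : (C 1 2).card = 4 := by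
    have h1 := hS8 2 (Or.inr rfl)
    have h2 := hT8 2 (Or.inr rfl)
    have h3 := hCle 2 (Or.inr rfl) 1 (Or.inl rfl)
    have h4 := hCle 2 (Or.inr rfl) 2 (Or.inr rfl)
    have h5 := hCle 1 (Or.inl rfl) 2 (Or.inr rfl)
    omega
  have hpc : ∀ p q, (p = 1 ∨ p = 2) → (q = 1 ∨ q = 2) → ∀ u ∈ C p q, ∀ w ∈ C p q, u ≠ w →
      (G 2).Adj u w ∨ (G 3).Adj u w := by
    intro p q hp hq u hu w hw huw
    rw [mem_filter] at hu hw
    obtain ⟨i, hi⟩ := h.cover.cov u w huw
    have h0 := hind p hp u w hu.2.1 hw.2.1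
    have h1 := hind1 q hq u w hu.2.2 hw.2.2
    fin_cases i
    · exact absurd hi h0
    · exact absurd hi h1
    · exact Or.inl hi
    · exact Or.inr hi
  -- the vertex of the cell (2,1) that comes first
  have hC21 : (C 2 1).Nonempty := by
    rw [← Finset.card_pos]
    have h1 := hS8 2 (Or.inr rfl)
    have h4 := hCle 2 (Or.inr rfl) 2 (Or.inr rfl)
    omega
  obtain ⟨g, hg, hgmin⟩ := Finset.exists_min_image _ (fun u => wt 2 1 u) hC21
  -- class 2 on the sides
  have hsplit : ∀ p, p = 1 ∨ p = 2 → ∃ s : V → ℕ, (∀ u, s u = 1 ∨ s u = 2) ∧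
      (∀ u ∈ S p, ∀ w ∈ S p, s u = s w → ¬ (G 2).Adj u w) ∧
      ((S p).filter fun v => s v = 1).card = 4 ∧ s (if p = 1 then v1 else g) = 1 := by
    intro p hp
    obtain ⟨s, s1, s2, s3, _, s5⟩ := exists_split_digit (G 2) 3 4 (S p) (hS8 p hp)
      (by norm_num) (fun v q hq => by
        have := h.cover.girth 2 v q hq
        omega) (fun T hT hTi => pair_bound h.cover 0 2 1 3 (by decide) hm1 hm3 T
          (fun u hu w hw => hind p hp u w (mem_filter.1 (hT hu)).2 (mem_filter.1 (hT hw)).2)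
          hTi) (if p = 1 then v1 else g)
    exact ⟨s, s1, s2, s3, s5⟩
  choose! sd d1 d2 d3 d4 using hsplit
  -- parts of the cells
  have hpart : ∀ p q, (p = 1 ∨ p = 2) → (q = 1 ∨ q = 2) → ∀ x,
      ((C p q).filter fun v => sd p v = x).card ≤ 2 := by
    intro p q hp hq x
    by_contra hcon
    push Not at hcon
    obtain ⟨a, ha, b, hb, c, hc, hab, hac, hbc⟩ := Finset.two_lt_card.1 hcon
    rw [mem_filter] at ha hb hc
    have hm : ∀ u ∈ C p q, u ∈ S p := fun u hu => by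
      have := (mem_filter.1 hu).2.1
      exact mem_filter.2 ⟨mem_univ _, this⟩
    have e1 : (G 3).Adj a b := (hpc p q hp hq a ha.1 b hb.1 hab).resolve_left
      (d2 p hp a (hm a ha.1) b (hm b hb.1) (ha.2.trans hb.2.symm))
    have e2 : (G 3).Adj b c := (hpc p q hp hq b hb.1 c hc.1 hbc).resolve_left
      (d2 p hp b (hm b hb.1) c (hm c hc.1) (hb.2.trans hc.2.symm))
    have e3 : (G 3).Adj c a := ((hpc p q hp hq a ha.1 c hc.1 hac).resolve_left
      (d2 p hp a (hm a ha.1) c (hm c hc.1) (ha.2.trans hc.2.symm))).symm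
    have h4 := h.cover.girth 3 a (Walk.cons e1 (Walk.cons e2 (Walk.cons e3 Walk.nil)))
      (by simp only [Walk.length_cons, Walk.length_nil]; decide)
    simp only [Walk.length_cons, Walk.length_nil] at h4
    omega
  -- one vertex of the cell (1,1) has digit 1
  have huniq : ∀ u ∈ C 1 1, ∀ w ∈ C 1 1, sd 1 u = 1 → sd 1 w = 1 → u = w := by
    intro u hu w hw h1 h2
    by_contra huw
    have h3 : 2 ≤ ((C 1 2).filter fun v => sd 1 v = 1).card := by
      have h5 := Finset.card_filter_add_card_filter_not (s := C 1 2) (fun v => sd 1 v = 1)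
      have h6 : ((C 1 2).filter fun v => ¬ sd 1 v = 1) = (C 1 2).filter fun v => sd 1 v = 2 := by
        apply Finset.filter_congr
        intro v _
        have := d1 1 (Or.inl rfl) v
        omega
      rw [h6, hC12] at h5
      have := hpart 1 2 (Or.inl rfl) (Or.inr rfl) 2
      omega
    have hd : Disjoint ((C 1 2).filter fun v => sd 1 v = 1) {u, w, v1} := by
      rw [Finset.disjoint_left]
      intro v hv hv'
      have a1 := (mem_filter.1 (mem_filter.1 hv).1).2.2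
      simp only [mem_insert, mem_singleton] at hv'
      rcases hv' with rfl | rfl | rfl
      · have := (mem_filter.1 hu).2.2
        omega
      · have := (mem_filter.1 hw).2.2
        omega
      · rw [(hv1 v).2 rfl] at a1
        omega
    have hsub : ((C 1 2).filter fun v => sd 1 v = 1) ∪ {u, w, v1} ⊆
        (S 1).filter fun v => sd 1 v = 1 := by
      intro v hv
      rw [mem_union] at hv
      rw [mem_filter]
      rcases hv with hv | hv
      · rw [mem_filter] at hv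
        exact ⟨mem_filter.2 ⟨mem_univ _, (mem_filter.1 hv.1).2.1⟩, hv.2⟩
      · simp only [mem_insert, mem_singleton] at hv
        rcases hv with rfl | rfl | rfl
        · exact ⟨mem_filter.2 ⟨mem_univ _, (mem_filter.1 hu).2.1⟩, h1⟩
        · exact ⟨mem_filter.2 ⟨mem_univ _, (mem_filter.1 hw).2.1⟩, h2⟩
        · refine ⟨mem_filter.2 ⟨mem_univ _, h01⟩, ?_⟩
          have := d4 1 (Or.inl rfl)
          rw [if_pos rfl] at this
          exact this
    have h5 := Finset.card_le_card hsub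
    rw [Finset.card_union_of_disjoint hd, d3 1 (Or.inl rfl)] at h5
    have h6 : ({u, w, v1} : Finset V).card = 3 := by
      rw [Finset.card_eq_three]
      refine ⟨u, w, v1, huw, ?_, ?_, rfl⟩
      · rintro rfl
        have := (mem_filter.1 hu).2.2
        rw [(hv1 u).2 rfl] at this
        omega
      · rintro rfl
        have := (mem_filter.1 hw).2.2
        rw [(hv1 w).2 rfl] at this
        omega
    omega
  -- class 3 in the cells
  have hbits : ∀ p q, (p = 1 ∨ p = 2) ∧ (q = 1 ∨ q = 2) → ∃ t : V → ℕ,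
      (∀ u, t u = 1 ∨ t u = 2) ∧
      (∀ u ∈ C p q, ∀ w ∈ C p q, t u = t w → ¬ (G 3).Adj u w) ∧
      (∀ u ∈ C p q, ∀ w ∈ C p q, sd p u = sd p w → t u = t w → u = w) ∧
      (∀ u ∈ C p q, ∀ w ∈ C p q, sd p u = 1 → sd p w = 1 → t u = 1 → wt p q u ≤ wt p q w) ∧
      (∀ u ∈ C p q, sd p u = 1 → ∃ v ∈ C p q, sd p v = 1 ∧ t v = 1) := by
    rintro p q ⟨hp, hq⟩
    -- the first vertex with digit 1
    have hv0' : ∃ v0 : V, ∀ w ∈ C p q, sd p w = 1 →
        (v0 ∈ C p q ∧ sd p v0 = 1 ∧ wt p q v0 ≤ wt p q w) := by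
      by_cases hne : ((C p q).filter fun v => sd p v = 1).Nonempty
      · obtain ⟨v0, hv0, hmin⟩ := Finset.exists_min_image _ (fun u => wt p q u) hne
        refine ⟨v0, ?_⟩
        intro w hw h2
        rw [mem_filter] at hv0
        exact ⟨hv0.1, hv0.2, hmin w (mem_filter.2 ⟨hw, h2⟩)⟩
      · refine ⟨g, ?_⟩
        intro w hw h2
        exact absurd ⟨w, mem_filter.2 ⟨hw, h2⟩⟩ hne
    obtain ⟨z, hz⟩ := hv0'
    obtain ⟨t, t1, t2, t3⟩ := exists_col_digit (G 3) 1 (C p q) (hCle p hp q hq)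
      (fun v r hr => by
        have := h.cover.girth 3 v r hr
        omega) z
    have hinj : ∀ u ∈ C p q, ∀ w ∈ C p q, sd p u = sd p w → t u = t w → u = w := by
      intro u hu w hw h1 h2
      by_contra hne
      have hu' := mem_filter.1 hu
      have hw' := mem_filter.1 hw
      rcases hpc p q hp hq u hu w hw hne with h3 | h3
      · exact d2 p hp u (mem_filter.2 ⟨mem_univ _, hu'.2.1⟩) w
          (mem_filter.2 ⟨mem_univ _, hw'.2.1⟩) h1 h3
      · exact t2 u hu w hw h2 h3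
    refine ⟨t, t1, t2, hinj, ?_, ?_⟩
    · intro u hu w hw h1 h2 h3
      obtain ⟨a1, a2, a3⟩ := hz w hw h2
      have : u = z := hinj u hu z a1 (h1.trans a2.symm) (h3.trans t3.symm)
      rw [this]
      exact a3
    · intro u hu h1
      obtain ⟨a1, a2, a3⟩ := hz u hu h1
      exact ⟨z, a1, a2, t3⟩
  choose! tt b1 b2 b3 b4 b5 using hbits
  let e : ℕ → V → ℕ := fun i u =>
    match i with
    | 0 => c0.d (X 0 u)
    | 1 => c1.d (X 1 u)
    | 2 => if u = v0 then 0 else sd (c0.d (X 0 u)) u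
    | 3 => if u = v0 ∨ u = v1 then 0 else tt (c0.d (X 0 u)) (c1.d (X 1 u)) u
    | _ => 0
  have e0 : ∀ u, e 0 u = c0.d (X 0 u) := fun u => rfl
  have e1 : ∀ u, e 1 u = c1.d (X 1 u) := fun u => rfl
  have z0 : ∀ u, e 0 u = 0 ↔ u = v0 := hv0
  have z1 : ∀ u, e 1 u = 0 ↔ u = v1 := hv1
  have e2 : ∀ u, e 0 u ≠ 0 → e 2 u = sd (e 0 u) u := fun u hu =>
    if_neg (fun h => hu ((z0 u).2 h))
  have e3 : ∀ u, e 0 u ≠ 0 → e 1 u ≠ 0 → e 3 u = tt (e 0 u) (e 1 u) u := by
    intro u hu hu'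
    refine if_neg ?_
    rintro (h | h)
    · exact hu ((z0 u).2 h)
    · exact hu' ((z1 u).2 h)
  have hor2 : ∀ u, e 0 u ≠ 0 → e 2 u = 1 ∨ e 2 u = 2 := by
    intro u hu
    rw [e2 u hu]
    exact d1 _ (hor u hu) u
  have hor3 : ∀ u, e 0 u ≠ 0 → e 1 u ≠ 0 → e 3 u = 1 ∨ e 3 u = 2 := by
    intro u hu hu'
    rw [e3 u hu hu']
    exact b1 _ _ ⟨hor u hu, hor1 u hu'⟩ u
  have hmem : ∀ u, u ∈ S (e 0 u) := fun u => mem_filter.2 ⟨mem_univ _, rfl⟩
  have hmemC : ∀ u w, e 0 u = e 0 w → e 1 u = e 1 w → w ∈ C (e 0 u) (e 1 u) := by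
    intro u w h1 h2
    rw [mem_filter]
    exact ⟨mem_univ _, h1.symm, h2.symm⟩
  have v0c : e 2 v0 = 0 ∧ e 3 v0 = 0 := ⟨if_pos rfl, if_pos (Or.inl rfl)⟩
  have v1c : e 2 v1 = 1 ∧ e 3 v1 = 0 := by
    refine ⟨?_, if_pos (Or.inr rfl)⟩
    have h2 : e 0 v1 = 1 := h01
    rw [e2 v1 (by rw [h2]; norm_num), h2]
    have := d4 1 (Or.inl rfl)
    rw [if_pos rfl] at this
    exact this
  have howg : ∀ u w, e 0 u ≠ 0 → e 1 u ≠ 0 → e 0 u = e 0 w → e 1 u = e 1 w → e 2 u = 1 →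
      e 2 w = 1 → e 3 u = 1 → wt (e 0 u) (e 1 u) u ≤ wt (e 0 u) (e 1 u) w := by
    intro u w hu hu' h1 h2 h3 h4 h5
    have hw : e 0 w ≠ 0 := by rw [← h1]; exact hu
    refine b4 _ _ ⟨hor u hu, hor1 u hu'⟩ u (hmemC u u rfl rfl) w (hmemC u w h1 h2) ?_ ?_ ?_
    · rw [← e0 u, ← e2 u hu, h3]
    · rw [← e0 u, h1, ← e2 w hw, h4]
    · rw [← e0 u, ← e1 u, ← e3 u hu hu', h5]
  refine ⟨e, ⟨e0, e1, ?_, z0, z1, ⟨h10, v0c.1, v0c.2⟩, ⟨h01, v1c.1, v1c.2⟩, ?_, ?_, ?_, ?_, ?_,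
    howg, ?_⟩⟩
  · intro i hi u
    by_cases hu : u = v0
    · subst hu
      interval_cases i
      · rw [(z0 u).2 rfl]; norm_num
      · exact lt_of_eq_of_lt h10 (by norm_num)
      · rw [v0c.1]; norm_num
      · rw [v0c.2]; norm_num
    · by_cases hu' : u = v1
      · subst hu'
        interval_cases i
        · exact lt_of_eq_of_lt h01 (by norm_num)
        · rw [(z1 u).2 rfl]; norm_num
        · rw [v1c.1]; norm_num
        · rw [v1c.2]; norm_num
      · have a0 : e 0 u ≠ 0 := fun h => hu ((z0 u).1 h)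
        have a1 : e 1 u ≠ 0 := fun h => hu' ((z1 u).1 h)
        have h0 : e 0 u = 1 ∨ e 0 u = 2 := hor u a0
        have h1 : e 1 u = 1 ∨ e 1 u = 2 := hor1 u a1
        have h2 := hor2 u a0
        have h3 := hor3 u a0 a1
        interval_cases i <;> omega
  · intro u hu hu'
    have a0 : e 0 u ≠ 0 := fun h => hu ((z0 u).1 h)
    have a1 : e 1 u ≠ 0 := fun h => hu' ((z1 u).1 h)
    exact ⟨hor2 u a0, hor3 u a0 a1⟩
  · intro u w hu h1 h2
    have hw : e 0 w ≠ 0 := by rw [← h1]; exact hu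
    refine d2 _ (hor u hu) u (hmem u) w (by rw [← e0 u, h1]; exact hmem w) ?_
    rw [← e0 u, ← e2 u hu, h2, e2 w hw, h1]
  · intro u w hu hu' h1 h2 h3
    have hw : e 0 w ≠ 0 := by rw [← h1]; exact hu
    have hw' : e 1 w ≠ 0 := by rw [← h2]; exact hu'
    refine b2 _ _ ⟨hor u hu, hor1 u hu'⟩ u (hmemC u u rfl rfl) w (hmemC u w h1 h2) ?_
    rw [← e0 u, ← e1 u, ← e3 u hu hu', h3, e3 w hw hw', h1, h2]
  · intro u w hu hu' h1 h2 h3 h4
    have hw : e 0 w ≠ 0 := by rw [← h1]; exact hu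
    have hw' : e 1 w ≠ 0 := by rw [← h2]; exact hu'
    refine b3 _ _ ⟨hor u hu, hor1 u hu'⟩ u (hmemC u u rfl rfl) w (hmemC u w h1 h2) ?_ ?_
    · rw [← e0 u, ← e2 u hu, h3, e2 w hw, h1]
    · rw [← e0 u, ← e1 u, ← e3 u hu hu', h4, e3 w hw hw', h1, h2]
  · intro u h1 h2 h3
    have hu : e 0 u ≠ 0 := by omega
    have hu' : e 1 u ≠ 0 := by omega
    have hm : u ∈ C 1 1 := by
      rw [mem_filter]
      exact ⟨mem_univ _, h1, h2⟩
    have h4 : sd 1 u = 1 := by
      have h7 := e2 u hu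
      rw [h3, h1] at h7
      exact h7.symm
    obtain ⟨z, hz, hz1, hz2⟩ := b5 1 1 ⟨Or.inl rfl, Or.inl rfl⟩ u hm h4
    have : u = z := huniq u hm z hz h4 hz1
    rw [e3 u hu hu', h1, h2, this]
    exact hz2
  · intro u w h1 h2 h3 h4 h5 h6
    have hu : e 0 u ≠ 0 := by omega
    have hu' : e 1 u ≠ 0 := by omega
    have g0 : e 0 g = 2 := (mem_filter.1 hg).2.1
    have g1 : e 1 g = 1 := (mem_filter.1 hg).2.2
    have g2 : e 2 g = 1 := by
      rw [e2 g (by omega), g0]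
      have := d4 2 (Or.inr rfl)
      rw [if_neg (by norm_num)] at this
      exact this
    have h7 := howg u g hu hu' (h1.trans g0.symm) (h2.trans g1.symm) h3 g2 h4
    rw [h1, h2] at h7
    refine h7.trans (hgmin w ?_)
    rw [mem_filter]
    exact ⟨mem_univ _, h5, h6⟩

end Pool.Agent.Work.MP_92a29d_co.Place
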