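import Pool.Agent.Work.MP_92a29d_co_h36.TwoNe

/-!
Two coded classes with different special vertices: the configuration with digits.
-/

namespace Pool.Agent.Work.MP_92a29d_co.Place

open SimpleGraph Finset Pool.Agent.Work.MP_92a29d_co_h45

variable {V : Type*} [Fintype V] [DecidableEq V]

/-- the rules -/
def neR : List (Fin 4 × List ℕ) := [(2, [0, 2]), (3, [0, 1, 3])]

/-- check of the facts: code 9 is the special vertex of class 0, code 30 the one of class 1; `b` is
the label of the first one in class 1 and `ls` contains the label of the second one in class 0 -/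
def neF (b : ℕ) (ls : List ℕ) : Fact → Bool
  | .ord i c c' => (Nat.beq i 1 && ((Nat.beq c 49 && Nat.beq c' 50) ||
      (Nat.beq c 76 && Nat.beq c' 77))) || (Nat.beq i 0 && (Nat.beq c' 67 && (Nat.beq c 68 ||
      (Nat.beq c 70 || Nat.beq c 71))))
  | .lim i c l => (Nat.beq i 1 && (Nat.beq c 9 && l.any fun x => Nat.beq b x)) ||
      (Nat.beq i 0 && (Nat.beq c 30 && ls.all fun x => l.any fun y => Nat.beq x y))
  | _ => false

/-- which vertex of the cell comes first -/
def neW (N : ℕ) (X : ℕ → V → ℕ) (p q : ℕ) (u : V) : ℕ :=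
  if p = 2 ∧ q = 1 then N - X 0 u else X 1 u

/-- the codes -/
def neCodes : List ℕ := [9, 30, 40, 43, 44, 49, 50, 52, 53, 67, 68, 70, 71, 76, 77, 79, 80]

/-- the number of codes that match a pattern -/
def neCnt (pt : List (ℕ × ℕ)) : ℕ :=
  (neCodes.filter fun c => pt.all fun y => Nat.beq (Place.dig 3 4 c y.1) y.2).length

theorem LocNe.dconf {c0 c1 : CD} {m : Fin 4 → ℕ} {rel : List (ℕ × ℕ × ℕ)}
    {G : Fin 4 → SimpleGraph V} {X : ℕ → V → ℕ} {v0 v1 : V} {e : ℕ → V → ℕ}
    (h : LocNe c0 c1 G X v0 v1 (neW c0.n X) e) (hc : Conf [c0, c1] m rel G X)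
    {b : ℕ} {ls : List ℕ} (hb : X 1 v0 = b) (hl : X 0 v1 ∈ ls)
    {F : List Fact} (hF : F.all (neF b ls) = true) :
    DConf [c0, c1] m rel 3 4 neR F G X e := by
  have hcode : ∀ u c, (codeOf 3 4 fun i => e i u) = c → ∀ i < 4, Place.dig 3 4 c i = e i u := by
    rintro u c rfl i hi
    exact dig_codeOf 4 (fun i hi => h.lt i hi u) i hi
  refine ⟨hc, ?_, h.lt, ?_, ?_⟩
  · intro i hi u
    have hi' : i < 2 := hi
    interval_cases i
    · exact h.zero u
    · exact h.one u
  · intro r hr u w huw hq
    unfold neR at hr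
    simp only [List.mem_cons, List.not_mem_nil, or_false] at hr
    rcases hr with rfl | rfl
    · have q0 := hq 0 (by simp)
      have q1 := hq 2 (by simp)
      exact h.r2 u w q0.2 q0.1 q1.1
    · have q0 := hq 0 (by simp)
      have q1 := hq 1 (by simp)
      have q2 := hq 3 (by simp)
      exact h.r3 u w q0.2 q1.2 q0.1 q1.1 q2.1
  · intro f hf
    rw [List.all_eq_true] at hF
    have h1 := hF f hf
    cases f with
    | ord i c c' =>
      intro u w hu hw
      have du := hcode u c hu
      have dw := hcode w c' hw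
      have du0 := du 0 (by norm_num)
      have du1 := du 1 (by norm_num)
      have du2 := du 2 (by norm_num)
      have du3 := du 3 (by norm_num)
      have dw0 := dw 0 (by norm_num)
      have dw1 := dw 1 (by norm_num)
      have dw2 := dw 2 (by norm_num)
      have dw3 := dw 3 (by norm_num)
      unfold neF at h1
      simp only [Bool.and_eq_true, Bool.or_eq_true, Nat.beq_eq] at h1
      rcases h1 with ⟨rfl, h1⟩ | ⟨rfl, rfl, h1⟩
      · rcases h1 with ⟨rfl, rfl⟩ | ⟨rfl, rfl⟩
        · have u0 : e 0 u = 1 := by rw [← du0]; decide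
          have u1 : e 1 u = 2 := by rw [← du1]; decide
          have u2 : e 2 u = 1 := by rw [← du2]; decide
          have u3 : e 3 u = 1 := by rw [← du3]; decide
          have w0 : e 0 w = 1 := by rw [← dw0]; decide
          have w1 : e 1 w = 2 := by rw [← dw1]; decide
          have w2 : e 2 w = 1 := by rw [← dw2]; decide
          have h3 := h.ow u w (by omega) (by omega) (u0.trans w0.symm) (u1.trans w1.symm) u2 w2 u3
          rw [u0, u1] at h3
          exact h3
        · have u0 : e 0 u = 2 := by rw [← du0]; decide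
          have u1 : e 1 u = 2 := by rw [← du1]; decide
          have u2 : e 2 u = 1 := by rw [← du2]; decide
          have u3 : e 3 u = 1 := by rw [← du3]; decide
          have w0 : e 0 w = 2 := by rw [← dw0]; decide
          have w1 : e 1 w = 2 := by rw [← dw1]; decide
          have w2 : e 2 w = 1 := by rw [← dw2]; decide
          have h3 := h.ow u w (by omega) (by omega) (u0.trans w0.symm) (u1.trans w1.symm) u2 w2 u3
          rw [u0, u1] at h3
          exact h3
      · have w0 : e 0 w = 2 := by rw [← dw0]; decide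
        have w1 : e 1 w = 1 := by rw [← dw1]; decide
        have w2 : e 2 w = 1 := by rw [← dw2]; decide
        have w3 : e 3 w = 1 := by rw [← dw3]; decide
        have u0 : e 0 u = 2 := by
          rw [← du0]; rcases h1 with rfl | rfl | rfl <;> decide
        have u1 : e 1 u = 1 := by
          rw [← du1]; rcases h1 with rfl | rfl | rfl <;> decide
        have h3 := h.of w u w0 w1 w2 w3 u0 u1
        have h4 : ∀ v : V, neW c0.n X 2 1 v = c0.n - X 0 v := by
          intro v
          unfold neW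
          rw [if_pos ⟨rfl, rfl⟩]
        rw [h4, h4] at h3
        have h5 := hc.lt 0 (by simp) u
        have h6 := hc.lt 0 (by simp) w
        have h7 : (cdAt [c0, c1] 0).n = c0.n := rfl
        omega
    | edge j c c' => exact absurd h1 (by unfold neF; exact Bool.false_ne_true)
    | lim i c l =>
      intro u hu
      have du := hcode u c hu
      have du0 := du 0 (by norm_num)
      have du1 := du 1 (by norm_num)
      unfold neF at h1
      simp only [Bool.and_eq_true, Bool.or_eq_true, Nat.beq_eq, List.any_eq_true,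
        List.all_eq_true] at h1
      rcases h1 with ⟨rfl, rfl, x, hx, rfl⟩ | ⟨rfl, rfl, h2⟩
      · have u0 : e 0 u = 0 := by rw [← du0]; decide
        rw [(h.z0 u).1 u0, hb]
        exact hx
      · have u1 : e 1 u = 0 := by rw [← du1]; decide
        rw [(h.z1 u).1 u1]
        obtain ⟨y, hy, h3⟩ := h2 _ hl
        rw [h3]
        exact hy

theorem LocNe.pats (hV : Fintype.card V = 17) {c0 c1 : CD} {G : Fin 4 → SimpleGraph V}
    {X : ℕ → V → ℕ} {v0 v1 : V} {wt : ℕ → ℕ → V → ℕ} {e : ℕ → V → ℕ}
    (h : LocNe c0 c1 G X v0 v1 wt e) (pt : List (ℕ × ℕ)) (hpt : ∀ y ∈ pt, y.1 < 4) :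
    (univ.filter fun u => ∀ y ∈ pt, e y.1 u = y.2).card = neCnt pt := by
  classical
  have hcode' : ∀ u p q b t, e 0 u = p → e 1 u = q → e 2 u = b → e 3 u = t →
      (codeOf 3 4 fun i => e i u) = ((p * 3 + q) * 3 + b) * 3 + t := by
    rintro u p q b t rfl rfl rfl rfl
    simp only [codeOf]
    ring
  have hdig : ∀ u i, i < 4 → Place.dig 3 4 (codeOf 3 4 fun i => e i u) i = e i u := by
    intro u i hi
    exact dig_codeOf 4 (fun i hi => h.lt i hi u) i hi
  -- the codes are in the list
  have hmem : ∀ u, (codeOf 3 4 fun i => e i u) ∈ neCodes := by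
    intro u
    by_cases hu : u = v0
    · rw [hu, hcode' v0 0 1 0 0 ((h.z0 v0).2 rfl) h.c0.1 h.c0.2.1 h.c0.2.2]
      decide
    · by_cases hu' : u = v1
      · rw [hu', hcode' v1 1 0 1 0 h.c1.1 ((h.z1 v1).2 rfl) h.c1.2.1 h.c1.2.2]
        decide
      · have a0 : e 0 u ≠ 0 := fun h0 => hu ((h.z0 u).1 h0)
        have a1 : e 1 u ≠ 0 := fun h0 => hu' ((h.z1 u).1 h0)
        have h0 := h.lt 0 (by norm_num) u
        have h1 := h.lt 1 (by norm_num) u
        obtain ⟨h2, h3⟩ := h.nz u hu hu'
        have h4 := h.no u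
        have key : ∀ p q b t : ℕ, (p = 1 ∨ p = 2) → (q = 1 ∨ q = 2) → (b = 1 ∨ b = 2) →
            (t = 1 ∨ t = 2) → (p = 1 → q = 1 → b = 1 → t = 1) →
            ((p * 3 + q) * 3 + b) * 3 + t ∈ neCodes := by
          rintro p q b t (rfl | rfl) (rfl | rfl) (rfl | rfl) (rfl | rfl) hh <;>
          first
            | decide
            | (exact absurd (hh rfl rfl rfl) (by norm_num))
        rw [hcode' u _ _ _ _ rfl rfl rfl rfl]
        exact key _ _ _ _ (by omega) (by omega) h2 h3 h4
  have hinj : Function.Injective fun u => codeOf 3 4 fun i => e i u := by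
    intro u w huw
    have hd : ∀ i < 4, e i u = e i w := by
      intro i hi
      rw [← hdig u i hi, ← hdig w i hi]
      simp only at huw
      rw [huw]
    by_cases a0 : e 0 u = 0
    · have b0 : e 0 w = 0 := by rw [← hd 0 (by norm_num)]; exact a0
      rw [(h.z0 u).1 a0, (h.z0 w).1 b0]
    · by_cases a1 : e 1 u = 0
      · have b1 : e 1 w = 0 := by rw [← hd 1 (by norm_num)]; exact a1
        rw [(h.z1 u).1 a1, (h.z1 w).1 b1]
      · exact h.inj u w a0 a1 (hd 0 (by norm_num)) (hd 1 (by norm_num)) (hd 2 (by norm_num))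
          (hd 3 (by norm_num))
  have hsurj : univ.image (fun u : V => codeOf 3 4 fun i => e i u) = neCodes.toFinset := by
    apply Finset.eq_of_subset_of_card_le
    · intro c hc
      rw [Finset.mem_image] at hc
      obtain ⟨u, _, rfl⟩ := hc
      rw [List.mem_toFinset]
      exact hmem u
    · rw [Finset.card_image_of_injective _ hinj, Finset.card_univ, hV]
      decide
  have e1 : (univ.filter fun u => ∀ y ∈ pt, e y.1 u = y.2).image
      (fun u : V => codeOf 3 4 fun i => e i u) =
      (neCodes.filter fun c => pt.all fun y => Nat.beq (Place.dig 3 4 c y.1) y.2).toFinset := by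
    ext c
    rw [Finset.mem_image, List.mem_toFinset, List.mem_filter, List.all_eq_true]
    constructor
    · rintro ⟨u, hu, rfl⟩
      refine ⟨hmem u, ?_⟩
      intro y hy
      rw [Nat.beq_eq, hdig u _ (hpt y hy)]
      exact (mem_filter.1 hu).2 y hy
    · rintro ⟨hc, hq⟩
      have hc' : c ∈ univ.image (fun u : V => codeOf 3 4 fun i => e i u) := by
        rw [hsurj, List.mem_toFinset]
        exact hc
      obtain ⟨u, _, hu⟩ := Finset.mem_image.1 hc'
      refine ⟨u, mem_filter.2 ⟨mem_univ _, ?_⟩, hu⟩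
      intro y hy
      have h1 := hq y hy
      rw [Nat.beq_eq] at h1
      rw [← h1, ← hu]
      exact (hdig u _ (hpt y hy)).symm
  rw [← Finset.card_image_of_injective _ hinj, e1, List.toFinset_card_of_nodup]
  · rfl
  · exact List.Nodup.filter _ (by decide)

/-- all checks for a family with two coded classes and different special vertices -/
def famNe (T : Spec2) (c0 c1 : CD) (m : Fin 4 → ℕ) (b : ℕ) (ls : List ℕ)
    (F : List Fact) (inst : List (List InstX)) : Bool :=
  famD T [c0, c1] m [] 3 4 neR F inst &&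
  (T.pats.all (fun x => (x.1.all fun y => Nat.blt y.1 4) && (Nat.ble x.2.1 (neCnt x.1) &&
    Nat.ble (neCnt x.1) x.2.2)) &&
  (F.all (neF b ls) && (Nat.ble 2 (m 1) && (Nat.ble 3 (m 2) && (Nat.ble 1 (m 3) &&
  (allLt c0.n (fun a => Nat.blt (c0.d a) 3) && (allLt c1.n (fun a => Nat.blt (c1.d a) 3) &&
  (indepD c0 1 && (indepD c0 2 && (indepD c1 1 && indepD c1 2))))))))))

/-- **Two coded classes, different special vertices** -/
theorem Conf.exists_instNe {T : Spec2} {c0 c1 : CD} {m : Fin 4 → ℕ}
    {b : ℕ} {ls : List ℕ} {F : List Fact} {inst : List (List InstX)}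
    (hF : famNe T c0 c1 m b ls F inst = true)
    (hV : Fintype.card V = 17) {G : Fin 4 → SimpleGraph V} {X : ℕ → V → ℕ}
    (h : Conf [c0, c1] m [] G X) (hα : ∀ i, AlphaEight (G i)) {v0 v1 : V}
    (hv0 : ∀ u, c0.d (X 0 u) = 0 ↔ u = v0) (hv1 : ∀ u, c1.d (X 1 u) = 0 ↔ u = v1)
    (h01 : c0.d (X 0 v1) = 1) (h10 : c1.d (X 1 v0) = 1) (hb : X 1 v0 = b) (hl : X 0 v1 ∈ ls) :
    ∃ Is ∈ inst, ∃ J ∈ Is, ∃ M, IsModelX J M := by
  unfold famNe at hF
  simp only [Bool.and_eq_true, Nat.ble_eq, allLt_iff, Nat.blt_eq] at hF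
  obtain ⟨hF, hpats, hfact, hm1, hm2, hm3, hd0, hd1, hi1, hi2, hi3, hi4⟩ := hF
  obtain ⟨e, he⟩ := exists_locNe hV h hα hm1 hm2 hm3 hd0 hd1 hi1 hi2 hi3 hi4 hv0 hv1 h01 h10
    (neW c0.n X)
  rw [List.all_eq_true] at hpats
  refine DConf.exists_inst hF hV (he.dconf h hb hl hfact) ?_
  intro y hy
  have h1 := hpats y hy
  rw [Bool.and_eq_true, Bool.and_eq_true, List.all_eq_true, Nat.ble_eq, Nat.ble_eq] at h1
  rw [he.pats hV y.1 (fun z hz => by
    have := h1.1 z hz
    rwa [Nat.blt_eq] at this)]
  exact h1.2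

end Pool.Agent.Work.MP_92a29d_co.Place
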